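import Pool.Agent.Lib.MP_1d0474_co.BreakerPart0
import Pool.Agent.Lib.MP_1d0474_co.BreakerPart1
import Pool.Agent.Lib.MP_1d0474_co.BreakerPart2
import Pool.Agent.Lib.MP_1d0474_co.BreakerPart3

/-!
# The Breaker wins the complete-graph game for four vertices on nine vertices
-/

set_option autoImplicit false

namespace Pool.Agent.K4G

open BData

theorem all_ok : ∀ i < 3953, ∃ r, okRec db i r = true := by
  intro i hi
  rcases Nat.lt_or_ge i 250 with h0 | h0
  · exact okList_sound recs0 0 ok0 i (Nat.zero_le _) (by rw [len0]; exact h0)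
  rcases Nat.lt_or_ge i 500 with h1 | h1
  · exact okList_sound recs1 250 ok1 i h0 (by rw [len1]; exact h1)
  rcases Nat.lt_or_ge i 750 with h2 | h2
  · exact okList_sound recs2 500 ok2 i h1 (by rw [len2]; exact h2)
  rcases Nat.lt_or_ge i 1000 with h3 | h3
  · exact okList_sound recs3 750 ok3 i h2 (by rw [len3]; exact h3)
  rcases Nat.lt_or_ge i 1250 with h4 | h4
  · exact okList_sound recs4 1000 ok4 i h3 (by rw [len4]; exact h4)
  rcases Nat.lt_or_ge i 1500 with h5 | h5
  · exact okList_sound recs5 1250 ok5 i h4 (by rw [len5]; exact h5)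
  rcases Nat.lt_or_ge i 1750 with h6 | h6
  · exact okList_sound recs6 1500 ok6 i h5 (by rw [len6]; exact h6)
  rcases Nat.lt_or_ge i 2000 with h7 | h7
  · exact okList_sound recs7 1750 ok7 i h6 (by rw [len7]; exact h7)
  rcases Nat.lt_or_ge i 2250 with h8 | h8
  · exact okList_sound recs8 2000 ok8 i h7 (by rw [len8]; exact h8)
  rcases Nat.lt_or_ge i 2500 with h9 | h9
  · exact okList_sound recs9 2250 ok9 i h8 (by rw [len9]; exact h9)
  rcases Nat.lt_or_ge i 2750 with h10 | h10
  · exact okList_sound recs10 2500 ok10 i h9 (by rw [len10]; exact h10)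
  rcases Nat.lt_or_ge i 3000 with h11 | h11
  · exact okList_sound recs11 2750 ok11 i h10 (by rw [len11]; exact h11)
  rcases Nat.lt_or_ge i 3250 with h12 | h12
  · exact okList_sound recs12 3000 ok12 i h11 (by rw [len12]; exact h12)
  rcases Nat.lt_or_ge i 3500 with h13 | h13
  · exact okList_sound recs13 3250 ok13 i h12 (by rw [len13]; exact h13)
  rcases Nat.lt_or_ge i 3750 with h14 | h14
  · exact okList_sound recs14 3500 ok14 i h13 (by rw [len14]; exact h14)
  exact okList_sound recs15 3750 ok15 i h14 (by rw [len15]; exact hi)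

theorem root_lower : Nat.mod (db.get (nat_lit 3952)) (nat_lit 18446744073709551616) = 0 := by
  decide +kernel

theorem card_edges_nine : (edges 9).card % 2 = 0 := by decide +kernel

/-- Moving second on the complete graph with nine vertices, the Breaker prevents the Maker from
owning all edges of a complete graph on four vertices. -/
theorem bw9 : BW (∅ : Finset (Sym2 (Fin 9))) (edges 9) := by
  refine good_of_ok all_ok 3952 (by norm_num) ∅ (edges 9) card_edges_nine ?_ ?_
  · rintro e ⟨he, hb⟩
    rw [← testBit_mod64 _ _ (pos_lt he)] at hb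
    have h := root_lower
    rw [mod_eq] at h
    rw [h] at hb
    simp at hb
  · intro e _
    simp

end Pool.Agent.K4G
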