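import Pool.Agent.Lib.MP_1d0474_co.BreakerTree

/-!
# Justifications of the rules of the Breaker, part 0
-/

set_option autoImplicit false

namespace Pool.Agent.K4G.BData

/-- Rules 0 to 249. -/
def recs0 : List Rec := [
  .leaf [nat_lit 33635, nat_lit 25667, nat_lit 33856, nat_lit 33346, nat_lit 34149, nat_lit 21584, nat_lit 25170, nat_lit 34677, nat_lit 29810, nat_lit 29009],
  .leaf [nat_lit 34422, nat_lit 33635, nat_lit 30032, nat_lit 34149, nat_lit 29266],
  .leaf [nat_lit 34132, nat_lit 34676, nat_lit 33603],
  .leaf [nat_lit 34403, nat_lit 34149, nat_lit 34678],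
  .inner [nat_lit 186, nat_lit 2542340360800982532266, nat_lit 234, nat_lit 2526484525237137309930, nat_lit 2542625425339560493290],
  .leaf [nat_lit 33603, nat_lit 34403, nat_lit 34128, nat_lit 30053, nat_lit 29780, nat_lit 29009, nat_lit 33362],
  .leaf [nat_lit 33859, nat_lit 34676, nat_lit 34422, nat_lit 33635, nat_lit 29266, nat_lit 21634, nat_lit 25954],
  .leaf [nat_lit 34403, nat_lit 34678, nat_lit 30032, nat_lit 34149, nat_lit 29266],
  .inner [nat_lit 2542340360800982532218, nat_lit 300, nat_lit 383, nat_lit 2542340360800982532479, nat_lit 399, nat_lit 490],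
  .leaf [nat_lit 29009, nat_lit 30309, nat_lit 34693, nat_lit 29250, nat_lit 21586, nat_lit 17202],
  .leaf [nat_lit 25664, nat_lit 33908, nat_lit 33603, nat_lit 34132, nat_lit 25154],
  .leaf [nat_lit 33856, nat_lit 25699, nat_lit 25940, nat_lit 30324, nat_lit 33346],
  .inner [nat_lit 624347351496435695916, nat_lit 584, nat_lit 2526491560393568158280, nat_lit 2526491560393568158380, nat_lit 748],
  .leaf [nat_lit 34435, nat_lit 34678, nat_lit 30032, nat_lit 34149, nat_lit 29780, nat_lit 29266, nat_lit 25154, nat_lit 33922],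
  .leaf [nat_lit 30032, nat_lit 25664, nat_lit 33603, nat_lit 34676, nat_lit 25940, nat_lit 34180, nat_lit 29266, nat_lit 25154],
  .leaf [nat_lit 33635, nat_lit 34422, nat_lit 33859, nat_lit 25664, nat_lit 34676, nat_lit 25940, nat_lit 25154, nat_lit 29266, nat_lit 34178],
  .leaf [nat_lit 30308, nat_lit 33856, nat_lit 25411, nat_lit 30032, nat_lit 25940, nat_lit 34693, nat_lit 33346, nat_lit 29266],
  .leaf [nat_lit 30032, nat_lit 25664, nat_lit 33603, nat_lit 30324, nat_lit 34692, nat_lit 34132, nat_lit 29266, nat_lit 25154],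
  .leaf [nat_lit 33856, nat_lit 30308, nat_lit 25411, nat_lit 25936, nat_lit 30068, nat_lit 29009, nat_lit 34693, nat_lit 25170, nat_lit 33346],
  .leaf [nat_lit 30032, nat_lit 34178, nat_lit 21568, nat_lit 34676, nat_lit 30308, nat_lit 25411, nat_lit 29250, nat_lit 25954, nat_lit 33923, nat_lit 29009],
  .inner [nat_lit 53, nat_lit 544, nat_lit 826, nat_lit 840, nat_lit 1804938901845102822216, nat_lit 954, nat_lit 1804938901845102822330, nat_lit 975, nat_lit 1082, nat_lit 1146, nat_lit 1804938901845102822522, nat_lit 1210, nat_lit 1274],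
  .leaf [nat_lit 30324, nat_lit 25411, nat_lit 30032, nat_lit 25940, nat_lit 29266, nat_lit 34693, nat_lit 33346, nat_lit 34402, nat_lit 33057],
  .leaf [nat_lit 29796, nat_lit 30032, nat_lit 25411, nat_lit 25940, nat_lit 34693, nat_lit 29266, nat_lit 33858, nat_lit 33378, nat_lit 33057],
  .leaf [nat_lit 33057, nat_lit 29009, nat_lit 30053, nat_lit 34674, nat_lit 34402, nat_lit 34180, nat_lit 30308, nat_lit 25411, nat_lit 20544, nat_lit 33586, nat_lit 21058],
  .inner [nat_lit 1315, nat_lit 2536699905526802154850, nat_lit 175516664126339286370, nat_lit 175768804132820878690, nat_lit 181157119400519664994, nat_lit 181445279407927199074, nat_lit 1442, nat_lit 2536699905526802154914, nat_lit 2542340360800982533538, nat_lit 1506],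
  .leaf [nat_lit 33137, nat_lit 29234, nat_lit 33908, nat_lit 34422, nat_lit 25667, nat_lit 25154, nat_lit 25940, nat_lit 30034],
  .leaf [nat_lit 33057, nat_lit 34673, nat_lit 34422, nat_lit 33859, nat_lit 25699, nat_lit 33378, nat_lit 25940, nat_lit 21058, nat_lit 30068],
  .inner [nat_lit 2168107178890928063302, nat_lit 2518509747898489504895, nat_lit 2149664938416845882495, nat_lit 2526195800590780466566, nat_lit 2157549079129365677382, nat_lit 1810131019783448298822, nat_lit 2536951988372571685702, nat_lit 2536951988372571685951, nat_lit 2518509747898489504831, nat_lit 1636, nat_lit 1695],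
  .leaf [nat_lit 28961, nat_lit 25667, nat_lit 29762, nat_lit 34436, nat_lit 25940, nat_lit 34178, nat_lit 32848, nat_lit 34677, nat_lit 30306],
  .leaf [nat_lit 29297, nat_lit 25411, nat_lit 29762, nat_lit 30306, nat_lit 34404, nat_lit 25940, nat_lit 34693, nat_lit 32848, nat_lit 33362],
  .inner [nat_lit 2179458246857233270182, nat_lit 2157269926286853146022, nat_lit 1804593083179549853094, nat_lit 186921726918185190822, nat_lit 186921726918185190758, nat_lit 1804935273188346299814, nat_lit 1804593083179549853030, nat_lit 1762, nat_lit 1830, nat_lit 1140393159223614113574, nat_lit 1894],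
  .leaf [nat_lit 17216, nat_lit 29811, nat_lit 33394, nat_lit 16946, nat_lit 28961, nat_lit 30306, nat_lit 30036, nat_lit 34130, nat_lit 25956, nat_lit 32848],
  .leaf [nat_lit 34403, nat_lit 17216, nat_lit 33892, nat_lit 16946, nat_lit 29811, nat_lit 34132, nat_lit 25936, nat_lit 30325, nat_lit 25170],
  .leaf [nat_lit 25411, nat_lit 34432, nat_lit 30323, nat_lit 33378, nat_lit 29234, nat_lit 30034, nat_lit 34149, nat_lit 25684, nat_lit 29762],
  .leaf [nat_lit 17202, nat_lit 33908, nat_lit 32832, nat_lit 25699, nat_lit 30306, nat_lit 25940, nat_lit 29554, nat_lit 30034, nat_lit 34178],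
  .leaf [nat_lit 25684, nat_lit 25411, nat_lit 32832, nat_lit 33908, nat_lit 33346, nat_lit 30306, nat_lit 29490, nat_lit 30034],
  .inner [nat_lit 624010425743204943708, nat_lit 1146533157408825410956, nat_lit 624172515747371681628, nat_lit 2167637256348606924636, nat_lit 630024323352474158476, nat_lit 2157260962816808978268, nat_lit 2536953958896050111900, nat_lit 1804935242409487369628, nat_lit 2042, nat_lit 2079, nat_lit 2154, nat_lit 2234, nat_lit 2298],
  .leaf [nat_lit 28961, nat_lit 34130, nat_lit 33105, nat_lit 34405, nat_lit 30322, nat_lit 33908, nat_lit 30036, nat_lit 25664, nat_lit 25154, nat_lit 32848, nat_lit 29507],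
  .leaf [nat_lit 25411, nat_lit 34436, nat_lit 34165, nat_lit 32848, nat_lit 25940, nat_lit 33362, nat_lit 29250, nat_lit 30306, nat_lit 28961],
  .leaf [nat_lit 33664, nat_lit 33137, nat_lit 34128, nat_lit 34436, nat_lit 29539, nat_lit 29763, nat_lit 25664, nat_lit 30036, nat_lit 30309, nat_lit 25154, nat_lit 29217],
  .inner [nat_lit 1140393159223614113638, nat_lit 2518020944827020216166, nat_lit 2167763357130706650982, nat_lit 2149316613074176968550, nat_lit 1109552438635627808550, nat_lit 165308318718228432678, nat_lit 2168107236051640124838, nat_lit 624343652488114865574, nat_lit 2536951988372571686310, nat_lit 2339, nat_lit 2406, nat_lit 2179454587421617817958, nat_lit 2470, nat_lit 2532],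
  .leaf [nat_lit 25411, nat_lit 34675, nat_lit 34422, nat_lit 25138, nat_lit 33409, nat_lit 33858, nat_lit 29810, nat_lit 28961, nat_lit 34165],
  .inner [nat_lit 2536467688883549898980, nat_lit 2168106053945576917247, nat_lit 2179458246857233271201, nat_lit 181445279407927200134, nat_lit 175857812732201142500, nat_lit 157411068675671460068, nat_lit 186921726918185191814, nat_lit 2536951988372571685836, nat_lit 2518509747898489504732, nat_lit 2663, nat_lit 2542340360800982534743],
  .leaf [nat_lit 25411, nat_lit 33586, nat_lit 34678, nat_lit 33137, nat_lit 29554, nat_lit 33908, nat_lit 25154, nat_lit 30034, nat_lit 25940, nat_lit 34178],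
  .leaf [nat_lit 17216, nat_lit 25940, nat_lit 30324, nat_lit 25138, nat_lit 30034, nat_lit 29554, nat_lit 33665, nat_lit 34692, nat_lit 33346, nat_lit 28961, nat_lit 34129, nat_lit 32848],
  .leaf [nat_lit 33665, nat_lit 32832, nat_lit 25940, nat_lit 34437, nat_lit 20816, nat_lit 30065, nat_lit 33313, nat_lit 33858, nat_lit 34676, nat_lit 29266, nat_lit 30306, nat_lit 29490],
  .leaf [nat_lit 20544, nat_lit 25411, nat_lit 34436, nat_lit 34176, nat_lit 33362, nat_lit 25154, nat_lit 30325, nat_lit 34674, nat_lit 29780, nat_lit 29490, nat_lit 29009],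
  .leaf [nat_lit 25411, nat_lit 30306, nat_lit 34436, nat_lit 34677, nat_lit 29762, nat_lit 25940, nat_lit 33362, nat_lit 32848, nat_lit 28961],
  .leaf [nat_lit 33664, nat_lit 34436, nat_lit 20544, nat_lit 25411, nat_lit 33330, nat_lit 34675, nat_lit 30306, nat_lit 28961, nat_lit 29810, nat_lit 34165, nat_lit 33105, nat_lit 21058],
  .inner [nat_lit 2542340360800982534566, nat_lit 175324438611026511665, nat_lit 2511211480205588695462, nat_lit 2168105547139503097638, nat_lit 2722, nat_lit 2786, nat_lit 2511211480205588695778, nat_lit 2874, nat_lit 2908, nat_lit 2982, nat_lit 3046, nat_lit 3111],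
  .leaf [nat_lit 33152, nat_lit 34673, nat_lit 33330, nat_lit 33859, nat_lit 25699, nat_lit 29554, nat_lit 29762, nat_lit 30036, nat_lit 34130, nat_lit 25954, nat_lit 20769, nat_lit 20544],
  .leaf [nat_lit 29490, nat_lit 29796, nat_lit 25411, nat_lit 34436, nat_lit 34690, nat_lit 34165, nat_lit 25170, nat_lit 21570, nat_lit 20769, nat_lit 32848, nat_lit 25920],
  .leaf [nat_lit 33665, nat_lit 34129, nat_lit 30034, nat_lit 29490, nat_lit 25411, nat_lit 33856, nat_lit 33346, nat_lit 34676, nat_lit 25714, nat_lit 25940, nat_lit 28961],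
  .leaf [nat_lit 33665, nat_lit 34403, nat_lit 32848, nat_lit 33859, nat_lit 29554, nat_lit 34690, nat_lit 34130, nat_lit 30053, nat_lit 29009, nat_lit 29780],
  .inner [nat_lit 1810125170445949601649, nat_lit 2167763357130706651558, nat_lit 175522596994446264166, nat_lit 1788219661890628880230, nat_lit 2168105547139503098278, nat_lit 2536951988372571686310, nat_lit 2179458246857233271522, nat_lit 2149658803082973415782, nat_lit 3258, nat_lit 3302, nat_lit 3424],
  .leaf [nat_lit 33152, nat_lit 17216, nat_lit 34673, nat_lit 33330, nat_lit 29554, nat_lit 33908, nat_lit 30308, nat_lit 25154, nat_lit 34132, nat_lit 30034, nat_lit 25936, nat_lit 20769],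
  .inner [nat_lit 157075852937916581734, nat_lit 1116073743249651795814, nat_lit 2518020944827020217695, nat_lit 2518020944827020216166, nat_lit 1830, nat_lit 187213827285357430566, nat_lit 2168107236051640124838, nat_lit 2167765046042843678118, nat_lit 2874, nat_lit 3578],
  .leaf [nat_lit 25940, nat_lit 30034, nat_lit 34402, nat_lit 29250, nat_lit 29490, nat_lit 25411, nat_lit 33922, nat_lit 33057],
  .inner [nat_lit 2518023477885989291044, nat_lit 2536951988360763409535, nat_lit 181445279407927200134, nat_lit 2518258953635250833222, nat_lit 181157119400519667040, nat_lit 157416697191661831204, nat_lit 2149325479535943354758, nat_lit 593221025944858265414, nat_lit 623773467807172266401, nat_lit 3711],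
  .inner [nat_lit 2470, nat_lit 2518507214839520431455, nat_lit 629538053328165668721, nat_lit 2149316613074176969126, nat_lit 607632544772844947302, nat_lit 2149658803082973415846, nat_lit 157075852937916581734, nat_lit 2518509747898489505190, nat_lit 630021790293505084131, nat_lit 2542340360800982535520, nat_lit 3746],
  .leaf [nat_lit 34675, nat_lit 28961, nat_lit 33330, nat_lit 29810, nat_lit 30306, nat_lit 34165, nat_lit 25938, nat_lit 33105, nat_lit 33858],
  .inner [nat_lit 2149664938416845882182, nat_lit 175523982379097261921, nat_lit 2179170086849825736287, nat_lit 2518023477885989291108, nat_lit 2518023477885989291044, nat_lit 2142562818999554411228, nat_lit 2518023477885989290916, nat_lit 157416697203470107556, nat_lit 2142561663275344333404, nat_lit 3872],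
  .inner [nat_lit 175522596994446264166, nat_lit 1116073743249651795814, nat_lit 2167763357130706650982, nat_lit 2542340360800982533926, nat_lit 2518020944827020216166, nat_lit 187213827285357430566, nat_lit 2168107236051640124838, nat_lit 2167765046042843678118, nat_lit 2518509747898489505190, nat_lit 2518023477885989291430, nat_lit 2908, nat_lit 3938],
  .leaf [nat_lit 29009, nat_lit 25936, nat_lit 33152, nat_lit 34403, nat_lit 25664, nat_lit 29780, nat_lit 34180, nat_lit 33603, nat_lit 25154, nat_lit 33362, nat_lit 12833, nat_lit 30322],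
  .leaf [nat_lit 29552, nat_lit 29009, nat_lit 30309, nat_lit 29234, nat_lit 25664, nat_lit 25411, nat_lit 25154, nat_lit 34128, nat_lit 29780, nat_lit 34436, nat_lit 33362],
  .leaf [nat_lit 29552, nat_lit 29009, nat_lit 29234, nat_lit 30309, nat_lit 33057, nat_lit 29796, nat_lit 20544, nat_lit 25411, nat_lit 21586, nat_lit 34437, nat_lit 33378, nat_lit 33858],
  .leaf [nat_lit 25411, nat_lit 33664, nat_lit 34436, nat_lit 34128, nat_lit 25920, nat_lit 30324, nat_lit 25170, nat_lit 33330, nat_lit 21570, nat_lit 29554, nat_lit 20769],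
  .leaf [nat_lit 33664, nat_lit 34436, nat_lit 25411, nat_lit 33330, nat_lit 34128, nat_lit 25684, nat_lit 21058, nat_lit 25954, nat_lit 29554, nat_lit 30324, nat_lit 20769],
  .leaf [nat_lit 33664, nat_lit 33105, nat_lit 34149, nat_lit 21568, nat_lit 30308, nat_lit 25411, nat_lit 34436, nat_lit 21058, nat_lit 29282, nat_lit 33330, nat_lit 29811, nat_lit 28961],
  .leaf [nat_lit 33664, nat_lit 25667, nat_lit 34436, nat_lit 33330, nat_lit 34128, nat_lit 21568, nat_lit 21058, nat_lit 25954, nat_lit 30324, nat_lit 29554, nat_lit 20769],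
  .leaf [nat_lit 33664, nat_lit 34128, nat_lit 33330, nat_lit 25954, nat_lit 29554, nat_lit 21568, nat_lit 29796, nat_lit 21058, nat_lit 34436, nat_lit 25411, nat_lit 20769],
  .leaf [nat_lit 29552, nat_lit 33664, nat_lit 33330, nat_lit 28961, nat_lit 34436, nat_lit 34130, nat_lit 29282, nat_lit 29762, nat_lit 25684, nat_lit 25411, nat_lit 30272],
  .leaf [nat_lit 33664, nat_lit 25699, nat_lit 34436, nat_lit 33330, nat_lit 34128, nat_lit 21058, nat_lit 25954, nat_lit 21568, nat_lit 30324, nat_lit 29554, nat_lit 20769],
  .leaf [nat_lit 33664, nat_lit 34128, nat_lit 34436, nat_lit 21570, nat_lit 25920, nat_lit 30308, nat_lit 25411, nat_lit 33330, nat_lit 29554, nat_lit 25170, nat_lit 20769],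
  .leaf [nat_lit 29552, nat_lit 29009, nat_lit 29234, nat_lit 30309, nat_lit 29796, nat_lit 20544, nat_lit 25411, nat_lit 33378, nat_lit 33057, nat_lit 33602, nat_lit 21586, nat_lit 34180],
  .leaf [nat_lit 29552, nat_lit 33664, nat_lit 34436, nat_lit 33330, nat_lit 34130, nat_lit 28961, nat_lit 29250, nat_lit 25956, nat_lit 30306, nat_lit 29760, nat_lit 25411],
  .leaf [nat_lit 33664, nat_lit 34128, nat_lit 21570, nat_lit 25664, nat_lit 30324, nat_lit 25938, nat_lit 34436, nat_lit 28961, nat_lit 17202, nat_lit 33409, nat_lit 25442],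
  .leaf [nat_lit 29552, nat_lit 33664, nat_lit 30309, nat_lit 34128, nat_lit 29009, nat_lit 29780, nat_lit 29234, nat_lit 34434, nat_lit 33057, nat_lit 33858],
  .leaf [nat_lit 29552, nat_lit 29009, nat_lit 33664, nat_lit 29234, nat_lit 34128, nat_lit 30309, nat_lit 33057, nat_lit 33346, nat_lit 34402, nat_lit 29780],
  .leaf [nat_lit 33664, nat_lit 33057, nat_lit 34128, nat_lit 29554, nat_lit 29009, nat_lit 25938, nat_lit 21570, nat_lit 25664, nat_lit 30324, nat_lit 34436, nat_lit 17282, nat_lit 25442],
  .leaf [nat_lit 29552, nat_lit 30309, nat_lit 32848, nat_lit 33665, nat_lit 29009, nat_lit 34403, nat_lit 29234, nat_lit 33362, nat_lit 33859, nat_lit 29780],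
  .inner [nat_lit 2511499640212996229597, nat_lit 4065, nat_lit 4134, nat_lit 4194, nat_lit 4253, nat_lit 4381, nat_lit 4509, nat_lit 4559, nat_lit 4701, nat_lit 4770, nat_lit 4815, nat_lit 4893, nat_lit 5024, nat_lit 5085, nat_lit 5152],
  .leaf [nat_lit 29040, nat_lit 34128, nat_lit 25664, nat_lit 29507, nat_lit 29217, nat_lit 34388, nat_lit 30068, nat_lit 34692, nat_lit 33362, nat_lit 33105, nat_lit 25154],
  .leaf [nat_lit 29552, nat_lit 29234, nat_lit 30033, nat_lit 34689, nat_lit 33666, nat_lit 34130, nat_lit 33908, nat_lit 21570, nat_lit 34404, nat_lit 20544, nat_lit 25411],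
  .leaf [nat_lit 29040, nat_lit 29763, nat_lit 29217, nat_lit 25664, nat_lit 30036, nat_lit 25154, nat_lit 34692, nat_lit 34437, nat_lit 32848, nat_lit 33362, nat_lit 33105],
  .leaf [nat_lit 25684, nat_lit 25411, nat_lit 29553, nat_lit 29808, nat_lit 30033, nat_lit 29250, nat_lit 34692, nat_lit 33362, nat_lit 33057, nat_lit 33586, nat_lit 34402],
  .leaf [nat_lit 20544, nat_lit 25411, nat_lit 29040, nat_lit 29811, nat_lit 33920, nat_lit 34437, nat_lit 33105, nat_lit 34677, nat_lit 29217, nat_lit 33346, nat_lit 21586],
  .leaf [nat_lit 29553, nat_lit 29763, nat_lit 25699, nat_lit 20544, nat_lit 30033, nat_lit 34132, nat_lit 21058, nat_lit 33394, nat_lit 33057, nat_lit 33586, nat_lit 34402],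
  .leaf [nat_lit 25664, nat_lit 29040, nat_lit 29811, nat_lit 29217, nat_lit 30036, nat_lit 34692, nat_lit 34437, nat_lit 32848, nat_lit 33105, nat_lit 33362, nat_lit 25154],
  .leaf [nat_lit 25664, nat_lit 29552, nat_lit 33665, nat_lit 34403, nat_lit 33859, nat_lit 30032, nat_lit 25154, nat_lit 34688, nat_lit 33330, nat_lit 29810, nat_lit 28961],
  .leaf [nat_lit 29553, nat_lit 28736, nat_lit 30033, nat_lit 25411, nat_lit 34692, nat_lit 25684, nat_lit 29250, nat_lit 33362, nat_lit 33586, nat_lit 34402, nat_lit 33057],
  .leaf [nat_lit 29040, nat_lit 32848, nat_lit 25664, nat_lit 29780, nat_lit 29507, nat_lit 34692, nat_lit 34437, nat_lit 33105, nat_lit 33362, nat_lit 29217, nat_lit 25154],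
  .inner [nat_lit 2167532829399591424610, nat_lit 2167532829399591424546, nat_lit 2168109149414406492322, nat_lit 5286, nat_lit 5346, nat_lit 5414, nat_lit 181445279407927203170, nat_lit 5542, nat_lit 5602, nat_lit 181445279407927203298, nat_lit 5670, nat_lit 5745, nat_lit 5794, nat_lit 5862],
  .leaf [nat_lit 33330, nat_lit 34130, nat_lit 34677, nat_lit 29282, nat_lit 29762, nat_lit 28961, nat_lit 29569, nat_lit 33859, nat_lit 34422],
  .inner [nat_lit 2542337265332152960612, nat_lit 608208886772523862433, nat_lit 1140672312066126645062, nat_lit 3872, nat_lit 2518023477874181014628, nat_lit 157416697191661831204, nat_lit 2518023477874181014436, nat_lit 2518509747886681228415, nat_lit 2518024823629232212358, nat_lit 2663, nat_lit 5984],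
  .leaf [nat_lit 25956, nat_lit 25411, nat_lit 34678, nat_lit 33908, nat_lit 25154, nat_lit 30034, nat_lit 34178, nat_lit 33586, nat_lit 29554, nat_lit 33137],
  .inner [nat_lit 2149658803082973415846, nat_lit 2518020944827020216166, nat_lit 607632544772844947878, nat_lit 157418042946713029030, nat_lit 608118814785345161638, nat_lit 1109552438635627808614, nat_lit 1788219661890628880230, nat_lit 1788705931903129093990, nat_lit 2179458246857233270246, nat_lit 2168107236051640124902, nat_lit 3111, nat_lit 6050, nat_lit 6114],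
  .leaf [nat_lit 34675, nat_lit 28961, nat_lit 34165, nat_lit 29762, nat_lit 30306, nat_lit 25940, nat_lit 33892, nat_lit 25411],
  .inner [nat_lit 187209886925592725087, nat_lit 2518023477885989291044, nat_lit 2167538093586454415750, nat_lit 2518023477874181014628, nat_lit 2518258953635250833798, nat_lit 1146436919583792171974, nat_lit 2542625425339560494751, nat_lit 6244],
  .inner [nat_lit 1109264278628220275110, nat_lit 1116560013262152009574, nat_lit 629538053328165668721, nat_lit 1788705931903129094566, nat_lit 1109552438635627809190, nat_lit 608118814785345161638, nat_lit 175864787003242710886, nat_lit 2179454587421617817382, nat_lit 2518507214839520434147, nat_lit 187213827285357431142, nat_lit 6306],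
  .inner [nat_lit 2168107178890928063302, nat_lit 181442183939097630820, nat_lit 2518023477885989290849, nat_lit 1140384152058719111558, nat_lit 2536465718348263195748, nat_lit 157416697191661831204, nat_lit 2536467688883549898784],
  .inner [nat_lit 1140393159223614113638, nat_lit 1116073743249651795814, nat_lit 2518507214839520431455, nat_lit 2518507214839520429926, nat_lit 2179454587421617817382, nat_lit 2786, nat_lit 629535520281004870371, nat_lit 6434],
  .inner [nat_lit 1569, nat_lit 2526491560393568159265, nat_lit 2179458246857233270310, nat_lit 1949, nat_lit 2536950356621146720161, nat_lit 2179458246857233270690, nat_lit 2168105547139503097766, nat_lit 2589, nat_lit 2511499640212996229661, nat_lit 2142564758744173906466, nat_lit 3165, nat_lit 3485, nat_lit 2511499640212996230557, nat_lit 2179458246857233272226, nat_lit 3613, nat_lit 3805, nat_lit 2511499640212996230877, nat_lit 2179458246857233272546, nat_lit 3997, nat_lit 5247, nat_lit 2179458246857233273983, nat_lit 5941, nat_lit 6173, nat_lit 6365, nat_lit 6493],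
  .leaf [nat_lit 33330, nat_lit 34403, nat_lit 25121, nat_lit 25666, nat_lit 34130, nat_lit 25940, nat_lit 24913, nat_lit 30066, nat_lit 28752],
  .leaf [nat_lit 32848, nat_lit 30064, nat_lit 25953, nat_lit 29266, nat_lit 25121, nat_lit 34178, nat_lit 25666, nat_lit 29780, nat_lit 34436],
  .leaf [nat_lit 25121, nat_lit 33362, nat_lit 25666, nat_lit 30066, nat_lit 24913, nat_lit 28752, nat_lit 34176, nat_lit 25940],
  .inner [nat_lit 164946737694916216592, nat_lit 2168105266207839488230, nat_lit 187302522681880221123, nat_lit 2511592275969283720294, nat_lit 2536950356621146719142, nat_lit 629931718073331746640, nat_lit 1146042361802176857936, nat_lit 2168107236051640125414, nat_lit 6626, nat_lit 6694, nat_lit 6758],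
  .inner [nat_lit 2167640915784222378403, nat_lit 624167110788660856227, nat_lit 2542230303892873152931, nat_lit 2526485622853595041114, nat_lit 187302522681880221119, nat_lit 1134627188306161436515, nat_lit 1135095448318198679395, nat_lit 1810357668712351532899, nat_lit 1780381709620490798947, nat_lit 2526089402843409681754, nat_lit 6847],
  .leaf [nat_lit 30053, nat_lit 29217, nat_lit 34129, nat_lit 25170, nat_lit 34434, nat_lit 33876, nat_lit 29762],
  .leaf [nat_lit 25441, nat_lit 25138, nat_lit 30053, nat_lit 25666, nat_lit 29763, nat_lit 21586, nat_lit 34437, nat_lit 32848],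
  .leaf [nat_lit 29234, nat_lit 25666, nat_lit 25411, nat_lit 30034, nat_lit 25940, nat_lit 34178, nat_lit 32848],
  .leaf [nat_lit 29234, nat_lit 25170, nat_lit 29796, nat_lit 20769, nat_lit 21570, nat_lit 25411, nat_lit 34180, nat_lit 34434, nat_lit 32848],
  .leaf [nat_lit 29234, nat_lit 32848, nat_lit 20769, nat_lit 25154, nat_lit 25938, nat_lit 30068, nat_lit 25699, nat_lit 33876],
  .leaf [nat_lit 29234, nat_lit 20769, nat_lit 32848, nat_lit 25954, nat_lit 25666, nat_lit 25411, nat_lit 30068, nat_lit 34132],
  .leaf [nat_lit 29234, nat_lit 25698, nat_lit 29795, nat_lit 30034, nat_lit 25940, nat_lit 34178, nat_lit 32848],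
  .leaf [nat_lit 29234, nat_lit 30034, nat_lit 29796, nat_lit 25154, nat_lit 34178, nat_lit 32848, nat_lit 34405],
  .inner [nat_lit 6940, nat_lit 2542232204064803789657, nat_lit 7065, nat_lit 7129, nat_lit 7193, nat_lit 7257, nat_lit 7321, nat_lit 7385],
  .leaf [nat_lit 24865, nat_lit 30033, nat_lit 34437, nat_lit 33362, nat_lit 25954, nat_lit 32848, nat_lit 25666, nat_lit 29780],
  .leaf [nat_lit 32848, nat_lit 30033, nat_lit 34178, nat_lit 29282, nat_lit 24865, nat_lit 34405, nat_lit 29780, nat_lit 25666],
  .leaf [nat_lit 34176, nat_lit 30033, nat_lit 33362, nat_lit 34405, nat_lit 29282, nat_lit 24865, nat_lit 29780, nat_lit 25666],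
  .leaf [nat_lit 24865, nat_lit 30033, nat_lit 34437, nat_lit 33362, nat_lit 32848, nat_lit 29780, nat_lit 25970, nat_lit 25154],
  .leaf [nat_lit 34129, nat_lit 30053, nat_lit 28752, nat_lit 29266, nat_lit 24865, nat_lit 34434, nat_lit 33876, nat_lit 25698],
  .leaf [nat_lit 20816, nat_lit 25953, nat_lit 29282, nat_lit 21025, nat_lit 25666, nat_lit 25394, nat_lit 30068, nat_lit 34434, nat_lit 34180],
  .inner [nat_lit 6753, nat_lit 2157550741384772720737, nat_lit 2168105266207839488225, nat_lit 1804935273188346303961, nat_lit 2511592275969283720289, nat_lit 2536950356621146719137, nat_lit 6689, nat_lit 2168107236051640125409, nat_lit 7453, nat_lit 7521, nat_lit 7585, nat_lit 7649, nat_lit 7713, nat_lit 7777, nat_lit 7841],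
  .inner [nat_lit 2536575775268180855198, nat_lit 1788326059363122808670, nat_lit 1804593083179549854110, nat_lit 1134628573690812434846, nat_lit 1804935273188346300830, nat_lit 181285797142596945758, nat_lit 2179060029941716354910, nat_lit 2157154521374587357022, nat_lit 593222371756820399902, nat_lit 2168107236051640125790, nat_lit 1804935273188346300766, nat_lit 2536427719719285429919, nat_lit 7935],
  .leaf [nat_lit 34149, nat_lit 33394, nat_lit 29796, nat_lit 30036, nat_lit 25170, nat_lit 33858, nat_lit 29507, nat_lit 33057],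
  .leaf [nat_lit 33057, nat_lit 29234, nat_lit 33858, nat_lit 29507, nat_lit 25441, nat_lit 25698, nat_lit 25938, nat_lit 34165, nat_lit 29780],
  .leaf [nat_lit 29507, nat_lit 33394, nat_lit 33057, nat_lit 33858, nat_lit 25698, nat_lit 25394, nat_lit 30036, nat_lit 25938],
  .leaf [nat_lit 25394, nat_lit 33394, nat_lit 33057, nat_lit 25938, nat_lit 29796, nat_lit 29507, nat_lit 33858, nat_lit 30036],
  .leaf [nat_lit 34403, nat_lit 25138, nat_lit 30053, nat_lit 29796, nat_lit 21586, nat_lit 34180, nat_lit 29507, nat_lit 24913, nat_lit 20544],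
  .leaf [nat_lit 33330, nat_lit 29266, nat_lit 29762, nat_lit 25442, nat_lit 34180, nat_lit 29507, nat_lit 25956, nat_lit 20769, nat_lit 28736],
  .inner [nat_lit 2536950356621146724986, nat_lit 1810609777939974194588, nat_lit 175770743877440376165, nat_lit 1146154973712236938694, nat_lit 8028, nat_lit 8122, nat_lit 8186, nat_lit 8250, nat_lit 8292, nat_lit 2542232204064803790970, nat_lit 8378],
  .leaf [nat_lit 33378, nat_lit 34165, nat_lit 29796, nat_lit 33876, nat_lit 29250, nat_lit 25938, nat_lit 25394, nat_lit 33105, nat_lit 28736],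
  .leaf [nat_lit 33152, nat_lit 34403, nat_lit 12833, nat_lit 33378, nat_lit 25666, nat_lit 34130, nat_lit 30053, nat_lit 24913, nat_lit 21618, nat_lit 28752],
  .leaf [nat_lit 25411, nat_lit 28736, nat_lit 29250, nat_lit 25138, nat_lit 34434, nat_lit 34165, nat_lit 25938, nat_lit 25684, nat_lit 33105],
  .leaf [nat_lit 33665, nat_lit 34403, nat_lit 24865, nat_lit 29507, nat_lit 32880, nat_lit 25666, nat_lit 30053, nat_lit 34129, nat_lit 33362, nat_lit 20544],
  .leaf [nat_lit 33664, nat_lit 34403, nat_lit 34165, nat_lit 33105, nat_lit 33330, nat_lit 21586, nat_lit 25956, nat_lit 29507, nat_lit 20544],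
  .leaf [nat_lit 34149, nat_lit 25684, nat_lit 28752, nat_lit 33105, nat_lit 33664, nat_lit 34403, nat_lit 29507, nat_lit 33313, nat_lit 25185, nat_lit 16946],
  .leaf [nat_lit 34149, nat_lit 30036, nat_lit 29282, nat_lit 33362, nat_lit 25666, nat_lit 32848, nat_lit 24865, nat_lit 29507],
  .leaf [nat_lit 29282, nat_lit 34130, nat_lit 30036, nat_lit 34405, nat_lit 25666, nat_lit 24865, nat_lit 29507, nat_lit 32848],
  .leaf [nat_lit 33665, nat_lit 29539, nat_lit 32880, nat_lit 17216, nat_lit 34129, nat_lit 29234, nat_lit 25698, nat_lit 34434, nat_lit 24865],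
  .leaf [nat_lit 34405, nat_lit 30036, nat_lit 32848, nat_lit 29282, nat_lit 33362, nat_lit 25666, nat_lit 24865, nat_lit 29507],
  .inner [nat_lit 8545, nat_lit 8614, nat_lit 8671, nat_lit 2542232204064803791386, nat_lit 8799, nat_lit 8870, nat_lit 8934, nat_lit 9004, nat_lit 9062],
  .leaf [nat_lit 29796, nat_lit 28736, nat_lit 34132, nat_lit 34405, nat_lit 25154, nat_lit 33394, nat_lit 30034, nat_lit 32848, nat_lit 24865, nat_lit 33105, nat_lit 29490],
  .leaf [nat_lit 29282, nat_lit 33908, nat_lit 25666, nat_lit 29507, nat_lit 30036, nat_lit 34130, nat_lit 34405, nat_lit 32848, nat_lit 24865],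
  .leaf [nat_lit 29796, nat_lit 25938, nat_lit 30036, nat_lit 34437, nat_lit 32848, nat_lit 25394, nat_lit 28736, nat_lit 29506],
  .leaf [nat_lit 33858, nat_lit 34404, nat_lit 30036, nat_lit 34149, nat_lit 33362, nat_lit 32848, nat_lit 28736, nat_lit 29507],
  .leaf [nat_lit 33908, nat_lit 34165, nat_lit 21058, nat_lit 29507, nat_lit 25684, nat_lit 33105, nat_lit 20544],
  .leaf [nat_lit 34434, nat_lit 34149, nat_lit 32848, nat_lit 25394],
  .leaf [nat_lit 34178, nat_lit 34405, nat_lit 32848],
  .leaf [nat_lit 34149, nat_lit 33362, nat_lit 32848],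
  .inner [nat_lit 9489, nat_lit 1804935242409487377681, nat_lit 9562, nat_lit 181627956372534470001, nat_lit 1140681319231021655386, nat_lit 9626],
  .inner [nat_lit 1810127140981236302426, nat_lit 9316, nat_lit 9370, nat_lit 9434, nat_lit 2542232204064803792090, nat_lit 2542196175267785352410, nat_lit 9701],
  .leaf [nat_lit 33908, nat_lit 25698, nat_lit 30053, nat_lit 34434, nat_lit 34132, nat_lit 29266, nat_lit 24865, nat_lit 33105, nat_lit 29507, nat_lit 25394, nat_lit 28752],
  .inner [nat_lit 1804593083179549854118, nat_lit 2542232274416351578534, nat_lit 2179062000465194784228, nat_lit 8418, nat_lit 8486, nat_lit 9130, nat_lit 9190, nat_lit 1804935242409487377382, nat_lit 9254, nat_lit 1804935242409487377446, nat_lit 9766, nat_lit 1804935242409487377958, nat_lit 9830, nat_lit 1804935242409487378022],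
  .leaf [nat_lit 32832, nat_lit 29552, nat_lit 29234, nat_lit 33346, nat_lit 34165, nat_lit 25938, nat_lit 25377, nat_lit 25667],
  .leaf [nat_lit 32880, nat_lit 33859, nat_lit 25394, nat_lit 33394, nat_lit 25938, nat_lit 34132],
  .leaf [nat_lit 32880, nat_lit 33859, nat_lit 29811, nat_lit 30036, nat_lit 21058, nat_lit 20544, nat_lit 25394, nat_lit 24865],
  .inner [nat_lit 8226, nat_lit 2542230264320184296545, nat_lit 1804466982397450134348, nat_lit 1810609808718833130529, nat_lit 618492575258174038474, nat_lit 9957, nat_lit 10021, nat_lit 10079],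
  .leaf [nat_lit 32832, nat_lit 25394, nat_lit 33346, nat_lit 29810, nat_lit 34404, nat_lit 29507, nat_lit 25938, nat_lit 30036],
  .leaf [nat_lit 29796, nat_lit 25938, nat_lit 21570, nat_lit 34692, nat_lit 34165, nat_lit 20544, nat_lit 17280, nat_lit 29552],
  .leaf [nat_lit 34688, nat_lit 33859, nat_lit 28736, nat_lit 25699, nat_lit 24865, nat_lit 34132, nat_lit 21058, nat_lit 30053],
  .leaf [nat_lit 33859, nat_lit 34132, nat_lit 25394, nat_lit 25956, nat_lit 29811, nat_lit 34688, nat_lit 28752, nat_lit 24913],
  .leaf [nat_lit 34675, nat_lit 25394, nat_lit 29796, nat_lit 28736, nat_lit 29250, nat_lit 25938, nat_lit 34165],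
  .leaf [nat_lit 25938, nat_lit 33858, nat_lit 29810, nat_lit 34693, nat_lit 32832, nat_lit 30036, nat_lit 25394],
  .inner [nat_lit 2518417261570623022922, nat_lit 10079, nat_lit 10246, nat_lit 10335, nat_lit 10399, nat_lit 10474, nat_lit 10529],
  .leaf [nat_lit 29507, nat_lit 33856, nat_lit 30036, nat_lit 25394, nat_lit 34690, nat_lit 32880, nat_lit 25938],
  .leaf [nat_lit 29554, nat_lit 34672, nat_lit 29763, nat_lit 25938, nat_lit 30036, nat_lit 34178, nat_lit 24865, nat_lit 32832],
  .inner [nat_lit 10021, nat_lit 2518417261570623022885, nat_lit 2518417261570623022922, nat_lit 1810231506372682587148, nat_lit 618492575258174038474, nat_lit 10634, nat_lit 10698],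
  .leaf [nat_lit 34675, nat_lit 34434, nat_lit 29796, nat_lit 28736, nat_lit 25394, nat_lit 29250, nat_lit 34165, nat_lit 25938],
  .leaf [nat_lit 34434, nat_lit 34132, nat_lit 30053, nat_lit 25682, nat_lit 34676, nat_lit 29539, nat_lit 32880, nat_lit 20544, nat_lit 24865],
  .leaf [nat_lit 25394, nat_lit 34675, nat_lit 29796, nat_lit 25938, nat_lit 34165, nat_lit 28736],
  .leaf [nat_lit 24865, nat_lit 17202, nat_lit 29811, nat_lit 33920, nat_lit 34672, nat_lit 30036, nat_lit 34178, nat_lit 25682],
  .leaf [nat_lit 29552, nat_lit 34403, nat_lit 25667, nat_lit 25938, nat_lit 34165, nat_lit 29780, nat_lit 12833],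
  .inner [nat_lit 2149086085343078263052, nat_lit 2518417261570623023546, nat_lit 2149082989874248689919, nat_lit 10426, nat_lit 10892, nat_lit 10986, nat_lit 11066, nat_lit 11114],
  .leaf [nat_lit 29266, nat_lit 24865, nat_lit 29490, nat_lit 25666, nat_lit 33922, nat_lit 29763, nat_lit 30036, nat_lit 32832, nat_lit 34672],
  .leaf [nat_lit 34149, nat_lit 25684, nat_lit 33908, nat_lit 33346, nat_lit 32832, nat_lit 29552, nat_lit 30032, nat_lit 24865],
  .leaf [nat_lit 24865, nat_lit 29763, nat_lit 25666, nat_lit 33922, nat_lit 32832, nat_lit 30036, nat_lit 34672],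
  .leaf [nat_lit 25666, nat_lit 30053, nat_lit 24865, nat_lit 34434, nat_lit 34675, nat_lit 29763, nat_lit 28752],
  .leaf [nat_lit 34434, nat_lit 33859, nat_lit 29760, nat_lit 25699, nat_lit 24865, nat_lit 34114, nat_lit 25940, nat_lit 32848],
  .leaf [nat_lit 20769, nat_lit 25684, nat_lit 33908, nat_lit 33346, nat_lit 34149, nat_lit 32832, nat_lit 30032, nat_lit 29552],
  .inner [nat_lit 10426, nat_lit 2167640775081077252602, nat_lit 624167251491805998108, nat_lit 11386, nat_lit 11434, nat_lit 11519, nat_lit 11548],
  .inner [nat_lit 2536953958896050118655, nat_lit 1109731175240470365985, nat_lit 2168106080327430047999, nat_lit 2542628494426536939135, nat_lit 623770890778475497868, nat_lit 10170, nat_lit 10239, nat_lit 10618, nat_lit 10810, nat_lit 10858, nat_lit 11167, nat_lit 11258, nat_lit 11615],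
  .leaf [nat_lit 29762, nat_lit 25938, nat_lit 33664, nat_lit 30036, nat_lit 34694, nat_lit 33892, nat_lit 29507, nat_lit 25394, nat_lit 28736, nat_lit 33121, nat_lit 34128],
  .leaf [nat_lit 33664, nat_lit 33057, nat_lit 34128, nat_lit 25394, nat_lit 33858, nat_lit 34674, nat_lit 29796, nat_lit 30036, nat_lit 25938, nat_lit 28736, nat_lit 29507],
  .leaf [nat_lit 32832, nat_lit 29507, nat_lit 34404, nat_lit 25394, nat_lit 33346, nat_lit 25938, nat_lit 30036],
  .leaf [nat_lit 29552, nat_lit 34403, nat_lit 25667, nat_lit 34165, nat_lit 25940, nat_lit 20544, nat_lit 33362, nat_lit 24865],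
  .leaf [nat_lit 24865, nat_lit 29507, nat_lit 25666, nat_lit 33922, nat_lit 32832, nat_lit 34672, nat_lit 30036],
  .leaf [nat_lit 25956, nat_lit 25411, nat_lit 24865, nat_lit 34675, nat_lit 28736, nat_lit 34434, nat_lit 34165],
  .leaf [nat_lit 25684, nat_lit 25411, nat_lit 34434, nat_lit 16946, nat_lit 24865, nat_lit 33920, nat_lit 34130, nat_lit 28736],
  .inner [nat_lit 2168109149414406496993, nat_lit 10362, nat_lit 623770890778475497868, nat_lit 624167251491805998364, nat_lit 11903, nat_lit 11946, nat_lit 12026, nat_lit 12074, nat_lit 12159],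
  .leaf [nat_lit 29507, nat_lit 30036, nat_lit 21058, nat_lit 25394, nat_lit 33666, nat_lit 33152, nat_lit 34672, nat_lit 33856, nat_lit 20769],
  .leaf [nat_lit 34404, nat_lit 25411, nat_lit 28736, nat_lit 24865, nat_lit 25940, nat_lit 34165, nat_lit 33362, nat_lit 32848, nat_lit 33105],
  .leaf [nat_lit 34692, nat_lit 34128, nat_lit 34405, nat_lit 24865, nat_lit 25666, nat_lit 30036, nat_lit 33362, nat_lit 29507],
  .leaf [nat_lit 28736, nat_lit 25699, nat_lit 25940, nat_lit 34436, nat_lit 34128, nat_lit 34677, nat_lit 33362, nat_lit 24865, nat_lit 33105],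
  .leaf [nat_lit 25394, nat_lit 29507, nat_lit 34692, nat_lit 25956, nat_lit 21073, nat_lit 34437, nat_lit 33346, nat_lit 33121, nat_lit 32848, nat_lit 28736],
  .inner [nat_lit 12195, nat_lit 12282, nat_lit 12326, nat_lit 2511211480205572190246, nat_lit 1109264278628203769894, nat_lit 12390, nat_lit 12454, nat_lit 12518],
  .leaf [nat_lit 33665, nat_lit 32848, nat_lit 34675, nat_lit 34434, nat_lit 34149, nat_lit 33859, nat_lit 21586, nat_lit 30066, nat_lit 20769, nat_lit 25394],
  .leaf [nat_lit 33665, nat_lit 29539, nat_lit 24865, nat_lit 25666, nat_lit 34436, nat_lit 29763, nat_lit 32832, nat_lit 34672, nat_lit 30036, nat_lit 34149, nat_lit 29266, nat_lit 20816],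
  .leaf [nat_lit 34434, nat_lit 29796, nat_lit 29250, nat_lit 25394, nat_lit 34132, nat_lit 25938, nat_lit 34677, nat_lit 33105, nat_lit 28736],
  .leaf [nat_lit 34149, nat_lit 24865, nat_lit 33105, nat_lit 25666, nat_lit 34692, nat_lit 21634, nat_lit 30068, nat_lit 32848, nat_lit 29507],
  .leaf [nat_lit 33105, nat_lit 24865, nat_lit 25940, nat_lit 34437, nat_lit 20544, nat_lit 33346, nat_lit 34672, nat_lit 33908, nat_lit 29507, nat_lit 25394],
  .leaf [nat_lit 33664, nat_lit 33057, nat_lit 25937, nat_lit 34128, nat_lit 33858, nat_lit 25684, nat_lit 25394, nat_lit 29507, nat_lit 30068, nat_lit 28736],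
  .leaf [nat_lit 33664, nat_lit 33105, nat_lit 33330, nat_lit 24865, nat_lit 33876, nat_lit 25666, nat_lit 30068, nat_lit 29507, nat_lit 34672],
  .leaf [nat_lit 24865, nat_lit 25666, nat_lit 34676, nat_lit 34178, nat_lit 29507, nat_lit 30036, nat_lit 34405, nat_lit 32848],
  .leaf [nat_lit 25394, nat_lit 25953, nat_lit 34434, nat_lit 34165, nat_lit 33105, nat_lit 25684, nat_lit 33858, nat_lit 34676, nat_lit 29507, nat_lit 20544],
  .leaf [nat_lit 33664, nat_lit 34403, nat_lit 24865, nat_lit 33409, nat_lit 33858, nat_lit 25667, nat_lit 34676, nat_lit 28736, nat_lit 34128],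
  .inner [nat_lit 1109264278628203769894, nat_lit 2157154565344381120038, nat_lit 11619, nat_lit 12838, nat_lit 12902, nat_lit 12986, nat_lit 13050, nat_lit 13094, nat_lit 13158, nat_lit 13223],
  .leaf [nat_lit 34434, nat_lit 34677, nat_lit 29796, nat_lit 25938, nat_lit 33876, nat_lit 29250, nat_lit 25394, nat_lit 28736, nat_lit 33105],
  .inner [nat_lit 2542232274416351578534, nat_lit 592682023364604200753, nat_lit 2536953985277903244518, nat_lit 629935658734810305978, nat_lit 2536953958896050119588, nat_lit 11683, nat_lit 11748, nat_lit 11834, nat_lit 12575, nat_lit 12645, nat_lit 12708, nat_lit 12774, nat_lit 13279, nat_lit 13350],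
  .leaf [nat_lit 25666, nat_lit 25938, nat_lit 34401, nat_lit 25411, nat_lit 30036, nat_lit 34180, nat_lit 33313, nat_lit 29811],
  .leaf [nat_lit 33313, nat_lit 34403, nat_lit 33858, nat_lit 29507, nat_lit 34149, nat_lit 30068],
  .leaf [nat_lit 34401, nat_lit 33892, nat_lit 29762, nat_lit 29539, nat_lit 28736, nat_lit 25940, nat_lit 33362, nat_lit 30050, nat_lit 20769],
  .leaf [nat_lit 33313, nat_lit 16946, nat_lit 34403, nat_lit 34132, nat_lit 30068, nat_lit 29507, nat_lit 25953],
  .inner [nat_lit 2179059990369027497030, nat_lit 2179456307112613780508, nat_lit 13446, nat_lit 13530, nat_lit 2542232204064803796186, nat_lit 13574, nat_lit 13658],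
  .leaf [nat_lit 25442, nat_lit 29796, nat_lit 25938, nat_lit 34436, nat_lit 33346, nat_lit 29507, nat_lit 30036, nat_lit 32832],
  .leaf [nat_lit 32832, nat_lit 29811, nat_lit 25394, nat_lit 25154, nat_lit 33922, nat_lit 34404, nat_lit 25938, nat_lit 30036],
  .inner [nat_lit 2542626532685443505507, nat_lit 1146042362005114062668, nat_lit 2536575656549899575395, nat_lit 1788199980536341464844, nat_lit 2542628494426536939107, nat_lit 1146438582015299422028, nat_lit 2511211480205572186211, nat_lit 2536953958896050121250, nat_lit 13730, nat_lit 13795, nat_lit 2542232204064803796451, nat_lit 13859],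
  .leaf [nat_lit 33665, nat_lit 32832, nat_lit 34129, nat_lit 29507, nat_lit 25394, nat_lit 33346, nat_lit 34404, nat_lit 29794, nat_lit 24865, nat_lit 25938, nat_lit 30036],
  .leaf [nat_lit 33664, nat_lit 34129, nat_lit 20544, nat_lit 34677, nat_lit 34403, nat_lit 33908, nat_lit 25956, nat_lit 21058, nat_lit 29507, nat_lit 33330],
  .inner [nat_lit 2511589782551722733914, nat_lit 2518020944827036741989, nat_lit 2536572115832565401062, nat_lit 2168107178890928071654, nat_lit 2167764905339649008614, nat_lit 2536953985277903244607, nat_lit 2518417142852341730650, nat_lit 2536953985277903244645, nat_lit 9766, nat_lit 1140681319231021655590, nat_lit 2142743002546600682470, nat_lit 2142400728995321619430, nat_lit 13951, nat_lit 14015, nat_lit 14042],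
  .leaf [nat_lit 33665, nat_lit 25394, nat_lit 33859, nat_lit 32848, nat_lit 30033, nat_lit 34130, nat_lit 34405, nat_lit 29282, nat_lit 24865, nat_lit 25666, nat_lit 29780],
  .leaf [nat_lit 33665, nat_lit 24865, nat_lit 34129, nat_lit 25394, nat_lit 25938, nat_lit 33858, nat_lit 29810, nat_lit 34404, nat_lit 30036, nat_lit 29507, nat_lit 32832],
  .leaf [nat_lit 33665, nat_lit 29553, nat_lit 34129, nat_lit 30053, nat_lit 29266, nat_lit 28752, nat_lit 29763, nat_lit 32832, nat_lit 33858, nat_lit 34404],
  .leaf [nat_lit 29553, nat_lit 33665, nat_lit 21025, nat_lit 32848, nat_lit 17216, nat_lit 16946, nat_lit 33876, nat_lit 30068, nat_lit 25699, nat_lit 20848, nat_lit 25953],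
  .leaf [nat_lit 29553, nat_lit 33665, nat_lit 33859, nat_lit 29810, nat_lit 28736, nat_lit 25699, nat_lit 34132, nat_lit 30053, nat_lit 20816, nat_lit 21025, nat_lit 34401],
  .leaf [nat_lit 33665, nat_lit 34130, nat_lit 32848, nat_lit 34405, nat_lit 25394, nat_lit 33859, nat_lit 25666, nat_lit 29811, nat_lit 30036, nat_lit 29282, nat_lit 24865],
  .inner [nat_lit 14177, nat_lit 2179059990369027503971, nat_lit 2542626581063770584926, nat_lit 2179061930113646999398, nat_lit 14238, nat_lit 14298, nat_lit 14362, nat_lit 2179458246857233283098, nat_lit 2542626581063770585114, nat_lit 2179456307112613787674, nat_lit 14426, nat_lit 2542626581063770585178, nat_lit 2179059990369027504218, nat_lit 2179061930113646999642, nat_lit 14494, nat_lit 2542626581063770585249],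
  .leaf [nat_lit 33152, nat_lit 17216, nat_lit 34132, nat_lit 24913, nat_lit 34403, nat_lit 25121, nat_lit 33362, nat_lit 25666, nat_lit 33586, nat_lit 30066, nat_lit 28752, nat_lit 25972],
  .leaf [nat_lit 33665, nat_lit 32832, nat_lit 34129, nat_lit 29763, nat_lit 34404, nat_lit 30036, nat_lit 33346, nat_lit 29282, nat_lit 25938, nat_lit 25394, nat_lit 24865],
  .leaf [nat_lit 32832, nat_lit 29553, nat_lit 29808, nat_lit 25411, nat_lit 16946, nat_lit 29282, nat_lit 34434, nat_lit 24865, nat_lit 30033, nat_lit 21586, nat_lit 25956],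
  .leaf [nat_lit 33665, nat_lit 32832, nat_lit 34129, nat_lit 30065, nat_lit 24865, nat_lit 25938, nat_lit 33346, nat_lit 25684, nat_lit 29810, nat_lit 28752, nat_lit 25411, nat_lit 34354],
  .leaf [nat_lit 29553, nat_lit 28736, nat_lit 25699, nat_lit 29282, nat_lit 24865, nat_lit 29746, nat_lit 30033, nat_lit 25940, nat_lit 21058, nat_lit 34434, nat_lit 34177, nat_lit 32848],
  .leaf [nat_lit 29553, nat_lit 29763, nat_lit 34403, nat_lit 34132, nat_lit 30053, nat_lit 33105, nat_lit 33664, nat_lit 28752, nat_lit 33330, nat_lit 29266],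
  .leaf [nat_lit 33152, nat_lit 33603, nat_lit 12833, nat_lit 29552, nat_lit 25441, nat_lit 29796, nat_lit 29250, nat_lit 20544, nat_lit 29009, nat_lit 34178, nat_lit 34405],
  .leaf [nat_lit 33664, nat_lit 34128, nat_lit 34401, nat_lit 25411, nat_lit 25684, nat_lit 25138, nat_lit 33346, nat_lit 33057, nat_lit 25938, nat_lit 29810, nat_lit 28736],
  .inner [nat_lit 2179060029941716358042, nat_lit 2542626581063770585114, nat_lit 1804936962100483331558, nat_lit 2536953958896050122270, nat_lit 14625, nat_lit 14755, nat_lit 2542626581063770585510, nat_lit 14817, nat_lit 14886, nat_lit 14938, nat_lit 15002, nat_lit 15070],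
  .leaf [nat_lit 28752, nat_lit 24913, nat_lit 29217, nat_lit 29796, nat_lit 21586, nat_lit 25954, nat_lit 25394, nat_lit 33409, nat_lit 34176, nat_lit 34436],
  .leaf [nat_lit 21586, nat_lit 24865, nat_lit 34437, nat_lit 34689, nat_lit 33361, nat_lit 33892, nat_lit 32848, nat_lit 28736, nat_lit 25411],
  .leaf [nat_lit 32848, nat_lit 34689, nat_lit 30064, nat_lit 33908, nat_lit 33362, nat_lit 34404, nat_lit 24865, nat_lit 17202],
  .leaf [nat_lit 34434, nat_lit 33121, nat_lit 34672, nat_lit 25394, nat_lit 34129, nat_lit 33876, nat_lit 29796, nat_lit 25938],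
  .inner [nat_lit 2157154565344381118311, nat_lit 2542626581063770582138, nat_lit 1140674115024728370412, nat_lit 2179059990369027499898, nat_lit 15276, nat_lit 1140681319231021661119, nat_lit 15335, nat_lit 15404],
  .leaf [nat_lit 34689, nat_lit 33922, nat_lit 34165, nat_lit 21025, nat_lit 29780, nat_lit 34404, nat_lit 32832, nat_lit 20816, nat_lit 25953],
  .leaf [nat_lit 33876, nat_lit 25698, nat_lit 34694, nat_lit 25938, nat_lit 32880, nat_lit 33105, nat_lit 24865, nat_lit 33394],
  .leaf [nat_lit 25698, nat_lit 24865, nat_lit 34694, nat_lit 33394, nat_lit 34149, nat_lit 33876, nat_lit 33105, nat_lit 32880],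
  .inner [nat_lit 2168107178890928070847, nat_lit 2142281946740906275280, nat_lit 2179456249951901716250, nat_lit 2142276598736749867491, nat_lit 2167764905339649007788, nat_lit 15231, nat_lit 1140681319231021661036, nat_lit 15455, nat_lit 15514, nat_lit 15596, nat_lit 15660, nat_lit 1140681319231021661503],
  .leaf [nat_lit 29040, nat_lit 29539, nat_lit 24865, nat_lit 34433, nat_lit 30033, nat_lit 33362, nat_lit 33892, nat_lit 25940, nat_lit 17202, nat_lit 34693, nat_lit 29760, nat_lit 32848],
  .leaf [nat_lit 29553, nat_lit 34689, nat_lit 30033, nat_lit 34437, nat_lit 32848, nat_lit 33362],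
  .inner [nat_lit 2536953958896050120158, nat_lit 1810127140981236302430, nat_lit 2542628490020034985121, nat_lit 1788226980418263712350, nat_lit 15521, nat_lit 2518020922842156371294, nat_lit 15845],
  .leaf [nat_lit 29810, nat_lit 28736, nat_lit 25138, nat_lit 34434, nat_lit 30053, nat_lit 34692, nat_lit 34130, nat_lit 25684, nat_lit 32848, nat_lit 25411, nat_lit 24913]]

theorem ok0 : okList db recs0 (nat_lit 0) = true := by decide +kernel

theorem len0 : recs0.length = 250 := by decide +kernel

/-- Rules 250 to 499. -/
def recs1 : List Rec := [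
  .leaf [nat_lit 29507, nat_lit 33892, nat_lit 30036, nat_lit 32832, nat_lit 34693, nat_lit 33362, nat_lit 25954, nat_lit 25394, nat_lit 33105, nat_lit 34337],
  .leaf [nat_lit 30053, nat_lit 25170, nat_lit 34436, nat_lit 34132, nat_lit 25394, nat_lit 28752, nat_lit 33105, nat_lit 34673, nat_lit 32832, nat_lit 33377],
  .leaf [nat_lit 34405, nat_lit 34692, nat_lit 25698, nat_lit 30036, nat_lit 33362, nat_lit 24865, nat_lit 29507, nat_lit 32848],
  .inner [nat_lit 175856906276198946909, nat_lit 12318, nat_lit 1140681319231021658142, nat_lit 1109264278628203769886, nat_lit 2511211480205572190238, nat_lit 16030, nat_lit 16097, nat_lit 16158],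
  .leaf [nat_lit 29040, nat_lit 25441, nat_lit 34689, nat_lit 25937, nat_lit 30036, nat_lit 34437, nat_lit 33908, nat_lit 32848, nat_lit 33362, nat_lit 29217, nat_lit 29507],
  .leaf [nat_lit 34405, nat_lit 34692, nat_lit 21586, nat_lit 33378, nat_lit 30066, nat_lit 29796, nat_lit 20769, nat_lit 28736, nat_lit 32848, nat_lit 29507, nat_lit 25394],
  .inner [nat_lit 2179456249951901718497, nat_lit 2518020944827036739166, nat_lit 2536953958896050120286, nat_lit 1109264278628203767390, nat_lit 9822, nat_lit 1140681319231021655646, nat_lit 1116073743249668318814, nat_lit 1135006757318681699934, nat_lit 2511211480205572187742, nat_lit 15713, nat_lit 15775, nat_lit 15898, nat_lit 15966, nat_lit 16223, nat_lit 16282, nat_lit 16350],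
  .leaf [nat_lit 25411, nat_lit 28736, nat_lit 29234, nat_lit 25698, nat_lit 30053, nat_lit 24865, nat_lit 21058, nat_lit 33666, nat_lit 34437, nat_lit 33920],
  .leaf [nat_lit 32880, nat_lit 33635, nat_lit 29282, nat_lit 33330, nat_lit 24865, nat_lit 25666, nat_lit 33856, nat_lit 34130, nat_lit 34405],
  .leaf [nat_lit 34691, nat_lit 34405, nat_lit 33378, nat_lit 21058, nat_lit 30066, nat_lit 25394, nat_lit 33859, nat_lit 32848, nat_lit 24913],
  .inner [nat_lit 624172515747371687461, nat_lit 1140674115230836470796, nat_lit 624172515747371687397, nat_lit 624172515747371687333, nat_lit 624172515747371687269, nat_lit 2179458220475380144229, nat_lit 618489056525703709605, nat_lit 2142408047316798812620, nat_lit 2142281946534748631500, nat_lit 1140285072632825513420, nat_lit 16511, nat_lit 16549, nat_lit 16613],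
  .leaf [nat_lit 29553, nat_lit 28752, nat_lit 24913, nat_lit 34691, nat_lit 29282, nat_lit 21025, nat_lit 25394, nat_lit 34178, nat_lit 34405, nat_lit 25666, nat_lit 33859, nat_lit 32832],
  .leaf [nat_lit 30053, nat_lit 21058, nat_lit 28961, nat_lit 25698, nat_lit 24913, nat_lit 25394, nat_lit 28752, nat_lit 34690, nat_lit 34437, nat_lit 33908, nat_lit 32832, nat_lit 33603],
  .inner [nat_lit 624172515747371692513, nat_lit 1788326059363172364769, nat_lit 181159696348688942956, nat_lit 618497923056172803105, nat_lit 181627956360726185836, nat_lit 623770890778475501215, nat_lit 1804935273188346308193, nat_lit 624172515747371688929, nat_lit 1788326059363172361185, nat_lit 1804470641833065584101, nat_lit 16670, nat_lit 16741, nat_lit 16801],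
  .inner [nat_lit 2536575775268180856542, nat_lit 2542232274416351579870, nat_lit 2536953985277903244702, nat_lit 2542628494426536938910, nat_lit 2168109175796259621411, nat_lit 2536699905526802157281, nat_lit 2542230303892873154273, nat_lit 2542626523903058513313, nat_lit 6881, nat_lit 2542626581063770577630, nat_lit 7974, nat_lit 2542626581063770578723, nat_lit 624172515747371687715, nat_lit 1140681319231021653798, nat_lit 9886, nat_lit 2536953958896050120350, nat_lit 2167640775081077253795, nat_lit 2167764905339649009318, nat_lit 13406, nat_lit 2536953958896050123870, nat_lit 2536951988372571698273, nat_lit 14110, nat_lit 14591, nat_lit 15167, nat_lit 2542626581063770585919, nat_lit 16422, nat_lit 2542626581063770587171, nat_lit 16867],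
  .leaf [nat_lit 34128, nat_lit 30325, nat_lit 34400, nat_lit 24913, nat_lit 33378, nat_lit 33057, nat_lit 34674, nat_lit 25684, nat_lit 33874],
  .leaf [nat_lit 34128, nat_lit 33876, nat_lit 34404, nat_lit 33121, nat_lit 25170, nat_lit 20769, nat_lit 25952, nat_lit 34678, nat_lit 30066],
  .inner [nat_lit 2536950325842287794021, nat_lit 608030150167681304408, nat_lit 1140852526117221041935, nat_lit 186924282168175756687, nat_lit 2536950325842287791909, nat_lit 1788333540508940896968, nat_lit 1788225480506163071688, nat_lit 1134627047396858661576, nat_lit 1134518987394080836296, nat_lit 2542464491059603834097, nat_lit 2542626581063770572026, nat_lit 2526580198629378899919, nat_lit 2536953958896050126808, nat_lit 16997, nat_lit 17061],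
  .leaf [nat_lit 29810, nat_lit 29507, nat_lit 33586, nat_lit 30308, nat_lit 34434, nat_lit 34132, nat_lit 34677, nat_lit 20544, nat_lit 25952, nat_lit 25170, nat_lit 33105],
  .inner [nat_lit 1773341761237655237666, nat_lit 1780151181889392092770, nat_lit 157077238322518041570, nat_lit 175776122385578861602, nat_lit 165399868426535838754, nat_lit 2518251450573271598946, nat_lit 1109261507858901774818, nat_lit 1780155144302723335586, nat_lit 2167530858876112997282, nat_lit 17126, nat_lit 17186, nat_lit 181445279407927214882],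
  .leaf [nat_lit 29780, nat_lit 33664, nat_lit 25698, nat_lit 25938, nat_lit 34180, nat_lit 34400, nat_lit 20544, nat_lit 30320, nat_lit 24865, nat_lit 33330],
  .leaf [nat_lit 29796, nat_lit 21586, nat_lit 20769, nat_lit 30064, nat_lit 30305, nat_lit 25954, nat_lit 24656, nat_lit 34112, nat_lit 34436, nat_lit 33603],
  .leaf [nat_lit 33152, nat_lit 33856, nat_lit 30320, nat_lit 24865, nat_lit 24656, nat_lit 33586, nat_lit 34437, nat_lit 33362, nat_lit 25698],
  .leaf [nat_lit 30064, nat_lit 20769, nat_lit 30305, nat_lit 25954, nat_lit 29796, nat_lit 21586, nat_lit 24656, nat_lit 34436, nat_lit 32832, nat_lit 17202],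
  .leaf [nat_lit 33152, nat_lit 33313, nat_lit 30305, nat_lit 25937, nat_lit 25698, nat_lit 34437, nat_lit 24640, nat_lit 33876, nat_lit 33603],
  .leaf [nat_lit 34178, nat_lit 34404, nat_lit 30324, nat_lit 25940, nat_lit 32848, nat_lit 33105, nat_lit 24928, nat_lit 25121],
  .leaf [nat_lit 25121, nat_lit 30324, nat_lit 34404, nat_lit 24928, nat_lit 25940, nat_lit 34177, nat_lit 33362, nat_lit 32848],
  .leaf [nat_lit 20544, nat_lit 30064, nat_lit 24928, nat_lit 25121, nat_lit 30324, nat_lit 25937, nat_lit 34404, nat_lit 34176],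
  .leaf [nat_lit 34437, nat_lit 33378, nat_lit 29796, nat_lit 32864, nat_lit 20816, nat_lit 21568, nat_lit 30305, nat_lit 30064],
  .leaf [nat_lit 34404, nat_lit 33121, nat_lit 28768, nat_lit 30306, nat_lit 21586, nat_lit 20769, nat_lit 30053, nat_lit 34178],
  .inner [nat_lit 2509283939405137183825, nat_lit 1140681319231021663276, nat_lit 2140439129923493561361, nat_lit 2509286433097508979802, nat_lit 2140441623615865357338, nat_lit 1775778909612440831020, nat_lit 17644, nat_lit 2542468924496595141877, nat_lit 17708, nat_lit 2542468924496595141941, nat_lit 17745, nat_lit 2542468924496595141978, nat_lit 17809, nat_lit 17871],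
  .leaf [nat_lit 24865, nat_lit 30034, nat_lit 28752, nat_lit 30304, nat_lit 25937, nat_lit 25684, nat_lit 29794, nat_lit 34436, nat_lit 34178, nat_lit 33586],
  .inner [nat_lit 630018227591356618384, nat_lit 17296, nat_lit 2542468924496595141529, nat_lit 17379, nat_lit 17452, nat_lit 2542468924496595141685, nat_lit 17507, nat_lit 17580, nat_lit 2542468924496595141813, nat_lit 17958, nat_lit 18018],
  .leaf [nat_lit 33152, nat_lit 17202, nat_lit 33856, nat_lit 29808, nat_lit 21586, nat_lit 25698, nat_lit 34405, nat_lit 30325, nat_lit 24656, nat_lit 33313, nat_lit 24913],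
  .leaf [nat_lit 33152, nat_lit 33856, nat_lit 29507, nat_lit 33586, nat_lit 33378, nat_lit 30308, nat_lit 25938, nat_lit 34132, nat_lit 30068, nat_lit 24656, nat_lit 20769, nat_lit 34401],
  .leaf [nat_lit 25170, nat_lit 30036, nat_lit 34180, nat_lit 17216, nat_lit 34404, nat_lit 24656, nat_lit 30324, nat_lit 29490, nat_lit 33666],
  .leaf [nat_lit 29040, nat_lit 12833, nat_lit 21073, nat_lit 29507, nat_lit 30305, nat_lit 30036, nat_lit 25954, nat_lit 24656, nat_lit 29796],
  .inner [nat_lit 629928177588992229598, nat_lit 2157729293180460085975, nat_lit 2141408177770145530090, nat_lit 618492715959172203038, nat_lit 629766048012070568158, nat_lit 2141246048193223868650, nat_lit 608118955692500976158, nat_lit 17377, nat_lit 1804470501129920462561, nat_lit 2536465718360071474077, nat_lit 2526089424828273527709, nat_lit 18270, nat_lit 18346],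
  .leaf [nat_lit 17202, nat_lit 33313, nat_lit 28736, nat_lit 21586, nat_lit 34436, nat_lit 25954, nat_lit 24656, nat_lit 30308, nat_lit 34145],
  .leaf [nat_lit 29040, nat_lit 21586, nat_lit 29760, nat_lit 17202, nat_lit 25698, nat_lit 25936, nat_lit 30325, nat_lit 34437],
  .leaf [nat_lit 34437, nat_lit 33313, nat_lit 21586, nat_lit 25698, nat_lit 30325, nat_lit 24913, nat_lit 20544, nat_lit 29808, nat_lit 17202],
  .leaf [nat_lit 29040, nat_lit 29490, nat_lit 33666, nat_lit 29760, nat_lit 30306, nat_lit 33892, nat_lit 30053, nat_lit 24656, nat_lit 34401],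
  .inner [nat_lit 18017, nat_lit 629772121994531455774, nat_lit 18462, nat_lit 2582849876711196675, nat_lit 2742446188506138627, nat_lit 2542468924496595142686, nat_lit 18499, nat_lit 18590, nat_lit 18641, nat_lit 2542468924496595142874],
  .leaf [nat_lit 30306, nat_lit 30036, nat_lit 25956, nat_lit 34434, nat_lit 24913, nat_lit 33152, nat_lit 33856, nat_lit 34130, nat_lit 24656, nat_lit 28961, nat_lit 33586, nat_lit 29507],
  .leaf [nat_lit 33152, nat_lit 33856, nat_lit 33313, nat_lit 25698, nat_lit 34437, nat_lit 21586, nat_lit 30325, nat_lit 24656, nat_lit 24913, nat_lit 29808, nat_lit 17202],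
  .leaf [nat_lit 33152, nat_lit 33586, nat_lit 29507, nat_lit 33856, nat_lit 30324, nat_lit 21586, nat_lit 34129, nat_lit 30064, nat_lit 25954, nat_lit 34404, nat_lit 24656, nat_lit 33377],
  .leaf [nat_lit 33152, nat_lit 33313, nat_lit 33603, nat_lit 30321, nat_lit 25698, nat_lit 30034, nat_lit 28752, nat_lit 29780, nat_lit 34180, nat_lit 24640, nat_lit 34405, nat_lit 24913],
  .leaf [nat_lit 33152, nat_lit 29040, nat_lit 29507, nat_lit 33586, nat_lit 33856, nat_lit 34402, nat_lit 30308, nat_lit 25938, nat_lit 34132, nat_lit 30068, nat_lit 24913, nat_lit 24656],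
  .leaf [nat_lit 17202, nat_lit 29808, nat_lit 21586, nat_lit 30308, nat_lit 25954, nat_lit 24656, nat_lit 34436, nat_lit 33057, nat_lit 24913],
  .leaf [nat_lit 25684, nat_lit 30034, nat_lit 30306, nat_lit 24913, nat_lit 33922, nat_lit 34437, nat_lit 33057, nat_lit 29490],
  .leaf [nat_lit 29507, nat_lit 30308, nat_lit 33922, nat_lit 33665, nat_lit 21073, nat_lit 34401, nat_lit 25954, nat_lit 34132, nat_lit 24656, nat_lit 30068],
  .inner [nat_lit 2142560849155753772637, nat_lit 1773720063583805777438, nat_lit 2142398759151587034717, nat_lit 18017, nat_lit 1109639810205052315166, nat_lit 181450657916065679710, nat_lit 181288567911898941790, nat_lit 1804362441127159152548, nat_lit 19102, nat_lit 2542468924496595143326, nat_lit 19165, nat_lit 19230],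
  .inner [nat_lit 2179456249951901727399, nat_lit 2542624861372774628007, nat_lit 2542462731795852966567, nat_lit 2542624892151633548135, nat_lit 2542264643764047057767, nat_lit 18081, nat_lit 18142, nat_lit 18206, nat_lit 18403, nat_lit 18722, nat_lit 18781, nat_lit 18846, nat_lit 18910, nat_lit 18977, nat_lit 19011, nat_lit 19298],
  .leaf [nat_lit 29490, nat_lit 34673, nat_lit 33908, nat_lit 30034, nat_lit 34437, nat_lit 24913, nat_lit 30306, nat_lit 25684],
  .inner [nat_lit 2142564727957965785823, nat_lit 181441453361923631716, nat_lit 2542464394326136859236, nat_lit 629928177657694925827, nat_lit 1804938901845102837726, nat_lit 2526089424828273527012, nat_lit 175856967833751652580, nat_lit 165480674301953706212, nat_lit 181441369819507067481, nat_lit 2511499732549407885156, nat_lit 2542464491059603835479, nat_lit 2542626581063770573408, nat_lit 19428],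
  .inner [nat_lit 1780151203874255942691, nat_lit 1773341739252791391267, nat_lit 175270395422897604394, nat_lit 624172458586659631587, nat_lit 187213827285357441507, nat_lit 187051697708435780067, nat_lit 592881545147811105187, nat_lit 593043635151977843107, nat_lit 157075808968188889507, nat_lit 157237898972355627427, nat_lit 1810613437375589662691, nat_lit 1810611440470258091491, nat_lit 19490],
  .leaf [nat_lit 30036, nat_lit 25954, nat_lit 30308, nat_lit 24656, nat_lit 34437, nat_lit 34672, nat_lit 33394, nat_lit 29507],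
  .leaf [nat_lit 33922, nat_lit 33603, nat_lit 34675, nat_lit 34165, nat_lit 28736, nat_lit 21584, nat_lit 29810, nat_lit 34422, nat_lit 25696],
  .inner [nat_lit 630024323352474174954, nat_lit 2518421083280825654890, nat_lit 2518250887760757130879, nat_lit 2526095313795438097416, nat_lit 2518509739090621777322, nat_lit 608209005694815831082, nat_lit 2526202014999362667434, nat_lit 2526095313795438096840, nat_lit 2542624892151633545818, nat_lit 2157267155515404190250, nat_lit 19626, nat_lit 19687, nat_lit 624164156020829474023],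
  .leaf [nat_lit 33152, nat_lit 33586, nat_lit 34672, nat_lit 20769, nat_lit 30066, nat_lit 29507, nat_lit 34401, nat_lit 30306, nat_lit 34149, nat_lit 24656, nat_lit 25684, nat_lit 29760],
  .leaf [nat_lit 25954, nat_lit 29796, nat_lit 33922, nat_lit 34437, nat_lit 34674, nat_lit 30036, nat_lit 29507, nat_lit 33057, nat_lit 24656],
  .inner [nat_lit 165399868426535838754, nat_lit 157239367899439703074, nat_lit 607633930157562011938, nat_lit 1109639695883776821666, nat_lit 593042227782462998946, nat_lit 1109261507858901771874, nat_lit 592880181747957900898, nat_lit 1109639810205052315170, nat_lit 593042311324879562274, nat_lit 1109261507858901771234, nat_lit 592880181747957900258, nat_lit 19747, nat_lit 19818, nat_lit 19874],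
  .inner [nat_lit 2142564727957965785823, nat_lit 181445393721688345764, nat_lit 2542628494426536955044, nat_lit 181443423205724272159, nat_lit 2511589681139089950180, nat_lit 187299958637894583780, nat_lit 2511341450995839277668, nat_lit 2742538525479290815],
  .inner [nat_lit 2179298650545438346659, nat_lit 1146046887594968483690, nat_lit 2511335632449007794916, nat_lit 2536950356621146738083, nat_lit 1773341739252791391267, nat_lit 2542628494426536952611, nat_lit 2526574102662103715235, nat_lit 1773341761237671742691, nat_lit 20002],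
  .leaf [nat_lit 33313, nat_lit 33859, nat_lit 29040, nat_lit 21586, nat_lit 29760, nat_lit 33651, nat_lit 34165, nat_lit 25956, nat_lit 34402, nat_lit 24913, nat_lit 34678, nat_lit 24656],
  .leaf [nat_lit 29552, nat_lit 33856, nat_lit 33603, nat_lit 30304, nat_lit 25956, nat_lit 24913, nat_lit 34437, nat_lit 34676, nat_lit 33378, nat_lit 21586, nat_lit 30032],
  .inner [nat_lit 1140390388452165158755, nat_lit 1770913757936212772266, nat_lit 1772050050839177332138, nat_lit 1804470641830918621027, nat_lit 2142564873065449408930, nat_lit 1804360584924956202210, nat_lit 2536950009732711585766, nat_lit 20130, nat_lit 20195],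
  .inner [nat_lit 2179456249951901729245, nat_lit 2179294120374980067805, nat_lit 1810613437375589662749, nat_lit 2542626581063770577117, nat_lit 2542464491059603839197, nat_lit 2536951988372571691037, nat_lit 2542626523903058526690, nat_lit 2542464394326136865250, nat_lit 2168107178890928068642, nat_lit 2542624892151633549534, nat_lit 2542462802147466811614, nat_lit 17246, nat_lit 2542628494426536952669, nat_lit 2179458220475380155234, nat_lit 2179458246857233285987, nat_lit 19391, nat_lit 2179458246857233288127, nat_lit 2179458220475380157375, nat_lit 2542628494426536954815, nat_lit 19549, nat_lit 19934, nat_lit 2542628494426536955357, nat_lit 2542468898114742013405, nat_lit 2542468924496595144158, nat_lit 20061, nat_lit 2542628494426536955486, nat_lit 20255, nat_lit 2542628494426536955685],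
  .inner [nat_lit 6553, nat_lit 2542628494426536941976, nat_lit 2542626523903058516376, nat_lit 2542232274416351582616, nat_lit 2542230303892873157016, nat_lit 2536953958896050117021, nat_lit 2536951988372571691421, nat_lit 2168109149414406494626, nat_lit 2168107178890928069026, nat_lit 2542340360800982538649, nat_lit 2542336701365367085465, nat_lit 2536953985277903247774, nat_lit 2168109175796259625379, nat_lit 2542464491059603839388, nat_lit 2542462802147466811804, nat_lit 16920, nat_lit 2179458246857233285656, nat_lit 2179061930113647002136, nat_lit 2542232204064803799576, nat_lit 1810613437375589663261, nat_lit 2536467596547138273821, nat_lit 2179169990116408312345, nat_lit 2542340264067565109785, nat_lit 2536575656549899584030, nat_lit 2179294120374980067868, nat_lit 2542464394326136865308, nat_lit 2536699786808471339553, nat_lit 20316, nat_lit 2542624892151633563480, nat_lit 2542626581063770591065],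
  .leaf [nat_lit 34128, nat_lit 21042, nat_lit 21571, nat_lit 33856, nat_lit 33346, nat_lit 25698, nat_lit 24865, nat_lit 34674, nat_lit 30068, nat_lit 30309],
  .leaf [nat_lit 33152, nat_lit 34128, nat_lit 12833, nat_lit 33362, nat_lit 25954, nat_lit 29297, nat_lit 30068, nat_lit 25666, nat_lit 34692],
  .leaf [nat_lit 33152, nat_lit 34128, nat_lit 21571, nat_lit 33856, nat_lit 21058, nat_lit 30068, nat_lit 34690, nat_lit 30322],
  .leaf [nat_lit 34130, nat_lit 21571, nat_lit 33858, nat_lit 33057, nat_lit 25138, nat_lit 25956, nat_lit 30068, nat_lit 30322],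
  .leaf [nat_lit 25138, nat_lit 34130, nat_lit 30309, nat_lit 25666, nat_lit 21571, nat_lit 30068, nat_lit 33922, nat_lit 33057, nat_lit 29025],
  .inner [nat_lit 1810125060438361392610, nat_lit 2526485622853595038882, nat_lit 1788796003890307794018, nat_lit 2526485622853595038754, nat_lit 165482622160890495522, nat_lit 2526485622853595038946, nat_lit 2526485622853595038498, nat_lit 20451, nat_lit 20492, nat_lit 20550, nat_lit 20642, nat_lit 20706],
  .leaf [nat_lit 33409, nat_lit 33858, nat_lit 34130, nat_lit 34688, nat_lit 28768],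
  .inner [nat_lit 1771158229941437611492, nat_lit 2542336615053686750682, nat_lit 1109264301961704899162, nat_lit 2509028102145853891738, nat_lit 1134619568550995559012, nat_lit 20826],
  .leaf [nat_lit 25121, nat_lit 33409, nat_lit 17218, nat_lit 34180, nat_lit 25956, nat_lit 29810, nat_lit 28752, nat_lit 30304, nat_lit 34688],
  .leaf [nat_lit 25121, nat_lit 33409, nat_lit 17218, nat_lit 25940, nat_lit 34180, nat_lit 34674, nat_lit 30308, nat_lit 32880, nat_lit 30032, nat_lit 29025],
  .inner [nat_lit 2542628520806243127386, nat_lit 1109635262410782683236, nat_lit 2517981258220096980826, nat_lit 2142398407032944199450, nat_lit 2157154565318947898778, nat_lit 1780111495958909683556, nat_lit 20887, nat_lit 20945, nat_lit 21009],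
  .leaf [nat_lit 34132, nat_lit 25956, nat_lit 30306, nat_lit 28768, nat_lit 34688, nat_lit 30068, nat_lit 33394],
  .inner [nat_lit 2830618210473362886, nat_lit 147851053855228048902, nat_lit 2578416440215358150, nat_lit 148100742081039844742, nat_lit 148098727775907366278, nat_lit 2142398521354616061126, nat_lit 20887, nat_lit 21126],
  .leaf [nat_lit 30320, nat_lit 34130, nat_lit 25954, nat_lit 24865, nat_lit 30068, nat_lit 33409, nat_lit 34688, nat_lit 29250, nat_lit 20544],
  .leaf [nat_lit 34180, nat_lit 21042, nat_lit 33057, nat_lit 25185, nat_lit 25956, nat_lit 30066, nat_lit 28736, nat_lit 34688, nat_lit 30304, nat_lit 29762],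
  .leaf [nat_lit 24928, nat_lit 33152, nat_lit 20528, nat_lit 34180, nat_lit 25956, nat_lit 30064, nat_lit 30306, nat_lit 29760, nat_lit 29250, nat_lit 34690],
  .leaf [nat_lit 25170, nat_lit 34178, nat_lit 12833, nat_lit 30321, nat_lit 30068, nat_lit 34689, nat_lit 28752, nat_lit 29250, nat_lit 25696, nat_lit 33920],
  .leaf [nat_lit 21058, nat_lit 25138, nat_lit 34178, nat_lit 33057, nat_lit 30308, nat_lit 34692, nat_lit 30053, nat_lit 20544, nat_lit 32880, nat_lit 29025],
  .leaf [nat_lit 12833, nat_lit 25170, nat_lit 34178, nat_lit 29762, nat_lit 34692, nat_lit 20544, nat_lit 32880, nat_lit 30304, nat_lit 25956, nat_lit 29297],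
  .leaf [nat_lit 33362, nat_lit 33057, nat_lit 25138, nat_lit 25956, nat_lit 30322, nat_lit 30068, nat_lit 34692, nat_lit 29056, nat_lit 28768, nat_lit 34128],
  .inner [nat_lit 20504, nat_lit 1804938901845102841890, nat_lit 1804938901845102842628, nat_lit 21316, nat_lit 1804938901845102842692, nat_lit 21382, nat_lit 21444, nat_lit 1804938901845102842820, nat_lit 21508, nat_lit 21572, nat_lit 21636],
  .leaf [nat_lit 33876, nat_lit 25956, nat_lit 25138, nat_lit 33409, nat_lit 34130, nat_lit 17218, nat_lit 29810, nat_lit 30325, nat_lit 28736, nat_lit 29025, nat_lit 34688],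
  .leaf [nat_lit 25170, nat_lit 33330, nat_lit 24865, nat_lit 21571, nat_lit 25666, nat_lit 34180, nat_lit 34674, nat_lit 30068, nat_lit 20544, nat_lit 32880, nat_lit 30304],
  .leaf [nat_lit 25940, nat_lit 25138, nat_lit 17218, nat_lit 34180, nat_lit 33362, nat_lit 33057, nat_lit 29810, nat_lit 30325, nat_lit 29025, nat_lit 28736, nat_lit 34688],
  .leaf [nat_lit 33330, nat_lit 24865, nat_lit 25938, nat_lit 21571, nat_lit 34180, nat_lit 25154, nat_lit 25680, nat_lit 30068, nat_lit 34674, nat_lit 32880, nat_lit 30304],
  .leaf [nat_lit 34180, nat_lit 33330, nat_lit 34674, nat_lit 25938, nat_lit 21571, nat_lit 25698, nat_lit 30068, nat_lit 24865, nat_lit 20544, nat_lit 32880, nat_lit 30304],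
  .leaf [nat_lit 33394, nat_lit 33057, nat_lit 25138, nat_lit 33859, nat_lit 34130, nat_lit 30308, nat_lit 29025, nat_lit 30053, nat_lit 32880],
  .leaf [nat_lit 34132, nat_lit 25956, nat_lit 28768, nat_lit 30032, nat_lit 29250, nat_lit 30306, nat_lit 34690, nat_lit 33856, nat_lit 33137],
  .inner [nat_lit 148098727775907366278, nat_lit 21009, nat_lit 593133642739343428291, nat_lit 1804938901845102842892, nat_lit 148098771756204705158, nat_lit 9263750596438524934, nat_lit 9263750607173321734, nat_lit 590908992066771239706, nat_lit 22103, nat_lit 1804938901845102843479, nat_lit 22150],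
  .leaf [nat_lit 33362, nat_lit 33057, nat_lit 25138, nat_lit 17218, nat_lit 29810, nat_lit 30309, nat_lit 25684, nat_lit 34180, nat_lit 29025, nat_lit 28736, nat_lit 34688],
  .leaf [nat_lit 25138, nat_lit 33362, nat_lit 33057, nat_lit 30053, nat_lit 17218, nat_lit 25684, nat_lit 29810, nat_lit 34180, nat_lit 29025, nat_lit 34688, nat_lit 28736],
  .leaf [nat_lit 34130, nat_lit 25954, nat_lit 21571, nat_lit 25666, nat_lit 30068, nat_lit 20544, nat_lit 30304, nat_lit 33922, nat_lit 24865, nat_lit 12929, nat_lit 34673, nat_lit 32880],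
  .inner [nat_lit 20760, nat_lit 21060, nat_lit 21188, nat_lit 21708, nat_lit 1804938901842955883782, nat_lit 2542628520806243128582, nat_lit 21828, nat_lit 1804938901845102843204, nat_lit 21892, nat_lit 1804938901845102843268, nat_lit 21956, nat_lit 22020, nat_lit 22212, nat_lit 22276, nat_lit 22340, nat_lit 1804938901845102843716, nat_lit 22404],
  .leaf [nat_lit 20528, nat_lit 34176, nat_lit 25170, nat_lit 30064, nat_lit 34678, nat_lit 33394, nat_lit 33137, nat_lit 21570, nat_lit 33908],
  .leaf [nat_lit 32880, nat_lit 25664, nat_lit 20528, nat_lit 30068, nat_lit 34180, nat_lit 34678, nat_lit 33394, nat_lit 25154, nat_lit 17202],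
  .leaf [nat_lit 32880, nat_lit 33892, nat_lit 17200, nat_lit 30324, nat_lit 16946, nat_lit 33394, nat_lit 34132, nat_lit 30034, nat_lit 20544],
  .inner [nat_lit 618582765757525919112, nat_lit 1116560004466092559754, nat_lit 1810231567930301358183, nat_lit 1135089510778225565351, nat_lit 1810357576375873833023, nat_lit 22560, nat_lit 2542626581269878691879, nat_lit 22631, nat_lit 22695],
  .leaf [nat_lit 25940, nat_lit 25170, nat_lit 17202, nat_lit 24865, nat_lit 33922, nat_lit 34678, nat_lit 29250, nat_lit 33137, nat_lit 34165, nat_lit 20544, nat_lit 32880],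
  .leaf [nat_lit 33394, nat_lit 25666, nat_lit 34676, nat_lit 24865, nat_lit 33137, nat_lit 21586, nat_lit 20544, nat_lit 34160],
  .inner [nat_lit 1146438700557530047999, nat_lit 1109725228881184568346, nat_lit 592677933192244903423, nat_lit 624167119344805887450, nat_lit 1140673983083836358106, nat_lit 623770802601219603930, nat_lit 1140277666340250074586, nat_lit 22887],
  .leaf [nat_lit 32880, nat_lit 21571, nat_lit 34180, nat_lit 33394, nat_lit 25938, nat_lit 29762, nat_lit 20544, nat_lit 25698, nat_lit 24865],
  .inner [nat_lit 1146438700557530047642, nat_lit 1135089510778225569909, nat_lit 1107419394668063896602, nat_lit 1107329322680885195226, nat_lit 593218492654034094490, nat_lit 1146046887327672059953, nat_lit 39470146949024319258, nat_lit 39344076945783523098, nat_lit 23029],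
  .leaf [nat_lit 24928, nat_lit 25121, nat_lit 25664, nat_lit 17202, nat_lit 21584, nat_lit 33922, nat_lit 34676, nat_lit 30322, nat_lit 30034, nat_lit 33137, nat_lit 32880],
  .leaf [nat_lit 24928, nat_lit 25121, nat_lit 33922, nat_lit 34678, nat_lit 33137, nat_lit 32832, nat_lit 28752, nat_lit 29796, nat_lit 17200, nat_lit 34132, nat_lit 29266, nat_lit 16946],
  .inner [nat_lit 181281293628868674328, nat_lit 1146438700557530054616, nat_lit 1135089629496556391640, nat_lit 2536698124278187431399, nat_lit 187043536588747311000, nat_lit 2526485622853595039128, nat_lit 2526123109535244889653, nat_lit 22745, nat_lit 22808, nat_lit 22936, nat_lit 23064, nat_lit 23143, nat_lit 23207],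
  .leaf [nat_lit 33121, nat_lit 25121, nat_lit 33586, nat_lit 17218, nat_lit 33892, nat_lit 34132, nat_lit 30324, nat_lit 29040, nat_lit 34688, nat_lit 33394, nat_lit 30034, nat_lit 20544],
  .leaf [nat_lit 24865, nat_lit 25170, nat_lit 30320, nat_lit 17218, nat_lit 25956, nat_lit 29810, nat_lit 34178, nat_lit 33665, nat_lit 34673, nat_lit 33876, nat_lit 32832, nat_lit 30032],
  .leaf [nat_lit 33121, nat_lit 29040, nat_lit 25121, nat_lit 33394, nat_lit 33586, nat_lit 17218, nat_lit 34180, nat_lit 34404, nat_lit 30324, nat_lit 30034, nat_lit 20544, nat_lit 34688],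
  .leaf [nat_lit 30320, nat_lit 34688, nat_lit 30068, nat_lit 33394, nat_lit 33586, nat_lit 21571, nat_lit 24865, nat_lit 25938, nat_lit 33858, nat_lit 20544, nat_lit 25698],
  .leaf [nat_lit 29025, nat_lit 34688, nat_lit 25138, nat_lit 33057, nat_lit 30053, nat_lit 21571, nat_lit 20544, nat_lit 30308, nat_lit 21058, nat_lit 33908, nat_lit 33666, nat_lit 34162],
  .leaf [nat_lit 25138, nat_lit 34130, nat_lit 33057, nat_lit 17218, nat_lit 25956, nat_lit 30325, nat_lit 29810, nat_lit 28736, nat_lit 29025, nat_lit 34688, nat_lit 33876],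
  .leaf [nat_lit 25138, nat_lit 25956, nat_lit 33362, nat_lit 33057, nat_lit 17218, nat_lit 30325, nat_lit 29810, nat_lit 29025, nat_lit 28736, nat_lit 34688, nat_lit 34132],
  .leaf [nat_lit 25940, nat_lit 21058, nat_lit 25138, nat_lit 30325, nat_lit 29796, nat_lit 34180, nat_lit 33666, nat_lit 34674, nat_lit 29025, nat_lit 32880, nat_lit 20544],
  .leaf [nat_lit 30320, nat_lit 25698, nat_lit 25938, nat_lit 21571, nat_lit 20544, nat_lit 30068, nat_lit 34688, nat_lit 33394, nat_lit 34180, nat_lit 33586, nat_lit 24865],
  .leaf [nat_lit 25138, nat_lit 33666, nat_lit 21058, nat_lit 34674, nat_lit 29796, nat_lit 21584, nat_lit 25923, nat_lit 34180, nat_lit 32880, nat_lit 30325, nat_lit 29025],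
  .inner [nat_lit 22394, nat_lit 2144713795149536442746, nat_lit 2511499639938119391098, nat_lit 592602063453617657466, nat_lit 22330, nat_lit 2511499639938119391034, nat_lit 21946, nat_lit 2144704927038905268090, nat_lit 23335, nat_lit 23418, nat_lit 23463, nat_lit 23546, nat_lit 23610, nat_lit 23674, nat_lit 2511499639938119392378, nat_lit 23738, nat_lit 23802, nat_lit 23866, nat_lit 23930],
  .leaf [nat_lit 21571, nat_lit 33664, nat_lit 25138, nat_lit 34130, nat_lit 25666, nat_lit 33922, nat_lit 33057, nat_lit 20544, nat_lit 30068, nat_lit 34672, nat_lit 30322],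
  .leaf [nat_lit 25170, nat_lit 12833, nat_lit 24624, nat_lit 33664, nat_lit 34178, nat_lit 20544, nat_lit 30064, nat_lit 33908, nat_lit 30308, nat_lit 29250, nat_lit 29025, nat_lit 34689],
  .leaf [nat_lit 24656, nat_lit 24880, nat_lit 29040, nat_lit 30068, nat_lit 34176, nat_lit 33665, nat_lit 33362, nat_lit 34692, nat_lit 29217, nat_lit 30308],
  .leaf [nat_lit 24624, nat_lit 33664, nat_lit 34178, nat_lit 33057, nat_lit 34672, nat_lit 33858, nat_lit 29025, nat_lit 30272, nat_lit 30032],
  .inner [nat_lit 2179097960261433184324, nat_lit 1109635306391080022084, nat_lit 2157730885333762966916, nat_lit 148188823132573549976, nat_lit 147726380377045218776, nat_lit 2167762679996850636198, nat_lit 24140, nat_lit 24215],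
  .leaf [nat_lit 24624, nat_lit 25684, nat_lit 33664, nat_lit 34180, nat_lit 17216, nat_lit 30324, nat_lit 34672, nat_lit 30032, nat_lit 29266, nat_lit 29025, nat_lit 33346, nat_lit 33057],
  .leaf [nat_lit 25684, nat_lit 25138, nat_lit 17218, nat_lit 34180, nat_lit 29810, nat_lit 33666, nat_lit 30034, nat_lit 28752, nat_lit 30304, nat_lit 34688, nat_lit 28961],
  .leaf [nat_lit 24624, nat_lit 33664, nat_lit 33330, nat_lit 25170, nat_lit 24865, nat_lit 25666, nat_lit 30320, nat_lit 34674, nat_lit 33137, nat_lit 30032, nat_lit 29760],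
  .leaf [nat_lit 25138, nat_lit 30034, nat_lit 25684, nat_lit 17218, nat_lit 29810, nat_lit 34180, nat_lit 33666, nat_lit 20544, nat_lit 32816, nat_lit 34672, nat_lit 28961],
  .inner [nat_lit 147601666338671311447, nat_lit 2585758329823311831, nat_lit 2157548516009769971174, nat_lit 2458270781553784919, nat_lit 21828, nat_lit 592602063453617657412, nat_lit 147853775581322678596, nat_lit 147852366837423542616, nat_lit 24024, nat_lit 24076, nat_lit 24282, nat_lit 24326, nat_lit 24388, nat_lit 24471, nat_lit 24536],
  .leaf [nat_lit 32816, nat_lit 25138, nat_lit 33057, nat_lit 33362, nat_lit 21571, nat_lit 33858, nat_lit 25956, nat_lit 34128, nat_lit 30068, nat_lit 30322, nat_lit 34672],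
  .leaf [nat_lit 25121, nat_lit 25938, nat_lit 21571, nat_lit 25666, nat_lit 34180, nat_lit 30068, nat_lit 34422, nat_lit 33394, nat_lit 32880],
  .inner [nat_lit 593128442677482751846, nat_lit 1134547530619786888639, nat_lit 1109635306416513222502, nat_lit 2526491534011715028774, nat_lit 2167763242809365104038, nat_lit 2536572054274946631078, nat_lit 1146437457840888354490, nat_lit 2511333289876150814598, nat_lit 187043536588747311014, nat_lit 24698, nat_lit 24742],
  .leaf [nat_lit 24624, nat_lit 30320, nat_lit 33152, nat_lit 34179, nat_lit 34677, nat_lit 17218, nat_lit 33856, nat_lit 21584, nat_lit 33362, nat_lit 29810],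
  .leaf [nat_lit 24865, nat_lit 24624, nat_lit 33664, nat_lit 33409, nat_lit 34130, nat_lit 33876, nat_lit 20544, nat_lit 34672, nat_lit 30321, nat_lit 29796],
  .leaf [nat_lit 17218, nat_lit 25696, nat_lit 33664, nat_lit 33313, nat_lit 34130, nat_lit 33876, nat_lit 20544, nat_lit 29810, nat_lit 34672],
  .leaf [nat_lit 24865, nat_lit 24624, nat_lit 33665, nat_lit 33362, nat_lit 34176, nat_lit 30320, nat_lit 34673, nat_lit 33908, nat_lit 25714, nat_lit 30036],
  .leaf [nat_lit 32816, nat_lit 34178, nat_lit 33057, nat_lit 33876, nat_lit 17218, nat_lit 20544, nat_lit 25696, nat_lit 29810, nat_lit 34672],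
  .leaf [nat_lit 24865, nat_lit 24624, nat_lit 30320, nat_lit 25666, nat_lit 21586, nat_lit 20544, nat_lit 34676, nat_lit 34165, nat_lit 33137],
  .leaf [nat_lit 30308, nat_lit 33394, nat_lit 33665, nat_lit 34130, nat_lit 30036, nat_lit 32848, nat_lit 34672],
  .leaf [nat_lit 32816, nat_lit 17218, nat_lit 25696, nat_lit 30322, nat_lit 33876, nat_lit 20544, nat_lit 30034, nat_lit 34672],
  .leaf [nat_lit 33057, nat_lit 33584, nat_lit 34130, nat_lit 33859, nat_lit 20544, nat_lit 34677, nat_lit 25696, nat_lit 32880],
  .leaf [nat_lit 32880, nat_lit 33584, nat_lit 33362, nat_lit 33057, nat_lit 21568, nat_lit 25696, nat_lit 34180],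
  .inner [nat_lit 1107967265277661945418, nat_lit 592065572729969460512, nat_lit 1108482385092631087500, nat_lit 25228, nat_lit 25316, nat_lit 25354, nat_lit 25418],
  .leaf [nat_lit 17218, nat_lit 29810, nat_lit 32880, nat_lit 33584, nat_lit 34180, nat_lit 33362, nat_lit 33057, nat_lit 21584, nat_lit 25696],
  .inner [nat_lit 2536575656316904948889, nat_lit 592065445217726121113, nat_lit 2536575665111329424409, nat_lit 592065572729969460249, nat_lit 24835, nat_lit 24985, nat_lit 25036, nat_lit 25113, nat_lit 25190, nat_lit 25497, nat_lit 25561],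
  .leaf [nat_lit 24928, nat_lit 12833, nat_lit 21058, nat_lit 25667, nat_lit 33922, nat_lit 34179, nat_lit 30322, nat_lit 34677, nat_lit 33137, nat_lit 32816, nat_lit 20544, nat_lit 29808],
  .leaf [nat_lit 21571, nat_lit 24624, nat_lit 20544, nat_lit 33664, nat_lit 30324, nat_lit 30053, nat_lit 21058, nat_lit 34672, nat_lit 29025, nat_lit 34180, nat_lit 33394],
  .leaf [nat_lit 24624, nat_lit 29025, nat_lit 33664, nat_lit 34672, nat_lit 30053, nat_lit 21571, nat_lit 20544, nat_lit 29796, nat_lit 21058, nat_lit 34180, nat_lit 33394],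
  .leaf [nat_lit 24865, nat_lit 25938, nat_lit 21571, nat_lit 25666, nat_lit 24656, nat_lit 30068, nat_lit 30320, nat_lit 34688, nat_lit 34180, nat_lit 33394, nat_lit 33586],
  .leaf [nat_lit 24624, nat_lit 33664, nat_lit 29025, nat_lit 34672, nat_lit 33057, nat_lit 30053, nat_lit 21571, nat_lit 20544, nat_lit 33908, nat_lit 21058, nat_lit 34178, nat_lit 30308],
  .leaf [nat_lit 21042, nat_lit 24865, nat_lit 30304, nat_lit 25667, nat_lit 33666, nat_lit 30066, nat_lit 29762, nat_lit 25940, nat_lit 34180, nat_lit 20544, nat_lit 34688, nat_lit 33137],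
  .leaf [nat_lit 24624, nat_lit 33664, nat_lit 34672, nat_lit 30308, nat_lit 29025, nat_lit 30053, nat_lit 21571, nat_lit 34180, nat_lit 21058, nat_lit 33394, nat_lit 20544],
  .leaf [nat_lit 24624, nat_lit 24865, nat_lit 33664, nat_lit 33330, nat_lit 25938, nat_lit 29040, nat_lit 30032, nat_lit 25666, nat_lit 34674, nat_lit 29760],
  .leaf [nat_lit 24624, nat_lit 33664, nat_lit 34180, nat_lit 34672, nat_lit 33394, nat_lit 30309, nat_lit 29025, nat_lit 29796, nat_lit 21571, nat_lit 21058, nat_lit 20544],
  .leaf [nat_lit 24624, nat_lit 33664, nat_lit 33137, nat_lit 30305, nat_lit 34180, nat_lit 28752, nat_lit 29760, nat_lit 21571, nat_lit 25956, nat_lit 29250, nat_lit 30034],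
  .inner [nat_lit 2542628520806243130694, nat_lit 2511499639938119391044, nat_lit 2542628520806243128582, nat_lit 623806813816259352070, nat_lit 2536698124278187429848, nat_lit 24326, nat_lit 25639, nat_lit 25703, nat_lit 25734, nat_lit 25860, nat_lit 25926, nat_lit 25988, nat_lit 26054, nat_lit 26135, nat_lit 26182, nat_lit 26246],
  .leaf [nat_lit 17200, nat_lit 33856, nat_lit 30324, nat_lit 16946, nat_lit 33394, nat_lit 34402, nat_lit 34672, nat_lit 34130, nat_lit 30036],
  .leaf [nat_lit 25664, nat_lit 16946, nat_lit 29810, nat_lit 34672, nat_lit 33922, nat_lit 34422, nat_lit 34165, nat_lit 21584, nat_lit 28961],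
  .inner [nat_lit 629935716101630460751, nat_lit 2542626524109216178312, nat_lit 624007654971756006794, nat_lit 2157161769550657881928, nat_lit 618582765757525919112, nat_lit 593220964318536818824, nat_lit 618492715755211064712, nat_lit 26407, nat_lit 2542468924496595150631, nat_lit 26471],
  .leaf [nat_lit 25956, nat_lit 25170, nat_lit 24865, nat_lit 17202, nat_lit 33858, nat_lit 29810, nat_lit 34422, nat_lit 34673, nat_lit 28736, nat_lit 34165, nat_lit 21584],
  .inner [nat_lit 1116470059787146518680, nat_lit 1773473187764187193496, nat_lit 593128442677482751832, nat_lit 1109635306416513222488, nat_lit 2167763242809365104024, nat_lit 2167637172806124307864, nat_lit 187045879161670353688, nat_lit 2542468898114742018200, nat_lit 1135089629496556391640, nat_lit 26521, nat_lit 26584],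
  .inner [nat_lit 629935716101630460751, nat_lit 1116560004466092559754, nat_lit 2179456307318721894439, nat_lit 1109551145312577675407, nat_lit 1116551146525574825807, nat_lit 1780727514886837383626, nat_lit 2179294217314555156519, nat_lit 2536465656802452702607],
  .inner [nat_lit 24728, nat_lit 2157558051116348081946, nat_lit 1773473187764187193496, nat_lit 1780633933169455007576, nat_lit 2157550741384772715928, nat_lit 2167636609993609840026, nat_lit 2517999813908150359655, nat_lit 2526089402843409679768, nat_lit 1107329463407300052826, nat_lit 26713],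
  .leaf [nat_lit 33121, nat_lit 33330, nat_lit 25121, nat_lit 34674, nat_lit 34180, nat_lit 17218, nat_lit 34404, nat_lit 30324, nat_lit 30034, nat_lit 29024, nat_lit 32880, nat_lit 20544],
  .leaf [nat_lit 24928, nat_lit 25667, nat_lit 20544, nat_lit 34436, nat_lit 25121, nat_lit 21058, nat_lit 30324, nat_lit 34673, nat_lit 33394, nat_lit 34165, nat_lit 32880],
  .leaf [nat_lit 25138, nat_lit 21058, nat_lit 34178, nat_lit 33892, nat_lit 33603, nat_lit 30322, nat_lit 34676, nat_lit 28768, nat_lit 20544, nat_lit 30080],
  .leaf [nat_lit 25121, nat_lit 33330, nat_lit 25666, nat_lit 17234, nat_lit 34180, nat_lit 34674, nat_lit 30068, nat_lit 32880, nat_lit 30304],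
  .leaf [nat_lit 34433, nat_lit 21058, nat_lit 33666, nat_lit 33892, nat_lit 34115, nat_lit 20544, nat_lit 34674, nat_lit 30068, nat_lit 32880, nat_lit 30304],
  .leaf [nat_lit 12833, nat_lit 33603, nat_lit 21058, nat_lit 34178, nat_lit 25698, nat_lit 20544, nat_lit 34676, nat_lit 29297, nat_lit 30304, nat_lit 32880],
  .leaf [nat_lit 25121, nat_lit 33586, nat_lit 17218, nat_lit 34180, nat_lit 29810, nat_lit 34689, nat_lit 30034, nat_lit 28736, nat_lit 32848, nat_lit 29024],
  .leaf [nat_lit 34433, nat_lit 33603, nat_lit 32880, nat_lit 30304, nat_lit 33892, nat_lit 20544, nat_lit 34130, nat_lit 30068, nat_lit 29282, nat_lit 34690],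
  .leaf [nat_lit 12833, nat_lit 17218, nat_lit 34180, nat_lit 33362, nat_lit 29810, nat_lit 33137, nat_lit 30306, nat_lit 28768, nat_lit 32832, nat_lit 30032],
  .leaf [nat_lit 25121, nat_lit 30304, nat_lit 33330, nat_lit 17218, nat_lit 34180, nat_lit 29810, nat_lit 33137, nat_lit 30032, nat_lit 34642, nat_lit 32832],
  .leaf [nat_lit 12833, nat_lit 21058, nat_lit 25698, nat_lit 34178, nat_lit 34692, nat_lit 33603, nat_lit 20544, nat_lit 32880, nat_lit 30304, nat_lit 29297],
  .leaf [nat_lit 25121, nat_lit 17218, nat_lit 30068, nat_lit 30308, nat_lit 29024, nat_lit 34690, nat_lit 34180, nat_lit 32880, nat_lit 33586],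
  .inner [nat_lit 186775603197244362810, nat_lit 1804594772297794999651, nat_lit 26979, nat_lit 2511207539281272793514, nat_lit 27098, nat_lit 27194, nat_lit 27258, nat_lit 27270, nat_lit 27386, nat_lit 27450, nat_lit 27514, nat_lit 27578],
  .leaf [nat_lit 21058, nat_lit 20544, nat_lit 24624, nat_lit 25698, nat_lit 24865, nat_lit 30320, nat_lit 34432, nat_lit 34674, nat_lit 33137, nat_lit 33908, nat_lit 34165],
  .leaf [nat_lit 24928, nat_lit 25121, nat_lit 25667, nat_lit 34436, nat_lit 20544, nat_lit 21058, nat_lit 30324, nat_lit 34672, nat_lit 33394, nat_lit 34165, nat_lit 33137],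
  .leaf [nat_lit 24928, nat_lit 25121, nat_lit 34404, nat_lit 17200, nat_lit 16946, nat_lit 29810, nat_lit 28736, nat_lit 34678, nat_lit 34165, nat_lit 32848, nat_lit 33137, nat_lit 33362],
  .leaf [nat_lit 24928, nat_lit 25121, nat_lit 34678, nat_lit 33922, nat_lit 32832, nat_lit 29808, nat_lit 33137, nat_lit 34165, nat_lit 20528, nat_lit 25667, nat_lit 29250, nat_lit 21042],
  .leaf [nat_lit 24928, nat_lit 25121, nat_lit 20544, nat_lit 25667, nat_lit 30324, nat_lit 21058, nat_lit 34436, nat_lit 34677, nat_lit 33394, nat_lit 32880, nat_lit 33137],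
  .leaf [nat_lit 25121, nat_lit 17202, nat_lit 34180, nat_lit 33666, nat_lit 34404, nat_lit 33121, nat_lit 34674, nat_lit 32880, nat_lit 30032, nat_lit 30304, nat_lit 29762],
  .leaf [nat_lit 17202, nat_lit 25121, nat_lit 20544, nat_lit 24624, nat_lit 34404, nat_lit 30324, nat_lit 33394, nat_lit 30034, nat_lit 34180, nat_lit 34688, nat_lit 33121, nat_lit 29040],
  .leaf [nat_lit 24928, nat_lit 25121, nat_lit 21058, nat_lit 25667, nat_lit 34436, nat_lit 33137, nat_lit 33394, nat_lit 30324, nat_lit 32880, nat_lit 34165, nat_lit 20544],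
  .leaf [nat_lit 17202, nat_lit 25121, nat_lit 34180, nat_lit 34404, nat_lit 33666, nat_lit 33121, nat_lit 34674, nat_lit 29762, nat_lit 32880, nat_lit 30016, nat_lit 30304],
  .leaf [nat_lit 24928, nat_lit 16432, nat_lit 25121, nat_lit 29808, nat_lit 17202, nat_lit 34436, nat_lit 34678, nat_lit 29250, nat_lit 34165, nat_lit 32848, nat_lit 33137, nat_lit 33362],
  .leaf [nat_lit 34180, nat_lit 33330, nat_lit 17218, nat_lit 34404, nat_lit 34676, nat_lit 29282, nat_lit 30034, nat_lit 33137, nat_lit 16432, nat_lit 33664, nat_lit 28752, nat_lit 30304],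
  .inner [nat_lit 23428, nat_lit 25722, nat_lit 26820, nat_lit 26918, nat_lit 27588, nat_lit 27686, nat_lit 2179458246857233296422, nat_lit 27750, nat_lit 2179458246857233296486, nat_lit 27814, nat_lit 2179458246857233296550, nat_lit 27878, nat_lit 2179458246857233296614, nat_lit 27942, nat_lit 2179458246857233296678, nat_lit 27972, nat_lit 28070, nat_lit 28134, nat_lit 28164, nat_lit 28262, nat_lit 28313],
  .leaf [nat_lit 34178, nat_lit 33057, nat_lit 25185, nat_lit 17218, nat_lit 33876, nat_lit 29810, nat_lit 28768, nat_lit 30032, nat_lit 34688],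
  .leaf [nat_lit 16946, nat_lit 33409, nat_lit 34130, nat_lit 33876, nat_lit 29810, nat_lit 25121, nat_lit 32880, nat_lit 30304, nat_lit 20544],
  .leaf [nat_lit 33330, nat_lit 25185, nat_lit 17218, nat_lit 33876, nat_lit 29810, nat_lit 34677, nat_lit 28736, nat_lit 30304, nat_lit 33137],
  .leaf [nat_lit 33330, nat_lit 25154, nat_lit 24865, nat_lit 21586, nat_lit 34674, nat_lit 32880, nat_lit 30304, nat_lit 34180, nat_lit 30016],
  .leaf [nat_lit 24928, nat_lit 32816, nat_lit 12833, nat_lit 33362, nat_lit 33908, nat_lit 30036, nat_lit 30306, nat_lit 28736, nat_lit 34689, nat_lit 34128],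
  .inner [nat_lit 186775603197244362756, nat_lit 181018312619537228130, nat_lit 623755370036401301041, nat_lit 27396, nat_lit 28420, nat_lit 28484, nat_lit 28548, nat_lit 28612, nat_lit 28684],
  .leaf [nat_lit 25121, nat_lit 33858, nat_lit 17202, nat_lit 34678, nat_lit 29810, nat_lit 32880, nat_lit 33409, nat_lit 34165, nat_lit 21584],
  .leaf [nat_lit 33908, nat_lit 25154, nat_lit 24865, nat_lit 33137, nat_lit 33394, nat_lit 21586, nat_lit 20544, nat_lit 32880],
  .leaf [nat_lit 25154, nat_lit 24865, nat_lit 34676, nat_lit 33137, nat_lit 33394, nat_lit 21586, nat_lit 20544, nat_lit 32880],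
  .leaf [nat_lit 24640, nat_lit 25154, nat_lit 34674, nat_lit 32880, nat_lit 33908, nat_lit 21584, nat_lit 30034, nat_lit 17202, nat_lit 34178],
  .leaf [nat_lit 34690, nat_lit 33908, nat_lit 25154, nat_lit 21586, nat_lit 24865, nat_lit 33137, nat_lit 20544, nat_lit 30064],
  .inner [nat_lit 2542626581269878691865, nat_lit 2536579597184541143064, nat_lit 1135006757318681708568, nat_lit 22808, nat_lit 1134999579494241538648, nat_lit 28824, nat_lit 28888, nat_lit 28952, nat_lit 29017, nat_lit 29080],
  .leaf [nat_lit 33859, nat_lit 20544, nat_lit 34176, nat_lit 25154, nat_lit 21586, nat_lit 33330, nat_lit 24865, nat_lit 34676, nat_lit 30066, nat_lit 34422],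
  .inner [nat_lit 29094, nat_lit 156807022403987198054, nat_lit 2157161769550674407462, nat_lit 157326647132502099814, nat_lit 1788801941430280931494, nat_lit 28966, nat_lit 29219],
  .leaf [nat_lit 34436, nat_lit 33121, nat_lit 25121, nat_lit 29040, nat_lit 33586, nat_lit 17218, nat_lit 34132, nat_lit 30324, nat_lit 34688, nat_lit 33394, nat_lit 30034, nat_lit 20544],
  .leaf [nat_lit 32816, nat_lit 12833, nat_lit 34130, nat_lit 17218, nat_lit 33876, nat_lit 20544, nat_lit 34672, nat_lit 29810, nat_lit 30321, nat_lit 33409],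
  .leaf [nat_lit 25121, nat_lit 33858, nat_lit 17202, nat_lit 30324, nat_lit 34674, nat_lit 30036, nat_lit 20544, nat_lit 32880, nat_lit 34417],
  .leaf [nat_lit 25121, nat_lit 17218, nat_lit 20544, nat_lit 29810, nat_lit 34434, nat_lit 33137, nat_lit 34130, nat_lit 34692, nat_lit 32880],
  .inner [nat_lit 156807022403987198054, nat_lit 28838, nat_lit 1788801941430280931494, nat_lit 2536572054274946631078, nat_lit 2167637172806124307878, nat_lit 29434, nat_lit 29478, nat_lit 2179458246857233298214, nat_lit 29542],
  .leaf [nat_lit 25154, nat_lit 24624, nat_lit 24865, nat_lit 21586, nat_lit 20544, nat_lit 34432, nat_lit 30320, nat_lit 33394, nat_lit 33137, nat_lit 34676, nat_lit 34165],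
  .leaf [nat_lit 24928, nat_lit 34436, nat_lit 34672, nat_lit 33137, nat_lit 25121, nat_lit 16946, nat_lit 33394, nat_lit 30324, nat_lit 17200, nat_lit 30036, nat_lit 34130, nat_lit 20544],
  .leaf [nat_lit 24928, nat_lit 25121, nat_lit 16432, nat_lit 34436, nat_lit 17202, nat_lit 34673, nat_lit 33394, nat_lit 30324, nat_lit 32880, nat_lit 30036, nat_lit 34128, nat_lit 21058],
  .leaf [nat_lit 12833, nat_lit 17218, nat_lit 24624, nat_lit 21584, nat_lit 33664, nat_lit 34180, nat_lit 33362, nat_lit 29810, nat_lit 30305, nat_lit 28736, nat_lit 34677, nat_lit 33137],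
  .leaf [nat_lit 24928, nat_lit 25121, nat_lit 34436, nat_lit 16432, nat_lit 17202, nat_lit 29808, nat_lit 34678, nat_lit 29250, nat_lit 33137, nat_lit 34132, nat_lit 30034, nat_lit 32848],
  .leaf [nat_lit 34435, nat_lit 32816, nat_lit 21571, nat_lit 25154, nat_lit 33330, nat_lit 24865, nat_lit 34180, nat_lit 34676, nat_lit 30322, nat_lit 33137, nat_lit 30034, nat_lit 28752],
  .leaf [nat_lit 24928, nat_lit 25121, nat_lit 17202, nat_lit 16432, nat_lit 30324, nat_lit 34436, nat_lit 34688, nat_lit 33394, nat_lit 33137, nat_lit 30034, nat_lit 34132, nat_lit 28752],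
  .leaf [nat_lit 33137, nat_lit 29808, nat_lit 34165, nat_lit 30305, nat_lit 25138, nat_lit 29250, nat_lit 33666, nat_lit 33876, nat_lit 17234],
  .leaf [nat_lit 25185, nat_lit 24624, nat_lit 33664, nat_lit 29040, nat_lit 33313, nat_lit 34130, nat_lit 30032, nat_lit 29760, nat_lit 33876, nat_lit 29250],
  .leaf [nat_lit 33876, nat_lit 32880, nat_lit 29760, nat_lit 29250, nat_lit 33362, nat_lit 17202, nat_lit 25185, nat_lit 33057, nat_lit 29024],
  .leaf [nat_lit 24928, nat_lit 25121, nat_lit 17200, nat_lit 16946, nat_lit 33409, nat_lit 34130, nat_lit 33876, nat_lit 29810, nat_lit 30272, nat_lit 30032],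
  .leaf [nat_lit 29250, nat_lit 17202, nat_lit 25185, nat_lit 34132, nat_lit 33362, nat_lit 33057, nat_lit 32880, nat_lit 30304, nat_lit 20544],
  .inner [nat_lit 623752920324326843844, nat_lit 27332, nat_lit 181018312619537228130, nat_lit 2585758329823311831, nat_lit 2459657540258772951, nat_lit 2585635214651822999, nat_lit 2584226470752686999, nat_lit 30084, nat_lit 30156, nat_lit 30212, nat_lit 30306, nat_lit 30340],
  .leaf [nat_lit 24928, nat_lit 16432, nat_lit 25121, nat_lit 17202, nat_lit 33920, nat_lit 33346, nat_lit 30324, nat_lit 34694, nat_lit 30036, nat_lit 29266, nat_lit 28752, nat_lit 33137],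
  .leaf [nat_lit 24928, nat_lit 25121, nat_lit 16946, nat_lit 17200, nat_lit 34436, nat_lit 29810, nat_lit 34678, nat_lit 28736, nat_lit 33137, nat_lit 34165, nat_lit 21632, nat_lit 33362],
  .leaf [nat_lit 24624, nat_lit 29025, nat_lit 25121, nat_lit 17202, nat_lit 20544, nat_lit 34432, nat_lit 30324, nat_lit 33858, nat_lit 34672, nat_lit 33394, nat_lit 30036],
  .inner [nat_lit 2542468924496595152537, nat_lit 28262, nat_lit 28794, nat_lit 29158, nat_lit 2179458246857233297894, nat_lit 29272, nat_lit 29316, nat_lit 29592, nat_lit 29670, nat_lit 2179458246857233298406, nat_lit 29734, nat_lit 2179458246857233298470, nat_lit 2179458246857233298534, nat_lit 29882, nat_lit 29926, nat_lit 2179458246857233298662, nat_lit 29976, nat_lit 30054, nat_lit 30458, nat_lit 2179458246857233299238, nat_lit 30566, nat_lit 30630],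
  .leaf [nat_lit 34432, nat_lit 25121, nat_lit 30321, nat_lit 34672, nat_lit 33394, nat_lit 29796, nat_lit 33858, nat_lit 17202, nat_lit 30036, nat_lit 20544],
  .leaf [nat_lit 32880, nat_lit 34436, nat_lit 30036, nat_lit 20544, nat_lit 25667, nat_lit 30324, nat_lit 33394, nat_lit 21058],
  .leaf [nat_lit 34672, nat_lit 30308, nat_lit 33856, nat_lit 17200, nat_lit 30068, nat_lit 33394, nat_lit 25154, nat_lit 21586],
  .leaf [nat_lit 25667, nat_lit 21584, nat_lit 34436, nat_lit 21058, nat_lit 30324, nat_lit 34677, nat_lit 32880, nat_lit 33394],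
  .leaf [nat_lit 34688, nat_lit 21568, nat_lit 30068, nat_lit 30308, nat_lit 17200, nat_lit 34436, nat_lit 33394, nat_lit 21058, nat_lit 25138],
  .inner [nat_lit 2542468924494448187481, nat_lit 2542464491265711953945, nat_lit 1810357668712351539353, nat_lit 1804466982397499678809, nat_lit 618579044970399809753, nat_lit 1810231567930301358169, nat_lit 30724, nat_lit 30809, nat_lit 30873, nat_lit 30937, nat_lit 31001],
  .leaf [nat_lit 24928, nat_lit 25121, nat_lit 33394, nat_lit 34436, nat_lit 33137, nat_lit 30036, nat_lit 21058, nat_lit 32880, nat_lit 20544, nat_lit 25667, nat_lit 30324],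
  .inner [nat_lit 1107329463407300052826, nat_lit 30631, nat_lit 624163592056240096024, nat_lit 1810357668712351547352, nat_lit 2149487609387675813656, nat_lit 2536698124278187427224, nat_lit 156805637028997520743, nat_lit 23143, nat_lit 1810357576375873834279, nat_lit 2179458246857233291943, nat_lit 31079, nat_lit 31143],
  .leaf [nat_lit 25154, nat_lit 21586, nat_lit 24865, nat_lit 30320, nat_lit 34432, nat_lit 33908, nat_lit 33137, nat_lit 20544, nat_lit 34674, nat_lit 34165],
  .leaf [nat_lit 21058, nat_lit 25954, nat_lit 24865, nat_lit 30320, nat_lit 34433, nat_lit 33394, nat_lit 29056, nat_lit 34128, nat_lit 34677, nat_lit 29760],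
  .leaf [nat_lit 25938, nat_lit 24865, nat_lit 21570, nat_lit 34432, nat_lit 30320, nat_lit 34165, nat_lit 33137, nat_lit 29760, nat_lit 33872, nat_lit 33394],
  .leaf [nat_lit 29025, nat_lit 33152, nat_lit 25121, nat_lit 25938, nat_lit 34694, nat_lit 33394, nat_lit 34128, nat_lit 30064, nat_lit 33908, nat_lit 21570],
  .leaf [nat_lit 25956, nat_lit 25138, nat_lit 21570, nat_lit 34434, nat_lit 34128, nat_lit 33856, nat_lit 30068, nat_lit 34674, nat_lit 33152],
  .inner [nat_lit 31271, nat_lit 2179456307318721903136, nat_lit 31328, nat_lit 2179458246857233300064, nat_lit 2542626581269878700647, nat_lit 2179456307318721903207, nat_lit 31392, nat_lit 31456, nat_lit 2179456307318721903335, nat_lit 31541, nat_lit 2179456307318721903418],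
  .leaf [nat_lit 24624, nat_lit 25938, nat_lit 24865, nat_lit 20544, nat_lit 34432, nat_lit 30320, nat_lit 34673, nat_lit 34165, nat_lit 33908, nat_lit 33394, nat_lit 21570],
  .inner [nat_lit 1116470059787146518680, nat_lit 2542468889318682550426, nat_lit 1804593083179549865687, nat_lit 1109635306416513222488, nat_lit 2536572054274946631064, nat_lit 2542468898114742018200, nat_lit 2542342797332691837080, nat_lit 2536698124278187427224, nat_lit 187043536588747311000, nat_lit 181278929071081785240, nat_lit 31556, nat_lit 31648],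
  .inner [nat_lit 629935716101630460751, nat_lit 2179458246857233299623, nat_lit 33707297138134746954, nat_lit 22631, nat_lit 30823, nat_lit 2542626581269878695776, nat_lit 26407, nat_lit 156807022413648520807],
  .inner [nat_lit 1116470059787146518680, nat_lit 157326647132502099800, nat_lit 2542196175267785367706, nat_lit 1810357668712351545047, nat_lit 2142407977171408652056, nat_lit 2157550741384772715928, nat_lit 629928177589041775384, nat_lit 31769],
  .leaf [nat_lit 24624, nat_lit 25170, nat_lit 24865, nat_lit 30320, nat_lit 17218, nat_lit 29810, nat_lit 25956, nat_lit 34165, nat_lit 33876, nat_lit 20544, nat_lit 34688, nat_lit 33137],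
  .leaf [nat_lit 25170, nat_lit 24865, nat_lit 33586, nat_lit 17218, nat_lit 34132, nat_lit 25956, nat_lit 29810, nat_lit 34677, nat_lit 33137, nat_lit 28736, nat_lit 30304]]

theorem ok1 : okList db recs1 (nat_lit 250) = true := by decide +kernel

theorem len1 : recs1.length = 250 := by decide +kernel

/-- Rules 500 to 749. -/
def recs2 : List Rec := [
  .leaf [nat_lit 24624, nat_lit 33664, nat_lit 33057, nat_lit 25138, nat_lit 34130, nat_lit 33858, nat_lit 34672, nat_lit 29025, nat_lit 30324, nat_lit 30053],
  .leaf [nat_lit 24624, nat_lit 33664, nat_lit 33057, nat_lit 34672, nat_lit 30308, nat_lit 29025, nat_lit 25138, nat_lit 34130, nat_lit 33858, nat_lit 30053],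
  .inner [nat_lit 2585635214651822999, nat_lit 1116072208136071576452, nat_lit 23620, nat_lit 1116028707058030245766, nat_lit 618579106528068113638, nat_lit 26246, nat_lit 2585666000859959878, nat_lit 2585666000859959430, nat_lit 2157188228061055168038, nat_lit 31910, nat_lit 31940, nat_lit 32087, nat_lit 2542626581269878701399],
  .leaf [nat_lit 33664, nat_lit 21571, nat_lit 33346, nat_lit 20544, nat_lit 33057, nat_lit 25138, nat_lit 34130, nat_lit 25956, nat_lit 30068, nat_lit 34672, nat_lit 30322],
  .leaf [nat_lit 24624, nat_lit 33152, nat_lit 20544, nat_lit 34179, nat_lit 34676, nat_lit 30064, nat_lit 30308, nat_lit 29025, nat_lit 33394, nat_lit 21058, nat_lit 25954, nat_lit 12833],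
  .leaf [nat_lit 24865, nat_lit 33666, nat_lit 25170, nat_lit 34132, nat_lit 17218, nat_lit 25956, nat_lit 29810, nat_lit 34677, nat_lit 33137, nat_lit 28736, nat_lit 30304],
  .leaf [nat_lit 24624, nat_lit 33664, nat_lit 33330, nat_lit 25954, nat_lit 24865, nat_lit 30320, nat_lit 34676, nat_lit 33137, nat_lit 25666, nat_lit 34165],
  .leaf [nat_lit 24624, nat_lit 33664, nat_lit 33137, nat_lit 30320, nat_lit 29760, nat_lit 34165, nat_lit 29250, nat_lit 25170, nat_lit 33330, nat_lit 24865, nat_lit 25667],
  .inner [nat_lit 26135, nat_lit 1810231457979558017623, nat_lit 23684, nat_lit 2585666000859960038, nat_lit 2542626581269878693783, nat_lit 32216, nat_lit 32268, nat_lit 32324, nat_lit 32407, nat_lit 2542624580156804071063, nat_lit 32471],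
  .leaf [nat_lit 32816, nat_lit 21571, nat_lit 33121, nat_lit 34404, nat_lit 25138, nat_lit 33313, nat_lit 33858, nat_lit 25938, nat_lit 30322, nat_lit 30068, nat_lit 34672],
  .leaf [nat_lit 32832, nat_lit 30068, nat_lit 34672, nat_lit 34422, nat_lit 33892, nat_lit 29250, nat_lit 33362, nat_lit 25954, nat_lit 24865, nat_lit 33137],
  .inner [nat_lit 2536698124278187426659, nat_lit 2179100466528380801137, nat_lit 312487363897706160895, nat_lit 187302491888042116977, nat_lit 1810609777924995024753, nat_lit 1146437011645393029233, nat_lit 1773219486479115116721, nat_lit 2511208346111044487778, nat_lit 32678],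
  .leaf [nat_lit 25138, nat_lit 21058, nat_lit 34434, nat_lit 34677, nat_lit 30322, nat_lit 33908, nat_lit 33137, nat_lit 21568, nat_lit 25956],
  .leaf [nat_lit 25956, nat_lit 25138, nat_lit 30322, nat_lit 34692, nat_lit 34434, nat_lit 34165, nat_lit 33137, nat_lit 21058, nat_lit 21568],
  .inner [nat_lit 2542468898114742018214, nat_lit 2511211479972577562047, nat_lit 157326647132502099814, nat_lit 2142407977171408652070, nat_lit 2518024757924084321626, nat_lit 2179094370843430770097, nat_lit 1146438581839199211569, nat_lit 32625, nat_lit 32716, nat_lit 32806, nat_lit 32870],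
  .leaf [nat_lit 33121, nat_lit 33330, nat_lit 25121, nat_lit 34674, nat_lit 17218, nat_lit 34436, nat_lit 34132, nat_lit 30068, nat_lit 30308, nat_lit 32880, nat_lit 29024],
  .leaf [nat_lit 25138, nat_lit 34178, nat_lit 21571, nat_lit 33858, nat_lit 34404, nat_lit 30322, nat_lit 30068, nat_lit 32848, nat_lit 16432, nat_lit 34672],
  .leaf [nat_lit 34433, nat_lit 33584, nat_lit 33892, nat_lit 34132, nat_lit 20544, nat_lit 34672, nat_lit 33394, nat_lit 28961, nat_lit 29762],
  .inner [nat_lit 592629365484826677350, nat_lit 593128442677482751846, nat_lit 590315102209375482596, nat_lit 1788801941430280931494, nat_lit 593218492679797606246, nat_lit 29478, nat_lit 28838, nat_lit 1788713276812617074726, nat_lit 33059, nat_lit 33094],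
  .leaf [nat_lit 25121, nat_lit 33586, nat_lit 17218, nat_lit 34180, nat_lit 34404, nat_lit 33121, nat_lit 30324, nat_lit 29040, nat_lit 34688, nat_lit 33394, nat_lit 30036],
  .leaf [nat_lit 24928, nat_lit 25121, nat_lit 17202, nat_lit 25664, nat_lit 33858, nat_lit 21584, nat_lit 29810, nat_lit 34165, nat_lit 33137, nat_lit 34694, nat_lit 32880],
  .leaf [nat_lit 24928, nat_lit 25664, nat_lit 16946, nat_lit 25121, nat_lit 33922, nat_lit 21584, nat_lit 29810, nat_lit 34422, nat_lit 34165, nat_lit 34673, nat_lit 32880],
  .leaf [nat_lit 24624, nat_lit 24865, nat_lit 30320, nat_lit 34433, nat_lit 34688, nat_lit 33394, nat_lit 29762, nat_lit 33892, nat_lit 17202, nat_lit 34132, nat_lit 20544],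
  .inner [nat_lit 28164, nat_lit 30630, nat_lit 1788801941430280931750, nat_lit 2536463467514880617988, nat_lit 2167565199777827411810, nat_lit 2536698124278187431398, nat_lit 2167763242809365108198, nat_lit 2517998686181809722726, nat_lit 32964, nat_lit 33176, nat_lit 33220, nat_lit 33318, nat_lit 2179458246857233302054, nat_lit 33382, nat_lit 33446],
  .leaf [nat_lit 33665, nat_lit 29040, nat_lit 32848, nat_lit 33856, nat_lit 21571, nat_lit 30068, nat_lit 16946, nat_lit 33394, nat_lit 34130, nat_lit 25954, nat_lit 24865, nat_lit 30308],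
  .leaf [nat_lit 24624, nat_lit 33152, nat_lit 34179, nat_lit 12833, nat_lit 25954, nat_lit 20544, nat_lit 30064, nat_lit 33908, nat_lit 30308, nat_lit 29025, nat_lit 33394, nat_lit 21058],
  .leaf [nat_lit 24928, nat_lit 25936, nat_lit 32880, nat_lit 34180, nat_lit 33584, nat_lit 33362, nat_lit 33057, nat_lit 30068, nat_lit 29250, nat_lit 30272],
  .leaf [nat_lit 30320, nat_lit 33137, nat_lit 33666, nat_lit 34165, nat_lit 21571, nat_lit 21058, nat_lit 25956, nat_lit 33908, nat_lit 20544],
  .leaf [nat_lit 24624, nat_lit 33664, nat_lit 34130, nat_lit 29040, nat_lit 29760, nat_lit 30032, nat_lit 33057, nat_lit 33346],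
  .leaf [nat_lit 32880, nat_lit 30304, nat_lit 25684, nat_lit 34180, nat_lit 33362, nat_lit 17218, nat_lit 29810, nat_lit 30032, nat_lit 33057],
  .leaf [nat_lit 24624, nat_lit 33664, nat_lit 34130, nat_lit 33137, nat_lit 33313, nat_lit 33858, nat_lit 28736, nat_lit 30305, nat_lit 30032],
  .inner [nat_lit 147846548015781267558, nat_lit 2542196175267785367718, nat_lit 2157730885333762966916, nat_lit 147722417551051868164, nat_lit 33676, nat_lit 33732, nat_lit 33815, nat_lit 33860, nat_lit 33943, nat_lit 2542626581269878703255],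
  .leaf [nat_lit 24624, nat_lit 32848, nat_lit 33665, nat_lit 29040, nat_lit 30309, nat_lit 29760, nat_lit 33859, nat_lit 21042, nat_lit 33394, nat_lit 25185, nat_lit 25666],
  .leaf [nat_lit 33152, nat_lit 30032, nat_lit 33856, nat_lit 24624, nat_lit 34179, nat_lit 29796, nat_lit 30305, nat_lit 33394, nat_lit 12833, nat_lit 17218, nat_lit 25954],
  .leaf [nat_lit 24624, nat_lit 25138, nat_lit 33666, nat_lit 28961, nat_lit 30320, nat_lit 29250, nat_lit 30034, nat_lit 21571, nat_lit 25956, nat_lit 34180, nat_lit 20544],
  .leaf [nat_lit 24624, nat_lit 33664, nat_lit 33137, nat_lit 33908, nat_lit 30320, nat_lit 33330, nat_lit 25170, nat_lit 24865, nat_lit 34165, nat_lit 25666],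
  .leaf [nat_lit 25138, nat_lit 33666, nat_lit 34180, nat_lit 29250, nat_lit 30034, nat_lit 21571, nat_lit 25956, nat_lit 28752, nat_lit 29760, nat_lit 24928, nat_lit 28961, nat_lit 33152],
  .inner [nat_lit 2542628520806243133060, nat_lit 1804938901845102843716, nat_lit 26246, nat_lit 2459657540258772951, nat_lit 32471, nat_lit 33560, nat_lit 33612, nat_lit 34010, nat_lit 34071, nat_lit 34135, nat_lit 34210, nat_lit 34263, nat_lit 34308],
  .leaf [nat_lit 33121, nat_lit 25138, nat_lit 33584, nat_lit 33313, nat_lit 34130, nat_lit 34405, nat_lit 25666, nat_lit 30322, nat_lit 30068, nat_lit 34692, nat_lit 32848, nat_lit 29040],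
  .inner [nat_lit 2179456307318721904742, nat_lit 157326647132502099814, nat_lit 2511211479972577562047, nat_lit 2142407977171408652070, nat_lit 2517988737923158379866, nat_lit 2542626581269878702182, nat_lit 2542626581269878702118, nat_lit 2179456307318721904678, nat_lit 24742, nat_lit 32625, nat_lit 34444],
  .leaf [nat_lit 24624, nat_lit 33664, nat_lit 33137, nat_lit 12833, nat_lit 25954, nat_lit 34178, nat_lit 30305, nat_lit 20544, nat_lit 30064, nat_lit 29796, nat_lit 29266, nat_lit 34692],
  .leaf [nat_lit 25170, nat_lit 24865, nat_lit 24624, nat_lit 30320, nat_lit 33665, nat_lit 34178, nat_lit 32848, nat_lit 34673, nat_lit 29810, nat_lit 33856, nat_lit 30036, nat_lit 25956],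
  .leaf [nat_lit 25138, nat_lit 21586, nat_lit 33666, nat_lit 34115, nat_lit 25956, nat_lit 34677, nat_lit 30322, nat_lit 33908, nat_lit 20544, nat_lit 28768, nat_lit 33137],
  .leaf [nat_lit 24624, nat_lit 33664, nat_lit 30320, nat_lit 34692, nat_lit 33137, nat_lit 34165, nat_lit 33330, nat_lit 25698, nat_lit 24865, nat_lit 25938],
  .leaf [nat_lit 24624, nat_lit 33664, nat_lit 34672, nat_lit 29025, nat_lit 25138, nat_lit 33922, nat_lit 34130, nat_lit 33057, nat_lit 30309, nat_lit 29796],
  .leaf [nat_lit 24624, nat_lit 33152, nat_lit 34128, nat_lit 29025, nat_lit 25138, nat_lit 29796, nat_lit 30053, nat_lit 33666, nat_lit 34674, nat_lit 33856],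
  .inner [nat_lit 2542626581269878701719, nat_lit 2542624580156804071063, nat_lit 2459657540258772951, nat_lit 23812, nat_lit 22020, nat_lit 181012933843705953752, nat_lit 2542628520806243130694, nat_lit 2585666000859959878, nat_lit 34572, nat_lit 34636, nat_lit 34692, nat_lit 34775, nat_lit 34839, nat_lit 34903],
  .inner [nat_lit 629935716101630460751, nat_lit 2179458246857233299623, nat_lit 1116560004466092559754, nat_lit 2542628520806243137767, nat_lit 2542340360800982554656, nat_lit 2542468924494448187495, nat_lit 2542626524109216178312],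
  .inner [nat_lit 2179458246857233301592, nat_lit 2179291965521200971866, nat_lit 1107329463407300052826, nat_lit 2526491534011715028760, nat_lit 2167763242809365104024, nat_lit 2542462802422277636184, nat_lit 608208886772523892760, nat_lit 2542232204064803807384, nat_lit 35033, nat_lit 2542628520806243141849],
  .leaf [nat_lit 20528, nat_lit 25170, nat_lit 30064, nat_lit 34176, nat_lit 33394, nat_lit 21570, nat_lit 34692, nat_lit 34422, nat_lit 33137],
  .leaf [nat_lit 17200, nat_lit 28736, nat_lit 25154, nat_lit 33920, nat_lit 34678, nat_lit 33137, nat_lit 33394, nat_lit 21586, nat_lit 34165],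
  .leaf [nat_lit 20528, nat_lit 34437, nat_lit 32832, nat_lit 34672, nat_lit 30036, nat_lit 30309, nat_lit 25138, nat_lit 33394, nat_lit 21058],
  .leaf [nat_lit 25936, nat_lit 21042, nat_lit 30066, nat_lit 34692, nat_lit 32880, nat_lit 21568, nat_lit 34178, nat_lit 34422, nat_lit 33057],
  .leaf [nat_lit 17202, nat_lit 25664, nat_lit 21584, nat_lit 29250, nat_lit 34178, nat_lit 34692, nat_lit 34402, nat_lit 32880, nat_lit 28961],
  .inner [nat_lit 1116560004466092559754, nat_lit 1804466982397499678823, nat_lit 2179170086849825757216, nat_lit 187207947112204470024, nat_lit 35168, nat_lit 35239, nat_lit 35296, nat_lit 35360, nat_lit 35431],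
  .leaf [nat_lit 25684, nat_lit 25138, nat_lit 30322, nat_lit 21058, nat_lit 34434, nat_lit 34692, nat_lit 34165, nat_lit 33137, nat_lit 20544],
  .inner [nat_lit 1146438700557530047999, nat_lit 181285665201704943063, nat_lit 156876142054823181823, nat_lit 2542230264526292414666, nat_lit 181159564419654761943, nat_lit 1804466850456607669719, nat_lit 1134619588235904418391, nat_lit 2542336701640227445066],
  .inner [nat_lit 32856, nat_lit 1804593083179549865687, nat_lit 22808, nat_lit 1810357668712351547352, nat_lit 2179456307318721904664, nat_lit 2526491534011715028760, nat_lit 2179456307316574945306, nat_lit 629928177589041775384, nat_lit 1109635306416513223576, nat_lit 2167763242809365108199, nat_lit 35481, nat_lit 35544, nat_lit 35608],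
  .leaf [nat_lit 17200, nat_lit 25154, nat_lit 21586, nat_lit 32832, nat_lit 29808, nat_lit 34690, nat_lit 33137, nat_lit 34422, nat_lit 34165],
  .leaf [nat_lit 30068, nat_lit 30308, nat_lit 16432, nat_lit 17202, nat_lit 34690, nat_lit 34436, nat_lit 32880, nat_lit 34132],
  .inner [nat_lit 2542628494426536970959, nat_lit 593043696640877431496, nat_lit 1116648669083756416394, nat_lit 2536429628074170011018, nat_lit 1107333966989747554122, nat_lit 157414163869690234703, nat_lit 629928116031373444872, nat_lit 35751, nat_lit 35815],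
  .inner [nat_lit 2542468898114742029016, nat_lit 2179456307316574948058, nat_lit 2179458246855086342234, nat_lit 2542626581267731742810, nat_lit 2526491525215655560986, nat_lit 187045879161670353688, nat_lit 2536705724348444444440, nat_lit 2542468889318682550426, nat_lit 2179458246857233295320, nat_lit 1146438700557530054616, nat_lit 35865],
  .inner [nat_lit 2526485622853595039256, nat_lit 22522, nat_lit 23270, nat_lit 2179458246857233292006, nat_lit 23940, nat_lit 24634, nat_lit 24792, nat_lit 26362, nat_lit 26662, nat_lit 2179458246857233295398, nat_lit 26790, nat_lit 28391, nat_lit 30695, nat_lit 31206, nat_lit 2179458246857233299942, nat_lit 31718, nat_lit 31846, nat_lit 2179458246857233300582, nat_lit 32186, nat_lit 32570, nat_lit 32920, nat_lit 33511, nat_lit 34426, nat_lit 34520, nat_lit 35002, nat_lit 35110, nat_lit 35686, nat_lit 35942],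
  .leaf [nat_lit 32816, nat_lit 33137, nat_lit 24928, nat_lit 29282, nat_lit 29490, nat_lit 33313, nat_lit 33908, nat_lit 17218, nat_lit 30036, nat_lit 34404, nat_lit 25938, nat_lit 20544],
  .leaf [nat_lit 33908, nat_lit 32864, nat_lit 33584, nat_lit 12833, nat_lit 29554, nat_lit 17218, nat_lit 30036, nat_lit 20544],
  .leaf [nat_lit 29796, nat_lit 32864, nat_lit 33584, nat_lit 29507, nat_lit 30034, nat_lit 21570, nat_lit 20544],
  .leaf [nat_lit 24928, nat_lit 33378, nat_lit 32816, nat_lit 33586, nat_lit 29250, nat_lit 30034, nat_lit 21571, nat_lit 33907],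
  .leaf [nat_lit 24928, nat_lit 33892, nat_lit 29282, nat_lit 33313, nat_lit 29762, nat_lit 25940, nat_lit 21042, nat_lit 30067, nat_lit 20544],
  .leaf [nat_lit 32816, nat_lit 24928, nat_lit 25664, nat_lit 33908, nat_lit 30036, nat_lit 17232, nat_lit 21042, nat_lit 25954, nat_lit 29250],
  .leaf [nat_lit 29796, nat_lit 32864, nat_lit 33584, nat_lit 29507, nat_lit 21586, nat_lit 20544, nat_lit 30066],
  .leaf [nat_lit 33908, nat_lit 33378, nat_lit 33586, nat_lit 29250, nat_lit 21571, nat_lit 25956, nat_lit 30034],
  .leaf [nat_lit 32864, nat_lit 33584, nat_lit 20544, nat_lit 33378, nat_lit 12833, nat_lit 29554, nat_lit 25938, nat_lit 17218],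
  .inner [nat_lit 36122, nat_lit 36196, nat_lit 36256, nat_lit 36326, nat_lit 36388, nat_lit 36452, nat_lit 36514, nat_lit 36581],
  .leaf [nat_lit 29796, nat_lit 33121, nat_lit 28961, nat_lit 33651, nat_lit 32816, nat_lit 24640, nat_lit 21571, nat_lit 16946, nat_lit 30034, nat_lit 25954],
  .leaf [nat_lit 33892, nat_lit 33121, nat_lit 32816, nat_lit 33651, nat_lit 12833, nat_lit 17218, nat_lit 20544, nat_lit 30036, nat_lit 25954],
  .leaf [nat_lit 33137, nat_lit 32864, nat_lit 33584, nat_lit 29282, nat_lit 29490, nat_lit 33313, nat_lit 33858, nat_lit 21586, nat_lit 20544],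
  .leaf [nat_lit 33892, nat_lit 29763, nat_lit 16432, nat_lit 30053, nat_lit 29282, nat_lit 33346, nat_lit 21586, nat_lit 29490, nat_lit 24656],
  .leaf [nat_lit 33121, nat_lit 33649, nat_lit 32816, nat_lit 33330, nat_lit 29763, nat_lit 33892, nat_lit 21586, nat_lit 20544, nat_lit 30053],
  .inner [nat_lit 186925667277999452390, nat_lit 591449925385909975711, nat_lit 36638, nat_lit 36708, nat_lit 36767, nat_lit 36837, nat_lit 36899, nat_lit 36959, nat_lit 2542628520806243143775],
  .inner [nat_lit 2157154565344315048543, nat_lit 2536953985277903270124, nat_lit 1140854118295891092730, nat_lit 2536952045739391867237, nat_lit 2536705697966591340844, nat_lit 1810125109075182389983, nat_lit 1810089080280310909663, nat_lit 593043569372825931167],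
  .leaf [nat_lit 32816, nat_lit 20544, nat_lit 24928, nat_lit 33137, nat_lit 34149, nat_lit 25121, nat_lit 33586, nat_lit 30067, nat_lit 34404, nat_lit 29780, nat_lit 21058, nat_lit 33859],
  .inner [nat_lit 1146528750559844902394, nat_lit 2149086085136904094303, nat_lit 2536952045739391873253, nat_lit 623806822612318823674, nat_lit 2536579597184541159717, nat_lit 1810611497837078272357, nat_lit 1810127048613693786847, nat_lit 1810091019818822306527, nat_lit 1109552403429177183647],
  .leaf [nat_lit 33378, nat_lit 25938, nat_lit 29490, nat_lit 17218, nat_lit 33665, nat_lit 28961, nat_lit 34401, nat_lit 16432, nat_lit 25696],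
  .leaf [nat_lit 34401, nat_lit 29796, nat_lit 29282, nat_lit 21058, nat_lit 33922, nat_lit 28961, nat_lit 29507, nat_lit 30002, nat_lit 24640, nat_lit 20528],
  .leaf [nat_lit 29282, nat_lit 29490, nat_lit 29763, nat_lit 21058, nat_lit 33922, nat_lit 34404, nat_lit 30053, nat_lit 16432, nat_lit 24656],
  .leaf [nat_lit 24640, nat_lit 17200, nat_lit 21042, nat_lit 33665, nat_lit 34401, nat_lit 33858, nat_lit 25954, nat_lit 33394, nat_lit 28961],
  .leaf [nat_lit 17202, nat_lit 29811, nat_lit 25956, nat_lit 34436, nat_lit 33665, nat_lit 29025, nat_lit 32864, nat_lit 16432, nat_lit 25121],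
  .inner [nat_lit 186925667277999452390, nat_lit 148801334702373883296, nat_lit 624343314847789764000, nat_lit 2141048004141335458272, nat_lit 2513405318897659283296, nat_lit 37285, nat_lit 37350, nat_lit 37411, nat_lit 37477, nat_lit 37535],
  .leaf [nat_lit 34405, nat_lit 33121, nat_lit 32816, nat_lit 33651, nat_lit 33330, nat_lit 21586, nat_lit 34115, nat_lit 30068, nat_lit 33892, nat_lit 20544],
  .inner [nat_lit 2536698216889475959590, nat_lit 164949439766820048314, nat_lit 630018139630761954746, nat_lit 1146528662599250227706, nat_lit 1140854118274421498938, nat_lit 2167763242809365104998, nat_lit 36081, nat_lit 37041, nat_lit 37094, nat_lit 1804938901845102858470, nat_lit 37151, nat_lit 37222, nat_lit 1804938901845102858598, nat_lit 37617, nat_lit 37663],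
  .leaf [nat_lit 29796, nat_lit 21571, nat_lit 16432, nat_lit 21058, nat_lit 34436, nat_lit 29490, nat_lit 33666, nat_lit 33152, nat_lit 25954, nat_lit 24865],
  .leaf [nat_lit 30053, nat_lit 20528, nat_lit 33152, nat_lit 34437, nat_lit 21571, nat_lit 21058, nat_lit 33586, nat_lit 29554, nat_lit 25698, nat_lit 33313],
  .leaf [nat_lit 29796, nat_lit 29507, nat_lit 21058, nat_lit 34180, nat_lit 30066, nat_lit 33586, nat_lit 33378, nat_lit 32832, nat_lit 33072, nat_lit 34401],
  .leaf [nat_lit 25936, nat_lit 30067, nat_lit 25170, nat_lit 34132, nat_lit 16432, nat_lit 33664, nat_lit 33330, nat_lit 34436, nat_lit 33121, nat_lit 17218],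
  .leaf [nat_lit 29760, nat_lit 30032, nat_lit 33584, nat_lit 25170, nat_lit 25666, nat_lit 29554, nat_lit 33330, nat_lit 34432, nat_lit 24865],
  .leaf [nat_lit 25664, nat_lit 25154, nat_lit 17202, nat_lit 33666, nat_lit 34405, nat_lit 33121, nat_lit 32816, nat_lit 29811, nat_lit 21584, nat_lit 34180],
  .leaf [nat_lit 33152, nat_lit 29796, nat_lit 33856, nat_lit 34132, nat_lit 29507, nat_lit 21058, nat_lit 33378, nat_lit 33586, nat_lit 30066],
  .inner [nat_lit 2511587772386786698213, nat_lit 2542340263839937873068, nat_lit 1116461496824889636868, nat_lit 1116047307943327044943, nat_lit 607608924411707528928, nat_lit 37775, nat_lit 37832, nat_lit 37903, nat_lit 37989, nat_lit 38039, nat_lit 38124, nat_lit 38159],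
  .leaf [nat_lit 29025, nat_lit 29488, nat_lit 12833, nat_lit 20544, nat_lit 34179, nat_lit 33152, nat_lit 33859, nat_lit 21058, nat_lit 29810, nat_lit 25696, nat_lit 34405, nat_lit 33378],
  .leaf [nat_lit 24640, nat_lit 29025, nat_lit 21584, nat_lit 30053, nat_lit 34432, nat_lit 33584, nat_lit 34180, nat_lit 33362, nat_lit 29250, nat_lit 25698, nat_lit 17202, nat_lit 33057],
  .leaf [nat_lit 29025, nat_lit 21058, nat_lit 33666, nat_lit 34180, nat_lit 34402, nat_lit 32864, nat_lit 29796, nat_lit 30053, nat_lit 21619, nat_lit 20544, nat_lit 29234],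
  .leaf [nat_lit 29488, nat_lit 33665, nat_lit 32848, nat_lit 17216, nat_lit 34180, nat_lit 30036, nat_lit 21042, nat_lit 33346, nat_lit 25954, nat_lit 29810, nat_lit 28961, nat_lit 34401],
  .leaf [nat_lit 29553, nat_lit 24928, nat_lit 29282, nat_lit 29760, nat_lit 21584, nat_lit 34432, nat_lit 33057, nat_lit 33584, nat_lit 34180, nat_lit 33362, nat_lit 25666, nat_lit 17202],
  .leaf [nat_lit 24928, nat_lit 29760, nat_lit 29553, nat_lit 29282, nat_lit 16946, nat_lit 25956, nat_lit 34436, nat_lit 34178, nat_lit 32848, nat_lit 33057, nat_lit 33584, nat_lit 21571],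
  .leaf [nat_lit 29025, nat_lit 29796, nat_lit 33876, nat_lit 29507, nat_lit 29234, nat_lit 21058, nat_lit 33666, nat_lit 34402, nat_lit 30053, nat_lit 20544, nat_lit 32864],
  .leaf [nat_lit 29025, nat_lit 34400, nat_lit 29796, nat_lit 33378, nat_lit 30053, nat_lit 21586, nat_lit 34180, nat_lit 20544, nat_lit 33586, nat_lit 32816],
  .leaf [nat_lit 29025, nat_lit 24640, nat_lit 34432, nat_lit 30053, nat_lit 33362, nat_lit 33057, nat_lit 25666, nat_lit 34180, nat_lit 29554, nat_lit 29780, nat_lit 17202],
  .leaf [nat_lit 29025, nat_lit 34402, nat_lit 32864, nat_lit 29796, nat_lit 30053, nat_lit 20544, nat_lit 21571, nat_lit 21058, nat_lit 34180, nat_lit 33586, nat_lit 29554],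
  .leaf [nat_lit 29025, nat_lit 29488, nat_lit 29234, nat_lit 33664, nat_lit 33057, nat_lit 34400, nat_lit 29796, nat_lit 34130, nat_lit 30053, nat_lit 33346],
  .leaf [nat_lit 29488, nat_lit 33664, nat_lit 12833, nat_lit 30066, nat_lit 34130, nat_lit 21571, nat_lit 29762, nat_lit 25956, nat_lit 33922, nat_lit 20544, nat_lit 25185],
  .inner [nat_lit 2168109175794112685700, nat_lit 618038696563435640033, nat_lit 2536953985277903263556, nat_lit 2542462731795852956449, nat_lit 1116461496824889637188, nat_lit 38238, nat_lit 38316, nat_lit 38369, nat_lit 38488, nat_lit 38572, nat_lit 38636, nat_lit 38660, nat_lit 38753, nat_lit 38852, nat_lit 38935, nat_lit 39000],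
  .leaf [nat_lit 16946, nat_lit 29554, nat_lit 20528, nat_lit 29040, nat_lit 25952, nat_lit 25170, nat_lit 24865, nat_lit 34180, nat_lit 33666, nat_lit 34404, nat_lit 33152, nat_lit 17216],
  .leaf [nat_lit 33664, nat_lit 34400, nat_lit 34130, nat_lit 29490, nat_lit 21571, nat_lit 29282, nat_lit 29762, nat_lit 25956, nat_lit 33922, nat_lit 20544, nat_lit 33057],
  .leaf [nat_lit 25956, nat_lit 29266, nat_lit 29762, nat_lit 21571, nat_lit 34180, nat_lit 33378, nat_lit 33586, nat_lit 32816, nat_lit 34400, nat_lit 28961],
  .leaf [nat_lit 29234, nat_lit 25954, nat_lit 33666, nat_lit 33152, nat_lit 28768, nat_lit 34128, nat_lit 29488, nat_lit 33856, nat_lit 25666, nat_lit 24865],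
  .leaf [nat_lit 25938, nat_lit 29780, nat_lit 28768, nat_lit 25698, nat_lit 20544, nat_lit 34180, nat_lit 34432, nat_lit 33584, nat_lit 33330, nat_lit 17218, nat_lit 24865],
  .leaf [nat_lit 29780, nat_lit 34180, nat_lit 33666, nat_lit 25170, nat_lit 25666, nat_lit 17202, nat_lit 29554, nat_lit 24640, nat_lit 25936, nat_lit 29025, nat_lit 34433],
  .inner [nat_lit 27710371736440045207, nat_lit 334783841204265051671, nat_lit 147601556731441461847, nat_lit 2168109175796259652887, nat_lit 334783841204265049053, nat_lit 39141, nat_lit 39197, nat_lit 39261, nat_lit 39319, nat_lit 2542626581269878708631, nat_lit 39428, nat_lit 2542628520806243146246],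
  .leaf [nat_lit 34180, nat_lit 33666, nat_lit 24656, nat_lit 29025, nat_lit 34433, nat_lit 25664, nat_lit 25154, nat_lit 25938, nat_lit 17202, nat_lit 30068, nat_lit 29554],
  .leaf [nat_lit 33584, nat_lit 33121, nat_lit 33330, nat_lit 30066, nat_lit 28961, nat_lit 25956, nat_lit 34384, nat_lit 33856, nat_lit 21571, nat_lit 25154, nat_lit 34130, nat_lit 29811],
  .leaf [nat_lit 33665, nat_lit 20528, nat_lit 33859, nat_lit 34132, nat_lit 21042, nat_lit 29552, nat_lit 30068, nat_lit 29250, nat_lit 28961, nat_lit 25954, nat_lit 34434],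
  .leaf [nat_lit 33584, nat_lit 29552, nat_lit 29025, nat_lit 34400, nat_lit 30032, nat_lit 25170, nat_lit 29234, nat_lit 34178, nat_lit 33057, nat_lit 29796, nat_lit 33858],
  .inner [nat_lit 181009026031316665815, nat_lit 2142744902443654479191, nat_lit 39428, nat_lit 2179458246857233307736, nat_lit 2167762679996850637286, nat_lit 2142742962905143082327, nat_lit 2142744902443654479044, nat_lit 2168109175794112685700, nat_lit 1775770023574649452902, nat_lit 39556, nat_lit 39645, nat_lit 39704, nat_lit 39767],
  .leaf [nat_lit 29490, nat_lit 25185, nat_lit 25666, nat_lit 25938, nat_lit 21571, nat_lit 30068, nat_lit 34180, nat_lit 33666, nat_lit 32816, nat_lit 34400, nat_lit 20544],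
  .inner [nat_lit 181288567911898974950, nat_lit 1810365150064277749798, nat_lit 37663, nat_lit 186921726712077110694, nat_lit 2526095243375105035686, nat_lit 1140673974321533695014, nat_lit 1804475849134076863526, nat_lit 297607501176970938234, nat_lit 630021790065877845818, nat_lit 39935],
  .leaf [nat_lit 25938, nat_lit 29490, nat_lit 24865, nat_lit 33666, nat_lit 25666, nat_lit 21571, nat_lit 34180, nat_lit 30068, nat_lit 28768, nat_lit 20544, nat_lit 34432],
  .leaf [nat_lit 25666, nat_lit 30036, nat_lit 28768, nat_lit 20544, nat_lit 34432, nat_lit 34180, nat_lit 33584, nat_lit 33330, nat_lit 17234, nat_lit 25954, nat_lit 24865],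
  .leaf [nat_lit 32816, nat_lit 33121, nat_lit 28961, nat_lit 33586, nat_lit 30034, nat_lit 21571, nat_lit 25956, nat_lit 33856, nat_lit 34384, nat_lit 25154, nat_lit 29811, nat_lit 34178],
  .leaf [nat_lit 29762, nat_lit 28768, nat_lit 29488, nat_lit 33664, nat_lit 33121, nat_lit 33330, nat_lit 28961, nat_lit 30034, nat_lit 34436, nat_lit 34149],
  .leaf [nat_lit 29796, nat_lit 33858, nat_lit 29490, nat_lit 24865, nat_lit 29040, nat_lit 34178, nat_lit 33665, nat_lit 32864, nat_lit 20528, nat_lit 17216, nat_lit 30053],
  .inner [nat_lit 2542230264229945972573, nat_lit 38753, nat_lit 2832489451053160471, nat_lit 2542628520806243146374, nat_lit 39393, nat_lit 181009026031316665815, nat_lit 175248295529097493783, nat_lit 2584228521594327959, nat_lit 40097, nat_lit 40157, nat_lit 40215, nat_lit 2542626581269878709527, nat_lit 40279],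
  .leaf [nat_lit 34180, nat_lit 34676, nat_lit 33137, nat_lit 29488, nat_lit 28768, nat_lit 20544, nat_lit 34402, nat_lit 24865, nat_lit 25666],
  .leaf [nat_lit 28768, nat_lit 29553, nat_lit 25956, nat_lit 34694, nat_lit 33394, nat_lit 25154, nat_lit 34130, nat_lit 24865, nat_lit 12929],
  .leaf [nat_lit 28768, nat_lit 34180, nat_lit 33330, nat_lit 17234, nat_lit 34402, nat_lit 33121, nat_lit 29217, nat_lit 34676, nat_lit 25666, nat_lit 20544],
  .leaf [nat_lit 34180, nat_lit 21058, nat_lit 29796, nat_lit 29507, nat_lit 33137, nat_lit 28720, nat_lit 24928, nat_lit 20544, nat_lit 29217],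
  .leaf [nat_lit 33330, nat_lit 21058, nat_lit 34402, nat_lit 29810, nat_lit 28961, nat_lit 34689, nat_lit 29488, nat_lit 28768, nat_lit 20544],
  .leaf [nat_lit 34180, nat_lit 34676, nat_lit 33330, nat_lit 17234, nat_lit 29250, nat_lit 34402, nat_lit 25956, nat_lit 28736, nat_lit 20528],
  .leaf [nat_lit 25956, nat_lit 29282, nat_lit 34436, nat_lit 34690, nat_lit 34130, nat_lit 29553, nat_lit 33121, nat_lit 28768, nat_lit 12833],
  .inner [nat_lit 2526483960323311153249, nat_lit 40390, nat_lit 40460, nat_lit 40545, nat_lit 40612, nat_lit 40682, nat_lit 40734, nat_lit 40780],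
  .leaf [nat_lit 34400, nat_lit 29040, nat_lit 29796, nat_lit 34149, nat_lit 20544, nat_lit 34692, nat_lit 33121, nat_lit 29507, nat_lit 21058, nat_lit 33378, nat_lit 29217],
  .leaf [nat_lit 33859, nat_lit 21058, nat_lit 34178, nat_lit 34404, nat_lit 20528, nat_lit 32832, nat_lit 25952, nat_lit 29282, nat_lit 34676, nat_lit 29490],
  .leaf [nat_lit 34694, nat_lit 32864, nat_lit 29217, nat_lit 33378, nat_lit 29762, nat_lit 21042, nat_lit 25956, nat_lit 34180, nat_lit 17216],
  .leaf [nat_lit 25121, nat_lit 29490, nat_lit 34690, nat_lit 33121, nat_lit 29796, nat_lit 21058, nat_lit 34436, nat_lit 34149, nat_lit 20544],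
  .leaf [nat_lit 34401, nat_lit 29282, nat_lit 33892, nat_lit 29490, nat_lit 29826, nat_lit 33057, nat_lit 34149, nat_lit 21058, nat_lit 20544],
  .leaf [nat_lit 33121, nat_lit 29282, nat_lit 34593, nat_lit 29490, nat_lit 33908, nat_lit 34404, nat_lit 34149, nat_lit 21058, nat_lit 20544],
  .leaf [nat_lit 20544, nat_lit 33859, nat_lit 21058, nat_lit 34404, nat_lit 33121, nat_lit 33651, nat_lit 32816, nat_lit 33330, nat_lit 34149],
  .leaf [nat_lit 20528, nat_lit 33665, nat_lit 25952, nat_lit 34401, nat_lit 29282, nat_lit 29490, nat_lit 21058, nat_lit 34178, nat_lit 34593],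
  .inner [nat_lit 2149658803082923877094, nat_lit 2157729787404443732026, nat_lit 2536953985277903270758, nat_lit 1140673974321533695014, nat_lit 2179292528196310020582, nat_lit 40995, nat_lit 41062, nat_lit 41126, nat_lit 41254, nat_lit 41311, nat_lit 41386],
  .leaf [nat_lit 34404, nat_lit 29810, nat_lit 28768, nat_lit 29488, nat_lit 34688, nat_lit 33378, nat_lit 33121, nat_lit 28961, nat_lit 21058, nat_lit 20544, nat_lit 34149],
  .leaf [nat_lit 33892, nat_lit 33378, nat_lit 21058, nat_lit 29810, nat_lit 28768, nat_lit 32832, nat_lit 33121, nat_lit 25936, nat_lit 17200],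
  .leaf [nat_lit 33892, nat_lit 33378, nat_lit 29810, nat_lit 32832, nat_lit 17200, nat_lit 21058],
  .leaf [nat_lit 20528, nat_lit 34180, nat_lit 32864, nat_lit 25956, nat_lit 17234, nat_lit 34434],
  .inner [nat_lit 2542342854493354337736, nat_lit 175516554101591915976, nat_lit 187045769147492613576, nat_lit 2518509748104647156936, nat_lit 1780642799906032198856, nat_lit 41624, nat_lit 41701, nat_lit 1804938901845102863077],
  .leaf [nat_lit 25154, nat_lit 17202, nat_lit 28961, nat_lit 33922, nat_lit 24928, nat_lit 32880, nat_lit 29488, nat_lit 20544, nat_lit 29796],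
  .leaf [nat_lit 17202, nat_lit 20544, nat_lit 29808, nat_lit 29025, nat_lit 33152, nat_lit 29488, nat_lit 29217, nat_lit 25698, nat_lit 33922],
  .leaf [nat_lit 29040, nat_lit 33920, nat_lit 24640, nat_lit 17200, nat_lit 21058, nat_lit 33394, nat_lit 25698, nat_lit 24865, nat_lit 29490],
  .inner [nat_lit 2179166427414259835997, nat_lit 2179061929838770164410, nat_lit 156807000428784683130, nat_lit 41181, nat_lit 181625423382284639704, nat_lit 41566, nat_lit 41758, nat_lit 41850, nat_lit 41914, nat_lit 41978],
  .leaf [nat_lit 33584, nat_lit 20544, nat_lit 32864, nat_lit 29040, nat_lit 29796, nat_lit 29507, nat_lit 21042, nat_lit 29217, nat_lit 33409, nat_lit 25954],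
  .leaf [nat_lit 24928, nat_lit 25664, nat_lit 33665, nat_lit 25121, nat_lit 21058, nat_lit 29810, nat_lit 33922, nat_lit 17200, nat_lit 29553],
  .leaf [nat_lit 29025, nat_lit 28720, nat_lit 20544, nat_lit 29796, nat_lit 34180, nat_lit 33378, nat_lit 33586, nat_lit 17218, nat_lit 25938, nat_lit 29554],
  .leaf [nat_lit 16946, nat_lit 20528, nat_lit 29040, nat_lit 33152, nat_lit 29554, nat_lit 29760, nat_lit 25698, nat_lit 24865, nat_lit 33666, nat_lit 25952, nat_lit 34130],
  .leaf [nat_lit 33152, nat_lit 12833, nat_lit 17218, nat_lit 16432, nat_lit 29040, nat_lit 25185, nat_lit 25696, nat_lit 25938, nat_lit 33922, nat_lit 29810],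
  .leaf [nat_lit 25666, nat_lit 17202, nat_lit 16432, nat_lit 29808, nat_lit 29553, nat_lit 24928, nat_lit 33920, nat_lit 33665, nat_lit 25936, nat_lit 25121],
  .leaf [nat_lit 28720, nat_lit 24928, nat_lit 29217, nat_lit 33378, nat_lit 29796, nat_lit 21058, nat_lit 33665, nat_lit 17202, nat_lit 20544, nat_lit 33920],
  .inner [nat_lit 147655647954450029873, nat_lit 148736572362618603633, nat_lit 4657352586182032753, nat_lit 147844600130420347761, nat_lit 42090, nat_lit 42161, nat_lit 42210, nat_lit 42282, nat_lit 42353, nat_lit 42417, nat_lit 42481],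
  .leaf [nat_lit 29040, nat_lit 34401, nat_lit 29217, nat_lit 32864, nat_lit 29796, nat_lit 20544, nat_lit 34692, nat_lit 33378, nat_lit 34149, nat_lit 21058, nat_lit 29507],
  .leaf [nat_lit 32816, nat_lit 29040, nat_lit 34400, nat_lit 29796, nat_lit 34689, nat_lit 20544, nat_lit 29507, nat_lit 33378, nat_lit 33586, nat_lit 21058, nat_lit 29217],
  .leaf [nat_lit 29040, nat_lit 29217, nat_lit 34402, nat_lit 33121, nat_lit 32864, nat_lit 29796, nat_lit 34149, nat_lit 21058, nat_lit 34692, nat_lit 20544, nat_lit 29507],
  .leaf [nat_lit 17232, nat_lit 34176, nat_lit 33665, nat_lit 34401, nat_lit 25956, nat_lit 21042, nat_lit 33378, nat_lit 28961, nat_lit 29810, nat_lit 34675],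
  .leaf [nat_lit 25696, nat_lit 17200, nat_lit 33664, nat_lit 34694, nat_lit 33121, nat_lit 34149, nat_lit 21058, nat_lit 33330, nat_lit 29810],
  .leaf [nat_lit 21058, nat_lit 20528, nat_lit 33152, nat_lit 33666, nat_lit 25952, nat_lit 34402, nat_lit 34672, nat_lit 29796, nat_lit 29507],
  .leaf [nat_lit 33586, nat_lit 21058, nat_lit 29810, nat_lit 28961, nat_lit 34689, nat_lit 34402, nat_lit 24960, nat_lit 28768, nat_lit 25936],
  .leaf [nat_lit 17200, nat_lit 29553, nat_lit 33664, nat_lit 34689, nat_lit 33330, nat_lit 21058, nat_lit 29810, nat_lit 34402, nat_lit 24865],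
  .inner [nat_lit 41373, nat_lit 2167765046248951809507, nat_lit 323341151331438835806, nat_lit 2167765046248951807715, nat_lit 323350018357855533150, nat_lit 1804394644345385418467, nat_lit 42781, nat_lit 42910, nat_lit 42948, nat_lit 43032],
  .leaf [nat_lit 21058, nat_lit 33330, nat_lit 34402, nat_lit 29810, nat_lit 33892, nat_lit 33121, nat_lit 28961, nat_lit 34675, nat_lit 33584, nat_lit 34115, nat_lit 20544, nat_lit 25984],
  .leaf [nat_lit 32816, nat_lit 34400, nat_lit 34180, nat_lit 25698, nat_lit 24865, nat_lit 33586, nat_lit 29554, nat_lit 25938, nat_lit 20544],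
  .leaf [nat_lit 29490, nat_lit 33665, nat_lit 34690, nat_lit 34401, nat_lit 34130, nat_lit 32848, nat_lit 33892, nat_lit 25952],
  .leaf [nat_lit 25956, nat_lit 34436, nat_lit 33362, nat_lit 33121, nat_lit 12833, nat_lit 33651, nat_lit 32816, nat_lit 34128],
  .leaf [nat_lit 29282, nat_lit 25956, nat_lit 33922, nat_lit 34676, nat_lit 34130, nat_lit 32848, nat_lit 24640, nat_lit 29490],
  .leaf [nat_lit 34436, nat_lit 34689, nat_lit 32864, nat_lit 33584, nat_lit 33394, nat_lit 12833, nat_lit 34130, nat_lit 20544],
  .leaf [nat_lit 34404, nat_lit 33121, nat_lit 34675, nat_lit 29217, nat_lit 29794, nat_lit 25938, nat_lit 33584, nat_lit 20544, nat_lit 34144],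
  .leaf [nat_lit 29217, nat_lit 25698, nat_lit 34436, nat_lit 34689, nat_lit 32864, nat_lit 33584, nat_lit 20544],
  .leaf [nat_lit 34176, nat_lit 33665, nat_lit 33362, nat_lit 34401, nat_lit 33892, nat_lit 25954, nat_lit 24640],
  .inner [nat_lit 43263, nat_lit 43290, nat_lit 43359, nat_lit 43427, nat_lit 43482, nat_lit 43556, nat_lit 43620, nat_lit 43679],
  .leaf [nat_lit 33665, nat_lit 34128, nat_lit 33362, nat_lit 34401, nat_lit 25988, nat_lit 25698, nat_lit 24640, nat_lit 29040, nat_lit 29217],
  .leaf [nat_lit 34689, nat_lit 33394, nat_lit 12833, nat_lit 25185, nat_lit 32864, nat_lit 29040, nat_lit 33584, nat_lit 34130, nat_lit 33856],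
  .leaf [nat_lit 29025, nat_lit 29488, nat_lit 33152, nat_lit 12833, nat_lit 34128, nat_lit 33362, nat_lit 34402, nat_lit 25956, nat_lit 29810, nat_lit 24640],
  .leaf [nat_lit 34130, nat_lit 25956, nat_lit 32848, nat_lit 34436, nat_lit 33121, nat_lit 33584, nat_lit 12833, nat_lit 29282, nat_lit 34690, nat_lit 29553],
  .inner [nat_lit 43741, nat_lit 2536950859020718615258, nat_lit 43839, nat_lit 2536950859020718615354, nat_lit 43872, nat_lit 2536950859020718615390, nat_lit 43967, nat_lit 2536950859020718615482, nat_lit 43997, nat_lit 2536950859020718615514],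
  .leaf [nat_lit 21058, nat_lit 29282, nat_lit 34149, nat_lit 20544, nat_lit 28768, nat_lit 29553, nat_lit 29763, nat_lit 33584, nat_lit 33330, nat_lit 34689, nat_lit 34401],
  .leaf [nat_lit 34404, nat_lit 25154, nat_lit 34690, nat_lit 34130, nat_lit 17202, nat_lit 32864, nat_lit 20544, nat_lit 29808, nat_lit 33121],
  .leaf [nat_lit 25154, nat_lit 17202, nat_lit 16432, nat_lit 33664, nat_lit 34690, nat_lit 33057, nat_lit 34130, nat_lit 28768, nat_lit 25936, nat_lit 34401],
  .inner [nat_lit 1111948319804874838180, nat_lit 2536699905730763327846, nat_lit 42922, nat_lit 2149055320848825601188, nat_lit 2149658191882619210724, nat_lit 2149659301701799385188, nat_lit 624167110582503226598, nat_lit 187299958616424994914, nat_lit 2542628520806243149674, nat_lit 44198, nat_lit 44266],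
  .leaf [nat_lit 28768, nat_lit 25920, nat_lit 34432, nat_lit 34180, nat_lit 34676, nat_lit 33137, nat_lit 33378, nat_lit 24865, nat_lit 33586, nat_lit 29554, nat_lit 25666, nat_lit 17234],
  .leaf [nat_lit 17202, nat_lit 20544, nat_lit 29040, nat_lit 29488, nat_lit 29217, nat_lit 25696, nat_lit 34694, nat_lit 34149, nat_lit 25154, nat_lit 33922, nat_lit 33121, nat_lit 29824],
  .leaf [nat_lit 21058, nat_lit 29796, nat_lit 34434, nat_lit 34692, nat_lit 34149, nat_lit 20544, nat_lit 32864, nat_lit 29040, nat_lit 33121, nat_lit 29217, nat_lit 29507],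
  .leaf [nat_lit 25154, nat_lit 17202, nat_lit 34180, nat_lit 16432, nat_lit 33362, nat_lit 33665, nat_lit 32848, nat_lit 34401, nat_lit 25696, nat_lit 29040, nat_lit 29217],
  .inner [nat_lit 38335, nat_lit 40866, nat_lit 41437, nat_lit 41510, nat_lit 42022, nat_lit 42559, nat_lit 42598, nat_lit 42666, nat_lit 42726, nat_lit 43114, nat_lit 43165, nat_lit 44044, nat_lit 44138, nat_lit 44318, nat_lit 44356, nat_lit 44454, nat_lit 44518, nat_lit 44607],
  .leaf [nat_lit 33664, nat_lit 34400, nat_lit 33330, nat_lit 24865, nat_lit 29554, nat_lit 30036, nat_lit 34180, nat_lit 17218, nat_lit 20544, nat_lit 25698, nat_lit 25938],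
  .leaf [nat_lit 32816, nat_lit 33121, nat_lit 34149, nat_lit 30036, nat_lit 33859, nat_lit 20544, nat_lit 34404, nat_lit 29282, nat_lit 21058, nat_lit 29490, nat_lit 33666],
  .leaf [nat_lit 25956, nat_lit 29250, nat_lit 30034, nat_lit 21571, nat_lit 34180, nat_lit 33378, nat_lit 33586, nat_lit 32816, nat_lit 34400, nat_lit 28961],
  .leaf [nat_lit 33586, nat_lit 32816, nat_lit 29552, nat_lit 30034, nat_lit 29250, nat_lit 28961, nat_lit 24928, nat_lit 25664, nat_lit 25936, nat_lit 34402],
  .inner [nat_lit 39319, nat_lit 147601556738955819607, nat_lit 2142744902443654479044, nat_lit 2542626581269878708631, nat_lit 334783841204265051671, nat_lit 40097, nat_lit 2168109175796259651287, nat_lit 44588, nat_lit 38369, nat_lit 44701, nat_lit 44765, nat_lit 44829, nat_lit 44887],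
  .leaf [nat_lit 25956, nat_lit 29760, nat_lit 33920, nat_lit 24656, nat_lit 33584, nat_lit 33362, nat_lit 25154, nat_lit 30066, nat_lit 29552, nat_lit 29025, nat_lit 12833, nat_lit 34433],
  .leaf [nat_lit 33664, nat_lit 21571, nat_lit 33362, nat_lit 33057, nat_lit 34400, nat_lit 33858, nat_lit 20544, nat_lit 25956, nat_lit 30068, nat_lit 29282, nat_lit 29490],
  .inner [nat_lit 44887, nat_lit 2542626581269878708247, nat_lit 2179292528196310022743, nat_lit 2179458246857233308055, nat_lit 1776023854760457181591, nat_lit 2832489451053160471, nat_lit 323344698494341388066, nat_lit 2542626581269878714199, nat_lit 2168109175796259653079, nat_lit 181009026031316665815, nat_lit 45004, nat_lit 45085],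
  .leaf [nat_lit 33664, nat_lit 33121, nat_lit 33330, nat_lit 29040, nat_lit 30067, nat_lit 29217, nat_lit 29763, nat_lit 25664, nat_lit 25154, nat_lit 25938, nat_lit 24656],
  .leaf [nat_lit 33378, nat_lit 29762, nat_lit 28768, nat_lit 33856, nat_lit 33586, nat_lit 33152, nat_lit 34128, nat_lit 29488, nat_lit 29266, nat_lit 28961],
  .leaf [nat_lit 32864, nat_lit 29025, nat_lit 33584, nat_lit 29552, nat_lit 30053, nat_lit 29234, nat_lit 33362, nat_lit 33057, nat_lit 29796, nat_lit 33858],
  .leaf [nat_lit 28768, nat_lit 33121, nat_lit 32816, nat_lit 33666, nat_lit 34149, nat_lit 33892, nat_lit 21571, nat_lit 30068, nat_lit 20544, nat_lit 21058, nat_lit 29282],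
  .inner [nat_lit 2542626581269878708631, nat_lit 2179458246857233309015, nat_lit 2179454306205647281495, nat_lit 39000, nat_lit 40279, nat_lit 2168109175796259653124, nat_lit 2536953985277903275524, nat_lit 42540, nat_lit 45207, nat_lit 45271, nat_lit 45335, nat_lit 45409],
  .leaf [nat_lit 28720, nat_lit 29025, nat_lit 20544, nat_lit 29796, nat_lit 32864, nat_lit 30053, nat_lit 29507, nat_lit 29234, nat_lit 21058, nat_lit 34436, nat_lit 33378],
  .inner [nat_lit 44829, nat_lit 38753, nat_lit 2738536325275234583, nat_lit 2179458246857233307736, nat_lit 323344698494341394263, nat_lit 2542626581269878714199, nat_lit 2584329651901970391, nat_lit 323342758955829997399, nat_lit 175244416452074702295, nat_lit 45542],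
  .inner [nat_lit 181288567911898974950, nat_lit 2157197799698460593594, nat_lit 186921726712077110694, nat_lit 2526095243375105035686, nat_lit 1140673974321533695014, nat_lit 1804475849134076863526, nat_lit 2157188790884304434234, nat_lit 608121638297247189754, nat_lit 2542340263839937875386, nat_lit 1140674115024728362214],
  .leaf [nat_lit 29266, nat_lit 28961, nat_lit 29488, nat_lit 24928, nat_lit 33152, nat_lit 29762, nat_lit 28736, nat_lit 30032, nat_lit 21571, nat_lit 25956, nat_lit 34180],
  .leaf [nat_lit 29025, nat_lit 29488, nat_lit 29234, nat_lit 34402, nat_lit 32864, nat_lit 30053, nat_lit 21571, nat_lit 34180, nat_lit 20544, nat_lit 29796, nat_lit 21058],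
  .leaf [nat_lit 25938, nat_lit 29490, nat_lit 21571, nat_lit 28720, nat_lit 29025, nat_lit 34180, nat_lit 30068, nat_lit 24656, nat_lit 25664, nat_lit 25154, nat_lit 34433],
  .leaf [nat_lit 33121, nat_lit 29282, nat_lit 28961, nat_lit 34130, nat_lit 29490, nat_lit 21571, nat_lit 25956, nat_lit 29762, nat_lit 34436, nat_lit 32848, nat_lit 34677],
  .inner [nat_lit 33714615459661515487, nat_lit 2149478742651098634206, nat_lit 33588514677611334367, nat_lit 2526059214715525025183, nat_lit 2517988794969602674079, nat_lit 1140673965525474227231, nat_lit 39347774122401222047, nat_lit 39471904587130621343, nat_lit 1134999579494241550301, nat_lit 45754, nat_lit 45823, nat_lit 45887, nat_lit 45917],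
  .leaf [nat_lit 28768, nat_lit 29488, nat_lit 33665, nat_lit 17216, nat_lit 30068, nat_lit 34432, nat_lit 25936, nat_lit 29266, nat_lit 16946, nat_lit 28961, nat_lit 25698, nat_lit 33377],
  .inner [nat_lit 2542626581269878714647, nat_lit 2828610374030373143, nat_lit 2179166427414259841623, nat_lit 1146156359163509778017, nat_lit 44887, nat_lit 1776025794298968578455, nat_lit 2458228862337431511, nat_lit 2738536325275234583, nat_lit 2542626581269878714199, nat_lit 181009026031316665815, nat_lit 46065],
  .leaf [nat_lit 16432, nat_lit 25956, nat_lit 33665, nat_lit 34401, nat_lit 34676, nat_lit 32864, nat_lit 30019, nat_lit 21058, nat_lit 29282, nat_lit 29490, nat_lit 33922, nat_lit 28961],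
  .leaf [nat_lit 33584, nat_lit 34675, nat_lit 34436, nat_lit 33121, nat_lit 33330, nat_lit 29282, nat_lit 29762, nat_lit 28961, nat_lit 30034, nat_lit 34149],
  .inner [nat_lit 181288567911898974950, nat_lit 2536698216889475959526, nat_lit 2157197799698460593594, nat_lit 164949439766820048314, nat_lit 2157188790884304434234, nat_lit 1780156529893531977574, nat_lit 187051697708435769126, nat_lit 2157550882087967393190, nat_lit 1788705931903129093542, nat_lit 46193, nat_lit 46231],
  .inner [nat_lit 2157548516041974357850, nat_lit 1780633286814408384351, nat_lit 1771504178103057404090, nat_lit 2179298624163585211642, nat_lit 2179172514585475562746, nat_lit 2536699905524655213759, nat_lit 1134999429994987402266, nat_lit 1140673965525474227231],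
  .inner [nat_lit 2168109175796259643554, nat_lit 2157735415527441445924, nat_lit 2167763357405517471906, nat_lit 2167496686281297518756, nat_lit 1146528645030318453796, nat_lit 630021886818667465124, nat_lit 630018227591356615395, nat_lit 629928177589041760995, nat_lit 33714545108047629540, nat_lit 27949937590382103780, nat_lit 46374],
  .leaf [nat_lit 29488, nat_lit 29780, nat_lit 17202, nat_lit 20544, nat_lit 28768, nat_lit 34688, nat_lit 34437, nat_lit 33892, nat_lit 33346, nat_lit 25954, nat_lit 33121],
  .leaf [nat_lit 33378, nat_lit 28961, nat_lit 29488, nat_lit 28768, nat_lit 25666, nat_lit 34132, nat_lit 17202, nat_lit 20544, nat_lit 33908, nat_lit 34432, nat_lit 34689],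
  .leaf [nat_lit 29025, nat_lit 29488, nat_lit 34688, nat_lit 29217, nat_lit 34400, nat_lit 33378, nat_lit 29796, nat_lit 33858, nat_lit 25940, nat_lit 17202, nat_lit 20544],
  .leaf [nat_lit 33137, nat_lit 28768, nat_lit 29488, nat_lit 34432, nat_lit 33908, nat_lit 29217, nat_lit 33378, nat_lit 25666, nat_lit 17202, nat_lit 34132, nat_lit 20544],
  .leaf [nat_lit 28768, nat_lit 29488, nat_lit 34432, nat_lit 33137, nat_lit 29217, nat_lit 33378, nat_lit 25666, nat_lit 34692, nat_lit 34132, nat_lit 17202, nat_lit 20544],
  .inner [nat_lit 2536698216889475959517, nat_lit 1780120501096546568031, nat_lit 2526095243375105035677, nat_lit 1140673974321533694429, nat_lit 2536697653939556089951, nat_lit 44460, nat_lit 46495, nat_lit 46572, nat_lit 46636, nat_lit 46700, nat_lit 46764],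
  .leaf [nat_lit 32864, nat_lit 29796, nat_lit 16432, nat_lit 34692, nat_lit 33378, nat_lit 25940, nat_lit 34128, nat_lit 21058, nat_lit 29490],
  .leaf [nat_lit 32864, nat_lit 29760, nat_lit 21584, nat_lit 34404, nat_lit 29282, nat_lit 16946, nat_lit 25938, nat_lit 33922, nat_lit 33121],
  .leaf [nat_lit 21586, nat_lit 20544, nat_lit 29488, nat_lit 30053, nat_lit 29234, nat_lit 34693, nat_lit 34434, nat_lit 33892, nat_lit 32864],
  .leaf [nat_lit 34402, nat_lit 32864, nat_lit 30053, nat_lit 20528, nat_lit 34693, nat_lit 25684, nat_lit 33856, nat_lit 21058, nat_lit 29554],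
  .inner [nat_lit 1810239106442890084360, nat_lit 2536575775268180887909, nat_lit 1810611497837078272044, nat_lit 1810613437375589668901, nat_lit 46892, nat_lit 46956, nat_lit 2542626581269878716261, nat_lit 1804936962306591471461, nat_lit 1804938901845102868332, nat_lit 47013, nat_lit 2542626581269878716332, nat_lit 47077],
  .inner [nat_lit 181288567911898974941, nat_lit 33588514677611334367, nat_lit 1804938901845102858589, nat_lit 608030150167681338077, nat_lit 181162467129848791133, nat_lit 1140673974321533695005, nat_lit 1804475849134076863517, nat_lit 186921726712077110685, nat_lit 47134, nat_lit 2542628520806243153950],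
  .leaf [nat_lit 34180, nat_lit 34400, nat_lit 20544, nat_lit 33664, nat_lit 33362, nat_lit 25154, nat_lit 17202, nat_lit 33057, nat_lit 29554, nat_lit 29025, nat_lit 28720, nat_lit 30053],
  .leaf [nat_lit 32816, nat_lit 34436, nat_lit 33121, nat_lit 34149, nat_lit 20544, nat_lit 21571, nat_lit 30068, nat_lit 29282, nat_lit 21058, nat_lit 29490, nat_lit 33666],
  .leaf [nat_lit 29282, nat_lit 34434, nat_lit 32864, nat_lit 29760, nat_lit 29040, nat_lit 33584, nat_lit 30032, nat_lit 29490, nat_lit 34130, nat_lit 33859, nat_lit 33057],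
  .leaf [nat_lit 29234, nat_lit 25154, nat_lit 24865, nat_lit 33666, nat_lit 21571, nat_lit 34180, nat_lit 32816, nat_lit 25938, nat_lit 30068, nat_lit 34400, nat_lit 20544],
  .leaf [nat_lit 29282, nat_lit 29490, nat_lit 33666, nat_lit 34436, nat_lit 34149, nat_lit 33121, nat_lit 32816, nat_lit 29040, nat_lit 30032, nat_lit 29760],
  .inner [nat_lit 40215, nat_lit 323344698494341394263, nat_lit 1134620010522447492612, nat_lit 45271, nat_lit 2542626581269878714583, nat_lit 33473010990962474647, nat_lit 2179292528196310022743, nat_lit 39704, nat_lit 47269, nat_lit 47453, nat_lit 47511],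
  .leaf [nat_lit 34400, nat_lit 29040, nat_lit 29796, nat_lit 20544, nat_lit 34692, nat_lit 34132, nat_lit 33121, nat_lit 33378, nat_lit 21058, nat_lit 29217, nat_lit 29507],
  .leaf [nat_lit 28768, nat_lit 29488, nat_lit 34689, nat_lit 33664, nat_lit 33908, nat_lit 29217, nat_lit 33330, nat_lit 17218, nat_lit 34132, nat_lit 25698, nat_lit 20544],
  .leaf [nat_lit 33330, nat_lit 34402, nat_lit 21586, nat_lit 34180, nat_lit 29796, nat_lit 29507, nat_lit 34626, nat_lit 33137, nat_lit 28720, nat_lit 29217, nat_lit 24928, nat_lit 20544],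
  .leaf [nat_lit 33876, nat_lit 24640, nat_lit 29040, nat_lit 17200, nat_lit 33152, nat_lit 34128, nat_lit 33378, nat_lit 33586, nat_lit 21058, nat_lit 24865, nat_lit 29554, nat_lit 29796],
  .leaf [nat_lit 33330, nat_lit 34402, nat_lit 34673, nat_lit 29217, nat_lit 33892, nat_lit 29762, nat_lit 21586, nat_lit 28768, nat_lit 29488, nat_lit 33603, nat_lit 20544],
  .leaf [nat_lit 24928, nat_lit 28736, nat_lit 29553, nat_lit 25121, nat_lit 33586, nat_lit 34689, nat_lit 32816, nat_lit 33859, nat_lit 21584, nat_lit 21058, nat_lit 29810]]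

theorem ok2 : okList db recs2 (nat_lit 500) = true := by decide +kernel

theorem len2 : recs2.length = 250 := by decide +kernel

/-- Rules 750 to 999. -/
def recs3 : List Rec := [
  .leaf [nat_lit 32816, nat_lit 29553, nat_lit 34689, nat_lit 24928, nat_lit 28736, nat_lit 33603, nat_lit 21584, nat_lit 25121, nat_lit 33330, nat_lit 21058, nat_lit 29810],
  .leaf [nat_lit 34434, nat_lit 32864, nat_lit 29040, nat_lit 33121, nat_lit 29217, nat_lit 29796, nat_lit 21058, nat_lit 34692, nat_lit 34132, nat_lit 20544, nat_lit 29507],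
  .leaf [nat_lit 29796, nat_lit 21584, nat_lit 21058, nat_lit 34437, nat_lit 33378, nat_lit 32864, nat_lit 29040, nat_lit 34692, nat_lit 33121, nat_lit 29217, nat_lit 29507],
  .inner [nat_lit 1810613437375589669478, nat_lit 181015582188232533606, nat_lit 42666, nat_lit 46758, nat_lit 46694, nat_lit 46566, nat_lit 9260676367626556730, nat_lit 2157188905205976273338, nat_lit 38591, nat_lit 47654, nat_lit 47738, nat_lit 47778, nat_lit 47871, nat_lit 47906, nat_lit 47994, nat_lit 48058, nat_lit 48102, nat_lit 48166],
  .leaf [nat_lit 25666, nat_lit 21042, nat_lit 34180, nat_lit 34405, nat_lit 24640, nat_lit 29040, nat_lit 29217, nat_lit 33666, nat_lit 33121, nat_lit 32816, nat_lit 17232, nat_lit 29811],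
  .inner [nat_lit 2738536325275234583, nat_lit 334783841204265051671, nat_lit 2168105235144673625431, nat_lit 2542628490020035017111, nat_lit 40215, nat_lit 38935, nat_lit 2742415402298021911, nat_lit 2536953985275756316759, nat_lit 175244416452074702295, nat_lit 2142744902443654479191, nat_lit 591449923908273477863, nat_lit 48300],
  .leaf [nat_lit 33584, nat_lit 34677, nat_lit 25956, nat_lit 33137, nat_lit 33313, nat_lit 29490, nat_lit 34130, nat_lit 29282, nat_lit 29762, nat_lit 34436, nat_lit 32848, nat_lit 24928],
  .inner [nat_lit 2536698216889475959526, nat_lit 181162467129848793830, nat_lit 2157197799698460593594, nat_lit 164949439766820048314, nat_lit 2157188790884304434234, nat_lit 1788226980418263713638, nat_lit 186925627705194972966, nat_lit 2149482401880556438950, nat_lit 1788705931903129093542, nat_lit 2542626581269878715543, nat_lit 48396],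
  .leaf [nat_lit 28768, nat_lit 33584, nat_lit 34673, nat_lit 34165, nat_lit 21571, nat_lit 33908, nat_lit 20544, nat_lit 25956, nat_lit 21058, nat_lit 29282, nat_lit 33330],
  .leaf [nat_lit 29282, nat_lit 34689, nat_lit 34434, nat_lit 33586, nat_lit 32816, nat_lit 33908, nat_lit 34165, nat_lit 21571, nat_lit 20544, nat_lit 25956, nat_lit 21058],
  .leaf [nat_lit 28768, nat_lit 34688, nat_lit 33584, nat_lit 20544, nat_lit 34180, nat_lit 33330, nat_lit 30034, nat_lit 17218, nat_lit 29810, nat_lit 25956, nat_lit 28961],
  .leaf [nat_lit 28768, nat_lit 33876, nat_lit 34688, nat_lit 33584, nat_lit 33330, nat_lit 29762, nat_lit 17234, nat_lit 20544, nat_lit 30066, nat_lit 25956, nat_lit 28961],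
  .inner [nat_lit 2168109175796259643554, nat_lit 2518413540577388802391, nat_lit 2167496686281297518756, nat_lit 2518503652137371962083, nat_lit 2518413602135057107683, nat_lit 630018227591356615395, nat_lit 1146154973778858780282, nat_lit 623803304086385988858, nat_lit 48570, nat_lit 2542628520806243155386, nat_lit 48600, nat_lit 2542628520806243155418, nat_lit 48698, nat_lit 48762],
  .leaf [nat_lit 29507, nat_lit 20528, nat_lit 29040, nat_lit 30016, nat_lit 25952, nat_lit 33664, nat_lit 34180, nat_lit 33330, nat_lit 29217, nat_lit 34401],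
  .leaf [nat_lit 20528, nat_lit 33923, nat_lit 33152, nat_lit 34112, nat_lit 25952, nat_lit 34404, nat_lit 12833, nat_lit 29040, nat_lit 25185],
  .leaf [nat_lit 25956, nat_lit 29282, nat_lit 28768, nat_lit 34432, nat_lit 33922, nat_lit 34112, nat_lit 30068, nat_lit 33603, nat_lit 29490, nat_lit 33057],
  .leaf [nat_lit 29025, nat_lit 30068, nat_lit 25698, nat_lit 24640, nat_lit 25936, nat_lit 34180, nat_lit 34433, nat_lit 29234, nat_lit 33666],
  .leaf [nat_lit 32816, nat_lit 20544, nat_lit 34400, nat_lit 29552, nat_lit 29025, nat_lit 30053, nat_lit 34180, nat_lit 33378, nat_lit 12833, nat_lit 33603],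
  .leaf [nat_lit 32816, nat_lit 29553, nat_lit 24928, nat_lit 30064, nat_lit 25664, nat_lit 25972, nat_lit 29282, nat_lit 34436, nat_lit 34128, nat_lit 33409],
  .leaf [nat_lit 29488, nat_lit 33152, nat_lit 34128, nat_lit 34404, nat_lit 25920, nat_lit 30068, nat_lit 29282, nat_lit 28768, nat_lit 12833, nat_lit 33377],
  .leaf [nat_lit 33603, nat_lit 33152, nat_lit 12833, nat_lit 29811, nat_lit 25956, nat_lit 29282, nat_lit 34434, nat_lit 24640, nat_lit 29040],
  .inner [nat_lit 2513895521374728914959, nat_lit 2542234702138277368847, nat_lit 48864, nat_lit 48933, nat_lit 48964, nat_lit 49028, nat_lit 49125, nat_lit 49164, nat_lit 49295],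
  .inner [nat_lit 38753, nat_lit 2542628490020035017111, nat_lit 2542626581269878708631, nat_lit 47511, nat_lit 1776023854760457181591, nat_lit 2542626581269878716823, nat_lit 2142744902443654479191, nat_lit 2140439028785671601495, nat_lit 2458228862337431511, nat_lit 2542342854493354333015, nat_lit 2542216753701758440279, nat_lit 49361],
  .leaf [nat_lit 33666, nat_lit 32816, nat_lit 29552, nat_lit 29025, nat_lit 29234, nat_lit 34433, nat_lit 25936, nat_lit 21571, nat_lit 25170, nat_lit 25666, nat_lit 30068, nat_lit 34180, nat_lit 24640],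
  .inner [nat_lit 1810613437375589669606, nat_lit 2167763242809365105190, nat_lit 2168109175796259653247, nat_lit 37725, nat_lit 39103, nat_lit 39551, nat_lit 39871, nat_lit 39965, nat_lit 40383, nat_lit 44652, nat_lit 44991, nat_lit 45183, nat_lit 45503, nat_lit 45631, nat_lit 45661, nat_lit 45990, nat_lit 46143, nat_lit 46301, nat_lit 46433, nat_lit 46822, nat_lit 47206, nat_lit 47615, nat_lit 48236, nat_lit 48383, nat_lit 48477, nat_lit 48801, nat_lit 49471, nat_lit 49535],
  .inner [nat_lit 2542462802147466813263, nat_lit 1146154846266615416305, nat_lit 630021781291287985457, nat_lit 2542462731795852953841, nat_lit 1804470641833065613674, nat_lit 630021790087347445226, nat_lit 2542340360592727483402, nat_lit 2168109175796259654065, nat_lit 156805595306607795434],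
  .inner [nat_lit 1804593083454360685282, nat_lit 39350329441111018212, nat_lit 27942711536663416228, nat_lit 1146528645030318453796, nat_lit 2179298615367525737508, nat_lit 1810613437375589694001, nat_lit 1773471688333071484706, nat_lit 2167763357405517482786, nat_lit 2167532715078315960290, nat_lit 49635],
  .leaf [nat_lit 34180, nat_lit 33603, nat_lit 32816, nat_lit 20544, nat_lit 34672, nat_lit 34400, nat_lit 30053, nat_lit 30324, nat_lit 29025, nat_lit 33394, nat_lit 33057, nat_lit 25698],
  .leaf [nat_lit 21058, nat_lit 17216, nat_lit 33922, nat_lit 33057, nat_lit 30068, nat_lit 33584, nat_lit 25952, nat_lit 34432, nat_lit 34672, nat_lit 30308, nat_lit 29282, nat_lit 29025],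
  .leaf [nat_lit 21058, nat_lit 34178, nat_lit 33057, nat_lit 33603, nat_lit 32816, nat_lit 29040, nat_lit 34401, nat_lit 33892, nat_lit 34676, nat_lit 30304, nat_lit 30053, nat_lit 29282],
  .inner [nat_lit 1116072313689181544610, nat_lit 1116647389020327272612, nat_lit 2542462239334952350756, nat_lit 1146528645030318453796, nat_lit 2542336138552902169060, nat_lit 2536698216614665137713, nat_lit 2157159069132920194850, nat_lit 2542462731795852954342, nat_lit 2542462168983338486438, nat_lit 2149063848682715092209, nat_lit 49745, nat_lit 49841, nat_lit 49871],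
  .inner [nat_lit 1804360501588647774946, nat_lit 39477815607812197092, nat_lit 2517987449157756162839, nat_lit 1776115865947918604799, nat_lit 2542462239334952350756, nat_lit 2542462239334952345892, nat_lit 181288567911898955746, nat_lit 2167530775539804572450, nat_lit 618011652975019442978, nat_lit 33714545108047629540],
  .leaf [nat_lit 33584, nat_lit 33362, nat_lit 33057, nat_lit 17218, nat_lit 21568, nat_lit 34180, nat_lit 25698, nat_lit 34400, nat_lit 30324, nat_lit 29025, nat_lit 30066, nat_lit 25936],
  .inner [nat_lit 1804362441127159171810, nat_lit 187299958637894598754, nat_lit 2508908192308977240804, nat_lit 1780155144508880979746, nat_lit 590825133139520933284, nat_lit 2511341521347453149346, nat_lit 2167763357405517471906, nat_lit 2518413039322542643171, nat_lit 2167532715078315960290, nat_lit 50111],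
  .inner [nat_lit 1804362441127159171810, nat_lit 39351714825762015972, nat_lit 630018227591356615395, nat_lit 2526057899682487898903, nat_lit 2542336138552902169636, nat_lit 2542336138552902164772, nat_lit 175523982379097276386, nat_lit 1804938901842955897572, nat_lit 2167532715078315969314, nat_lit 618011652975019442978],
  .leaf [nat_lit 33859, nat_lit 21586, nat_lit 34674, nat_lit 33057, nat_lit 25698, nat_lit 33584, nat_lit 20544, nat_lit 30324, nat_lit 29025, nat_lit 32880, nat_lit 34400, nat_lit 30053],
  .inner [nat_lit 1804360501588647774946, nat_lit 2518413602135057106786, nat_lit 39351714825762015972, nat_lit 2167496686281297518756, nat_lit 1780155060966414885858, nat_lit 2509281929515011956900, nat_lit 2542462731795852957670, nat_lit 2142407976896531793378, nat_lit 49745, nat_lit 50289],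
  .inner [nat_lit 1804601949916127070946, nat_lit 1116461074607049310306, nat_lit 39476430223161196644, nat_lit 2518503652137371961186, nat_lit 630018227591356615395, nat_lit 2179292457844696156902, nat_lit 33475010051048498490, nat_lit 2509193797066344652964, nat_lit 165309818424220978402],
  .inner [nat_lit 2526580189833319417759, nat_lit 2542462168983338485665, nat_lit 2157735380351675795364, nat_lit 2179291895032181688230, nat_lit 2536467596547138291421, nat_lit 2536467596547138289821, nat_lit 2526089424828273526301, nat_lit 46433, nat_lit 2168109175796259645601, nat_lit 2518509739293558984481, nat_lit 2179458246857233315174, nat_lit 2536953985277903268006, nat_lit 49697, nat_lit 49953, nat_lit 50017, nat_lit 2536953985277903291233, nat_lit 2179458246857233318758, nat_lit 50145, nat_lit 2536953985277903291361, nat_lit 2179458246857233318886, nat_lit 50209, nat_lit 2536953985277903291425, nat_lit 2179458246857233318950, nat_lit 50337, nat_lit 50401],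
  .leaf [nat_lit 20528, nat_lit 30309, nat_lit 25684, nat_lit 34179, nat_lit 21042, nat_lit 34674, nat_lit 33409, nat_lit 33858, nat_lit 34402],
  .inner [nat_lit 1146526991296094012236, nat_lit 187299958637894596780, nat_lit 2149658803082923887788, nat_lit 2511587772386786703589, nat_lit 2511589711925298100396, nat_lit 2149088535065722366572, nat_lit 157329378328999626508, nat_lit 50533],
  .inner [nat_lit 1804938901845102856929, nat_lit 594947896932248323957, nat_lit 2167532715078315969249, nat_lit 2536699905526802173345, nat_lit 2542462802147466818593, nat_lit 1146438700557530040737, nat_lit 50590],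
  .leaf [nat_lit 32816, nat_lit 33121, nat_lit 29553, nat_lit 33313, nat_lit 29234, nat_lit 30306, nat_lit 33908, nat_lit 17218, nat_lit 30036, nat_lit 20544, nat_lit 34404, nat_lit 25938],
  .inner [nat_lit 181285797142596979430, nat_lit 164949439766820048314, nat_lit 175392555646473751974, nat_lit 1788225480437460389286, nat_lit 1780155060691538038182, nat_lit 1140854118295891096614, nat_lit 2167765046042843693862, nat_lit 1146528662599250227706, nat_lit 175516686111203148582, nat_lit 50737],
  .leaf [nat_lit 33584, nat_lit 20544, nat_lit 33859, nat_lit 21058, nat_lit 33330, nat_lit 34676, nat_lit 34165, nat_lit 25956, nat_lit 30320, nat_lit 29282, nat_lit 33137],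
  .leaf [nat_lit 17216, nat_lit 25956, nat_lit 30320, nat_lit 30068, nat_lit 34694, nat_lit 29282, nat_lit 33362, nat_lit 16946, nat_lit 33057],
  .leaf [nat_lit 33665, nat_lit 34401, nat_lit 34678, nat_lit 29040, nat_lit 29217, nat_lit 29796, nat_lit 30034, nat_lit 33330, nat_lit 17218, nat_lit 25954],
  .leaf [nat_lit 29025, nat_lit 33152, nat_lit 34672, nat_lit 33313, nat_lit 29760, nat_lit 29282, nat_lit 30034, nat_lit 33586, nat_lit 17218, nat_lit 20528],
  .leaf [nat_lit 17202, nat_lit 33666, nat_lit 20544, nat_lit 32816, nat_lit 34677, nat_lit 30320, nat_lit 33137, nat_lit 34401, nat_lit 29282, nat_lit 29762],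
  .inner [nat_lit 1810365141268218262308, nat_lit 186780167239999705167, nat_lit 2179298624163585208418, nat_lit 2526574032310489850594, nat_lit 2526483960323311149794, nat_lit 50914, nat_lit 50959, nat_lit 51047, nat_lit 51111],
  .leaf [nat_lit 30320, nat_lit 34404, nat_lit 30053, nat_lit 20544, nat_lit 21058, nat_lit 29282, nat_lit 33152, nat_lit 34676, nat_lit 29025, nat_lit 33313, nat_lit 33603],
  .leaf [nat_lit 17202, nat_lit 20544, nat_lit 29810, nat_lit 34179, nat_lit 34677, nat_lit 33152, nat_lit 33313, nat_lit 34422, nat_lit 25712, nat_lit 29025],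
  .leaf [nat_lit 16432, nat_lit 21042, nat_lit 30068, nat_lit 33664, nat_lit 30320, nat_lit 34693, nat_lit 33137, nat_lit 33313, nat_lit 34401, nat_lit 29282],
  .leaf [nat_lit 17202, nat_lit 16432, nat_lit 25956, nat_lit 34128, nat_lit 30068, nat_lit 30320, nat_lit 29282, nat_lit 34694, nat_lit 33362],
  .leaf [nat_lit 20544, nat_lit 34432, nat_lit 33584, nat_lit 30325, nat_lit 34672, nat_lit 29025, nat_lit 29796, nat_lit 33378, nat_lit 33057],
  .leaf [nat_lit 21042, nat_lit 33313, nat_lit 25954, nat_lit 20544, nat_lit 30066, nat_lit 30320, nat_lit 29796, nat_lit 34694, nat_lit 29025],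
  .leaf [nat_lit 33152, nat_lit 34694, nat_lit 34128, nat_lit 29760, nat_lit 17200, nat_lit 25956, nat_lit 30320, nat_lit 29282, nat_lit 33313],
  .inner [nat_lit 186781552624650702927, nat_lit 1804592801973075476559, nat_lit 2167763075924232273999, nat_lit 2167514674291512729743, nat_lit 1780155060966414889122, nat_lit 51303, nat_lit 51367, nat_lit 51427, nat_lit 51473, nat_lit 51554, nat_lit 51601],
  .inner [nat_lit 1116648774407125229730, nat_lit 1107239391420088333348, nat_lit 2513639786522863743349, nat_lit 2536572115832614958114, nat_lit 1146528653826377921570, nat_lit 2542462802147466818018, nat_lit 39243629320542125681, nat_lit 2511499639938119401416, nat_lit 2511497700399608006287, nat_lit 50874, nat_lit 51178, nat_lit 51249, nat_lit 51690],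
  .leaf [nat_lit 29234, nat_lit 30306, nat_lit 34694, nat_lit 34130, nat_lit 33651, nat_lit 32816, nat_lit 33121, nat_lit 33313, nat_lit 33858, nat_lit 25936, nat_lit 25664],
  .inner [nat_lit 1810613437375589681894, nat_lit 629539350695377128890, nat_lit 175392555646473751974, nat_lit 2526580225011232027686, nat_lit 187051697708435772849, nat_lit 608202813064923349094, nat_lit 593043696915688213926, nat_lit 2157729205219865397690, nat_lit 1810166992436587683121, nat_lit 1810166992436587683057, nat_lit 51799],
  .leaf [nat_lit 29507, nat_lit 20544, nat_lit 21058, nat_lit 29234, nat_lit 30306, nat_lit 30053, nat_lit 33922, nat_lit 33057, nat_lit 24960, nat_lit 33584, nat_lit 34404, nat_lit 34673],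
  .leaf [nat_lit 33584, nat_lit 34675, nat_lit 21571, nat_lit 34180, nat_lit 33330, nat_lit 34404, nat_lit 25170, nat_lit 33121, nat_lit 25936, nat_lit 30325],
  .inner [nat_lit 1810611497837078285030, nat_lit 164949439766820048314, nat_lit 1109729860207367179686, nat_lit 2518509805265309676582, nat_lit 1140854215029358069606, nat_lit 1109552530972039466406, nat_lit 2157188790884304433658, nat_lit 51799, nat_lit 1810159511359472295217, nat_lit 51953, nat_lit 51999],
  .leaf [nat_lit 34436, nat_lit 33121, nat_lit 32816, nat_lit 33651, nat_lit 34149, nat_lit 33330, nat_lit 29217, nat_lit 29762, nat_lit 30034, nat_lit 30306],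
  .leaf [nat_lit 33121, nat_lit 33666, nat_lit 32816, nat_lit 34436, nat_lit 34149, nat_lit 34675, nat_lit 30306, nat_lit 30066, nat_lit 29762, nat_lit 28961],
  .inner [nat_lit 46237, nat_lit 2542462731795852954977, nat_lit 2179458246857233316287, nat_lit 2142564758744173950114, nat_lit 2526123672353126756725, nat_lit 2149118371138382082426, nat_lit 2542462731774383363135, nat_lit 2179166387841455361382, nat_lit 52125, nat_lit 2179458246857233320866, nat_lit 52189],
  .inner [nat_lit 2526580198629378885533, nat_lit 2157735389147735263138, nat_lit 45661, nat_lit 2511499640212996272733, nat_lit 2518503564176777301597, nat_lit 2179458246857233314402, nat_lit 2536953985277903291361, nat_lit 2511497700399608006369, nat_lit 2511499639938119401633, nat_lit 1804938901845102848033, nat_lit 1810613437375589672998, nat_lit 50658, nat_lit 2179458246857233319389, nat_lit 50781, nat_lit 2511499640212996277853, nat_lit 2142564758744173954658, nat_lit 51745, nat_lit 51869, nat_lit 2511499640212996278941, nat_lit 2179458246857233320610, nat_lit 52061, nat_lit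 2511499640212996279133, nat_lit 2179458246857233320802, nat_lit 52247, nat_lit 2542626581269878721559],
  .leaf [nat_lit 34180, nat_lit 33584, nat_lit 21042, nat_lit 33346, nat_lit 33057, nat_lit 25954, nat_lit 30066, nat_lit 29796, nat_lit 34400, nat_lit 34678, nat_lit 29025, nat_lit 32880],
  .inner [nat_lit 1116648774407125229730, nat_lit 2542462239334952350756, nat_lit 2536572005881871610229, nat_lit 2536698216614665139234, nat_lit 1146528653826377921570, nat_lit 2542462802147466818018, nat_lit 2542462731795852954342, nat_lit 2542336661792612158182, nat_lit 1788253744240815290986, nat_lit 1780183293708684802673, nat_lit 52367, nat_lit 2542626581269878721672],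
  .inner [nat_lit 1804938901845102856930, nat_lit 39351714825762015972, nat_lit 2542228293926696045463, nat_lit 2518503612564567503191, nat_lit 2536572005881871610229, nat_lit 2149088618608188459426, nat_lit 2542336138552902169636],
  .inner [nat_lit 608121629524374883042, nat_lit 39351714825762013284, nat_lit 2518503612564567503191, nat_lit 2526057899674973541143, nat_lit 2536572005881871610229, nat_lit 608121629524374880290, nat_lit 2511589711925298094242, nat_lit 2509283869053523353764],
  .inner [nat_lit 52189, nat_lit 2542232203768457378239, nat_lit 2511497700674484882397, nat_lit 2526131247408400601885, nat_lit 2179456307318721910847, nat_lit 2542626581269878721437, nat_lit 2142562819205662559202, nat_lit 2742446188506165119, nat_lit 2179292457844696159167],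
  .inner [nat_lit 2542462168983338485665, nat_lit 2542462731795852953505, nat_lit 52247, nat_lit 2536697561465672959905, nat_lit 2179291895032181688230, nat_lit 2179292457844696156070, nat_lit 2542626581269878721559, nat_lit 2179458246857233315937, nat_lit 1810613437375589693537, nat_lit 2168109175796259650529, nat_lit 47206, nat_lit 2536953985277903272934, nat_lit 2536697935406043792101, nat_lit 2536571834616594858732, nat_lit 52449, nat_lit 52513, nat_lit 2542626581269878721825, nat_lit 2179458246857233321254, nat_lit 2179456307318721924390, nat_lit 52577, nat_lit 2536953985277903293793, nat_lit 2179458246857233321318, nat_lit 52631],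
  .leaf [nat_lit 28736, nat_lit 17200, nat_lit 30309, nat_lit 25696, nat_lit 29025, nat_lit 21058, nat_lit 29810, nat_lit 34690, nat_lit 33586, nat_lit 34402],
  .leaf [nat_lit 33362, nat_lit 33057, nat_lit 17202, nat_lit 20544, nat_lit 29250, nat_lit 25956, nat_lit 30306, nat_lit 28768, nat_lit 34694],
  .inner [nat_lit 2526573469497975382884, nat_lit 2526574032310489850421, nat_lit 2526574032310489850594, nat_lit 2526574032310489850530, nat_lit 1810125108831436447567, nat_lit 2536953985277903292689, nat_lit 2536953985277903283879, nat_lit 52770, nat_lit 2542628520806243159588, nat_lit 52834],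
  .leaf [nat_lit 33603, nat_lit 32816, nat_lit 20544, nat_lit 34672, nat_lit 29025, nat_lit 34400, nat_lit 33394, nat_lit 21042, nat_lit 33858, nat_lit 33057],
  .leaf [nat_lit 28768, nat_lit 33121, nat_lit 34673, nat_lit 33584, nat_lit 33330, nat_lit 29282, nat_lit 33892, nat_lit 20544, nat_lit 21058],
  .leaf [nat_lit 29025, nat_lit 33152, nat_lit 34694, nat_lit 33892, nat_lit 33603, nat_lit 33313, nat_lit 16946, nat_lit 34130, nat_lit 25954],
  .leaf [nat_lit 34694, nat_lit 21058, nat_lit 25954, nat_lit 28768, nat_lit 24865, nat_lit 33892, nat_lit 20544, nat_lit 33394, nat_lit 33586, nat_lit 34115],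
  .leaf [nat_lit 28768, nat_lit 33152, nat_lit 34673, nat_lit 29282, nat_lit 33313, nat_lit 34404, nat_lit 20544, nat_lit 21058, nat_lit 33603],
  .leaf [nat_lit 17202, nat_lit 16432, nat_lit 33152, nat_lit 33313, nat_lit 33892, nat_lit 25938, nat_lit 24656, nat_lit 29025, nat_lit 34694],
  .inner [nat_lit 2542232203789926961585, nat_lit 2542462802147466817521, nat_lit 52967, nat_lit 53041, nat_lit 53071, nat_lit 53154, nat_lit 53233, nat_lit 53297],
  .leaf [nat_lit 30309, nat_lit 28768, nat_lit 34676, nat_lit 21058, nat_lit 29282, nat_lit 34178, nat_lit 33892, nat_lit 33603, nat_lit 33137, nat_lit 12833, nat_lit 34401, nat_lit 32816],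
  .leaf [nat_lit 34180, nat_lit 34674, nat_lit 30309, nat_lit 29796, nat_lit 32880, nat_lit 20544, nat_lit 34400, nat_lit 33378, nat_lit 33584, nat_lit 17202, nat_lit 33057, nat_lit 29025],
  .inner [nat_lit 2542462802147466818594, nat_lit 2542462239334952350756, nat_lit 2513639786522863743349, nat_lit 2542462802147466818018, nat_lit 2542336661792612157858, nat_lit 1780731464523696047906, nat_lit 2513639764532715073909, nat_lit 1780183293708684802673, nat_lit 2542462802147466817073, nat_lit 186781553113199565681, nat_lit 52906, nat_lit 53349, nat_lit 53391, nat_lit 53457],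
  .leaf [nat_lit 33584, nat_lit 33137, nat_lit 33330, nat_lit 30066, nat_lit 34422, nat_lit 24928, nat_lit 25121, nat_lit 25938, nat_lit 17218, nat_lit 29796],
  .leaf [nat_lit 16432, nat_lit 25956, nat_lit 30068, nat_lit 34422, nat_lit 28768, nat_lit 29282, nat_lit 33362, nat_lit 16946, nat_lit 33057],
  .leaf [nat_lit 17202, nat_lit 20544, nat_lit 33584, nat_lit 32880, nat_lit 34405, nat_lit 30304, nat_lit 33121, nat_lit 29282, nat_lit 25666, nat_lit 30068],
  .leaf [nat_lit 33057, nat_lit 33584, nat_lit 32880, nat_lit 20544, nat_lit 34400, nat_lit 30324, nat_lit 29025, nat_lit 29282, nat_lit 30053],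
  .leaf [nat_lit 32848, nat_lit 17216, nat_lit 29040, nat_lit 30068, nat_lit 33362, nat_lit 16946, nat_lit 25956, nat_lit 33057, nat_lit 24928, nat_lit 33584],
  .inner [nat_lit 2526483960323311149794, nat_lit 2526573469497975382692, nat_lit 2536953985277903292268, nat_lit 53583, nat_lit 53666, nat_lit 53732, nat_lit 53777, nat_lit 53877],
  .leaf [nat_lit 29796, nat_lit 33394, nat_lit 25154, nat_lit 30034, nat_lit 17202, nat_lit 20544, nat_lit 32880, nat_lit 34400, nat_lit 30309, nat_lit 29025, nat_lit 33584, nat_lit 33057],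
  .leaf [nat_lit 33584, nat_lit 33137, nat_lit 33313, nat_lit 20544, nat_lit 33908, nat_lit 24928, nat_lit 34404, nat_lit 30320, nat_lit 30053, nat_lit 29282, nat_lit 21058, nat_lit 17202],
  .leaf [nat_lit 17202, nat_lit 20544, nat_lit 33057, nat_lit 32880, nat_lit 33584, nat_lit 34401, nat_lit 33892, nat_lit 30304, nat_lit 25972, nat_lit 25170],
  .leaf [nat_lit 33858, nat_lit 21042, nat_lit 30066, nat_lit 20544, nat_lit 32880, nat_lit 33584, nat_lit 33057, nat_lit 34400, nat_lit 25698],
  .leaf [nat_lit 20528, nat_lit 30064, nat_lit 25956, nat_lit 30304, nat_lit 29282, nat_lit 21058],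
  .leaf [nat_lit 17200, nat_lit 16946, nat_lit 25698, nat_lit 32864, nat_lit 25936, nat_lit 30322, nat_lit 24944],
  .leaf [nat_lit 29282, nat_lit 17200, nat_lit 16946, nat_lit 25956, nat_lit 34436, nat_lit 28768],
  .inner [nat_lit 2179458246857233310442, nat_lit 2179458246855086351082, nat_lit 1810613437375589688042, nat_lit 1810613437373442728682, nat_lit 1810613437375589689248, nat_lit 54250, nat_lit 2536953985277903295466, nat_lit 54309, nat_lit 54373],
  .inner [nat_lit 630021790087347453155, nat_lit 1810613437375589687458, nat_lit 2179172523381535027234, nat_lit 2536953985275756334880, nat_lit 1810613437375589690531, nat_lit 2168109175794112682083, nat_lit 2179458246857233310581, nat_lit 54111, nat_lit 54197, nat_lit 54435],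
  .leaf [nat_lit 17200, nat_lit 21058, nat_lit 33152, nat_lit 29808, nat_lit 34422, nat_lit 25698, nat_lit 30053, nat_lit 24640, nat_lit 29025, nat_lit 33313, nat_lit 33906, nat_lit 33586],
  .leaf [nat_lit 17200, nat_lit 16946, nat_lit 33152, nat_lit 33313, nat_lit 34179, nat_lit 30064, nat_lit 29266, nat_lit 34422, nat_lit 25954, nat_lit 24656, nat_lit 29025, nat_lit 29796],
  .leaf [nat_lit 17202, nat_lit 16432, nat_lit 33152, nat_lit 34179, nat_lit 33313, nat_lit 30064, nat_lit 29266, nat_lit 25954, nat_lit 34422, nat_lit 24656, nat_lit 29025, nat_lit 29796],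
  .leaf [nat_lit 34180, nat_lit 29796, nat_lit 33394, nat_lit 34402, nat_lit 33586, nat_lit 21058, nat_lit 30305, nat_lit 30053, nat_lit 20544],
  .inner [nat_lit 1146528653826377921570, nat_lit 2536697653802150670820, nat_lit 2536572115832614957538, nat_lit 2542336661792612157858, nat_lit 2542462731795852954018, nat_lit 1140854215029358084066, nat_lit 1810613437375589688945, nat_lit 1810613437375589690801, nat_lit 2179458246857233310769, nat_lit 53930, nat_lit 54001, nat_lit 54065, nat_lit 54513, nat_lit 54577, nat_lit 54634, nat_lit 54698, nat_lit 54754],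
  .leaf [nat_lit 32816, nat_lit 20544, nat_lit 29552, nat_lit 34689, nat_lit 33330, nat_lit 34401, nat_lit 30304, nat_lit 29282, nat_lit 17218, nat_lit 28961, nat_lit 34149, nat_lit 25682],
  .leaf [nat_lit 34674, nat_lit 32880, nat_lit 29488, nat_lit 17202, nat_lit 20544, nat_lit 28961, nat_lit 30304, nat_lit 34404, nat_lit 33121, nat_lit 34149, nat_lit 25154, nat_lit 33362],
  .leaf [nat_lit 20544, nat_lit 29488, nat_lit 34179, nat_lit 33152, nat_lit 34673, nat_lit 34405, nat_lit 21058, nat_lit 29234, nat_lit 33313, nat_lit 30306, nat_lit 28768],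
  .leaf [nat_lit 17200, nat_lit 33152, nat_lit 21042, nat_lit 29553, nat_lit 29250, nat_lit 34691, nat_lit 33313, nat_lit 34128, nat_lit 34402, nat_lit 25956, nat_lit 30305, nat_lit 28768],
  .leaf [nat_lit 33603, nat_lit 21058, nat_lit 29554, nat_lit 33330, nat_lit 30308, nat_lit 34402, nat_lit 34149, nat_lit 29025, nat_lit 20544, nat_lit 32864],
  .leaf [nat_lit 33137, nat_lit 30304, nat_lit 34401, nat_lit 29282, nat_lit 29490, nat_lit 21058, nat_lit 34178, nat_lit 33569, nat_lit 25936],
  .leaf [nat_lit 25956, nat_lit 34432, nat_lit 34692, nat_lit 33137, nat_lit 33378, nat_lit 21058, nat_lit 34115, nat_lit 20544, nat_lit 33586, nat_lit 29554],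
  .leaf [nat_lit 17202, nat_lit 33313, nat_lit 29554, nat_lit 30306, nat_lit 34130, nat_lit 25956, nat_lit 24640, nat_lit 29025, nat_lit 34432, nat_lit 34689],
  .leaf [nat_lit 30304, nat_lit 34402, nat_lit 25666, nat_lit 17234, nat_lit 33586, nat_lit 29554, nat_lit 25936, nat_lit 33152, nat_lit 34673, nat_lit 24865],
  .leaf [nat_lit 30304, nat_lit 33121, nat_lit 34673, nat_lit 29282, nat_lit 29490, nat_lit 21058, nat_lit 34178, nat_lit 33569, nat_lit 25936],
  .leaf [nat_lit 21058, nat_lit 29554, nat_lit 30306, nat_lit 34178, nat_lit 25664, nat_lit 24928, nat_lit 33057, nat_lit 34673, nat_lit 34432],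
  .leaf [nat_lit 34673, nat_lit 30304, nat_lit 34434, nat_lit 33152, nat_lit 25936, nat_lit 25666, nat_lit 24865, nat_lit 33586, nat_lit 29554, nat_lit 17234],
  .inner [nat_lit 186775603535473037375, nat_lit 592627980100357348337, nat_lit 617988312803523451903, nat_lit 55167, nat_lit 55210, nat_lit 55285, nat_lit 55338, nat_lit 55402, nat_lit 55466, nat_lit 55530, nat_lit 55594],
  .leaf [nat_lit 17202, nat_lit 20544, nat_lit 29552, nat_lit 28961, nat_lit 34689, nat_lit 33666, nat_lit 32816, nat_lit 34401, nat_lit 30304, nat_lit 29282, nat_lit 34149, nat_lit 25682],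
  .leaf [nat_lit 29552, nat_lit 29217, nat_lit 30304, nat_lit 17218, nat_lit 25698, nat_lit 34180, nat_lit 20544, nat_lit 34432, nat_lit 33584, nat_lit 33121, nat_lit 33330, nat_lit 25938],
  .leaf [nat_lit 21058, nat_lit 34692, nat_lit 34402, nat_lit 30308, nat_lit 34149, nat_lit 20544, nat_lit 32864, nat_lit 29040, nat_lit 33121, nat_lit 29217, nat_lit 29507],
  .leaf [nat_lit 17218, nat_lit 30306, nat_lit 25682, nat_lit 20544, nat_lit 28768, nat_lit 29488, nat_lit 28961, nat_lit 33664, nat_lit 34689, nat_lit 33330, nat_lit 34401, nat_lit 34149],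
  .leaf [nat_lit 16432, nat_lit 29553, nat_lit 25956, nat_lit 28768, nat_lit 16946, nat_lit 30306, nat_lit 34436, nat_lit 33603, nat_lit 33313, nat_lit 34130, nat_lit 34674, nat_lit 33121],
  .leaf [nat_lit 17202, nat_lit 20544, nat_lit 29488, nat_lit 28961, nat_lit 25698, nat_lit 28768, nat_lit 34436, nat_lit 34688, nat_lit 34149, nat_lit 33121, nat_lit 33346, nat_lit 30322],
  .leaf [nat_lit 32816, nat_lit 17216, nat_lit 16946, nat_lit 29553, nat_lit 33666, nat_lit 34689, nat_lit 34401, nat_lit 29282, nat_lit 30320, nat_lit 25938, nat_lit 24656],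
  .inner [nat_lit 2168109175796259670054, nat_lit 44607, nat_lit 2179458246857233319974, nat_lit 2157269926078598132070, nat_lit 2179458246857233322726, nat_lit 2179458246857233314815, nat_lit 54890, nat_lit 54950, nat_lit 55018, nat_lit 55082, nat_lit 55620, nat_lit 55722, nat_lit 55807, nat_lit 55846, nat_lit 1804938901845102877222, nat_lit 55914, nat_lit 55970, nat_lit 56038, nat_lit 56106],
  .leaf [nat_lit 34180, nat_lit 34400, nat_lit 25956, nat_lit 34676, nat_lit 28736, nat_lit 33137, nat_lit 30305, nat_lit 29250, nat_lit 33378, nat_lit 33586, nat_lit 17234, nat_lit 29473],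
  .leaf [nat_lit 25956, nat_lit 34180, nat_lit 34432, nat_lit 34676, nat_lit 33378, nat_lit 30322, nat_lit 28768, nat_lit 33137, nat_lit 33586, nat_lit 29473, nat_lit 17218],
  .leaf [nat_lit 33665, nat_lit 29040, nat_lit 34675, nat_lit 29217, nat_lit 29762, nat_lit 34422, nat_lit 17202, nat_lit 32864, nat_lit 33378, nat_lit 25938],
  .leaf [nat_lit 25696, nat_lit 34676, nat_lit 34422, nat_lit 25154, nat_lit 17202, nat_lit 29040, nat_lit 24960, nat_lit 29217, nat_lit 33409, nat_lit 33651],
  .leaf [nat_lit 33651, nat_lit 33152, nat_lit 28720, nat_lit 34422, nat_lit 33313, nat_lit 25698, nat_lit 29297, nat_lit 29762, nat_lit 24928, nat_lit 17202],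
  .leaf [nat_lit 16432, nat_lit 29553, nat_lit 25956, nat_lit 34674, nat_lit 29763, nat_lit 34422, nat_lit 28768, nat_lit 25154, nat_lit 21042, nat_lit 24865, nat_lit 33666],
  .leaf [nat_lit 16432, nat_lit 25696, nat_lit 25154, nat_lit 17202, nat_lit 33665, nat_lit 29040, nat_lit 29217, nat_lit 34401],
  .leaf [nat_lit 25666, nat_lit 24640, nat_lit 17202, nat_lit 33394, nat_lit 33665, nat_lit 34401, nat_lit 30321, nat_lit 34676, nat_lit 32880, nat_lit 29473],
  .inner [nat_lit 2542270740487051967000, nat_lit 2542192587200616757766, nat_lit 1775526829737765812420, nat_lit 56328, nat_lit 2542232203789926980620, nat_lit 56388, nat_lit 2542232203789926980676, nat_lit 56456, nat_lit 56546, nat_lit 56639, nat_lit 2542232203789926980927, nat_lit 56644],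
  .leaf [nat_lit 28736, nat_lit 34694, nat_lit 33651, nat_lit 34115, nat_lit 29217, nat_lit 33330],
  .leaf [nat_lit 21058, nat_lit 29554, nat_lit 29794, nat_lit 28736, nat_lit 34436, nat_lit 34690],
  .leaf [nat_lit 29760, nat_lit 34436, nat_lit 21058, nat_lit 33586, nat_lit 34115, nat_lit 34675],
  .inner [nat_lit 56778, nat_lit 181445279407927254506, nat_lit 2518413320921184001503, nat_lit 157230079520721133055, nat_lit 56870, nat_lit 157230079520721133062, nat_lit 56927, nat_lit 2518413320921184001610],
  .leaf [nat_lit 29217, nat_lit 17218, nat_lit 33923, nat_lit 30320, nat_lit 29794, nat_lit 34694, nat_lit 29569],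
  .leaf [nat_lit 33057, nat_lit 29234, nat_lit 17234, nat_lit 34179, nat_lit 33858, nat_lit 34675],
  .leaf [nat_lit 29490, nat_lit 21058, nat_lit 33666, nat_lit 34689, nat_lit 33908, nat_lit 34402, nat_lit 34115],
  .leaf [nat_lit 17202, nat_lit 29217, nat_lit 33666, nat_lit 34180, nat_lit 34402, nat_lit 34676, nat_lit 29569],
  .leaf [nat_lit 34180, nat_lit 30305, nat_lit 34676, nat_lit 28736, nat_lit 33665, nat_lit 29282, nat_lit 33313, nat_lit 34370],
  .inner [nat_lit 56985, nat_lit 57060, nat_lit 181445279407927254756, nat_lit 57141, nat_lit 57205, nat_lit 181445279407927254901, nat_lit 57269, nat_lit 181445279407927254965, nat_lit 57286],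
  .leaf [nat_lit 30305, nat_lit 29217, nat_lit 25956, nat_lit 29762, nat_lit 17234, nat_lit 28736, nat_lit 34178, nat_lit 34692, nat_lit 34402],
  .leaf [nat_lit 25956, nat_lit 30305, nat_lit 28736, nat_lit 34402, nat_lit 29250, nat_lit 34676, nat_lit 33057, nat_lit 33651, nat_lit 34180],
  .leaf [nat_lit 25956, nat_lit 17202, nat_lit 34179, nat_lit 34675, nat_lit 29217, nat_lit 33409, nat_lit 33858, nat_lit 25170],
  .leaf [nat_lit 17202, nat_lit 34180, nat_lit 33666, nat_lit 29217, nat_lit 34676, nat_lit 29569, nat_lit 34402, nat_lit 30305],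
  .inner [nat_lit 57383, nat_lit 2518413320921184002073, nat_lit 57446, nat_lit 181625423107407798342, nat_lit 57478, nat_lit 57589, nat_lit 157230079520721133792, nat_lit 57632, nat_lit 181445279407927255328, nat_lit 2518413320921184002357, nat_lit 157230079520721133877],
  .leaf [nat_lit 17202, nat_lit 29217, nat_lit 33666, nat_lit 34689, nat_lit 34401, nat_lit 30306, nat_lit 28768, nat_lit 34176, nat_lit 25938, nat_lit 25664],
  .inner [nat_lit 2536571834618741812138, nat_lit 2536953985277903268287, nat_lit 2511207561266136639914, nat_lit 147601665256521251057, nat_lit 1775778940400795957475, nat_lit 1804396614670104952291, nat_lit 181011078613249850851, nat_lit 57698, nat_lit 2542232203789926981990, nat_lit 57770, nat_lit 2542232203789926982058, nat_lit 2518413320921184002495, nat_lit 2518017003902720860607],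
  .leaf [nat_lit 33920, nat_lit 34130, nat_lit 25956, nat_lit 34400, nat_lit 33378, nat_lit 34674, nat_lit 30324, nat_lit 29025, nat_lit 33136, nat_lit 29488, nat_lit 12833],
  .leaf [nat_lit 17202, nat_lit 25954, nat_lit 34436, nat_lit 34130, nat_lit 32864, nat_lit 30322, nat_lit 34690, nat_lit 33121, nat_lit 29040, nat_lit 29473],
  .leaf [nat_lit 17216, nat_lit 21042, nat_lit 34180, nat_lit 29554, nat_lit 34676, nat_lit 33378, nat_lit 33137, nat_lit 28720, nat_lit 30305, nat_lit 32864],
  .leaf [nat_lit 29488, nat_lit 17202, nat_lit 29217, nat_lit 33922, nat_lit 34694, nat_lit 33121, nat_lit 32880, nat_lit 30304, nat_lit 34149, nat_lit 25698],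
  .leaf [nat_lit 17202, nat_lit 29553, nat_lit 34689, nat_lit 24928, nat_lit 34422, nat_lit 25121, nat_lit 25682, nat_lit 33922, nat_lit 34149, nat_lit 29810],
  .leaf [nat_lit 24640, nat_lit 34180, nat_lit 34432, nat_lit 33378, nat_lit 25938, nat_lit 34676, nat_lit 30308, nat_lit 29040, nat_lit 33121, nat_lit 29217],
  .leaf [nat_lit 33856, nat_lit 34690, nat_lit 34130, nat_lit 34402, nat_lit 25956, nat_lit 30324, nat_lit 32864, nat_lit 29025, nat_lit 33136, nat_lit 29488, nat_lit 12833],
  .inner [nat_lit 2513898058428115888928, nat_lit 2167532714803439112800, nat_lit 2179061929838770164330, nat_lit 1772655103031973290056, nat_lit 57868, nat_lit 57928, nat_lit 1804938901845102879304, nat_lit 58016, nat_lit 58056, nat_lit 58120, nat_lit 58188, nat_lit 58252],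
  .inner [nat_lit 2536953985277903269380, nat_lit 2511589711925298097668, nat_lit 44356, nat_lit 2542232203789926968644, nat_lit 55970, nat_lit 2179061929838770181410, nat_lit 2179061929838770176674, nat_lit 2179458246857233314914, nat_lit 2142564758744173950050, nat_lit 1780192439752172788770, nat_lit 1804403792288437001058, nat_lit 2179298650545438329634, nat_lit 2179458246857233318566, nat_lit 2179061929838770173030, nat_lit 56196, nat_lit 2542232203789926980484, nat_lit 56260, nat_lit 2542232203789926980548, nat_lit 56753, nat_lit 57796, nat_lit 58342, nat_lit 2542232203789926982626],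
  .leaf [nat_lit 33313, nat_lit 17202, nat_lit 34674, nat_lit 29553, nat_lit 33908, nat_lit 16432, nat_lit 30305, nat_lit 25696, nat_lit 25154],
  .leaf [nat_lit 16946, nat_lit 25698, nat_lit 24640, nat_lit 17200, nat_lit 29553, nat_lit 34672, nat_lit 33394, nat_lit 30305, nat_lit 33908],
  .leaf [nat_lit 17202, nat_lit 33394, nat_lit 33908, nat_lit 16432, nat_lit 29552, nat_lit 28961, nat_lit 30304, nat_lit 25956, nat_lit 34432, nat_lit 25154],
  .leaf [nat_lit 25698, nat_lit 33152, nat_lit 33313, nat_lit 34675, nat_lit 29234, nat_lit 33908, nat_lit 34422, nat_lit 24640, nat_lit 29025, nat_lit 28720],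
  .leaf [nat_lit 33152, nat_lit 34675, nat_lit 29040, nat_lit 34422, nat_lit 29217, nat_lit 33330, nat_lit 25185, nat_lit 24640, nat_lit 33908, nat_lit 17200],
  .inner [nat_lit 2542232203789926980927, nat_lit 594935210117719155107, nat_lit 617993638835466559907, nat_lit 2542232203789926966463, nat_lit 186780167728548565793, nat_lit 2536571834616594858250, nat_lit 2168109175796259646788, nat_lit 617993638835466560644, nat_lit 58466, nat_lit 58531, nat_lit 58595, nat_lit 58636, nat_lit 58698],
  .leaf [nat_lit 25956, nat_lit 34422, nat_lit 29282, nat_lit 33856, nat_lit 28768, nat_lit 34128, nat_lit 33152, nat_lit 29553, nat_lit 33584],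
  .inner [nat_lit 186793655528958230562, nat_lit 39343855526495682596, nat_lit 2536950859020718615354, nat_lit 2141128920448795445988, nat_lit 617984653657334644770, nat_lit 28202108360875575140, nat_lit 2179166146953969403684, nat_lit 2518017003902720843874, nat_lit 2509912473050684366948, nat_lit 2536428440601732373542, nat_lit 58852],
  .leaf [nat_lit 25698, nat_lit 29040, nat_lit 29217, nat_lit 34676, nat_lit 34422, nat_lit 24640, nat_lit 33121, nat_lit 33651, nat_lit 33330, nat_lit 32816],
  .leaf [nat_lit 17202, nat_lit 20544, nat_lit 33313, nat_lit 29297, nat_lit 33651, nat_lit 28720, nat_lit 29762, nat_lit 30304, nat_lit 34694, nat_lit 25698],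
  .inner [nat_lit 56639, nat_lit 2542232203789926980927, nat_lit 2542196175130346970124, nat_lit 591458429719330985151, nat_lit 56644, nat_lit 2542232203789926980676, nat_lit 56456, nat_lit 2542192587200616757766, nat_lit 1775526829737765812420, nat_lit 58956, nat_lit 2542232203789926983240, nat_lit 59042],
  .leaf [nat_lit 17202, nat_lit 20544, nat_lit 33858, nat_lit 25956, nat_lit 34402, nat_lit 32864, nat_lit 30324, nat_lit 34672, nat_lit 29488, nat_lit 29025, nat_lit 29217],
  .leaf [nat_lit 16946, nat_lit 25698, nat_lit 29217, nat_lit 34678, nat_lit 33922, nat_lit 34149, nat_lit 33121, nat_lit 20544, nat_lit 32864],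
  .leaf [nat_lit 29488, nat_lit 20544, nat_lit 29217, nat_lit 28768, nat_lit 34436, nat_lit 34149, nat_lit 34688, nat_lit 33121, nat_lit 33378],
  .leaf [nat_lit 17202, nat_lit 20528, nat_lit 34180, nat_lit 29217, nat_lit 25696, nat_lit 25154, nat_lit 34690, nat_lit 34405, nat_lit 33121, nat_lit 30324],
  .inner [nat_lit 591890775395227158538, nat_lit 2157735415529588410397, nat_lit 2179456307318721923421, nat_lit 629935654527067277642, nat_lit 58056, nat_lit 2518413320919037043423, nat_lit 59229, nat_lit 59274, nat_lit 1780723701955749799837, nat_lit 59357, nat_lit 2518413320919037044682],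
  .leaf [nat_lit 17202, nat_lit 16432, nat_lit 29553, nat_lit 33908, nat_lit 32880, nat_lit 25696, nat_lit 30305, nat_lit 25154, nat_lit 33394],
  .leaf [nat_lit 16432, nat_lit 29553, nat_lit 33152, nat_lit 34672, nat_lit 30305, nat_lit 33908, nat_lit 25696, nat_lit 33313, nat_lit 29282, nat_lit 33586],
  .leaf [nat_lit 17202, nat_lit 16432, nat_lit 29552, nat_lit 29217, nat_lit 30304, nat_lit 25728, nat_lit 25936, nat_lit 25154, nat_lit 34690, nat_lit 33908],
  .leaf [nat_lit 24640, nat_lit 33152, nat_lit 34678, nat_lit 33651, nat_lit 17200, nat_lit 29040, nat_lit 33908, nat_lit 29217, nat_lit 33330, nat_lit 25185],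
  .leaf [nat_lit 25696, nat_lit 33152, nat_lit 34678, nat_lit 33908, nat_lit 25154, nat_lit 33313, nat_lit 29025, nat_lit 33651, nat_lit 28720, nat_lit 29234],
  .inner [nat_lit 2542232203789926980927, nat_lit 594935210117719155107, nat_lit 617993638835466559907, nat_lit 58466, nat_lit 181015582195746886438, nat_lit 42431, nat_lit 1776031105832429045446, nat_lit 59491, nat_lit 59530, nat_lit 59619, nat_lit 59658, nat_lit 59724],
  .leaf [nat_lit 17202, nat_lit 29488, nat_lit 20544, nat_lit 29217, nat_lit 30304, nat_lit 33378, nat_lit 25666, nat_lit 34180, nat_lit 34432, nat_lit 34676, nat_lit 33137],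
  .inner [nat_lit 56260, nat_lit 2542462731795852957090, nat_lit 1780183272062049630822, nat_lit 2509283869053523357190, nat_lit 2536953985277903269380, nat_lit 33477658403089448550, nat_lit 2517998708166673568998, nat_lit 2518413320919037033082, nat_lit 2517998708145203975418, nat_lit 56038, nat_lit 1804938901845102865830, nat_lit 44454, nat_lit 58801, nat_lit 58892, nat_lit 59121, nat_lit 59174, nat_lit 59430, nat_lit 59825, nat_lit 59878],
  .leaf [nat_lit 28720, nat_lit 30304, nat_lit 34688, nat_lit 33892, nat_lit 29282, nat_lit 33346, nat_lit 17202, nat_lit 28961, nat_lit 25938, nat_lit 33121],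
  .leaf [nat_lit 29234, nat_lit 30068, nat_lit 21058, nat_lit 30306, nat_lit 34690, nat_lit 34401, nat_lit 33892, nat_lit 34149],
  .leaf [nat_lit 28720, nat_lit 28961, nat_lit 30034, nat_lit 17202, nat_lit 24928, nat_lit 34688, nat_lit 34422, nat_lit 33892, nat_lit 25954, nat_lit 33409, nat_lit 34114],
  .leaf [nat_lit 29040, nat_lit 16946, nat_lit 29217, nat_lit 34178, nat_lit 34692, nat_lit 34402, nat_lit 25956, nat_lit 32864, nat_lit 30324, nat_lit 33121, nat_lit 17200],
  .inner [nat_lit 181018352476500021349, nat_lit 157234041880196679518, nat_lit 181015581707198025829, nat_lit 157414141884826388318, nat_lit 1810357387505877155941, nat_lit 2536697935408190750821, nat_lit 2536431567750119846751, nat_lit 60012, nat_lit 60061, nat_lit 60133, nat_lit 60204],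
  .leaf [nat_lit 33603, nat_lit 21058, nat_lit 33330, nat_lit 33152, nat_lit 34404, nat_lit 30325, nat_lit 28768, nat_lit 29282, nat_lit 34149, nat_lit 24865],
  .leaf [nat_lit 28768, nat_lit 33152, nat_lit 34422, nat_lit 25956, nat_lit 29282, nat_lit 34130, nat_lit 30018, nat_lit 17202, nat_lit 33313],
  .leaf [nat_lit 30308, nat_lit 34149, nat_lit 34677, nat_lit 29282, nat_lit 33330, nat_lit 33057, nat_lit 32880, nat_lit 33584, nat_lit 33859, nat_lit 34400, nat_lit 29025],
  .leaf [nat_lit 33152, nat_lit 33313, nat_lit 29282, nat_lit 34130, nat_lit 30018, nat_lit 17202, nat_lit 25956, nat_lit 34678, nat_lit 28768],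
  .inner [nat_lit 624001418509590732643, nat_lit 186781552624650702954, nat_lit 9755425876762174308, nat_lit 1804344400340355940394, nat_lit 1116461052553532279203, nat_lit 2142740650082668945258, nat_lit 60351, nat_lit 60394, nat_lit 60426, nat_lit 60522],
  .leaf [nat_lit 32880, nat_lit 33584, nat_lit 34400, nat_lit 30324, nat_lit 29025, nat_lit 33378, nat_lit 29250, nat_lit 33057, nat_lit 17202, nat_lit 25938],
  .leaf [nat_lit 30053, nat_lit 33394, nat_lit 21058, nat_lit 34146, nat_lit 33586, nat_lit 29796, nat_lit 33152, nat_lit 24865, nat_lit 30321, nat_lit 28768],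
  .leaf [nat_lit 33152, nat_lit 33586, nat_lit 28961, nat_lit 34402, nat_lit 30305, nat_lit 28768, nat_lit 30053, nat_lit 21058, nat_lit 34162, nat_lit 29796],
  .leaf [nat_lit 16946, nat_lit 30066, nat_lit 25954, nat_lit 34179, nat_lit 34422, nat_lit 29796, nat_lit 29025, nat_lit 33313, nat_lit 33152],
  .inner [nat_lit 2139973332962424140580, nat_lit 1804592801973075476586, nat_lit 1146526991296094024163, nat_lit 60394, nat_lit 2179059990278789195242, nat_lit 60657, nat_lit 60714, nat_lit 60778, nat_lit 60842],
  .leaf [nat_lit 29763, nat_lit 30066, nat_lit 34692, nat_lit 30308, nat_lit 34432, nat_lit 34149, nat_lit 33378],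
  .leaf [nat_lit 28961, nat_lit 28720, nat_lit 34688, nat_lit 24928, nat_lit 33892, nat_lit 30324, nat_lit 34433, nat_lit 33378],
  .inner [nat_lit 2518509739293558980396, nat_lit 1804934926011293821605, nat_lit 2509916998755615781356, nat_lit 1772050050557000823276, nat_lit 60958, nat_lit 1804938875463249751581, nat_lit 61036],
  .leaf [nat_lit 32880, nat_lit 33584, nat_lit 34400, nat_lit 30324, nat_lit 29025, nat_lit 29282, nat_lit 33057],
  .leaf [nat_lit 30053, nat_lit 33394, nat_lit 33586, nat_lit 33859, nat_lit 34164, nat_lit 32880, nat_lit 25696, nat_lit 33072, nat_lit 29025],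
  .leaf [nat_lit 34180, nat_lit 32880, nat_lit 25696, nat_lit 33121, nat_lit 33584, nat_lit 33330, nat_lit 25954, nat_lit 30066, nat_lit 28961],
  .inner [nat_lit 2149322805774869607203, nat_lit 2179057677456315049442, nat_lit 2149052589796174344996, nat_lit 60842, nat_lit 2140982139271657304561, nat_lit 61169, nat_lit 61242, nat_lit 61301],
  .leaf [nat_lit 33394, nat_lit 34179, nat_lit 33152, nat_lit 12833, nat_lit 34402, nat_lit 30309, nat_lit 29025, nat_lit 33892, nat_lit 17200, nat_lit 34676, nat_lit 28768],
  .leaf [nat_lit 34676, nat_lit 30304, nat_lit 33152, nat_lit 30053, nat_lit 33394, nat_lit 29025, nat_lit 34402, nat_lit 33892, nat_lit 17200, nat_lit 34179, nat_lit 12833],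
  .leaf [nat_lit 33859, nat_lit 34400, nat_lit 30305, nat_lit 34149, nat_lit 34677, nat_lit 29282, nat_lit 29796, nat_lit 32880, nat_lit 33057, nat_lit 33584, nat_lit 33330],
  .leaf [nat_lit 30053, nat_lit 34178, nat_lit 33908, nat_lit 33603, nat_lit 34404, nat_lit 30306, nat_lit 28768, nat_lit 33121, nat_lit 12833, nat_lit 34673, nat_lit 32816],
  .leaf [nat_lit 33152, nat_lit 33603, nat_lit 33330, nat_lit 34402, nat_lit 33892, nat_lit 29808, nat_lit 34165, nat_lit 30309, nat_lit 34656, nat_lit 29025, nat_lit 29217],
  .leaf [nat_lit 34178, nat_lit 33057, nat_lit 33603, nat_lit 32816, nat_lit 24928, nat_lit 34673, nat_lit 30320, nat_lit 29282, nat_lit 33908, nat_lit 34404, nat_lit 30053],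
  .leaf [nat_lit 29234, nat_lit 33666, nat_lit 32816, nat_lit 29552, nat_lit 30068, nat_lit 25954, nat_lit 33121, nat_lit 30321, nat_lit 25696, nat_lit 34180],
  .inner [nat_lit 60449, nat_lit 2536953985277903301665, nat_lit 2179458246857233329190, nat_lit 61094, nat_lit 2179458246857233329825, nat_lit 61345, nat_lit 2168109175796259680166, nat_lit 61409, nat_lit 2536953985277903302625, nat_lit 2179458246857233330150, nat_lit 61473, nat_lit 2536953985277903302689, nat_lit 2179458246857233330214, nat_lit 61537, nat_lit 2536953985277903302753, nat_lit 2179458246857233330278, nat_lit 61601, nat_lit 2536953985277903302817, nat_lit 2179458246857233330342, nat_lit 61665, nat_lit 61729, nat_lit 61823],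
  .leaf [nat_lit 34180, nat_lit 33152, nat_lit 17200, nat_lit 21058, nat_lit 33586, nat_lit 29554, nat_lit 29040, nat_lit 30068, nat_lit 30306, nat_lit 25696, nat_lit 34434],
  .inner [nat_lit 2542210495582338862097, nat_lit 53409, nat_lit 52385, nat_lit 49889, nat_lit 2542230264251415575841, nat_lit 2536465656733750050081, nat_lit 2511587772386786707105, nat_lit 2511497700399608006305, nat_lit 2542462731795852954465, nat_lit 2179458246857233322150, nat_lit 2179059990300258778406, nat_lit 2142742962905143084710, nat_lit 148010555768968894975, nat_lit 148010555774336293375, nat_lit 60262, nat_lit 2179458246857233328993, nat_lit 60577, nat_lit 2536953985277903301793, nat_lit 2179458246857233329318, nat_lit 60897, nat_lit 2536953985277903302113, nat_lit 2168109175796259679718, nat_lit 61834, nat_lit 61951],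
  .leaf [nat_lit 17200, nat_lit 16946, nat_lit 33152, nat_lit 33313, nat_lit 34179, nat_lit 30064, nat_lit 29266, nat_lit 30305, nat_lit 34694, nat_lit 25954, nat_lit 29796, nat_lit 24656],
  .inner [nat_lit 54754, nat_lit 1116648774404978270372, nat_lit 2513639786522863743349, nat_lit 1810613437375589706225, nat_lit 2536698124278187428582, nat_lit 2536572054274946632422, nat_lit 1810231506372633037542, nat_lit 1788253744240815290986, nat_lit 2179458246857233311345, nat_lit 2536953985275756332735, nat_lit 2536953985277903289919, nat_lit 156805593059269827633, nat_lit 62058],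
  .leaf [nat_lit 34180, nat_lit 25956, nat_lit 33378, nat_lit 33586, nat_lit 32816, nat_lit 34400, nat_lit 28752, nat_lit 29553, nat_lit 30305, nat_lit 29760],
  .leaf [nat_lit 25956, nat_lit 30306, nat_lit 28768, nat_lit 34436, nat_lit 34128, nat_lit 29488, nat_lit 29760, nat_lit 33152, nat_lit 12833, nat_lit 33377],
  .leaf [nat_lit 20544, nat_lit 30308, nat_lit 25952, nat_lit 34436, nat_lit 29488, nat_lit 33664, nat_lit 33121, nat_lit 29040, nat_lit 29217, nat_lit 33330],
  .leaf [nat_lit 29810, nat_lit 20544, nat_lit 28720, nat_lit 30304, nat_lit 29490, nat_lit 34436, nat_lit 33664, nat_lit 33121, nat_lit 33313, nat_lit 34130, nat_lit 25201],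
  .leaf [nat_lit 29266, nat_lit 25956, nat_lit 34178, nat_lit 32864, nat_lit 33856, nat_lit 33584, nat_lit 34402, nat_lit 30324, nat_lit 28961, nat_lit 12929],
  .leaf [nat_lit 29553, nat_lit 24928, nat_lit 29266, nat_lit 25121, nat_lit 25956, nat_lit 30324, nat_lit 34178, nat_lit 34436, nat_lit 33665],
  .inner [nat_lit 1107964339087527685984, nat_lit 2459534741961980512, nat_lit 1107959835488168750944, nat_lit 2510433765569830881312, nat_lit 617988163298489038737, nat_lit 62175, nat_lit 62225, nat_lit 62289, nat_lit 62375, nat_lit 62429, nat_lit 62479],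
  .leaf [nat_lit 29808, nat_lit 33394, nat_lit 34422, nat_lit 25698, nat_lit 24640, nat_lit 29025, nat_lit 29488, nat_lit 12833],
  .leaf [nat_lit 33584, nat_lit 29553, nat_lit 33330, nat_lit 29282, nat_lit 25938, nat_lit 24656, nat_lit 30320],
  .leaf [nat_lit 34130, nat_lit 20544, nat_lit 33584, nat_lit 25698, nat_lit 34436, nat_lit 25952, nat_lit 33394, nat_lit 28961],
  .leaf [nat_lit 30320, nat_lit 29553, nat_lit 33584, nat_lit 33330, nat_lit 29282, nat_lit 25956, nat_lit 34437],
  .leaf [nat_lit 28768, nat_lit 29553, nat_lit 33584, nat_lit 33330, nat_lit 30306, nat_lit 25956, nat_lit 34437],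
  .leaf [nat_lit 25938, nat_lit 33584, nat_lit 33330, nat_lit 29553, nat_lit 30322, nat_lit 28768, nat_lit 34437, nat_lit 25680],
  .inner [nat_lit 107656447103336467633, nat_lit 1810610311118405029937, nat_lit 62641, nat_lit 62698, nat_lit 2536950859022865593578, nat_lit 62749, nat_lit 62826, nat_lit 62890, nat_lit 62954],
  .leaf [nat_lit 32816, nat_lit 33586, nat_lit 34400, nat_lit 30306, nat_lit 24865, nat_lit 25938, nat_lit 25664],
  .leaf [nat_lit 29282, nat_lit 29490, nat_lit 29040, nat_lit 25938, nat_lit 34179, nat_lit 32816, nat_lit 34400, nat_lit 25664],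
  .leaf [nat_lit 25698, nat_lit 30322, nat_lit 33586, nat_lit 29553, nat_lit 20544, nat_lit 34437, nat_lit 32816, nat_lit 28768],
  .inner [nat_lit 630024314747543625318, nat_lit 2542628520806243169507, nat_lit 2536950859020718634211, nat_lit 2542628520806243169635, nat_lit 2542628520806243169763, nat_lit 63070, nat_lit 63139, nat_lit 63203],
  .leaf [nat_lit 29488, nat_lit 29217, nat_lit 33586, nat_lit 34128, nat_lit 33922, nat_lit 25956, nat_lit 30324, nat_lit 34402, nat_lit 28768, nat_lit 32832],
  .leaf [nat_lit 34128, nat_lit 25956, nat_lit 30324, nat_lit 32880, nat_lit 34400, nat_lit 29025, nat_lit 29488, nat_lit 33665, nat_lit 12833],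
  .leaf [nat_lit 29282, nat_lit 25938, nat_lit 33057, nat_lit 29553, nat_lit 33586, nat_lit 30305, nat_lit 24640],
  .leaf [nat_lit 29025, nat_lit 29796, nat_lit 25170, nat_lit 25988, nat_lit 28720, nat_lit 20544, nat_lit 33665, nat_lit 29234],
  .inner [nat_lit 2513639786522863743797, nat_lit 148805815217625779616, nat_lit 28193665032726837156, nat_lit 2179458246857233306276, nat_lit 1810610311118405014180, nat_lit 63466, nat_lit 63524],
  .leaf [nat_lit 25938, nat_lit 24640, nat_lit 34128, nat_lit 33330, nat_lit 34422, nat_lit 29794, nat_lit 33121, nat_lit 29040, nat_lit 29217, nat_lit 33651, nat_lit 32816],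
  .leaf [nat_lit 29025, nat_lit 29488, nat_lit 33665, nat_lit 12833, nat_lit 33394, nat_lit 34130, nat_lit 34402, nat_lit 25956, nat_lit 30324],
  .inner [nat_lit 181450627122227578722, nat_lit 2179023961640678779876, nat_lit 2536950859020718615390, nat_lit 58852, nat_lit 63011, nat_lit 63274, nat_lit 63331, nat_lit 63396, nat_lit 63586, nat_lit 63658, nat_lit 63714],
  .leaf [nat_lit 29488, nat_lit 33664, nat_lit 33121, nat_lit 30321, nat_lit 12833, nat_lit 34178, nat_lit 30066, nat_lit 29796, nat_lit 20544, nat_lit 25952, nat_lit 25170, nat_lit 34436],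
  .leaf [nat_lit 34130, nat_lit 25698, nat_lit 34436, nat_lit 24865, nat_lit 20544, nat_lit 32864, nat_lit 33584, nat_lit 12929, nat_lit 29553, nat_lit 30320],
  .leaf [nat_lit 28720, nat_lit 30305, nat_lit 12833, nat_lit 25698, nat_lit 33664, nat_lit 34433, nat_lit 24640, nat_lit 33362, nat_lit 34180, nat_lit 25936]]

theorem ok3 : okList db recs3 (nat_lit 750) = true := by decide +kernel

theorem len3 : recs3.length = 250 := by decide +kernel

end Pool.Agent.K4G.BData
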