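import Pool.Agent.Lib.MP_1d0474_co.BreakerTables

/-!
# Soundness of the checker for the strategy of the Breaker
-/

set_option autoImplicit false

namespace Pool.Agent.K4G

/-! ## Decoding of masks -/

/-- The position of an edge in a mask. -/
def pos : Sym2 (Fin 9) → ℕ := Sym2.lift ⟨fun a b => wt a + wt b, fun _ _ => Nat.add_comm _ _⟩

theorem pos_mk (a b : Fin 9) : pos s(a, b) = wt a + wt b := rfl

theorem pos_inj {e f : Sym2 (Fin 9)} (he : ¬ e.IsDiag) (hf : ¬ f.IsDiag) (h : pos e = pos f) :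
    e = f := by
  induction e using Sym2.ind with
  | _ a b =>
    induction f using Sym2.ind with
    | _ c d => exact wt_pair_inj a b c d he hf h

theorem pos_lt {e : Sym2 (Fin 9)} (he : ¬ e.IsDiag) : pos e < 64 := by
  induction e using Sym2.ind with
  | _ a b => exact wt_pair_lt a b he

/-- The edges in the lower half of a rule. -/
def Bs (m : ℕ) : Set (Sym2 (Fin 9)) := {e | ¬ e.IsDiag ∧ m.testBit (pos e) = true}

/-- The edges in the upper half of a rule. -/
def Us (m : ℕ) : Set (Sym2 (Fin 9)) := {e | ¬ e.IsDiag ∧ m.testBit (64 + pos e) = true}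

/-! ## Bit operations -/

theorem land_eq (a b : ℕ) : Nat.land a b = a &&& b := rfl
theorem lor_eq (a b : ℕ) : Nat.lor a b = a ||| b := rfl
theorem shl_eq (a b : ℕ) : Nat.shiftLeft a b = a <<< b := rfl
theorem shr_eq (a b : ℕ) : Nat.shiftRight a b = a >>> b := rfl
theorem add_eq (a b : ℕ) : Nat.add a b = a + b := rfl
theorem mul_eq (a b : ℕ) : Nat.mul a b = a * b := rfl
theorem mod_eq (a b : ℕ) : Nat.mod a b = a % b := rfl

theorem bit_eq (m p : ℕ) : Nat.mod (Nat.shiftRight m p) (nat_lit 2) = (m.testBit p).toNat := by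
  rw [mod_eq, shr_eq]
  exact (Nat.toNat_testBit m p).symm ▸ (by rw [Nat.shiftRight_eq_div_pow])

/-- Conjunction, by the recursor. -/
def band (x y : Bool) : Bool := Bool.rec (motive := fun _ => Bool) false y x

theorem band_eq_true {x y : Bool} : band x y = true ↔ x = true ∧ y = true := by
  cases x <;> cases y <;> decide

/-- The edge `e` lies inside the set coded by `s`. -/
def Inside (s : ℕ) (e : Sym2 (Fin 9)) : Prop := ∀ v ∈ e, (tb v).testBit s = true

theorem covB_sound {m s : ℕ} (h : (covB m).testBit s = true) :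
    ∃ e : Sym2 (Fin 9), ¬ e.IsDiag ∧ m.testBit (pos e) = true ∧ Inside s e := by
  rw [covB_eq] at h
  have key : ∀ l : List (ℕ × ℕ), (∀ p ∈ l, ∃ a b : Fin 9, a ≠ b ∧ p.1 = wt a + wt b ∧
      p.2 = Nat.land (tb a) (tb b)) → (l.foldr (fun p acc =>
      Nat.lor (Nat.mul p.2 (Nat.mod (Nat.shiftRight m p.1) (nat_lit 2))) acc)
        (nat_lit 0)).testBit s = true →
      ∃ e : Sym2 (Fin 9), ¬ e.IsDiag ∧ m.testBit (pos e) = true ∧ Inside s e := by
    intro l
    induction l with
    | nil =>
      intro _ h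
      rw [List.foldr_nil] at h
      exact absurd (h : (0 : ℕ).testBit s = true) (by simp)
    | cons p l ih =>
      intro hl h
      rw [List.foldr_cons, lor_eq, Nat.testBit_or, Bool.or_eq_true] at h
      rcases h with h | h
      · obtain ⟨a, b, hab, h1, h2⟩ := hl p (by simp)
        rw [bit_eq, mul_eq] at h
        cases h3 : m.testBit p.1 with
        | false =>
          rw [h3] at h
          simp at h
        | true =>
          rw [h3, Bool.toNat_true, Nat.mul_one, h2, land_eq, Nat.testBit_and, Bool.and_eq_true] at h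
          refine ⟨s(a, b), by simpa using hab, by rw [pos_mk, ← h1]; exact h3, ?_⟩
          intro v hv
          rw [Sym2.mem_iff] at hv
          rcases hv with rfl | rfl
          · exact h.1
          · exact h.2
      · exact ih (fun p hp => hl p (by simp [hp])) h
  exact key _ covTab_ok h

theorem img_bit (x : Fin 9 → ℕ) (m : ℕ) (a b : Fin 9) (hab : a ≠ b) :
    (m.testBit (wt a + wt b) = true → (img (x 0) (x 1) (x 2) (x 3) (x 4) (x 5) (x 6) (x 7) (x 8)
      m).testBit (x a + x b) = true) ∧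
    (m.testBit (64 + (wt a + wt b)) = true → (img (x 0) (x 1) (x 2) (x 3) (x 4) (x 5) (x 6) (x 7)
      (x 8) m).testBit (64 + (x a + x b)) = true) := by
  rw [img_eq]
  have key : ∀ l : List (ℕ × Fin 9 × Fin 9), ∀ a b : Fin 9, (wt a + wt b, a, b) ∈ l →
    (m.testBit (wt a + wt b) = true → (l.foldr (fun p acc =>
      Nat.lor (Nat.shiftLeft (Nat.land (Nat.shiftRight m p.1) (nat_lit 18446744073709551617))
      (Nat.add (x p.2.1) (x p.2.2))) acc) (nat_lit 0)).testBit (x a + x b) = true) ∧
    (m.testBit (64 + (wt a + wt b)) = true → (l.foldr (fun p acc =>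
      Nat.lor (Nat.shiftLeft (Nat.land (Nat.shiftRight m p.1) (nat_lit 18446744073709551617))
      (Nat.add (x p.2.1) (x p.2.2))) acc) (nat_lit 0)).testBit (64 + (x a + x b)) = true) := by
    intro l a b
    induction l with
    | nil => simp
    | cons p l ih =>
      intro h
      rw [List.mem_cons] at h
      simp only [List.foldr_cons, lor_eq, Nat.testBit_or, Bool.or_eq_true]
      rcases h with h | h
      · rw [← h]
        simp only [shl_eq, land_eq, shr_eq, add_eq]
        constructor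
        · intro h1
          left
          rw [Nat.testBit_shiftLeft, Nat.testBit_and, Nat.testBit_shiftRight]
          simp only [le_refl, decide_true, Nat.sub_self, Bool.true_and, Nat.add_zero, h1]
          decide
        · intro h1
          left
          rw [Nat.testBit_shiftLeft, Nat.testBit_and, Nat.testBit_shiftRight]
          have h2 : 64 + (x a + x b) - (x a + x b) = 64 := by omega
          have h3 : wt a + wt b + 64 = 64 + (wt a + wt b) := by omega
          simp only [h2, h3, h1, Bool.true_and, Bool.and_eq_true, decide_eq_true_eq]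
          exact ⟨by omega, by decide⟩
      · obtain ⟨h1, h2⟩ := ih h
        exact ⟨fun h3 => Or.inr (h1 h3), fun h3 => Or.inr (h2 h3)⟩
  rcases lt_or_gt_of_ne hab with h | h
  · exact key imgTab a b (imgTab_ok a b h)
  · have := key imgTab b a (imgTab_ok b a h)
    rw [Nat.add_comm (wt a), Nat.add_comm (x a)]
    exact this


/-! ## Leaves: pairings -/

/-- Second half of the treatment of one pair. -/
noncomputable def leafStep2 (ih : ℕ → ℕ → Bool) (used cov px py t : ℕ) : Bool :=
  band (Nat.beq (Nat.mod (Nat.shiftRight used px) (nat_lit 2)) (nat_lit 0)) <|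
  band (Nat.beq (Nat.mod (Nat.shiftRight used py) (nat_lit 2)) (nat_lit 0)) <|
  Bool.rec (motive := fun _ => Bool)
    (ih (Nat.lor (Nat.lor used (Nat.shiftLeft (nat_lit 1) px)) (Nat.shiftLeft (nat_lit 1) py))
      (Nat.lor cov t)) false (Nat.beq px py)

/-- First half of the treatment of one pair. -/
noncomputable def leafStep (ih : ℕ → ℕ → Bool) (used cov a b c d : ℕ) : Bool :=
  band (Nat.blt a b) <| band (Nat.blt b (nat_lit 9)) <| band (Nat.blt c d) <|
  band (Nat.blt d (nat_lit 9)) <|
  leafStep2 ih used cov (Nat.add (wt a) (wt b)) (Nat.add (wt c) (wt d))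
    (Nat.land (Nat.land (tb a) (tb b)) (Nat.land (tb c) (tb d)))

/-- The loop over the pairs. -/
noncomputable def leafLoop (u : ℕ) (qs : List ℕ) : ℕ → ℕ → Bool :=
  List.rec (motive := fun _ => ℕ → ℕ → Bool)
    (fun used cov => band (Nat.beq used u) (Nat.beq (Nat.lor full4 cov) cov))
    (fun q _ ih used cov => leafStep ih used cov (Nat.mod q (nat_lit 16))
      (Nat.mod (Nat.shiftRight q (nat_lit 4)) (nat_lit 16))
      (Nat.mod (Nat.shiftRight q (nat_lit 8)) (nat_lit 16)) (Nat.shiftRight q (nat_lit 12))) qs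

/-- The check of a leaf. -/
noncomputable def leafCheck (m : ℕ) (qs : List ℕ) : Bool :=
  leafLoop (Nat.shiftRight m (nat_lit 64)) qs (nat_lit 0) (covB m)

theorem leafLoop_cons (u q : ℕ) (qs : List ℕ) (used cov : ℕ) :
    leafLoop u (q :: qs) used cov = leafStep (leafLoop u qs) used cov (q % 16)
      ((q >>> 4) % 16) ((q >>> 8) % 16) (q >>> 12) := rfl

theorem blt_eq_true {a b : ℕ} : Nat.blt a b = true ↔ a < b := by
  rw [Nat.blt, Nat.ble_eq]
  rfl

theorem testBit_one_shl (p k : ℕ) : (1 <<< p).testBit k = decide (p = k) := by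
  rw [Nat.one_shiftLeft, Nat.testBit_two_pow]

theorem leafLoop_sound (u : ℕ) (qs : List ℕ) : ∀ used cov : ℕ, leafLoop u qs used cov = true →
    (∀ k, used.testBit k = true → u.testBit k = true) ∧
    ∃ P : List (Sym2 (Fin 9) × Sym2 (Fin 9)),
      (P.Pairwise fun p q => p.1 ≠ q.1 ∧ p.1 ≠ q.2 ∧ p.2 ≠ q.1 ∧ p.2 ≠ q.2) ∧
      (∀ p ∈ P, p.1 ≠ p.2 ∧ ¬ p.1.IsDiag ∧ ¬ p.2.IsDiag ∧
        u.testBit (pos p.1) = true ∧ u.testBit (pos p.2) = true ∧
        used.testBit (pos p.1) = false ∧ used.testBit (pos p.2) = false) ∧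
      (∀ s, full4.testBit s = true → cov.testBit s = true ∨
        ∃ p ∈ P, Inside s p.1 ∧ Inside s p.2) := by
  induction qs with
  | nil =>
    intro used cov h
    have h' : band (Nat.beq used u) (Nat.beq (Nat.lor full4 cov) cov) = true := h
    rw [band_eq_true] at h'
    obtain ⟨h1, h2⟩ := h'
    have h1 := Nat.eq_of_beq_eq_true h1
    have h2 := Nat.eq_of_beq_eq_true h2
    subst h1
    refine ⟨fun k hk => hk, [], List.Pairwise.nil, by simp, fun s hs => Or.inl ?_⟩
    rw [← h2, lor_eq, Nat.testBit_or, hs, Bool.true_or]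
  | cons q qs ih =>
    intro used cov h
    rw [leafLoop_cons] at h
    generalize q % 16 = a at h
    generalize (q >>> 4) % 16 = b at h
    generalize (q >>> 8) % 16 = c at h
    generalize q >>> 12 = d at h
    unfold leafStep at h
    rw [band_eq_true, band_eq_true, band_eq_true, band_eq_true] at h
    obtain ⟨h1, h2, h3, h4, h5⟩ := h
    rw [blt_eq_true] at h1 h2 h3 h4
    have h2' : b < 9 := h2
    have h4' : d < 9 := h4
    have ha : a < 9 := by omega
    have hc : c < 9 := by omega
    -- the two edges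
    set x : Sym2 (Fin 9) := s(⟨a, ha⟩, ⟨b, h2'⟩) with hx
    set y : Sym2 (Fin 9) := s(⟨c, hc⟩, ⟨d, h4'⟩) with hy
    have hxd : ¬ x.IsDiag := by
      rw [hx, Sym2.mk_isDiag_iff, Fin.mk.injEq]
      omega
    have hyd : ¬ y.IsDiag := by
      rw [hy, Sym2.mk_isDiag_iff, Fin.mk.injEq]
      omega
    have hpx : Nat.add (wt a) (wt b) = pos x := rfl
    have hpy : Nat.add (wt c) (wt d) = pos y := rfl
    rw [hpx, hpy] at h5
    unfold leafStep2 at h5
    rw [band_eq_true, band_eq_true] at h5
    obtain ⟨h6, h7, h8⟩ := h5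
    have h6 := Nat.eq_of_beq_eq_true h6
    have h7 := Nat.eq_of_beq_eq_true h7
    rw [bit_eq] at h6 h7
    have h6 : used.testBit (pos x) = false := by
      cases hh : used.testBit (pos x) with
      | false => rfl
      | true => rw [hh] at h6; exact absurd h6 (by decide)
    have h7 : used.testBit (pos y) = false := by
      cases hh : used.testBit (pos y) with
      | false => rfl
      | true => rw [hh] at h7; exact absurd h7 (by decide)
    cases hh : Nat.beq (pos x) (pos y) with
    | true =>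
      rw [hh] at h8
      exact absurd (show false = true from h8) Bool.false_ne_true
    | false =>
      rw [hh] at h8
      have hxy : x ≠ y := by
        intro hxy
        rw [hxy, Nat.beq_refl] at hh
        exact absurd hh (by decide)
      replace h8 : leafLoop u qs (Nat.lor (Nat.lor used (Nat.shiftLeft 1 (pos x)))
        (Nat.shiftLeft 1 (pos y))) (Nat.lor cov (Nat.land (Nat.land (tb a) (tb b))
        (Nat.land (tb c) (tb d)))) = true := h8
      obtain ⟨hu, P, hP1, hP2, hP3⟩ := ih _ _ h8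
      have hused : ∀ k, (Nat.lor (Nat.lor used (Nat.shiftLeft 1 (pos x)))
        (Nat.shiftLeft 1 (pos y))).testBit k = (used.testBit k || decide (pos x = k) ||
          decide (pos y = k)) := by
        intro k
        rw [lor_eq, lor_eq, shl_eq, shl_eq, Nat.testBit_or, Nat.testBit_or, testBit_one_shl,
          testBit_one_shl]
      have hfar : ∀ e, (Nat.lor (Nat.lor used (Nat.shiftLeft 1 (pos x)))
        (Nat.shiftLeft 1 (pos y))).testBit (pos e) = false →
          used.testBit (pos e) = false ∧ x ≠ e ∧ y ≠ e := by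
        intro e he
        rw [hused, Bool.or_eq_false_iff, Bool.or_eq_false_iff, decide_eq_false_iff_not,
          decide_eq_false_iff_not] at he
        refine ⟨he.1.1, ?_, ?_⟩
        · rintro rfl
          exact he.1.2 rfl
        · rintro rfl
          exact he.2 rfl
      refine ⟨fun k hk => hu k (by rw [hused, hk]; simp), (x, y) :: P, ?_, ?_, ?_⟩
      · rw [List.pairwise_cons]
        refine ⟨fun p hp => ?_, hP1⟩
        obtain ⟨_, _, _, _, _, h9, h10⟩ := hP2 p hp
        have h11 := hfar _ h9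
        have h12 := hfar _ h10
        exact ⟨h11.2.1, h12.2.1, h11.2.2, h12.2.2⟩
      · intro p hp
        rw [List.mem_cons] at hp
        rcases hp with rfl | hp
        · exact ⟨hxy, hxd, hyd, hu _ (by rw [hused]; simp), hu _ (by rw [hused]; simp), h6, h7⟩
        · obtain ⟨h9, h10, h11, h12, h13, h14, h15⟩ := hP2 p hp
          exact ⟨h9, h10, h11, h12, h13, (hfar _ h14).1, (hfar _ h15).1⟩
      · intro s hs
        rcases hP3 s hs with h9 | ⟨p, hp, hp2⟩
        · rw [lor_eq, Nat.testBit_or, Bool.or_eq_true] at h9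
          rcases h9 with h9 | h9
          · exact Or.inl h9
          · rw [land_eq, land_eq, land_eq, Nat.testBit_and, Nat.testBit_and, Nat.testBit_and,
              Bool.and_eq_true, Bool.and_eq_true, Bool.and_eq_true] at h9
            refine Or.inr ⟨(x, y), by simp, ?_, ?_⟩
            · intro v hv
              rw [hx, Sym2.mem_iff] at hv
              rcases hv with rfl | rfl
              · exact h9.1.1
              · exact h9.1.2
            · intro v hv
              rw [hy, Sym2.mem_iff] at hv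
              rcases hv with rfl | rfl
              · exact h9.2.1
              · exact h9.2.2
        · exact Or.inr ⟨p, List.mem_cons_of_mem _ hp, hp2⟩

theorem exists_four {S : Finset (Fin 9)} (hS : S.card = 4) : ∃ a b c d : Fin 9,
    (a ≠ b ∧ a ≠ c ∧ a ≠ d ∧ b ≠ c ∧ b ≠ d ∧ c ≠ d) ∧ S = {a, b, c, d} := by
  obtain ⟨a, T, haT, rfl, hT⟩ := Finset.card_eq_succ.1 hS
  obtain ⟨b, c, d, hbc, hbd, hcd, rfl⟩ := Finset.card_eq_three.1 hT
  simp only [Finset.mem_insert, Finset.mem_singleton, not_or] at haT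
  exact ⟨a, b, c, d, ⟨haT.1, haT.2.1, haT.2.2, hbc, hbd, hcd⟩, rfl⟩

/-- A code of a four-element set. -/
theorem exists_code {S : Finset (Fin 9)} (hS : S.card = 4) : ∃ s : ℕ, full4.testBit s = true ∧
    ∀ v : Fin 9, (tb v).testBit s = true → v ∈ S := by
  obtain ⟨a, b, c, d, hd, rfl⟩ := exists_four hS
  refine ⟨2 ^ (a : ℕ) ||| 2 ^ (b : ℕ) ||| 2 ^ (c : ℕ) ||| 2 ^ (d : ℕ), full4_ok a b c d hd, ?_⟩
  intro v hv
  have hlt : ∀ a : Fin 9, 2 ^ (a : ℕ) < 2 ^ 9 := fun a =>
    Nat.pow_lt_pow_right (by norm_num) a.2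
  rw [tb_ok v _ (Nat.or_lt_two_pow (Nat.or_lt_two_pow (Nat.or_lt_two_pow (hlt a) (hlt b))
    (hlt c)) (hlt d))] at hv
  rw [Nat.testBit_or, Nat.testBit_or, Nat.testBit_or, Nat.testBit_two_pow, Nat.testBit_two_pow,
    Nat.testBit_two_pow, Nat.testBit_two_pow, Bool.or_eq_true, Bool.or_eq_true, Bool.or_eq_true,
    decide_eq_true_eq, decide_eq_true_eq, decide_eq_true_eq, decide_eq_true_eq] at hv
  simp only [Finset.mem_insert, Finset.mem_singleton]
  rcases hv with ((h | h) | h) | h
  · exact Or.inl (Fin.ext h.symm)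
  · exact Or.inr (Or.inl (Fin.ext h.symm))
  · exact Or.inr (Or.inr (Or.inl (Fin.ext h.symm)))
  · exact Or.inr (Or.inr (Or.inr (Fin.ext h.symm)))

theorem Inside.exists {S : Finset (Fin 9)} {s : ℕ} (hs : ∀ v : Fin 9, (tb v).testBit s = true → v ∈ S)
    {e : Sym2 (Fin 9)} (he : ¬ e.IsDiag) (h : Inside s e) : ∃ a ∈ S, ∃ b ∈ S, a ≠ b ∧ s(a, b) = e := by
  induction e using Sym2.ind with
  | _ a b =>
    exact ⟨a, hs a (h a (by simp)), b, hs b (h b (by simp)), by simpa using he, rfl⟩

theorem leafCheck_sound {m : ℕ} {qs : List ℕ} (h : leafCheck m qs = true) : Good (Bs m) (Us m) := by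
  obtain ⟨-, P, hP1, hP2, hP3⟩ := leafLoop_sound _ _ _ _ h
  refine Good.pairing P hP1 (fun p hp => (hP2 p hp).1) (fun p hp => ?_) (fun S hS => ?_)
  · obtain ⟨_, h2, h3, h4, h5, _⟩ := hP2 p hp
    rw [shr_eq, Nat.testBit_shiftRight] at h4 h5
    exact ⟨⟨h2, h4⟩, ⟨h3, h5⟩⟩
  · obtain ⟨s, hs1, hs2⟩ := exists_code hS
    rcases hP3 s hs1 with h1 | ⟨p, hp, h1, h2⟩
    · obtain ⟨e, he, he2, he3⟩ := covB_sound h1
      obtain ⟨a, ha, b, hb, hab, rfl⟩ := Inside.exists hs2 he he3
      exact Or.inl ⟨a, ha, b, hb, hab, he, he2⟩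
    · exact Or.inr ⟨p, hp, Inside.exists hs2 (hP2 p hp).2.1 h1,
        Inside.exists hs2 (hP2 p hp).2.2.1 h2⟩


/-! ## Inner rules -/

/-- A binary tree of rules. -/
inductive Tr where
  | leaf : ℕ → Tr
  | node : Tr → Tr → Tr

/-- The rule with number `i`. -/
noncomputable def Tr.get (t : Tr) : ℕ → ℕ :=
  Tr.rec (motive := fun _ => ℕ → ℕ) (fun m _ => m)
    (fun _ _ gl gr i => Bool.rec (motive := fun _ => ℕ) (gl (Nat.div i (nat_lit 2)))
      (gr (Nat.div i (nat_lit 2))) (Nat.beq (Nat.mod i (nat_lit 2)) (nat_lit 1))) t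

/-- The end of the treatment of one answer: `m` is the relabelled rule, `p` the position of the
answer, `b` the mask of `B`, `bu` the mask of `B ∪ U`. -/
def fin' (ih : ℕ → Bool) (I b bu p m : ℕ) : Bool :=
  band (Nat.beq (Nat.lor m (Nat.lor (Nat.lor b (Nat.shiftLeft (nat_lit 1) p))
      (Nat.shiftLeft bu (nat_lit 64))))
    (Nat.lor (Nat.lor b (Nat.shiftLeft (nat_lit 1) p)) (Nat.shiftLeft bu (nat_lit 64)))) <|
  ih (Nat.land I (Nat.lor (Nat.shiftRight m (nat_lit 64)) (Nat.shiftLeft (nat_lit 1) p)))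

/-- Relabelling, given the weights of the images. -/
def permStep2 (ih : ℕ → Bool) (I b bu p m : ℕ) (x0 x1 x2 x3 x4 x5 x6 x7 x8 : ℕ) : Bool :=
  band (Nat.beq (Nat.lor (Nat.shiftLeft (nat_lit 1) x0)
    (Nat.lor (Nat.shiftLeft (nat_lit 1) x1)
    (Nat.lor (Nat.shiftLeft (nat_lit 1) x2)
    (Nat.lor (Nat.shiftLeft (nat_lit 1) x3)
    (Nat.lor (Nat.shiftLeft (nat_lit 1) x4)
    (Nat.lor (Nat.shiftLeft (nat_lit 1) x5)
    (Nat.lor (Nat.shiftLeft (nat_lit 1) x6)
    (Nat.lor (Nat.shiftLeft (nat_lit 1) x7)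
    (Nat.shiftLeft (nat_lit 1) x8))))))))) (nat_lit 17733550359)) <|
  fin' ih I b bu p (img x0 x1 x2 x3 x4 x5 x6 x7 x8 m)

/-- Relabelling, given the number with the digits of the permutation. -/
def permStep (ih : ℕ → Bool) (I b bu p m f : ℕ) : Bool :=
  permStep2 ih I b bu p m
    (Nat.mod (Nat.shiftRight f (nat_lit 0)) (nat_lit 64))
    (Nat.mod (Nat.shiftRight f (nat_lit 6)) (nat_lit 64))
    (Nat.mod (Nat.shiftRight f (nat_lit 12)) (nat_lit 64))
    (Nat.mod (Nat.shiftRight f (nat_lit 18)) (nat_lit 64))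
    (Nat.mod (Nat.shiftRight f (nat_lit 24)) (nat_lit 64))
    (Nat.mod (Nat.shiftRight f (nat_lit 30)) (nat_lit 64))
    (Nat.mod (Nat.shiftRight f (nat_lit 36)) (nat_lit 64))
    (Nat.mod (Nat.shiftRight f (nat_lit 42)) (nat_lit 64))
    (Nat.mod (Nat.shiftRight f (nat_lit 48)) (nat_lit 64))

/-- One answer: `p` its position, `j` the number of the rule used after it, `f` the relabelling
(`0` for the identity), `m` the rule with number `j`. -/
def entryStep (ih : ℕ → Bool) (I i b bu p j f m : ℕ) : Bool :=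
  band (Nat.blt j i) <|
  band (Nat.beq (Nat.mod (Nat.shiftRight bu p) (nat_lit 2)) (nat_lit 1)) <|
  band (Nat.beq (Nat.mod (Nat.shiftRight (nat_lit 9521195651816986494) p) (nat_lit 2)) (nat_lit 1)) <|
  Bool.rec (motive := fun _ => Bool) (permStep ih I b bu p m f) (fin' ih I b bu p m)
    (Nat.beq f (nat_lit 0))

/-- The loop over the answers. -/
noncomputable def innerLoop (db : Tr) (i b bu : ℕ) (es : List ℕ) : ℕ → Bool :=
  List.rec (motive := fun _ => ℕ → Bool) (fun I => Nat.beq I (nat_lit 0))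
    (fun e _ ih I => entryStep ih I i b bu (Nat.mod e (nat_lit 64))
      (Nat.mod (Nat.shiftRight e (nat_lit 6)) (nat_lit 4096)) (Nat.shiftRight e (nat_lit 18))
      (db.get (Nat.mod (Nat.shiftRight e (nat_lit 6)) (nat_lit 4096)))) es

/-- The check of an inner rule. -/
noncomputable def innerCheck (db : Tr) (i m : ℕ) (es : List ℕ) : Bool :=
  List.rec (motive := fun _ => Bool) false (fun _ _ _ =>
    innerLoop db i (Nat.mod m (nat_lit 18446744073709551616))
      (Nat.lor (Nat.mod m (nat_lit 18446744073709551616)) (Nat.shiftRight m (nat_lit 64))) es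
      (Nat.shiftRight m (nat_lit 64))) es

theorem wall_ok : ∀ d < 64, (17733550359 : ℕ).testBit d = true → ∃ a : Fin 9, wt a = d := by
  decide +kernel

theorem wall_ok' : ∀ a : Fin 9, (17733550359 : ℕ).testBit (wt a) = true := by
  decide +kernel

theorem eall_ok : ∀ p < 64, (9521195651816986494 : ℕ).testBit p = true →
    ∃ a b : Fin 9, a ≠ b ∧ wt a + wt b = p := by
  decide +kernel

/-- What is needed about one answer. -/
def EOK (m V : ℕ) : Prop := ∃ (f : Sym2 (Fin 9)) (B' U' : Set (Sym2 (Fin 9))), Good B' U' ∧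
  f ∈ Bs m ∪ Us m ∧ (∀ e ∈ B', e ∈ Bs m ∨ e = f) ∧ U' ⊆ Bs m ∪ Us m ∧
  ∀ g : Sym2 (Fin 9), ¬ g.IsDiag → V.testBit (pos g) = false → g ∉ U' ∧ g ≠ f

theorem testBit_mod64 (m k : ℕ) (hk : k < 64) : (m % 18446744073709551616).testBit k = m.testBit k := by
  rw [show (18446744073709551616 : ℕ) = 2 ^ 64 by norm_num, Nat.testBit_mod_two_pow]
  simp [hk]

theorem mem_BU {m : ℕ} {e : Sym2 (Fin 9)} (he : ¬ e.IsDiag)
    (h : (Nat.lor (Nat.mod m 18446744073709551616) (Nat.shiftRight m 64)).testBit (pos e) = true) :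
    e ∈ Bs m ∪ Us m := by
  rw [lor_eq, Nat.testBit_or, Bool.or_eq_true, mod_eq, testBit_mod64 _ _ (pos_lt he), shr_eq,
    Nat.testBit_shiftRight] at h
  rcases h with h | h
  · exact Or.inl ⟨he, h⟩
  · exact Or.inr ⟨he, h⟩

/-- If `mj` is contained in the admissible masks, one answer is fine. -/
theorem fin_sound {ih : ℕ → Bool} {I m p mj : ℕ} {f : Sym2 (Fin 9)} (hfd : ¬ f.IsDiag)
    (hfp : pos f = p)
    (hf : (Nat.lor (Nat.mod m 18446744073709551616) (Nat.shiftRight m 64)).testBit p = true)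
    {B' U' : Set (Sym2 (Fin 9))} (hG : Good B' U')
    (hB' : ∀ e ∈ B', ¬ e.IsDiag ∧ mj.testBit (pos e) = true)
    (hU' : ∀ e ∈ U', ¬ e.IsDiag ∧ mj.testBit (64 + pos e) = true)
    (h : fin' ih I (Nat.mod m 18446744073709551616)
      (Nat.lor (Nat.mod m 18446744073709551616) (Nat.shiftRight m 64)) p mj = true) :
    ∃ V, EOK m V ∧ ih (Nat.land I V) = true := by
  unfold fin' at h
  rw [band_eq_true] at h
  obtain ⟨h1, h2⟩ := h
  have h1 := Nat.eq_of_beq_eq_true h1
  have h3 : ∀ k, mj.testBit k = true → (Nat.lor (Nat.lor (Nat.mod m 18446744073709551616)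
      (Nat.shiftLeft 1 p)) (Nat.shiftLeft (Nat.lor (Nat.mod m 18446744073709551616)
      (Nat.shiftRight m 64)) 64)).testBit k = true := by
    intro k hk
    have h4 := congrArg (fun z => Nat.testBit z k) h1
    simp only at h4
    rw [lor_eq mj, Nat.testBit_or, hk, Bool.true_or] at h4
    exact h4.symm
  refine ⟨_, ⟨f, B', U', hG, ?_, ?_, ?_, ?_⟩, h2⟩
  · exact mem_BU hfd (by rw [hfp]; exact hf)
  · intro e he
    obtain ⟨hd, hb⟩ := hB' e he
    have h4 := h3 _ hb
    rw [lor_eq, Nat.testBit_or, lor_eq, Nat.testBit_or, mod_eq, testBit_mod64 _ _ (pos_lt hd),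
      shl_eq, testBit_one_shl, shl_eq, Nat.testBit_shiftLeft, Bool.or_eq_true, Bool.or_eq_true,
      Bool.and_eq_true, decide_eq_true_eq, decide_eq_true_eq] at h4
    rcases h4 with (h4 | h4) | h4
    · exact Or.inl ⟨hd, h4⟩
    · exact Or.inr (pos_inj hd hfd (by rw [hfp, h4]))
    · have := pos_lt hd
      omega
  · intro e he
    obtain ⟨hd, hb⟩ := hU' e he
    have h4 := h3 _ hb
    rw [lor_eq, Nat.testBit_or, lor_eq, Nat.testBit_or, Bool.or_eq_true, Bool.or_eq_true] at h4
    have h5 : (Nat.mod m 18446744073709551616).testBit (64 + pos e) = false := by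
      rw [mod_eq, show (18446744073709551616 : ℕ) = 2 ^ 64 by norm_num, Nat.testBit_mod_two_pow]
      simp
    have h6 : (Nat.shiftLeft 1 p).testBit (64 + pos e) = false := by
      rw [shl_eq, testBit_one_shl, decide_eq_false_iff_not]
      have := pos_lt hfd
      omega
    rw [h5, h6] at h4
    simp only [Bool.false_eq_true, false_or] at h4
    rw [shl_eq, Nat.testBit_shiftLeft, Bool.and_eq_true, Nat.add_sub_cancel_left] at h4
    exact mem_BU hd h4.2
  · intro g hg hV
    rw [lor_eq, Nat.testBit_or, Bool.or_eq_false_iff, shr_eq, Nat.testBit_shiftRight, shl_eq,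
      testBit_one_shl, decide_eq_false_iff_not] at hV
    constructor
    · intro hgU
      rw [(hU' g hgU).2] at hV
      exact absurd hV.1 (by decide)
    · rintro rfl
      exact hV.2 hfp.symm

theorem exists_perm {x : Fin 9 → ℕ} (hx : ∀ v, x v < 64)
    (h : ∀ k, (17733550359 : ℕ).testBit k = true ↔ ∃ v, x v = k) :
    ∃ σ : Equiv.Perm (Fin 9), ∀ v, wt (σ v) = x v := by
  have h1 : ∀ v, ∃ a : Fin 9, wt a = x v := fun v => wall_ok _ (hx v) ((h _).2 ⟨v, rfl⟩)
  choose f hf using h1
  have hsurj : Function.Surjective f := by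
    intro a
    obtain ⟨v, hv⟩ := (h _).1 (wall_ok' a)
    exact ⟨v, wt_inj _ _ (by rw [hf, hv])⟩
  exact ⟨Equiv.ofBijective f ⟨Finite.injective_iff_surjective.2 hsurj, hsurj⟩, hf⟩

theorem permStep2_sound {ih : ℕ → Bool} {I m p mj : ℕ} {f : Sym2 (Fin 9)} (hfd : ¬ f.IsDiag)
    (hfp : pos f = p)
    (hf : (Nat.lor (Nat.mod m 18446744073709551616) (Nat.shiftRight m 64)).testBit p = true)
    (hG : Good (Bs mj) (Us mj)) (x : Fin 9 → ℕ) (hx : ∀ v, x v < 64)
    (h : permStep2 ih I (Nat.mod m 18446744073709551616)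
      (Nat.lor (Nat.mod m 18446744073709551616) (Nat.shiftRight m 64)) p mj
      (x 0) (x 1) (x 2) (x 3) (x 4) (x 5) (x 6) (x 7) (x 8) = true) :
    ∃ V, EOK m V ∧ ih (Nat.land I V) = true := by
  unfold permStep2 at h
  rw [band_eq_true] at h
  obtain ⟨h1, h2⟩ := h
  have h1 := Nat.eq_of_beq_eq_true h1
  obtain ⟨σ, hσ⟩ : ∃ σ : Equiv.Perm (Fin 9), ∀ v, wt (σ v) = x v := by
    refine exists_perm hx (fun k => ?_)
    rw [show (17733550359 : ℕ) = nat_lit 17733550359 from rfl, ← h1]
    simp only [lor_eq, shl_eq, Nat.testBit_or, testBit_one_shl, Bool.or_eq_true, decide_eq_true_eq]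
    constructor
    · rintro (h | h | h | h | h | h | h | h | h)
      exacts [⟨0, h⟩, ⟨1, h⟩, ⟨2, h⟩, ⟨3, h⟩, ⟨4, h⟩, ⟨5, h⟩, ⟨6, h⟩, ⟨7, h⟩, ⟨8, h⟩]
    · rintro ⟨v, hv⟩
      fin_cases v <;> simp_all
  refine fin_sound hfd hfp hf (hG.map σ) ?_ ?_ h2
  · rintro e ⟨e', ⟨hd, hb⟩, rfl⟩
    induction e' using Sym2.ind with
    | _ a b =>
      have hab : a ≠ b := by simpa using hd
      refine ⟨?_, ?_⟩
      · rw [act_mk, Sym2.mk_isDiag_iff]
        exact fun h => hab (σ.injective h)
      · rw [act_mk, pos_mk, hσ, hσ]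
        exact (img_bit x mj a b hab).1 hb
  · rintro e ⟨e', ⟨hd, hb⟩, rfl⟩
    induction e' using Sym2.ind with
    | _ a b =>
      have hab : a ≠ b := by simpa using hd
      refine ⟨?_, ?_⟩
      · rw [act_mk, Sym2.mk_isDiag_iff]
        exact fun h => hab (σ.injective h)
      · rw [act_mk, pos_mk, hσ, hσ]
        exact (img_bit x mj a b hab).2 hb

theorem entryStep_sound {ih : ℕ → Bool} {I i m p j f mj : ℕ} (hp : p < 64)
    (hG : j < i → Good (Bs mj) (Us mj))
    (h : entryStep ih I i (Nat.mod m 18446744073709551616)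
      (Nat.lor (Nat.mod m 18446744073709551616) (Nat.shiftRight m 64)) p j f mj = true) :
    ∃ V, EOK m V ∧ ih (Nat.land I V) = true := by
  unfold entryStep at h
  rw [band_eq_true, band_eq_true, band_eq_true, blt_eq_true, bit_eq, bit_eq] at h
  obtain ⟨h1, h2, h3, h4⟩ := h
  have h2 := Nat.eq_of_beq_eq_true h2
  have h3 := Nat.eq_of_beq_eq_true h3
  have h2 : (Nat.lor (Nat.mod m 18446744073709551616) (Nat.shiftRight m 64)).testBit p = true := by
    cases hh : (Nat.lor (Nat.mod m 18446744073709551616) (Nat.shiftRight m 64)).testBit p with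
    | true => rfl
    | false => rw [hh] at h2; exact absurd h2 (by decide)
  have h3 : (9521195651816986494 : ℕ).testBit p = true := by
    cases hh : (9521195651816986494 : ℕ).testBit p with
    | true => rfl
    | false => rw [hh] at h3; exact absurd h3 (by decide)
  obtain ⟨a, b, hab, hpab⟩ := eall_ok p hp h3
  have hfd : ¬ (s(a, b) : Sym2 (Fin 9)).IsDiag := by simpa using hab
  cases hh : Nat.beq f (nat_lit 0) with
  | true =>
    rw [hh] at h4
    exact fin_sound hfd hpab h2 (hG h1) (fun e he => he) (fun e he => he) h4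
  | false =>
    rw [hh] at h4
    have key : ∀ x0 x1 x2 x3 x4 x5 x6 x7 x8 : ℕ, x0 < 64 → x1 < 64 → x2 < 64 → x3 < 64 → x4 < 64 →
        x5 < 64 → x6 < 64 → x7 < 64 → x8 < 64 →
        permStep2 ih I (Nat.mod m 18446744073709551616)
          (Nat.lor (Nat.mod m 18446744073709551616) (Nat.shiftRight m 64)) p mj
          x0 x1 x2 x3 x4 x5 x6 x7 x8 = true → ∃ V, EOK m V ∧ ih (Nat.land I V) = true := by
      intro x0 x1 x2 x3 x4 x5 x6 x7 x8 h0 h1' h2' h3' h4' h5 h6 h7 h8 h
      refine permStep2_sound hfd hpab h2 (hG h1) ![x0, x1, x2, x3, x4, x5, x6, x7, x8] ?_ h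
      intro v
      fin_cases v
      exacts [h0, h1', h2', h3', h4', h5, h6, h7, h8]
    have hlt : ∀ y : ℕ, Nat.mod y (nat_lit 64) < 64 := fun y => Nat.mod_lt y (by norm_num)
    exact key _ _ _ _ _ _ _ _ _ (hlt _) (hlt _) (hlt _) (hlt _) (hlt _) (hlt _) (hlt _) (hlt _)
      (hlt _) h4

theorem innerLoop_sound {db : Tr} {i m : ℕ} (hG : ∀ j < i, Good (Bs (db.get j)) (Us (db.get j)))
    (es : List ℕ) : ∀ I : ℕ, innerLoop db i (Nat.mod m 18446744073709551616)
      (Nat.lor (Nat.mod m 18446744073709551616) (Nat.shiftRight m 64)) es I = true →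
    ∀ k, I.testBit k = true → ∃ V, EOK m V ∧ V.testBit k = false := by
  induction es with
  | nil =>
    intro I h k hk
    have h' : Nat.beq I 0 = true := h
    have h' := Nat.eq_of_beq_eq_true h'
    rw [h'] at hk
    simp at hk
  | cons e es ih =>
    intro I h k hk
    have h' : entryStep (innerLoop db i (Nat.mod m 18446744073709551616)
      (Nat.lor (Nat.mod m 18446744073709551616) (Nat.shiftRight m 64)) es) I i
      (Nat.mod m 18446744073709551616) (Nat.lor (Nat.mod m 18446744073709551616)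
      (Nat.shiftRight m 64)) (e % 64) ((e >>> 6) % 4096) (e >>> 18)
      (db.get ((e >>> 6) % 4096)) = true := h
    obtain ⟨V, hV, h2⟩ := entryStep_sound (Nat.mod_lt _ (by norm_num)) (fun hj => hG _ hj) h'
    cases hVk : V.testBit k with
    | false => exact ⟨V, hV, hVk⟩
    | true =>
      refine ih _ h2 k ?_
      rw [land_eq, Nat.testBit_and, hk, hVk]
      rfl

theorem innerLoop_nonempty {db : Tr} {i m : ℕ}
    (hG : ∀ j < i, Good (Bs (db.get j)) (Us (db.get j))) (e : ℕ)
    (es : List ℕ) (I : ℕ) (h : innerLoop db i (Nat.mod m 18446744073709551616)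
      (Nat.lor (Nat.mod m 18446744073709551616) (Nat.shiftRight m 64)) (e :: es) I = true) :
    ∃ V, EOK m V := by
  have h' : entryStep (innerLoop db i (Nat.mod m 18446744073709551616)
      (Nat.lor (Nat.mod m 18446744073709551616) (Nat.shiftRight m 64)) es) I i
      (Nat.mod m 18446744073709551616) (Nat.lor (Nat.mod m 18446744073709551616)
      (Nat.shiftRight m 64)) (e % 64) ((e >>> 6) % 4096) (e >>> 18)
      (db.get ((e >>> 6) % 4096)) = true := h
  obtain ⟨V, hV, -⟩ := entryStep_sound (Nat.mod_lt _ (by norm_num)) (fun hj => hG _ hj) h'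
  exact ⟨V, hV⟩

theorem innerCheck_sound {db : Tr} {i m : ℕ}
    (hG : ∀ j < i, Good (Bs (db.get j)) (Us (db.get j))) {es : List ℕ}
    (h : innerCheck db i m es = true) : Good (Bs m) (Us m) := by
  cases es with
  | nil => exact absurd (show false = true from h) Bool.false_ne_true
  | cons e es =>
    have h' : innerLoop db i (Nat.mod m 18446744073709551616)
      (Nat.lor (Nat.mod m 18446744073709551616) (Nat.shiftRight m 64)) (e :: es)
        (Nat.shiftRight m 64) = true := h
    have h1 := innerLoop_sound hG (e :: es) _ h'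
    obtain ⟨V₀, hV₀⟩ := innerLoop_nonempty hG e es _ h'
    have : Nonempty {V : ℕ // EOK m V} := ⟨⟨V₀, hV₀⟩⟩
    choose f B' U' h2 h3 h4 h5 h6 using fun k : {V : ℕ // EOK m V} => k.2
    refine Good.inner f B' U' h2 h3 h4 h5 (fun g hg => ?_)
    obtain ⟨V, hV, hVk⟩ := h1 (pos g) (by rw [shr_eq, Nat.testBit_shiftRight]; exact hg.2)
    exact ⟨⟨V, hV⟩, h6 ⟨V, hV⟩ g hg.1 hVk⟩

/-! ## The whole certificate -/

/-- The justification of a rule. -/
inductive Rec where
  | leaf : List ℕ → Rec
  | inner : List ℕ → Rec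

/-- The check of one rule. -/
noncomputable def okRec (db : Tr) (i : ℕ) (r : Rec) : Bool :=
  Rec.rec (motive := fun _ => Bool) (fun qs => leafCheck (db.get i) qs)
    (fun es => innerCheck db i (db.get i) es) r

/-- The check of a list of rules starting with number `i`. -/
noncomputable def okList (db : Tr) (rs : List Rec) : ℕ → Bool :=
  List.rec (motive := fun _ => ℕ → Bool) (fun _ => true)
    (fun r _ ih i => band (okRec db i r) (ih (Nat.succ i))) rs

theorem okList_sound {db : Tr} (rs : List Rec) : ∀ i : ℕ, okList db rs i = true →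
    ∀ j, i ≤ j → j < i + rs.length → ∃ r, okRec db j r = true := by
  induction rs with
  | nil =>
    intro i _ j h1 h2
    simp at h2
    omega
  | cons r rs ih =>
    intro i h j h1 h2
    have h' : band (okRec db i r) (okList db rs (i + 1)) = true := h
    rw [band_eq_true] at h'
    rw [List.length_cons] at h2
    rcases Nat.eq_or_lt_of_le h1 with rfl | h3
    · exact ⟨r, h'.1⟩
    · exact ih (i + 1) h'.2 j h3 (by omega)

theorem good_of_ok {db : Tr} {N : ℕ} (h : ∀ i < N, ∃ r, okRec db i r = true) :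
    ∀ i < N, Good (Bs (db.get i)) (Us (db.get i)) := by
  intro i
  induction i using Nat.strong_induction_on with
  | _ i ih =>
    intro hi
    obtain ⟨r, hr⟩ := h i hi
    cases r with
    | leaf qs => exact leafCheck_sound (qs := qs) hr
    | inner es => exact innerCheck_sound (fun j hj => ih j hj (hj.trans hi)) (es := es) hr

end Pool.Agent.K4G
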