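import Pool.Agent.Lib.MP_1d0474_co.Defs

/-!
# Rules of deduction for the Breaker

`Good B U`: the Breaker, moving second, wins every position in which he owns `B` and the Maker has
nothing in `U`.
-/

set_option autoImplicit false

namespace Pool.Agent.K4G

variable {n : ℕ}

/-- The Breaker wins (Maker to move) as soon as he owns `B` and the Maker has no edge of `U`. -/
def Good (B U : Set (Sym2 (Fin n))) : Prop :=
  ∀ A F : Finset (Sym2 (Fin n)), F.card % 2 = 0 → (∀ e ∈ B, e ∉ A ∧ e ∉ F) → (∀ e ∈ U, e ∉ A) →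
    BW A F

theorem Good.mono {B U B' U' : Set (Sym2 (Fin n))} (h : Good B U) (hB : B ⊆ B')
    (hU : U ⊆ B' ∪ U') : Good B' U' := by
  intro A F hF h1 h2
  refine h A F hF (fun e he => h1 e (hB he)) (fun e he => ?_)
  rcases hU he with h3 | h3
  · exact (h1 e h3).1
  · exact h2 e h3

/-- The Maker has taken an edge, the Breaker may answer anything. -/
theorem exists_reply {F : Finset (Sym2 (Fin n))} (hF : F.card % 2 = 0) {g : Sym2 (Fin n)}
    (hg : g ∈ F) : (F.erase g).card % 2 = 1 ∧ (F.erase g).Nonempty := by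
  have h1 : (F.erase g).card + 1 = F.card := Finset.card_erase_add_one hg
  have h2 : (F.erase g).card % 2 = 1 := by omega
  refine ⟨h2, ?_⟩
  rw [← Finset.card_pos]
  omega

theorem card_erase_erase {F : Finset (Sym2 (Fin n))} (hF : F.card % 2 = 0) {g f : Sym2 (Fin n)}
    (hg : g ∈ F) (hf : f ∈ F.erase g) :
    ((F.erase g).erase f).card % 2 = 0 ∧ ((F.erase g).erase f).card < F.card := by
  have h1 : (F.erase g).card + 1 = F.card := Finset.card_erase_add_one hg
  have h2 : ((F.erase g).erase f).card + 1 = (F.erase g).card := Finset.card_erase_add_one hf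
  omega

/-- The inner rule: a family of answers with empty intersection of carriers. -/
theorem Good.inner {B U : Set (Sym2 (Fin n))} {ι : Type} [Nonempty ι]
    (f : ι → Sym2 (Fin n)) (B' U' : ι → Set (Sym2 (Fin n)))
    (hG : ∀ k, Good (B' k) (U' k))
    (hf : ∀ k, f k ∈ B ∪ U)
    (hB : ∀ k, ∀ e ∈ B' k, e ∈ B ∨ e = f k)
    (hU : ∀ k, U' k ⊆ B ∪ U)
    (hI : ∀ g ∈ U, ∃ k, g ∉ U' k ∧ g ≠ f k) : Good B U := by
  intro A F
  induction hn : F.card using Nat.strong_induction_on generalizing A F with
  | _ m ih =>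
    intro hF h1 h2
    subst hn
    have notA : ∀ e ∈ B ∪ U, e ∉ A := by
      intro e he
      rcases he with he | he
      · exact (h1 e he).1
      · exact h2 e he
    rcases F.eq_empty_or_nonempty with rfl | hne
    · obtain ⟨k⟩ := ‹Nonempty ι›
      refine hG k A ∅ (by simp) (fun e he => ⟨?_, by simp⟩) (fun e he => notA e (hU k he))
      rcases hB k e he with h | rfl
      · exact (h1 e h).1
      · exact notA _ (hf k)
    · refine BW.maker hF hne (fun g hg => ?_)
      obtain ⟨hodd, hne'⟩ := exists_reply hF hg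
      by_cases hgU : g ∈ U
      · obtain ⟨k, hk1, hk2⟩ := hI g hgU
        -- choose the answer
        obtain ⟨f', hf', hff⟩ : ∃ f' ∈ F.erase g, f k ∈ F → f k = f' := by
          by_cases hfF : f k ∈ F
          · exact ⟨f k, Finset.mem_erase.2 ⟨fun h => hk2 h.symm, hfF⟩, fun _ => rfl⟩
          · obtain ⟨f', hf'⟩ := hne'
            exact ⟨f', hf', fun h => absurd h hfF⟩
        refine BW.breaker hodd hf' ?_
        refine hG k _ _ (card_erase_erase hF hg hf').1 (fun e he => ?_) (fun e he => ?_)
        · rcases hB k e he with h | rfl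
          · obtain ⟨hA, hF'⟩ := h1 e h
            refine ⟨?_, fun h3 => hF' (Finset.mem_of_mem_erase (Finset.mem_of_mem_erase h3))⟩
            rw [Finset.mem_insert]
            rintro (rfl | h3)
            · exact hF' hg
            · exact hA h3
          · refine ⟨?_, ?_⟩
            · rw [Finset.mem_insert]
              rintro (h3 | h3)
              · exact hk2 h3.symm
              · exact notA _ (hf k) h3
            · intro h3
              have h4 := Finset.mem_of_mem_erase (Finset.mem_of_mem_erase h3)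
              have h5 := hff h4
              rw [h5] at h3
              exact Finset.notMem_erase _ _ h3
        · rw [Finset.mem_insert]
          rintro (rfl | h3)
          · exact hk1 he
          · exact notA _ (hU k he) h3
      · obtain ⟨f', hf'⟩ := hne'
        refine BW.breaker hodd hf' ?_
        obtain ⟨hc1, hc2⟩ := card_erase_erase hF hg hf'
        refine ih _ hc2 _ _ rfl hc1 (fun e he => ?_) (fun e he => ?_)
        · obtain ⟨hA, hF'⟩ := h1 e he
          refine ⟨?_, fun h3 => hF' (Finset.mem_of_mem_erase (Finset.mem_of_mem_erase h3))⟩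
          rw [Finset.mem_insert]
          rintro (rfl | h3)
          · exact hF' hg
          · exact hA h3
        · rw [Finset.mem_insert]
          rintro (rfl | h3)
          · exact hgU he
          · exact h2 e he h3

/-- The pairing rule. -/
theorem Good.pairing {B U : Set (Sym2 (Fin n))} (P : List (Sym2 (Fin n) × Sym2 (Fin n)))
    (hP : P.Pairwise fun p q => p.1 ≠ q.1 ∧ p.1 ≠ q.2 ∧ p.2 ≠ q.1 ∧ p.2 ≠ q.2)
    (hne : ∀ p ∈ P, p.1 ≠ p.2)
    (hU : ∀ p ∈ P, p.1 ∈ U ∧ p.2 ∈ U)
    (hK : ∀ S : Finset (Fin n), S.card = 4 →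
      (∃ a ∈ S, ∃ b ∈ S, a ≠ b ∧ s(a, b) ∈ B) ∨
      (∃ p ∈ P, (∃ a ∈ S, ∃ b ∈ S, a ≠ b ∧ s(a, b) = p.1) ∧
        (∃ a ∈ S, ∃ b ∈ S, a ≠ b ∧ s(a, b) = p.2))) : Good B U := by
  -- the pairs containing a given edge are unique
  have huniq : ∀ p ∈ P, ∀ q ∈ P, ∀ g, (g = p.1 ∨ g = p.2) → (g = q.1 ∨ g = q.2) → p = q := by
    intro p hp q hq g h1 h2
    by_contra hpq
    have hsymm : Std.Symm fun p q : Sym2 (Fin n) × Sym2 (Fin n) =>
        p.1 ≠ q.1 ∧ p.1 ≠ q.2 ∧ p.2 ≠ q.1 ∧ p.2 ≠ q.2 := by
      refine ⟨?_⟩
      rintro x y ⟨h1, h2, h3, h4⟩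
      exact ⟨h1.symm, h3.symm, h2.symm, h4.symm⟩
    obtain ⟨h3, h4, h5, h6⟩ := List.Pairwise.forall hP hp hq hpq
    rcases h1 with rfl | rfl <;> rcases h2 with h2 | h2
    · exact h3 h2
    · exact h4 h2
    · exact h5 h2
    · exact h6 h2
  -- the invariant
  have key : ∀ A F : Finset (Sym2 (Fin n)), F.card % 2 = 0 → (∀ e ∈ B, e ∉ A ∧ e ∉ F) →
      (∀ p ∈ P, (p.1 ∉ A ∧ p.2 ∉ A) ∨ (p.1 ∉ A ∧ p.1 ∉ F) ∨ (p.2 ∉ A ∧ p.2 ∉ F)) →
      BW A F := by
    intro A F
    induction hn : F.card using Nat.strong_induction_on generalizing A F with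
    | _ m ih =>
      intro hF h1 h2
      subst hn
      rcases F.eq_empty_or_nonempty with rfl | hFne
      · refine BW.done ?_
        rintro ⟨S, hS, hA⟩
        rcases hK S hS with ⟨a, ha, b, hb, hab, hB⟩ | ⟨p, hp, ⟨a, ha, b, hb, hab, h3⟩,
          ⟨c, hc, d, hd, hcd, h4⟩⟩
        · exact (h1 _ hB).1 (hA a ha b hb hab)
        · have h5 := hA a ha b hb hab
          have h6 := hA c hc d hd hcd
          rw [h3] at h5
          rw [h4] at h6
          rcases h2 p hp with h | h | h
          · exact h.1 h5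
          · exact h.1 h5
          · exact h.1 h6
      · refine BW.maker hF hFne (fun g hg => ?_)
        obtain ⟨hodd, hne'⟩ := exists_reply hF hg
        -- the answer
        obtain ⟨f', hf', hff⟩ : ∃ f' ∈ F.erase g, ∀ p ∈ P,
            (g = p.1 → p.2 ∈ F → p.2 = f') ∧ (g = p.2 → p.1 ∈ F → p.1 = f') := by
          by_cases hex : ∃ p ∈ P, (g = p.1 ∧ p.2 ∈ F) ∨ (g = p.2 ∧ p.1 ∈ F)
          · obtain ⟨p, hp, h3 | h3⟩ := hex
            · refine ⟨p.2, Finset.mem_erase.2 ⟨?_, h3.2⟩, ?_⟩
              · rw [h3.1]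
                exact (hne p hp).symm
              · intro q hq
                constructor
                · intro h4 _
                  rw [huniq p hp q hq g (Or.inl h3.1) (Or.inl h4)]
                · intro h4 _
                  have := huniq p hp q hq g (Or.inl h3.1) (Or.inr h4)
                  subst this
                  exact absurd (h3.1.symm.trans h4) (hne p hp)
            · refine ⟨p.1, Finset.mem_erase.2 ⟨?_, h3.2⟩, ?_⟩
              · rw [h3.1]
                exact hne p hp
              · intro q hq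
                constructor
                · intro h4 _
                  have := huniq p hp q hq g (Or.inr h3.1) (Or.inl h4)
                  subst this
                  exact absurd (h4.symm.trans h3.1) (hne p hp)
                · intro h4 _
                  rw [huniq p hp q hq g (Or.inr h3.1) (Or.inr h4)]
          · obtain ⟨f', hf'⟩ := hne'
            refine ⟨f', hf', fun p hp => ⟨fun h3 h4 => ?_, fun h3 h4 => ?_⟩⟩
            · exact absurd ⟨p, hp, Or.inl ⟨h3, h4⟩⟩ hex
            · exact absurd ⟨p, hp, Or.inr ⟨h3, h4⟩⟩ hex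
        refine BW.breaker hodd hf' ?_
        obtain ⟨hc1, hc2⟩ := card_erase_erase hF hg hf'
        have hsub : ∀ e, e ∉ F → e ∉ (F.erase g).erase f' := fun e he h3 =>
          he (Finset.mem_of_mem_erase (Finset.mem_of_mem_erase h3))
        have hins : ∀ e, e ∉ A → e ≠ g → e ∉ insert g A := by
          intro e h3 h4
          rw [Finset.mem_insert]
          rintro (h5 | h5)
          · exact h4 h5
          · exact h3 h5
        have hFg : ∀ e, e ∉ F → e ≠ g := by
          rintro e he rfl
          exact he hg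
        refine ih _ hc2 _ _ rfl hc1 (fun e he => ?_) (fun p hp => ?_)
        · obtain ⟨hA, hF'⟩ := h1 e he
          exact ⟨hins e hA (hFg e hF'), hsub e hF'⟩
        · obtain ⟨hg1, hg2⟩ := hff p hp
          rcases h2 p hp with ⟨h3, h4⟩ | ⟨h3, h4⟩ | ⟨h3, h4⟩
          · by_cases hg3 : g = p.1
            · right; right
              have hne1 : p.2 ≠ g := by
                rw [hg3]
                exact (hne p hp).symm
              refine ⟨hins _ h4 hne1, ?_⟩
              by_cases h5 : p.2 ∈ F
              · rw [hg1 hg3 h5]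
                exact Finset.notMem_erase _ _
              · exact hsub _ h5
            · by_cases hg4 : g = p.2
              · right; left
                have hne1 : p.1 ≠ g := fun h => hg3 h.symm
                refine ⟨hins _ h3 hne1, ?_⟩
                by_cases h5 : p.1 ∈ F
                · rw [hg2 hg4 h5]
                  exact Finset.notMem_erase _ _
                · exact hsub _ h5
              · left
                exact ⟨hins _ h3 (fun h => hg3 h.symm), hins _ h4 (fun h => hg4 h.symm)⟩
          · right; left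
            exact ⟨hins _ h3 (hFg _ h4), hsub _ h4⟩
          · right; right
            exact ⟨hins _ h3 (hFg _ h4), hsub _ h4⟩
  intro A F hF h1 h2
  exact key A F hF h1 (fun p hp => Or.inl ⟨h2 _ (hU p hp).1, h2 _ (hU p hp).2⟩)

/-- The action of a permutation of the vertices on the edges. -/
def act (σ : Equiv.Perm (Fin n)) : Sym2 (Fin n) ↪ Sym2 (Fin n) := σ.toEmbedding.sym2Map

theorem act_mk (σ : Equiv.Perm (Fin n)) (a b : Fin n) : act σ s(a, b) = s(σ a, σ b) := rfl

theorem act_act_symm (σ : Equiv.Perm (Fin n)) (e : Sym2 (Fin n)) : act σ (act σ.symm e) = e := by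
  induction e using Sym2.ind with
  | _ a b => simp [act_mk]

theorem act_symm_act (σ : Equiv.Perm (Fin n)) (e : Sym2 (Fin n)) : act σ.symm (act σ e) = e := by
  induction e using Sym2.ind with
  | _ a b => simp [act_mk]

theorem map_act_symm (σ : Equiv.Perm (Fin n)) (A : Finset (Sym2 (Fin n))) :
    (A.map (act σ.symm)).map (act σ) = A := by
  ext e
  simp only [Finset.mem_map]
  constructor
  · rintro ⟨x, ⟨y, hy, rfl⟩, rfl⟩
    rwa [act_act_symm]
  · intro he
    exact ⟨act σ.symm e, ⟨e, he, rfl⟩, act_act_symm σ e⟩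

theorem HasK4.of_map (σ : Equiv.Perm (Fin n)) {A : Finset (Sym2 (Fin n))}
    (h : HasK4 (A.map (act σ))) : HasK4 A := by
  obtain ⟨S, hS, hA⟩ := h
  refine ⟨S.map σ.symm.toEmbedding, by rw [Finset.card_map, hS], ?_⟩
  intro a ha b hb hab
  rw [Finset.mem_map] at ha hb
  obtain ⟨a', ha', rfl⟩ := ha
  obtain ⟨b', hb', rfl⟩ := hb
  have hab' : a' ≠ b' := fun h => hab (by rw [h])
  have h1 := hA a' ha' b' hb' hab'
  rw [Finset.mem_map] at h1
  obtain ⟨x, hx, hx2⟩ := h1
  have h2 : x = act σ.symm s(a', b') := by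
    rw [← hx2, act_symm_act]
  rw [h2] at hx
  exact hx

theorem BW.map (σ : Equiv.Perm (Fin n)) {A F : Finset (Sym2 (Fin n))} (h : BW A F) :
    BW (A.map (act σ)) (F.map (act σ)) := by
  induction h with
  | done h => exact BW.done (fun h' => h (HasK4.of_map σ h'))
  | @maker A F hF hne _ ih =>
    refine BW.maker (by rwa [Finset.card_map]) (by rwa [Finset.map_nonempty]) (fun g hg => ?_)
    rw [Finset.mem_map] at hg
    obtain ⟨g', hg', rfl⟩ := hg
    have := ih g' hg'
    rwa [Finset.map_insert, Finset.map_erase] at this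
  | @breaker A F f hF hf _ ih =>
    refine BW.breaker (by rwa [Finset.card_map]) (Finset.mem_map_of_mem (act σ) hf) ?_
    rwa [Finset.map_erase] at ih

/-- The relabelling rule. -/
theorem Good.map (σ : Equiv.Perm (Fin n)) {B U : Set (Sym2 (Fin n))} (h : Good B U) :
    Good (act σ '' B) (act σ '' U) := by
  intro A F hF h1 h2
  have h3 : BW (A.map (act σ.symm)) (F.map (act σ.symm)) := by
    have hmem : ∀ (e : Sym2 (Fin n)) (X : Finset (Sym2 (Fin n))), act σ e ∉ X →
        e ∉ X.map (act σ.symm) := by
      intro e X he hX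
      rw [Finset.mem_map] at hX
      obtain ⟨x, hx, rfl⟩ := hX
      rw [act_act_symm] at he
      exact he hx
    refine h _ _ (by rwa [Finset.card_map]) (fun e he => ?_) (fun e he => ?_)
    · obtain ⟨h4, h5⟩ := h1 (act σ e) ⟨e, he, rfl⟩
      exact ⟨hmem _ _ h4, hmem _ _ h5⟩
    · exact hmem _ _ (h2 (act σ e) ⟨e, he, rfl⟩)
  have h4 := h3.map σ
  rwa [map_act_symm, map_act_symm] at h4

end Pool.Agent.K4G
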