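import Mathlib

/-!
# The two edge games on the complete graph

Interface for `S07492` (problem `MP_1d0474_co`).  A position is a pair `(A, F)`: `A` is the set of
edges of the relevant player (the Avoider, resp. the Maker), `F` the set of free edges.  The side to
move is determined by the parity of `F`.
-/

set_option autoImplicit false

namespace Pool.Agent.K4G

variable {n : ℕ}

/-- The edges of the complete graph on `Fin n`. -/
def edges (n : ℕ) : Finset (Sym2 (Fin n)) := Finset.univ.filter (fun e => ¬ e.IsDiag)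

/-- `A` contains all edges of some complete graph on four vertices. -/
def HasK4 (A : Finset (Sym2 (Fin n))) : Prop :=
  ∃ S : Finset (Fin n), S.card = 4 ∧ ∀ a ∈ S, ∀ b ∈ S, a ≠ b → s(a, b) ∈ A

/-- The Enforcer wins at `(A, F)`: `A` the edges of the Avoider, `F` the free edges.
The Avoider is to move iff `F.card` is odd. -/
inductive EW : Finset (Sym2 (Fin n)) → Finset (Sym2 (Fin n)) → Prop
  | done {A : Finset (Sym2 (Fin n))} : HasK4 A → EW A ∅
  | avoider {A F : Finset (Sym2 (Fin n))} : F.card % 2 = 1 →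
      (∀ g ∈ F, EW (insert g A) (F.erase g)) → EW A F
  | enforcer {A F : Finset (Sym2 (Fin n))} {f : Sym2 (Fin n)} : F.card % 2 = 0 →
      f ∈ F → EW A (F.erase f) → EW A F

/-- The Breaker wins at `(A, F)`: `A` the edges of the Maker, `F` the free edges.
The Maker is to move iff `F.card` is even. -/
inductive BW : Finset (Sym2 (Fin n)) → Finset (Sym2 (Fin n)) → Prop
  | done {A : Finset (Sym2 (Fin n))} : ¬ HasK4 A → BW A ∅
  | maker {A F : Finset (Sym2 (Fin n))} : F.card % 2 = 0 → F.Nonempty →
      (∀ g ∈ F, BW (insert g A) (F.erase g)) → BW A F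
  | breaker {A F : Finset (Sym2 (Fin n))} {f : Sym2 (Fin n)} : F.card % 2 = 1 →
      f ∈ F → BW A (F.erase f) → BW A F

/-- The property of a predicate `Win` assumed in the frozen statement. -/
def IsWin (Win : ℕ → ℕ → ℕ → ℕ → Prop) : Prop :=
  ∀ q N p r : ℕ, Win q N p r ↔
        ∃ σ : List (Sym2 (Fin N)) → Sym2 (Fin N),
          (∀ l : List (Sym2 (Fin N)), l.Nodup → (∀ e ∈ l, ¬ e.IsDiag) →
            (∀ (i : ℕ) (h : i < l.length), i % 2 = p → l[i]'h = σ (l.take i)) →
            l.length % 2 = p →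
            (∃ e : Sym2 (Fin N), ¬ e.IsDiag ∧ e ∉ l) →
            (¬ (σ l).IsDiag ∧ σ l ∉ l)) ∧
          (∀ l : List (Sym2 (Fin N)), l.Nodup → (∀ e ∈ l, ¬ e.IsDiag) →
            (∀ e : Sym2 (Fin N), ¬ e.IsDiag → e ∈ l) →
            (∀ (i : ℕ) (h : i < l.length), i % 2 = p → l[i]'h = σ (l.take i)) →
            ∃ S : Finset (Fin N), S.card = q ∧
              ∀ a ∈ S, ∀ b ∈ S, a ≠ b →
                ∃ (i : ℕ) (h : i < l.length), i % 2 = r ∧ l[i]'h = s(a, b))

end Pool.Agent.K4G
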