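import Pool.Agent.Lib.MP_1d0474_co.Generic

/-!
# Checker for the Enforcer certificate on nine vertices

A certificate is a table of cores.  A core consists of a list `a` of codes of edges of the Avoider
and a list `t` of entries `(g, j, p)`, one for each free edge `g` of the core, where `j` is the
index of an earlier core and `p` is a packed permutation of the vertices which embeds core `j` into
the position reached when the Avoider claims `g`.  The edge `i j` with `i < j` has the code
`9 * i + j`.
-/

set_option autoImplicit false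

namespace Pool.Agent.K4G

namespace Enf

/-- The table of cores as a binary tree: the index is read from the lowest bit on. -/
inductive T
  | leaf (a : List ℕ) (t : List (ℕ × ℕ × ℕ))
  | node (l r : T)

/-- Look up a core. -/
noncomputable def get (t : T) : ℕ → List ℕ × List (ℕ × ℕ × ℕ) :=
  T.rec (fun a t _ => (a, t))
    (fun _ _ gl gr i => cond (Nat.beq (i % 2) 0) (gl (i / 2)) (gr (i / 2))) t

/-- The image of the vertex `i` under the packed map `p`. -/
def im (p i : ℕ) : ℕ := (p >>> (4 * i)) % 16

/-- The code of the image of the edge with code `k`. -/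
def imc (p k : ℕ) : ℕ := 9 * im p (k / 9) + im p (k % 9)

/-- The two bits of the edge with code `k`. -/
def bit2 (k : ℕ) : ℕ := (1 <<< k) ||| (1 <<< (9 * (k % 9) + k / 9))

/-- Bit `c` of `m` is set. -/
def tb (m c : ℕ) : Bool := Nat.ble 1 ((m >>> c) % 2)

/-- Symmetric mask of a list of codes. -/
noncomputable def mask (L : List ℕ) : ℕ :=
  List.rec 0 (fun k _ ih => ih ||| bit2 k) L

/-- Symmetric mask of the free edges of a list of entries. -/
noncomputable def maskT (L : List (ℕ × ℕ × ℕ)) : ℕ :=
  List.rec 0 (fun k _ ih => ih ||| bit2 k.1) L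

/-- All images of codes in `L` are in the mask `m`. -/
noncomputable def allIm (p m : ℕ) (L : List ℕ) : Bool :=
  List.rec true (fun k _ ih => cond (tb m (imc p k)) ih false) L

/-- All images of the free edges in `L` are in the mask `m`. -/
noncomputable def allImT (p m : ℕ) (L : List (ℕ × ℕ × ℕ)) : Bool :=
  List.rec true (fun k _ ih => cond (tb m (imc p k.1)) ih false) L

/-- `p` packs a permutation of the nine vertices. -/
def permOK (p : ℕ) : Bool :=
  Nat.beq ((1 <<< im p 0) ||| (1 <<< im p 1) ||| (1 <<< im p 2) ||| (1 <<< im p 3) |||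
    (1 <<< im p 4) ||| (1 <<< im p 5) ||| (1 <<< im p 6) ||| (1 <<< im p 7) ||| (1 <<< im p 8)) 511

/-- All codes are less than 81. -/
noncomputable def validL (L : List ℕ) : Bool :=
  List.rec true (fun k _ ih => cond (Nat.ble k 80) ih false) L

/-- The codes of the free edges are valid and increasing (all larger than or equal to `s`), and
their number has the parity of `b + 1` (so `b = true` means odd). -/
noncomputable def validT (L : List (ℕ × ℕ × ℕ)) : ℕ → Bool → Bool :=
  List.rec (fun _ b => cond b false true)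
    (fun k _ ih s b => cond (Nat.ble s k.1) (cond (Nat.ble k.1 80)
      (cond (Nat.ble (k.1 / 9 + 1) (k.1 % 9)) (ih (k.1 + 1) (cond b false true)) false) false)
      false) L

/-- Check of one entry. -/
noncomputable def chkE (db : T) (i am um : ℕ) (e : ℕ × ℕ × ℕ) : Bool :=
  cond (Nat.ble (e.2.1 + 1) i) (cond (permOK e.2.2)
    (cond (allIm e.2.2 (am ||| bit2 e.1) (get db e.2.1).1)
      (allImT e.2.2 um (get db e.2.1).2) false) false) false

/-- Check of all entries. -/
noncomputable def chkL (db : T) (i am um : ℕ) (L : List (ℕ × ℕ × ℕ)) : Bool :=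
  List.rec true (fun e _ ih => cond (chkE db i am um e) ih false) L

/-- Check of one core. -/
noncomputable def chk (db : T) (i : ℕ) : Bool :=
  cond (validL (get db i).1) (cond (validT (get db i).2 0 true)
    (chkL db i (mask (get db i).1) (mask (get db i).1 ||| maskT (get db i).2) (get db i).2)
    false) false

/-- Check of the cores with index `s, ..., s + m - 1`. -/
noncomputable def chkR (db : T) (s : ℕ) (m : ℕ) : Bool :=
  Nat.rec true (fun i ih => cond (chk db (s + i)) ih false) m

/-! ## Soundness -/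

/-- The edge with code `k`. -/
def ed (k : ℕ) : Sym2 (Fin 9) := s(Fin.ofNat 9 (k / 9), Fin.ofNat 9 (k % 9))

/-- The set of edges of a list of codes. -/
def SA (L : List ℕ) : Finset (Sym2 (Fin 9)) := (L.map ed).toFinset

/-- The set of free edges of a list of entries. -/
def SW (L : List (ℕ × ℕ × ℕ)) : Finset (Sym2 (Fin 9)) := (L.map (fun e => ed e.1)).toFinset

theorem mem_SA {L : List ℕ} {e : Sym2 (Fin 9)} : e ∈ SA L ↔ ∃ k ∈ L, ed k = e := by
  simp [SA]

theorem mem_SW {L : List (ℕ × ℕ × ℕ)} {e : Sym2 (Fin 9)} : e ∈ SW L ↔ ∃ k ∈ L, ed k.1 = e := by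
  simp [SW]

theorem cond_true_iff {a b : Bool} : cond a b false = true ↔ a = true ∧ b = true := by
  cases a <;> simp

theorem tb_iff {m c : ℕ} : tb m c = true ↔ m.testBit c = true := by
  unfold tb
  rw [Nat.ble_eq, Nat.testBit_eq_decide_div_mod_eq, Nat.shiftRight_eq_div_pow]
  have := Nat.mod_lt (m / 2 ^ c) (by norm_num : 0 < 2)
  simp only [decide_eq_true_eq]
  omega

theorem one_shiftLeft_testBit {k c : ℕ} : (1 <<< k).testBit c = true ↔ c = k := by
  rw [Nat.one_shiftLeft, Nat.testBit_two_pow]
  simp [eq_comm]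

theorem ed_swap {k : ℕ} (hk : k < 81) : ed (9 * (k % 9) + k / 9) = ed k := by
  unfold ed
  have h1 : (9 * (k % 9) + k / 9) / 9 = k % 9 := by omega
  have h2 : (9 * (k % 9) + k / 9) % 9 = k / 9 := by omega
  rw [h1, h2, Sym2.eq_swap]

theorem bit2_spec {k c : ℕ} (hk : k < 81) (h : (bit2 k).testBit c = true) : ed c = ed k := by
  unfold bit2 at h
  rw [Nat.testBit_or, Bool.or_eq_true, one_shiftLeft_testBit, one_shiftLeft_testBit] at h
  rcases h with h | h
  · rw [h]
  · rw [h, ed_swap hk]

theorem mask_cons (k : ℕ) (L : List ℕ) : mask (k :: L) = mask L ||| bit2 k := rfl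

theorem maskT_cons (k : ℕ × ℕ × ℕ) (L : List (ℕ × ℕ × ℕ)) :
    maskT (k :: L) = maskT L ||| bit2 k.1 := rfl

theorem mask_spec {L : List ℕ} (hL : ∀ k ∈ L, k < 81) {c : ℕ}
    (h : (mask L).testBit c = true) : ed c ∈ SA L := by
  induction L with
  | nil => simp [mask] at h
  | cons k L ih =>
    rw [mask_cons, Nat.testBit_or, Bool.or_eq_true] at h
    rcases h with h | h
    · obtain ⟨k', hk', h'⟩ := mem_SA.1 (ih (fun k hk => hL k (List.mem_cons_of_mem _ hk)) h)
      exact mem_SA.2 ⟨k', List.mem_cons_of_mem _ hk', h'⟩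
    · exact mem_SA.2 ⟨k, List.mem_cons_self, (bit2_spec (hL k List.mem_cons_self) h).symm⟩

theorem maskT_spec {L : List (ℕ × ℕ × ℕ)} (hL : ∀ k ∈ L, k.1 < 81) {c : ℕ}
    (h : (maskT L).testBit c = true) : ed c ∈ SW L := by
  induction L with
  | nil => simp [maskT] at h
  | cons k L ih =>
    rw [maskT_cons, Nat.testBit_or, Bool.or_eq_true] at h
    rcases h with h | h
    · obtain ⟨k', hk', h'⟩ := mem_SW.1 (ih (fun k hk => hL k (List.mem_cons_of_mem _ hk)) h)
      exact mem_SW.2 ⟨k', List.mem_cons_of_mem _ hk', h'⟩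
    · exact mem_SW.2 ⟨k, List.mem_cons_self, (bit2_spec (hL k List.mem_cons_self) h).symm⟩

theorem allIm_spec {p m : ℕ} {L : List ℕ} (h : allIm p m L = true) :
    ∀ k ∈ L, m.testBit (imc p k) = true := by
  induction L with
  | nil => simp
  | cons k L ih =>
    have h' : cond (tb m (imc p k)) (allIm p m L) false = true := h
    rw [cond_true_iff, tb_iff] at h'
    intro k' hk'
    rcases List.mem_cons.1 hk' with rfl | hk'
    · exact h'.1
    · exact ih h'.2 k' hk'

theorem allImT_spec {p m : ℕ} {L : List (ℕ × ℕ × ℕ)} (h : allImT p m L = true) :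
    ∀ k ∈ L, m.testBit (imc p k.1) = true := by
  induction L with
  | nil => simp
  | cons k L ih =>
    have h' : cond (tb m (imc p k.1)) (allImT p m L) false = true := h
    rw [cond_true_iff, tb_iff] at h'
    intro k' hk'
    rcases List.mem_cons.1 hk' with rfl | hk'
    · exact h'.1
    · exact ih h'.2 k' hk'

theorem validL_spec {L : List ℕ} (h : validL L = true) : ∀ k ∈ L, k < 81 := by
  induction L with
  | nil => simp
  | cons k L ih =>
    have h' : cond (Nat.ble k 80) (validL L) false = true := h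
    rw [cond_true_iff, Nat.ble_eq] at h'
    intro k' hk'
    rcases List.mem_cons.1 hk' with rfl | hk'
    · omega
    · exact ih h'.2 k' hk'

theorem validT_cons (k : ℕ × ℕ × ℕ) (L : List (ℕ × ℕ × ℕ)) (s : ℕ) (b : Bool) :
    validT (k :: L) s b = cond (Nat.ble s k.1) (cond (Nat.ble k.1 80)
      (cond (Nat.ble (k.1 / 9 + 1) (k.1 % 9)) (validT L (k.1 + 1) (cond b false true)) false)
      false) false := rfl

theorem validT_spec {L : List (ℕ × ℕ × ℕ)} : ∀ {s : ℕ} {b : Bool}, validT L s b = true →
    (∀ k ∈ L, s ≤ k.1 ∧ k.1 < 81 ∧ k.1 / 9 < k.1 % 9) ∧ (L.map (fun e => e.1)).Nodup ∧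
      (L.length % 2 = if b then 1 else 0) := by
  induction L with
  | nil =>
    intro s b h
    have h' : cond b false true = true := h
    cases b <;> simp_all
  | cons k L ih =>
    intro s b h
    rw [validT_cons, cond_true_iff, cond_true_iff, cond_true_iff, Nat.ble_eq, Nat.ble_eq,
      Nat.ble_eq] at h
    obtain ⟨h1, h2, h3, h4⟩ := h
    obtain ⟨i1, i2, i3⟩ := ih h4
    refine ⟨?_, ?_, ?_⟩
    · intro k' hk'
      rcases List.mem_cons.1 hk' with rfl | hk'
      · exact ⟨h1, by omega, by omega⟩
      · obtain ⟨j1, j2, j3⟩ := i1 k' hk'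
        exact ⟨by omega, j2, j3⟩
    · rw [List.map_cons, List.nodup_cons]
      refine ⟨?_, i2⟩
      intro hmem
      obtain ⟨k', hk', he⟩ := List.mem_map.1 hmem
      obtain ⟨j1, -, -⟩ := i1 k' hk'
      omega
    · rw [List.length_cons]
      cases b <;> simp_all <;> omega

theorem ofNat_val {k : ℕ} (hk : k < 9) : (Fin.ofNat 9 k).val = k := by
  simp [Fin.ofNat, Nat.mod_eq_of_lt hk]

theorem ed_inj {k k' : ℕ} (h : k / 9 < k % 9) (hk : k < 81) (h' : k' / 9 < k' % 9) (hk' : k' < 81)
    (he : ed k = ed k') : k = k' := by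
  unfold ed at he
  have a1 : k / 9 < 9 := by omega
  have a2 : k % 9 < 9 := by omega
  have b1 : k' / 9 < 9 := by omega
  have b2 : k' % 9 < 9 := by omega
  rw [Sym2.eq_iff] at he
  rcases he with ⟨h1, h2⟩ | ⟨h1, h2⟩
  · have e1 := congrArg Fin.val h1
    have e2 := congrArg Fin.val h2
    rw [ofNat_val a1, ofNat_val b1] at e1
    rw [ofNat_val a2, ofNat_val b2] at e2
    omega
  · have e1 := congrArg Fin.val h1
    have e2 := congrArg Fin.val h2
    rw [ofNat_val a1, ofNat_val b2] at e1
    rw [ofNat_val a2, ofNat_val b1] at e2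
    omega

theorem SW_card {L : List (ℕ × ℕ × ℕ)} (h : validT L 0 true = true) : (SW L).card % 2 = 1 := by
  obtain ⟨h1, h2, h3⟩ := validT_spec h
  have hn : (L.map (fun e => ed e.1)).Nodup := by
    have : (L.map (fun e => ed e.1)) = (L.map (fun e => e.1)).map ed := by
      rw [List.map_map]; rfl
    rw [this]
    refine List.Nodup.map_on ?_ h2
    intro x hx y hy hxy
    obtain ⟨x', hx', rfl⟩ := List.mem_map.1 hx
    obtain ⟨y', hy', rfl⟩ := List.mem_map.1 hy
    obtain ⟨-, p1, p2⟩ := h1 x' hx'
    obtain ⟨-, q1, q2⟩ := h1 y' hy'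
    exact ed_inj p2 p1 q2 q1 hxy
  unfold SW
  rw [List.toFinset_card_of_nodup hn, List.length_map]
  simpa using h3

theorem permOK_lt {p : ℕ} (h : permOK p = true) : ∀ i : ℕ, i < 9 → im p i < 9 := by
  have h0 := Nat.eq_of_beq_eq_true h
  intro i hi
  by_contra hcon
  have h1 : ((1 <<< im p 0) ||| (1 <<< im p 1) ||| (1 <<< im p 2) ||| (1 <<< im p 3) |||
    (1 <<< im p 4) ||| (1 <<< im p 5) ||| (1 <<< im p 6) ||| (1 <<< im p 7) |||
    (1 <<< im p 8)).testBit (im p i) = true := by
    simp only [Nat.testBit_or, Bool.or_eq_true, one_shiftLeft_testBit]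
    interval_cases i <;> simp
  rw [h0] at h1
  have h2 : (511 : ℕ) < 2 ^ im p i := by
    calc (511 : ℕ) < 2 ^ 9 := by norm_num
      _ ≤ 2 ^ im p i := Nat.pow_le_pow_right (by norm_num) (by omega)
  rw [Nat.testBit_lt_two_pow h2] at h1
  exact Bool.false_ne_true h1

/-- The permutation of the vertices. -/
def emb (p : ℕ) (i : Fin 9) : Fin 9 := Fin.ofNat 9 (im p i.val)

theorem emb_inj {p : ℕ} (h : permOK p = true) : Function.Injective (emb p) := by
  rw [Finite.injective_iff_surjective]
  intro j
  have h0 := Nat.eq_of_beq_eq_true h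
  have h1 : (511 : ℕ).testBit j.val = true := by
    have : ∀ j : Fin 9, (511 : ℕ).testBit j.val = true := by decide
    exact this j
  rw [← h0] at h1
  simp only [Nat.testBit_or, Bool.or_eq_true, one_shiftLeft_testBit] at h1
  have key : ∀ i : ℕ, (hi : i < 9) → j.val = im p i → ∃ a, emb p a = j := by
    intro i hi hj
    refine ⟨⟨i, hi⟩, Fin.ext ?_⟩
    unfold emb
    rw [ofNat_val (permOK_lt h i hi), hj]
  rcases h1 with (((((((h1 | h1) | h1) | h1) | h1) | h1) | h1) | h1) | h1
  · exact key 0 (by norm_num) h1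
  · exact key 1 (by norm_num) h1
  · exact key 2 (by norm_num) h1
  · exact key 3 (by norm_num) h1
  · exact key 4 (by norm_num) h1
  · exact key 5 (by norm_num) h1
  · exact key 6 (by norm_num) h1
  · exact key 7 (by norm_num) h1
  · exact key 8 (by norm_num) h1

theorem ed_imc {p k : ℕ} (h : permOK p = true) (hk : k < 81) :
    ed (imc p k) = (Function.Embedding.sym2Map ⟨emb p, emb_inj h⟩) (ed k) := by
  have a1 : k / 9 < 9 := by omega
  have a2 : k % 9 < 9 := by omega
  have b1 := permOK_lt h _ a1
  have b2 := permOK_lt h _ a2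
  unfold ed imc
  have c1 : (9 * im p (k / 9) + im p (k % 9)) / 9 = im p (k / 9) := by omega
  have c2 : (9 * im p (k / 9) + im p (k % 9)) % 9 = im p (k % 9) := by omega
  rw [c1, c2]
  simp only [Function.Embedding.sym2Map_apply, Sym2.map_mk, Function.Embedding.coeFn_mk, emb,
    ofNat_val a1, ofNat_val a2]

theorem chkL_spec {db : T} {i am um : ℕ} {L : List (ℕ × ℕ × ℕ)}
    (h : chkL db i am um L = true) : ∀ e ∈ L, chkE db i am um e = true := by
  induction L with
  | nil => simp
  | cons k L ih =>
    have h' : cond (chkE db i am um k) (chkL db i am um L) false = true := h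
    rw [cond_true_iff] at h'
    intro k' hk'
    rcases List.mem_cons.1 hk' with rfl | hk'
    · exact h'.1
    · exact ih h'.2 k' hk'

/-- A core of the table. -/
def Good (db : T) (i : ℕ) : Prop := EW (SA (get db i).1) (SW (get db i).2)

theorem chk_sound {db : T} {i : ℕ} (h : chk db i = true)
    (hv : ∀ j < i, (∀ k ∈ (get db j).1, k < 81) ∧ (∀ k ∈ (get db j).2, k.1 < 81))
    (hg : ∀ j < i, Good db j) :
    Good db i ∧ (∀ k ∈ (get db i).1, k < 81) ∧ (∀ k ∈ (get db i).2, k.1 < 81) := by
  unfold chk at h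
  rw [cond_true_iff, cond_true_iff] at h
  obtain ⟨h1, h2, h3⟩ := h
  have v1 := validL_spec h1
  have v2 := (validT_spec h2).1
  have v3 : ∀ k ∈ (get db i).2, k.1 < 81 := fun k hk => (v2 k hk).2.1
  refine ⟨?_, v1, v3⟩
  refine EW.avoider (SW_card h2) ?_
  intro g hgm
  obtain ⟨e, he, rfl⟩ := mem_SW.1 hgm
  have hc := chkL_spec h3 e he
  unfold chkE at hc
  rw [cond_true_iff, cond_true_iff, cond_true_iff, Nat.ble_eq] at hc
  obtain ⟨hj, hp, ha, hw⟩ := hc
  have hj' : e.2.1 < i := by omega
  have hE := (hg _ hj').map ⟨emb e.2.2, emb_inj hp⟩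
  obtain ⟨w1, w2⟩ := hv _ hj'
  refine hE.mono ?_ ?_
  · intro x hx
    obtain ⟨y, hy, rfl⟩ := Finset.mem_map.1 hx
    obtain ⟨k, hk, rfl⟩ := mem_SA.1 hy
    rw [← ed_imc hp (w1 k hk)]
    have := allIm_spec ha k hk
    rw [Nat.testBit_or, Bool.or_eq_true] at this
    rcases this with h' | h'
    · exact Finset.mem_insert_of_mem (mask_spec v1 h')
    · rw [bit2_spec (v3 e he) h']
      exact Finset.mem_insert_self _ _
  · intro x hx
    obtain ⟨y, hy, rfl⟩ := Finset.mem_map.1 hx
    obtain ⟨k, hk, rfl⟩ := mem_SW.1 hy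
    rw [← ed_imc hp (w2 k hk)]
    have := allImT_spec hw k hk
    rw [Nat.testBit_or, Bool.or_eq_true] at this
    have hmem : ed (imc e.2.2 k.1) ∈ SA (get db i).1 ∨ ed (imc e.2.2 k.1) ∈ SW (get db i).2 := by
      rcases this with h' | h'
      · exact Or.inl (mask_spec v1 h')
      · exact Or.inr (maskT_spec v3 h')
    rcases hmem with h' | h'
    · exact Finset.mem_union_left _ (Finset.mem_insert_of_mem h')
    · by_cases hxe : ed (imc e.2.2 k.1) = ed e.1
      · exact Finset.mem_union_left _ (hxe ▸ Finset.mem_insert_self _ _)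
      · exact Finset.mem_union_right _ (Finset.mem_erase.2 ⟨hxe, h'⟩)

theorem chkR_spec {db : T} {s m : ℕ} (h : chkR db s m = true) :
    ∀ i, s ≤ i → i < s + m → chk db i = true := by
  induction m with
  | zero => intro i h1 h2; omega
  | succ m ih =>
    have h' : cond (chk db (s + m)) (chkR db s m) false = true := h
    rw [cond_true_iff] at h'
    intro i h1 h2
    by_cases hi : i = s + m
    · rw [hi]; exact h'.1
    · exact ih h'.2 i h1 (by omega)

theorem sound {db : T} {N : ℕ} (h0 : HasK4 (SA (get db 0).1)) (v0 : validL (get db 0).1 = true)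
    (w0 : (get db 0).2 = []) (h : ∀ i, 1 ≤ i → i < N → chk db i = true) :
    ∀ i, i < N → Good db i := by
  have H : ∀ i, i < N → Good db i ∧ (∀ k ∈ (get db i).1, k < 81) ∧
      (∀ k ∈ (get db i).2, k.1 < 81) := by
    intro i
    induction i using Nat.strong_induction_on with
    | _ i ih =>
      intro hi
      rcases Nat.eq_zero_or_pos i with rfl | hpos
      · refine ⟨?_, validL_spec v0, ?_⟩
        · unfold Good
          rw [w0]
          exact EW.done h0
        · rw [w0]; simp
      · exact chk_sound (h i hpos hi) (fun j hj => (ih j hj (by omega)).2)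
          (fun j hj => (ih j hj (by omega)).1)
  exact fun i hi => (H i hi).1

end Enf

end Pool.Agent.K4G
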