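import Pool.Agent.Lib.MP_1d0474_co.EnfData

/-!
# The Enforcer wins the K_4 game on nine vertices
-/

set_option autoImplicit false

namespace Pool.Agent.K4G

namespace Enf

theorem chk_all : chkR db 1 204 = true := by decide +kernel

theorem get_zero : get db 0 = ([1, 2, 3, 11, 12, 21], []) := rfl

theorem hasK4_zero : HasK4 (SA [1, 2, 3, 11, 12, 21]) := by
  refine ⟨{0, 1, 2, 3}, by decide, ?_⟩
  intro a ha b hb hab
  have H : ∀ a ∈ ({0, 1, 2, 3} : Finset (Fin 9)), ∀ b ∈ ({0, 1, 2, 3} : Finset (Fin 9)),
      a ≠ b → s(a, b) ∈ SA [1, 2, 3, 11, 12, 21] := by decide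
  exact H a ha b hb hab

theorem get_last : (get db 204).1 = [] := rfl

end Enf

open Enf in
/-- The Enforcer wins the reverse game for `K_4` on nine vertices. -/
theorem ew9 : EW (∅ : Finset (Sym2 (Fin 9))) (edges 9) := by
  have h := sound (db := db) (N := 205) (by rw [get_zero]; exact hasK4_zero)
    (by rw [get_zero]; rfl) (by rw [get_zero])
    (fun i h1 h2 => chkR_spec chk_all i h1 (by omega)) 204 (by norm_num)
  have hc : chk db 204 = true := chkR_spec chk_all 204 (by norm_num) (by norm_num)
  unfold Good at h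
  refine h.mono ?_ ?_
  · rw [get_last]
    simp [SA]
  · intro x hx
    refine Finset.mem_union_right _ (mem_edges.2 ?_)
    obtain ⟨k, hk, rfl⟩ := mem_SW.1 hx
    unfold chk at hc
    rw [cond_true_iff, cond_true_iff] at hc
    obtain ⟨-, h1, h2⟩ := (validT_spec hc.2.1).1 k hk
    unfold ed
    rw [Sym2.mk_isDiag_iff]
    intro he
    have := congrArg Fin.val he
    rw [ofNat_val (by omega), ofNat_val (by omega)] at this
    omega

end Pool.Agent.K4G
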