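import Pool.Agent.Lib.MP_1d0474_co.Generic

/-!
# The clique games on the complete graph

The board of both games is the set of edges of the complete graph on `Fin N`. The two players `0` (first) and `1`
(second) alternately claim one unclaimed edge each until every edge has been claimed.
-/

set_option autoImplicit false

namespace Pool.Agent.Lib.MP_1d0474_co.Game

/-- The edges of the complete graph `K_N`. -/
abbrev Edge (N : ℕ) : Type := (⊤ : SimpleGraph (Fin N)).edgeSet

/-- The graph of the edges which the player `p` has claimed when the edges of `l` were claimed in this order: the player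
`0` makes the moves number `0, 2, 4, …`, the player `1` the moves number `1, 3, 5, …`. -/
def ownGraph {N : ℕ} (l : List (Edge N)) (p : ℕ) : SimpleGraph (Fin N) :=
  SimpleGraph.fromEdgeSet {e | ∃ (i : ℕ) (h : i < l.length), i % 2 = p ∧ (l[i] : Sym2 (Fin N)) = e}

/-- In `l` the player `p` has claimed every edge of some copy of `K_q`. -/
def OwnsClique (q : ℕ) {N : ℕ} (l : List (Edge N)) (p : ℕ) : Prop :=
  ∃ S : Finset (Fin N), (ownGraph l p).IsNClique q S

/-- A strategy of the player `p`: to every position `l` (the edges claimed so far, in their order) in which `p` is to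
move and some edge is unclaimed it gives an unclaimed edge. -/
structure Strategy (N p : ℕ) where
  /-- the edge to claim at the position `l` -/
  move : List (Edge N) → Edge N
  legal : ∀ l : List (Edge N), l.Nodup → l.length % 2 = p → (∃ e : Edge N, e ∉ l) → move l ∉ l

/-- The player `p` has a strategy such that every complete play (every edge is claimed exactly once) in which all
moves of `p` are made by the strategy has the property `goal`. -/
def Guarantees (N p : ℕ) (goal : List (Edge N) → Prop) : Prop :=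
  ∃ σ : Strategy N p, ∀ l : List (Edge N), l.Nodup → (∀ e : Edge N, e ∈ l) →
    (∀ (i : ℕ) (h : i < l.length), i % 2 = p → l[i] = σ.move (l.take i)) → goal l

/-- The first player, as Maker, has a strategy in `[K_N, K_q]` that guarantees a Weak Win. -/
def MakerWins (q N : ℕ) : Prop := Guarantees N 0 (fun l => OwnsClique q l 0)

/-- One of the two players has a strategy in `[K_N, K_q; -]` that forces the other player to own all edges of some copy
of `K_q`. -/
def SomeoneForces (q N : ℕ) : Prop :=
  Guarantees N 0 (fun l => OwnsClique q l 1) ∨ Guarantees N 1 (fun l => OwnsClique q l 0)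

/-- `M` is the Weak Win Number `ww(K_q)`. -/
def IsWeakWinNumber (q M : ℕ) : Prop := IsLeast {M : ℕ | ∀ N, M ≤ N → MakerWins q N} M

/-- `M` is the Reverse Weak Win Number `ww(K_q; -)`. -/
def IsReverseWeakWinNumber (q M : ℕ) : Prop := IsLeast {M : ℕ | ∀ N, M ≤ N → SomeoneForces q N} M

/-! ## Translation -/

theorem mem_edge {N : ℕ} {e : Sym2 (Fin N)} : e ∈ (⊤ : SimpleGraph (Fin N)).edgeSet ↔ ¬ e.IsDiag := by
  rw [SimpleGraph.edgeSet_top]; rfl

theorem ownsClique_iff {q N : ℕ} {l : List (Edge N)} {p : ℕ} :
    OwnsClique q l p ↔ ∃ S : Finset (Fin N), S.card = q ∧ ∀ a ∈ S, ∀ b ∈ S, a ≠ b →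
      ∃ (i : ℕ) (h : i < l.length), i % 2 = p ∧ (l[i] : Sym2 (Fin N)) = s(a, b) := by
  unfold OwnsClique
  constructor
  · rintro ⟨S, h1, h2⟩
    refine ⟨S, h2, fun a ha b hb hab => ?_⟩
    have h3 := h1 ha hb hab
    rw [ownGraph, SimpleGraph.fromEdgeSet_adj] at h3
    exact h3.1
  · rintro ⟨S, h1, h2⟩
    refine ⟨S, ?_, h1⟩
    intro a ha b hb hab
    rw [ownGraph, SimpleGraph.fromEdgeSet_adj]
    exact ⟨h2 a ha b hb hab, hab⟩

/-- The list of the underlying unordered pairs. -/
def dn {N : ℕ} (l : List (Edge N)) : List (Sym2 (Fin N)) := l.map Subtype.val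

open Classical in
/-- The edges among the members of a list of unordered pairs. -/
noncomputable def up {N : ℕ} (l : List (Sym2 (Fin N))) : List (Edge N) :=
  l.filterMap fun e => if h : e ∈ (⊤ : SimpleGraph (Fin N)).edgeSet then some ⟨e, h⟩ else none

theorem up_dn {N : ℕ} (l : List (Edge N)) : up (dn l) = l := by
  induction l with
  | nil => rfl
  | cons a l ih =>
    have h1 : up (dn (a :: l)) = a :: up (dn l) := by
      unfold up dn
      rw [List.map_cons, List.filterMap_cons]
      simp only [a.2, dite_true]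
    rw [h1, ih]

theorem exists_dn {N : ℕ} (l : List (Sym2 (Fin N))) (h : ∀ e ∈ l, ¬ e.IsDiag) :
    ∃ l' : List (Edge N), dn l' = l := by
  induction l with
  | nil => exact ⟨[], rfl⟩
  | cons a l ih =>
    obtain ⟨l', hl'⟩ := ih fun e he => h e (List.mem_cons_of_mem _ he)
    refine ⟨⟨a, mem_edge.2 (h a List.mem_cons_self)⟩ :: l', ?_⟩
    change a :: dn l' = a :: l
    rw [hl']

theorem mem_dn {N : ℕ} {l : List (Edge N)} {e : Edge N} : (e : Sym2 (Fin N)) ∈ dn l ↔ e ∈ l := by
  unfold dn
  rw [List.mem_map]
  constructor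
  · rintro ⟨a, ha, h⟩
    rwa [Subtype.ext h] at ha
  · intro h; exact ⟨e, h, rfl⟩

theorem not_diag_of_mem_dn {N : ℕ} {l : List (Edge N)} {e : Sym2 (Fin N)} (h : e ∈ dn l) :
    ¬ e.IsDiag := by
  obtain ⟨a, -, rfl⟩ := List.mem_map.1 h
  exact mem_edge.1 a.2

theorem nodup_dn {N : ℕ} {l : List (Edge N)} : (dn l).Nodup ↔ l.Nodup :=
  List.nodup_map_iff Subtype.val_injective

theorem length_dn {N : ℕ} {l : List (Edge N)} : (dn l).length = l.length := List.length_map _

theorem take_dn {N : ℕ} (l : List (Edge N)) (i : ℕ) : (dn l).take i = dn (l.take i) :=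
  (List.map_take).symm

/-- The predicate of the frozen statement. -/
def Win (q N p r : ℕ) : Prop :=
  ∃ σ : List (Sym2 (Fin N)) → Sym2 (Fin N),
    (∀ l : List (Sym2 (Fin N)), l.Nodup → (∀ e ∈ l, ¬ e.IsDiag) →
      (∀ (i : ℕ) (h : i < l.length), i % 2 = p → l[i]'h = σ (l.take i)) →
      l.length % 2 = p →
      (∃ e : Sym2 (Fin N), ¬ e.IsDiag ∧ e ∉ l) →
      (¬ (σ l).IsDiag ∧ σ l ∉ l)) ∧
    (∀ l : List (Sym2 (Fin N)), l.Nodup → (∀ e ∈ l, ¬ e.IsDiag) →
      (∀ e : Sym2 (Fin N), ¬ e.IsDiag → e ∈ l) →
      (∀ (i : ℕ) (h : i < l.length), i % 2 = p → l[i]'h = σ (l.take i)) →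
      ∃ S : Finset (Fin N), S.card = q ∧
        ∀ a ∈ S, ∀ b ∈ S, a ≠ b →
          ∃ (i : ℕ) (h : i < l.length), i % 2 = r ∧ l[i]'h = s(a, b))

theorem isWin : Pool.Agent.K4G.IsWin Win := fun _ _ _ _ => Iff.rfl

/-- From `Win` to strategies. -/
theorem guarantees_of_win {q N p r : ℕ} (hN : 2 ≤ N) (h : Win q N p r) :
    Guarantees N p (fun l => OwnsClique q l r) := by
  classical
  obtain ⟨σ, h1, h2⟩ := h
  have d : Edge N := ⟨s(⟨0, by omega⟩, ⟨1, by omega⟩), mem_edge.2 (by
    rw [Sym2.mk_isDiag_iff]; intro h; simp at h)⟩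
  let mv : List (Edge N) → Edge N := fun l =>
    if h : ¬ (σ (dn l)).IsDiag ∧ σ (dn l) ∉ dn l then ⟨σ (dn l), mem_edge.2 h.1⟩
    else if h : ∃ e : Edge N, e ∉ l then h.choose else d
  refine ⟨⟨mv, ?_⟩, ?_⟩
  · intro l _ _ hex
    by_cases hg : ¬ (σ (dn l)).IsDiag ∧ σ (dn l) ∉ dn l
    · have h3 : mv l = ⟨σ (dn l), mem_edge.2 hg.1⟩ := dif_pos hg
      rw [h3]
      intro h4
      exact hg.2 (mem_dn.2 h4)
    · have h3 : mv l = hex.choose := by
        change (if h : _ then _ else _) = _
        rw [dif_neg hg, dif_pos hex]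
      rw [h3]
      exact hex.choose_spec
  · intro l hnd hall hfol
    rw [ownsClique_iff]
    -- the play follows `σ`
    have key : ∀ k, k ≤ l.length →
        (∀ (i : ℕ) (h : i < (dn (l.take k)).length), i % 2 = p →
          (dn (l.take k))[i]'h = σ ((dn (l.take k)).take i)) := by
      intro k
      induction k with
      | zero => intro _ i hi; simp [dn] at hi
      | succ k ih =>
        intro hk i hi hip
        have ih := ih (by omega)
        rw [length_dn, List.length_take] at hi
        have hlk : (l.take k).length = k := by rw [List.length_take]; omega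
        have hget : ∀ (j : ℕ) (hj : j < (dn (l.take (k + 1))).length),
            (dn (l.take (k + 1)))[j]'hj = ((l[j]'(by
              rw [length_dn, List.length_take] at hj; omega) : Edge N) : Sym2 (Fin N)) := by
          intro j hj
          simp [dn]
        have htk : (dn (l.take (k + 1))).take i = dn (l.take i) := by
          rw [take_dn, List.take_take, min_eq_left (by omega)]
        rw [hget, htk]
        by_cases hik : i < k
        · have h3 := ih i (by rw [length_dn, hlk]; exact hik) hip
          have h4 : (dn (l.take k)).take i = dn (l.take i) := by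
            rw [take_dn, List.take_take, min_eq_left (by omega)]
          rw [h4] at h3
          rw [← h3]
          simp [dn]
        · have hik' : i = k := by omega
          subst hik'
          have hi' : i < l.length := by omega
          have h3 : l[i] = mv (l.take i) := hfol i hi' hip
          have hnot : l[i] ∉ l.take i := by
            have hnd2 : (l.take (i + 1)).Nodup := hnd.sublist (List.take_sublist _ _)
            rw [List.take_succ_eq_append_getElem hi', List.nodup_append] at hnd2
            intro hmem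
            exact hnd2.2.2 _ hmem _ (List.mem_singleton_self _) rfl
          have hg := h1 (dn (l.take i)) (nodup_dn.2 (hnd.sublist (List.take_sublist _ _)))
            (fun e he => not_diag_of_mem_dn he) ih (by rw [length_dn, hlk]; exact hip)
            ⟨l[i], mem_edge.1 l[i].2, fun h4 => hnot (mem_dn.1 h4)⟩
          have h5 : mv (l.take i) = ⟨σ (dn (l.take i)), mem_edge.2 hg.1⟩ := dif_pos hg
          rw [h3, h5]
    have hk := key l.length le_rfl
    rw [List.take_length] at hk
    obtain ⟨S, hS, hK⟩ := h2 (dn l) (nodup_dn.2 hnd) (fun e he => not_diag_of_mem_dn he)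
      (fun e he => mem_dn (e := ⟨e, mem_edge.2 he⟩).2 (hall _)) hk
    refine ⟨S, hS, fun a ha b hb hab => ?_⟩
    obtain ⟨i, hi, hir, he⟩ := hK a ha b hb hab
    refine ⟨i, by rw [length_dn] at hi; exact hi, hir, ?_⟩
    rw [← he]
    simp [dn]

/-- From strategies to `Win`. -/
theorem win_of_guarantees {q N p r : ℕ} (h : Guarantees N p (fun l => OwnsClique q l r)) :
    Win q N p r := by
  obtain ⟨σ, hσ⟩ := h
  refine ⟨fun l => ((σ.move (up l) : Edge N) : Sym2 (Fin N)), ?_, ?_⟩
  · intro l hnd hd _ hlen hex
    obtain ⟨l', rfl⟩ := exists_dn l hd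
    obtain ⟨e, he, hel⟩ := hex
    beta_reduce
    rw [up_dn]
    refine ⟨mem_edge.1 (σ.move l').2, ?_⟩
    intro h3
    refine σ.legal l' (nodup_dn.1 hnd) (by rw [← length_dn]; exact hlen)
      ⟨⟨e, mem_edge.2 he⟩, fun h4 => hel (mem_dn.2 h4)⟩ (mem_dn.1 h3)
  · intro l hnd hd hall hfol
    obtain ⟨l', rfl⟩ := exists_dn l hd
    have h3 := hσ l' (nodup_dn.1 hnd) (fun e => mem_dn.1 (hall _ (mem_edge.1 e.2))) (by
      intro i hi hip
      have h4 := hfol i (by rw [length_dn]; exact hi) hip
      rw [take_dn] at h4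
      beta_reduce at h4
      rw [up_dn] at h4
      apply Subtype.ext
      rw [← h4]
      simp [dn])
    obtain ⟨S, hS, hK⟩ := ownsClique_iff.1 h3
    refine ⟨S, hS, fun a ha b hb hab => ?_⟩
    obtain ⟨i, hi, hir, he⟩ := hK a ha b hb hab
    refine ⟨i, by rw [length_dn]; exact hi, hir, ?_⟩
    rw [← he]
    simp [dn]

end Pool.Agent.Lib.MP_1d0474_co.Game
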