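import Pool.Agent.Lib.MP_1d0474_co.Defs

/-!
# Generic part: monotonicity, relabelling, and the passage to the frozen predicate `Win`
-/

set_option autoImplicit false

namespace Pool.Agent.K4G

open Finset

variable {n : ℕ}

/-! ## Monotonicity -/

theorem HasK4.mono {A B : Finset (Sym2 (Fin n))} (h : HasK4 A) (hAB : A ⊆ B) : HasK4 B := by
  obtain ⟨S, hS, h⟩ := h
  exact ⟨S, hS, fun a ha b hb hab => hAB (h a ha b hb hab)⟩

theorem EW.hasK4 {A F : Finset (Sym2 (Fin n))} (h : EW A F) : HasK4 (A ∪ F) := by
  induction h with
  | done h => exact h.mono Finset.subset_union_left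
  | @avoider A F hF _ ih =>
    have hne : F.Nonempty := by
      rw [← Finset.card_pos]; omega
    obtain ⟨g, hg⟩ := hne
    refine (ih g hg).mono ?_
    intro x hx
    rcases Finset.mem_union.1 hx with hx | hx
    · rcases Finset.mem_insert.1 hx with rfl | hx
      · exact Finset.mem_union_right _ hg
      · exact Finset.mem_union_left _ hx
    · exact Finset.mem_union_right _ (Finset.mem_of_mem_erase hx)
  | @enforcer A F f _ _ _ ih =>
    refine ih.mono ?_
    exact Finset.union_subset_union_right (Finset.erase_subset _ _)

/-- Inversion at an odd position. -/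
theorem EW.odd_inv {A F : Finset (Sym2 (Fin n))} (h : EW A F) (hF : F.card % 2 = 1) :
    ∀ g ∈ F, EW (insert g A) (F.erase g) := by
  cases h with
  | done h => simp at hF
  | avoider _ h => exact h
  | enforcer h0 _ _ => omega

/-- Inversion at a nonempty even position. -/
theorem EW.even_inv {A F : Finset (Sym2 (Fin n))} (h : EW A F) (hF : F.card % 2 = 0)
    (hne : F.Nonempty) : ∃ f ∈ F, EW A (F.erase f) := by
  cases h with
  | done h => simp at hne
  | avoider h0 _ => omega
  | enforcer _ hf h => exact ⟨_, hf, h⟩

theorem EW.empty_inv {A : Finset (Sym2 (Fin n))} (h : EW A ∅) : HasK4 A := by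
  cases h with
  | done h => exact h
  | avoider h0 _ => simp at h0
  | enforcer _ hf h => simp at hf

/-- Monotonicity without any condition on parities. -/
theorem EW.mono {A F A' F' : Finset (Sym2 (Fin n))} (h : EW A F) (hA : A ⊆ A')
    (hF : F ⊆ A' ∪ F') : EW A' F' := by
  suffices H : ∀ m : ℕ, ∀ A F A' F' : Finset (Sym2 (Fin n)), F.card + F'.card = m → EW A F →
      A ⊆ A' → F ⊆ A' ∪ F' → EW A' F' from H _ A F A' F' rfl h hA hF
  intro m
  induction m using Nat.strong_induction_on with
  | _ m IH =>
    intro A F A' F' hm h hA hF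
    rcases Finset.eq_empty_or_nonempty F' with rfl | hne
    · refine EW.done (h.hasK4.mono ?_)
      rw [Finset.union_empty] at hF
      exact Finset.union_subset hA hF
    · have hpos : 0 < F'.card := Finset.card_pos.2 hne
      rcases Nat.mod_two_eq_zero_or_one F'.card with hev | hod
      · by_cases hex : ∃ f' ∈ F', f' ∉ F
        · obtain ⟨f', hf', hf'F⟩ := hex
          refine EW.enforcer hev hf' ?_
          refine IH (F.card + (F'.erase f').card) ?_ A F A' (F'.erase f') rfl h hA ?_
          · rw [Finset.card_erase_of_mem hf']; omega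
          · intro x hx
            rcases Finset.mem_union.1 (hF hx) with hx' | hx'
            · exact Finset.mem_union_left _ hx'
            · refine Finset.mem_union_right _ (Finset.mem_erase.2 ⟨?_, hx'⟩)
              rintro rfl; exact hf'F hx
        · push Not at hex
          have hsub : F' ⊆ F := hex
          rcases Nat.mod_two_eq_zero_or_one F.card with hFev | hFod
          · have hFne : F.Nonempty := hne.mono hsub
            obtain ⟨f, hf, hw⟩ := h.even_inv hFev hFne
            by_cases hfF' : f ∈ F'
            · refine EW.enforcer hev hfF' ?_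
              refine IH ((F.erase f).card + (F'.erase f).card) ?_ A (F.erase f) A' (F'.erase f)
                rfl hw hA ?_
              · rw [Finset.card_erase_of_mem hfF', Finset.card_erase_of_mem hf]; omega
              · intro x hx
                obtain ⟨hxf, hxF⟩ := Finset.mem_erase.1 hx
                rcases Finset.mem_union.1 (hF hxF) with hx' | hx'
                · exact Finset.mem_union_left _ hx'
                · exact Finset.mem_union_right _ (Finset.mem_erase.2 ⟨hxf, hx'⟩)
            · refine IH ((F.erase f).card + F'.card) ?_ A (F.erase f) A' F' rfl hw hA ?_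
              · rw [Finset.card_erase_of_mem hf]
                have : 0 < F.card := Finset.card_pos.2 hFne
                omega
              · exact (Finset.erase_subset _ _).trans hF
          · have hex2 : ∃ h ∈ F, h ∉ F' := by
              by_contra hcon
              push Not at hcon
              have : F = F' := Finset.Subset.antisymm hcon hsub
              rw [this] at hFod
              omega
            obtain ⟨g, hg, hgF'⟩ := hex2
            have hgA' : g ∈ A' := by
              rcases Finset.mem_union.1 (hF hg) with hx' | hx'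
              · exact hx'
              · exact absurd hx' hgF'
            refine IH ((F.erase g).card + F'.card) ?_ (insert g A) (F.erase g) A' F' rfl
              (h.odd_inv hFod g hg) ?_ ?_
            · rw [Finset.card_erase_of_mem hg]
              have : 0 < F.card := Finset.card_pos.2 ⟨g, hg⟩
              omega
            · exact Finset.insert_subset hgA' hA
            · exact (Finset.erase_subset _ _).trans hF
      · refine EW.avoider hod fun g hg => ?_
        refine IH (F.card + (F'.erase g).card) ?_ A F (insert g A') (F'.erase g) rfl h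
          (hA.trans (Finset.subset_insert _ _)) ?_
        · rw [Finset.card_erase_of_mem hg]; omega
        · intro x hx
          rcases Finset.mem_union.1 (hF hx) with hx' | hx'
          · exact Finset.mem_union_left _ (Finset.mem_insert_of_mem hx')
          · by_cases hxg : x = g
            · exact Finset.mem_union_left _ (hxg ▸ Finset.mem_insert_self _ _)
            · exact Finset.mem_union_right _ (Finset.mem_erase.2 ⟨hxg, hx'⟩)

/-! ## Relabelling -/

theorem HasK4.map {N : ℕ} (φ : Fin n ↪ Fin N) {A : Finset (Sym2 (Fin n))} (h : HasK4 A) :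
    HasK4 (A.map φ.sym2Map) := by
  obtain ⟨S, hS, h⟩ := h
  refine ⟨S.map φ, by rw [Finset.card_map, hS], ?_⟩
  intro a ha b hb hab
  obtain ⟨a', ha', rfl⟩ := Finset.mem_map.1 ha
  obtain ⟨b', hb', rfl⟩ := Finset.mem_map.1 hb
  refine Finset.mem_map.2 ⟨s(a', b'), h a' ha' b' hb' (fun h => hab (by rw [h])), ?_⟩
  simp

theorem EW.map {N : ℕ} (φ : Fin n ↪ Fin N) {A F : Finset (Sym2 (Fin n))} (h : EW A F) :
    EW (A.map φ.sym2Map) (F.map φ.sym2Map) := by
  induction h with
  | done h => simpa using EW.done (h.map φ)
  | @avoider A F hF _ ih =>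
    refine EW.avoider (by rwa [Finset.card_map]) ?_
    intro g hg
    obtain ⟨g', hg', rfl⟩ := Finset.mem_map.1 hg
    have := ih g' hg'
    rwa [Finset.map_insert, Finset.map_erase] at this
  | @enforcer A F f hF hf _ ih =>
    refine EW.enforcer (f := φ.sym2Map f) (by rwa [Finset.card_map])
      (Finset.mem_map.2 ⟨f, hf, rfl⟩) ?_
    rwa [Finset.map_erase] at ih

theorem mem_edges {N : ℕ} {e : Sym2 (Fin N)} : e ∈ edges N ↔ ¬ e.IsDiag := by
  simp [edges]

theorem ew_edges_of_ew9 (h : EW (∅ : Finset (Sym2 (Fin 9))) (edges 9)) (N : ℕ) (hN : 9 ≤ N) :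
    EW (∅ : Finset (Sym2 (Fin N))) (edges N) := by
  have h1 := h.map (Fin.castLEEmb hN)
  refine h1.mono (by simp) ?_
  intro e he
  obtain ⟨e', he', rfl⟩ := Finset.mem_map.1 he
  refine Finset.mem_union_right _ (mem_edges.2 ?_)
  have := mem_edges.1 he'
  revert this
  refine Sym2.ind (fun a b => ?_) e'
  intro hd
  simpa using hd

theorem card_edges (N : ℕ) : (edges N).card = N.choose 2 := by
  have h := Sym2.card_subtype_not_diag (α := Fin N)
  rw [Fintype.card_fin, Fintype.card_subtype] at h
  exact h

/-! ## Plays -/

/-- Edges of the player of parity `r` in the play `l`. -/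
noncomputable def own {N : ℕ} (r : ℕ) (l : List (Sym2 (Fin N))) : Finset (Sym2 (Fin N)) := by
  classical
  exact Finset.univ.filter (fun e => ∃ (i : ℕ) (h : i < l.length), i % 2 = r ∧ l[i]'h = e)

/-- Free edges after the play `l`. -/
def free {N : ℕ} (l : List (Sym2 (Fin N))) : Finset (Sym2 (Fin N)) := edges N \ l.toFinset

theorem mem_own {N r : ℕ} {l : List (Sym2 (Fin N))} {e : Sym2 (Fin N)} :
    e ∈ own r l ↔ ∃ (i : ℕ) (h : i < l.length), i % 2 = r ∧ l[i]'h = e := by
  classical
  simp [own]

theorem mem_free {N : ℕ} {l : List (Sym2 (Fin N))} {e : Sym2 (Fin N)} :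
    e ∈ free l ↔ ¬ e.IsDiag ∧ e ∉ l := by
  simp [free, mem_edges]

theorem own_nil {N r : ℕ} : own r ([] : List (Sym2 (Fin N))) = ∅ := by
  ext e; simp [mem_own]

theorem free_nil {N : ℕ} : free ([] : List (Sym2 (Fin N))) = edges N := by
  simp [free]

theorem free_concat {N : ℕ} (l : List (Sym2 (Fin N))) (e : Sym2 (Fin N)) :
    free (l ++ [e]) = (free l).erase e := by
  ext x
  simp only [mem_free, Finset.mem_erase, List.mem_append, List.mem_singleton]
  tauto

theorem own_concat_same {N r : ℕ} (l : List (Sym2 (Fin N))) (e : Sym2 (Fin N))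
    (h : l.length % 2 = r) : own r (l ++ [e]) = insert e (own r l) := by
  ext x
  simp only [mem_own, Finset.mem_insert]
  constructor
  · rintro ⟨i, hi, hir, hx⟩
    rw [List.length_append, List.length_singleton] at hi
    by_cases hil : i < l.length
    · right
      refine ⟨i, hil, hir, ?_⟩
      rw [List.getElem_append_left hil] at hx
      exact hx
    · left
      have : i = l.length := by omega
      subst this
      rw [← hx]
      simp
  · rintro (rfl | ⟨i, hi, hir, hx⟩)
    · exact ⟨l.length, by simp, h, by simp⟩
    · refine ⟨i, by simp; omega, hir, ?_⟩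
      rw [List.getElem_append_left hi]
      exact hx

theorem own_concat_other {N r : ℕ} (l : List (Sym2 (Fin N))) (e : Sym2 (Fin N))
    (h : l.length % 2 ≠ r) : own r (l ++ [e]) = own r l := by
  ext x
  simp only [mem_own]
  constructor
  · rintro ⟨i, hi, hir, hx⟩
    rw [List.length_append, List.length_singleton] at hi
    by_cases hil : i < l.length
    · refine ⟨i, hil, hir, ?_⟩
      rw [List.getElem_append_left hil] at hx
      exact hx
    · exfalso
      have : i = l.length := by omega
      subst this
      exact h hir
  · rintro ⟨i, hi, hir, hx⟩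
    refine ⟨i, by simp; omega, hir, ?_⟩
    rw [List.getElem_append_left hi]
    exact hx

theorem card_free {N : ℕ} {l : List (Sym2 (Fin N))} (hl : l.Nodup) (hd : ∀ e ∈ l, ¬ e.IsDiag) :
    (free l).card + l.length = (edges N).card := by
  have hsub : l.toFinset ⊆ edges N := by
    intro e he
    exact mem_edges.2 (hd e (List.mem_toFinset.1 he))
  have h1 : (free l).card = (edges N).card - l.toFinset.card := Finset.card_sdiff_of_subset hsub
  have h2 : l.toFinset.card = l.length := List.toFinset_card_of_nodup hl
  have h3 := Finset.card_le_card hsub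
  omega

/-! ## From `EW` to `Win` -/

/-- The strategy of the Enforcer. -/
noncomputable def strat {N : ℕ} (r : ℕ) (d : Sym2 (Fin N)) (l : List (Sym2 (Fin N))) :
    Sym2 (Fin N) := by
  classical
  exact if h : ∃ f ∈ free l, EW (own r l) ((free l).erase f) then h.choose
    else if h : (free l).Nonempty then h.choose else d

theorem strat_mem {N r : ℕ} (d : Sym2 (Fin N)) {l : List (Sym2 (Fin N))}
    (h : (free l).Nonempty) : strat r d l ∈ free l := by
  classical
  unfold strat
  split_ifs with h1
  · exact h1.choose_spec.1
  · exact h.choose_spec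

theorem strat_spec {N r : ℕ} (d : Sym2 (Fin N)) {l : List (Sym2 (Fin N))}
    (h : ∃ f ∈ free l, EW (own r l) ((free l).erase f)) :
    EW (own r l) ((free l).erase (strat r d l)) := by
  classical
  unfold strat
  rw [dif_pos h]
  exact h.choose_spec.2

theorem win_of_ew {Win : ℕ → ℕ → ℕ → ℕ → Prop} (hW : IsWin Win) (N : ℕ) (hN : 0 < N) (p r : ℕ)
    (hpr : (p = 0 ∧ r = 1) ∨ (p = 1 ∧ r = 0)) (hpar : ((edges N).card + p) % 2 = 0)
    (h : EW (∅ : Finset (Sym2 (Fin N))) (edges N)) : Win 4 N p r := by
  classical
  rw [hW]
  have d : Sym2 (Fin N) := s(⟨0, hN⟩, ⟨0, hN⟩)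
  refine ⟨strat r d, ?_, ?_⟩
  · intro l _ _ _ _ ⟨e, he, hel⟩
    have : (free l).Nonempty := ⟨e, mem_free.2 ⟨he, hel⟩⟩
    exact mem_free.1 (strat_mem d this)
  · intro l hl hd hall hσ
    have key : ∀ k, k ≤ l.length → EW (own r (l.take k)) (free (l.take k)) := by
      intro k
      induction k with
      | zero => intro _; rw [List.take_zero, own_nil, free_nil]; exact h
      | succ k ih =>
        intro hk
        have hk' : k < l.length := by omega
        have ih := ih (by omega)
        have htake : l.take (k + 1) = l.take k ++ [l[k]] := by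
          rw [List.take_succ_eq_append_getElem hk']
        have hnd : (l.take k).Nodup := hl.sublist (List.take_sublist _ _)
        have hdk : ∀ e ∈ l.take k, ¬ e.IsDiag := fun e he => hd e (List.mem_of_mem_take he)
        have hlen : (l.take k).length = k := by rw [List.length_take]; omega
        have hcard := card_free hnd hdk
        rw [hlen] at hcard
        have hmem : l[k] ∈ free (l.take k) := by
          refine mem_free.2 ⟨hd _ (List.getElem_mem hk'), ?_⟩
          intro hmem
          have hnd2 : (l.take (k + 1)).Nodup := hl.sublist (List.take_sublist _ _)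
          rw [htake, List.nodup_append] at hnd2
          exact hnd2.2.2 _ hmem _ (List.mem_singleton_self _) rfl
        rw [htake, free_concat]
        by_cases hkp : k % 2 = p
        · have hne : (l.take k).length % 2 ≠ r := by rw [hlen]; omega
          rw [own_concat_other _ _ hne]
          have heq : l[k] = strat r d (l.take k) := hσ k hk' hkp
          rw [heq]
          apply strat_spec
          exact ih.even_inv (by omega) ⟨_, hmem⟩
        · have hkr : (l.take k).length % 2 = r := by rw [hlen]; omega
          rw [own_concat_same _ _ hkr]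
          exact ih.odd_inv (by omega) _ hmem
    have hfin := key l.length le_rfl
    rw [List.take_length] at hfin
    have hfree : free l = ∅ := by
      rw [Finset.eq_empty_iff_forall_notMem]
      intro e he
      obtain ⟨h1, h2⟩ := mem_free.1 he
      exact h2 (hall e h1)
    rw [hfree] at hfin
    obtain ⟨S, hS, hK⟩ := hfin.empty_inv
    exact ⟨S, hS, fun a ha b hb hab => mem_own.1 (hK a ha b hb hab)⟩

theorem win_of_ew9 {Win : ℕ → ℕ → ℕ → ℕ → Prop} (hW : IsWin Win)
    (h : EW (∅ : Finset (Sym2 (Fin 9))) (edges 9)) :
    ∀ N : ℕ, 9 ≤ N → (Win 4 N 0 1 ∨ Win 4 N 1 0) := by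
  intro N hN
  have hE := ew_edges_of_ew9 h N hN
  rcases Nat.mod_two_eq_zero_or_one (edges N).card with hev | hod
  · left
    exact win_of_ew hW N (by omega) 0 1 (Or.inl ⟨rfl, rfl⟩) (by omega) hE
  · right
    exact win_of_ew hW N (by omega) 1 0 (Or.inr ⟨rfl, rfl⟩) (by omega) hE

/-! ## From `BW` to the failure of `Win 4 9 0 0` -/

theorem BW.even_inv {A F : Finset (Sym2 (Fin n))} (h : BW A F) (hF : F.card % 2 = 0) :
    ∀ g ∈ F, BW (insert g A) (F.erase g) := by
  cases h with
  | done h => simp
  | maker _ _ h => exact h
  | breaker h0 _ _ => omega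

theorem BW.odd_inv {A F : Finset (Sym2 (Fin n))} (h : BW A F) (hF : F.card % 2 = 1) :
    ∃ f ∈ F, BW A (F.erase f) := by
  cases h with
  | done h => simp at hF
  | maker h0 _ _ => omega
  | breaker _ hf h => exact ⟨_, hf, h⟩

theorem BW.empty_inv {A : Finset (Sym2 (Fin n))} (h : BW A ∅) : ¬ HasK4 A := by
  cases h with
  | done h => exact h
  | maker _ h0 _ => simp at h0
  | breaker _ hf _ => simp at hf

theorem not_win_of_bw9 {Win : ℕ → ℕ → ℕ → ℕ → Prop} (hW : IsWin Win)
    (h : BW (∅ : Finset (Sym2 (Fin 9))) (edges 9)) : ¬ Win 4 9 0 0 := by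
  classical
  rw [hW]
  rintro ⟨σ, hσ1, hσ2⟩
  have hcard9 : (edges 9).card = 36 := by rw [card_edges]; rfl
  have key : ∀ k, k ≤ 36 → ∃ l : List (Sym2 (Fin 9)), l.length = k ∧ l.Nodup ∧
      (∀ e ∈ l, ¬ e.IsDiag) ∧
      (∀ (i : ℕ) (h : i < l.length), i % 2 = 0 → l[i]'h = σ (l.take i)) ∧
      BW (own 0 l) (free l) := by
    intro k
    induction k with
    | zero =>
      intro _
      refine ⟨[], rfl, List.nodup_nil, by simp, by simp, ?_⟩
      rw [own_nil, free_nil]; exact h
    | succ k ih =>
      intro hk
      obtain ⟨l, hlen, hnd, hd, hσ, hbw⟩ := ih (by omega)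
      have hcard := card_free hnd hd
      rw [hcard9, hlen] at hcard
      have hne : (free l).Nonempty := by
        rw [← Finset.card_pos]; omega
      -- the next edge
      have hnext : ∃ g ∈ free l, BW (own 0 (l ++ [g])) ((free l).erase g) ∧
          (k % 2 = 0 → g = σ l) := by
        rcases Nat.mod_two_eq_zero_or_one k with hev | hod
        · obtain ⟨e, he⟩ := hne
          have h1 := hσ1 l hnd hd hσ (by rw [hlen]; exact hev) ⟨e, mem_free.1 he⟩
          have h2 : σ l ∈ free l := mem_free.2 h1
          refine ⟨σ l, h2, ?_, fun _ => rfl⟩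
          rw [own_concat_same _ _ (by rw [hlen]; exact hev)]
          exact hbw.even_inv (by omega) _ h2
        · obtain ⟨f, hf, hb⟩ := hbw.odd_inv (by omega)
          refine ⟨f, hf, ?_, fun h0 => by omega⟩
          rw [own_concat_other _ _ (by rw [hlen]; omega)]
          exact hb
      obtain ⟨g, hg, hb, hgσ⟩ := hnext
      obtain ⟨hgd, hgl⟩ := mem_free.1 hg
      refine ⟨l ++ [g], by simp [hlen], ?_, ?_, ?_, ?_⟩
      · rw [List.nodup_append]
        refine ⟨hnd, List.nodup_singleton _, ?_⟩
        intro a ha b hb hab
        rw [List.mem_singleton] at hb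
        subst hb; subst hab
        exact hgl ha
      · intro e he
        rcases List.mem_append.1 he with he | he
        · exact hd e he
        · rw [List.mem_singleton] at he
          subst he; exact hgd
      · intro i hi hi0
        rw [List.length_append, List.length_singleton] at hi
        by_cases hil : i < l.length
        · rw [List.getElem_append_left hil, List.take_append_of_le_length (by omega)]
          exact hσ i hil hi0
        · have : i = l.length := by omega
          subst this
          rw [List.take_left]
          simp only [List.getElem_append_right le_rfl, Nat.sub_self, List.getElem_cons_zero]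
          exact hgσ (by rw [← hlen]; exact hi0)
      · rw [free_concat]; exact hb
  obtain ⟨l, hlen, hnd, hd, hσ, hbw⟩ := key 36 le_rfl
  have hcard := card_free hnd hd
  rw [hcard9, hlen] at hcard
  have hfree : free l = ∅ := Finset.card_eq_zero.1 (by omega)
  rw [hfree] at hbw
  have hall : ∀ e : Sym2 (Fin 9), ¬ e.IsDiag → e ∈ l := by
    intro e he
    by_contra hel
    have : e ∈ free l := mem_free.2 ⟨he, hel⟩
    rw [hfree] at this
    simp at this
  obtain ⟨S, hS, hK⟩ := hσ2 l hnd hd hall hσ
  exact hbw.empty_inv ⟨S, hS, fun a ha b hb hab => mem_own.2 (hK a ha b hb hab)⟩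

end Pool.Agent.K4G
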