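import Pool.Agent.Lib.MP_1d0474_co.Game

/-!
# The Weak Win Number exists

Pairing strategy: Maker answers the move `e` by the image of `e` under an involution which exchanges two halves of the
vertex set. By the theorem of Ramsey he owns a copy of `K_q` in one of the two halves.
-/

set_option autoImplicit false

namespace Pool.Agent.Lib.MP_1d0474_co.Game

open Function

theorem ramsey (k : ℕ) : ∀ l : ℕ, ∃ n : ℕ, ∀ (V : Type) (r : V → V → Prop) (S : Finset V),
    (∀ x y, r x y → r y x) → n ≤ S.card →
    (∃ T ⊆ S, T.card = k ∧ ∀ x ∈ T, ∀ y ∈ T, x ≠ y → r x y) ∨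
    (∃ T ⊆ S, T.card = l ∧ ∀ x ∈ T, ∀ y ∈ T, x ≠ y → ¬ r x y) := by
  classical
  induction k with
  | zero =>
    intro l
    exact ⟨0, fun V r S _ _ => Or.inl ⟨∅, by simp, rfl, by simp⟩⟩
  | succ k ihk =>
    intro l
    induction l with
    | zero => exact ⟨0, fun V r S _ _ => Or.inr ⟨∅, by simp, rfl, by simp⟩⟩
    | succ l ihl =>
      obtain ⟨n1, h1⟩ := ihk (l + 1)
      obtain ⟨n2, h2⟩ := ihl
      refine ⟨n1 + n2 + 1, fun V r S hr hS => ?_⟩
      have hne : S.Nonempty := by rw [← Finset.card_pos]; omega
      obtain ⟨v, hv⟩ := hne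
      let A := (S.erase v).filter (fun x => r v x)
      let B := (S.erase v).filter (fun x => ¬ r v x)
      have hAB : A.card + B.card = S.card - 1 := by
        rw [← Finset.card_erase_of_mem hv]
        exact Finset.card_filter_add_card_filter_not _
      have hAS : A ⊆ S := (Finset.filter_subset _ _).trans (Finset.erase_subset _ _)
      have hBS : B ⊆ S := (Finset.filter_subset _ _).trans (Finset.erase_subset _ _)
      by_cases hA : n1 ≤ A.card
      · rcases h1 V r A hr hA with ⟨T, hT, hc, hp⟩ | ⟨T, hT, hc, hp⟩
        · left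
          have hvT : v ∉ T := fun h => by
            have := Finset.mem_filter.1 (hT h)
            exact Finset.notMem_erase v S this.1
          refine ⟨insert v T, Finset.insert_subset hv (hT.trans hAS), ?_, ?_⟩
          · rw [Finset.card_insert_of_notMem hvT, hc]
          · intro x hx y hy hxy
            rcases Finset.mem_insert.1 hx with rfl | hx'
            · rcases Finset.mem_insert.1 hy with rfl | hy
              · exact absurd rfl hxy
              · exact (Finset.mem_filter.1 (hT hy)).2
            · rcases Finset.mem_insert.1 hy with rfl | hy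
              · exact hr _ _ (Finset.mem_filter.1 (hT hx')).2
              · exact hp x hx' y hy hxy
        · right
          exact ⟨T, hT.trans hAS, hc, hp⟩
      · rcases h2 V r B hr (by omega) with ⟨T, hT, hc, hp⟩ | ⟨T, hT, hc, hp⟩
        · left
          exact ⟨T, hT.trans hBS, hc, hp⟩
        · right
          have hvT : v ∉ T := fun h => by
            have := Finset.mem_filter.1 (hT h)
            exact Finset.notMem_erase v S this.1
          refine ⟨insert v T, Finset.insert_subset hv (hT.trans hBS), ?_, ?_⟩
          · rw [Finset.card_insert_of_notMem hvT, hc]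
          · intro x hx y hy hxy
            rcases Finset.mem_insert.1 hx with rfl | hx'
            · rcases Finset.mem_insert.1 hy with rfl | hy
              · exact absurd rfl hxy
              · exact (Finset.mem_filter.1 (hT hy)).2
            · rcases Finset.mem_insert.1 hy with rfl | hy
              · exact fun h => (Finset.mem_filter.1 (hT hx')).2 (hr _ _ h)
              · exact hp x hx' y hy hxy

/-- The pairing strategy of the first player for an involution `P` of the edges: in a complete play the edge paired
with an edge of the second player belongs to the first player. -/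
theorem exists_pairing {N : ℕ} (hN : 2 ≤ N) (P : Edge N → Edge N) (hP : ∀ e, P (P e) = e) :
    Guarantees N 0 (fun l => ∀ (i : ℕ) (h : i < l.length), i % 2 = 1 → P l[i] ≠ l[i] →
      ∃ (j : ℕ) (h' : j < l.length), j % 2 = 0 ∧ l[j] = P l[i]) := by
  classical
  have d : Edge N := ⟨s(⟨0, by omega⟩, ⟨1, by omega⟩), mem_edge.2 (by
    rw [Sym2.mk_isDiag_iff]; intro h; simp at h)⟩
  let mv : List (Edge N) → Edge N := fun l =>
    if h : ∃ hne : l ≠ [], P (l.getLast hne) ∉ l then P (l.getLast h.choose)
    else if h : ∃ e : Edge N, e ∉ l then h.choose else d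
  have hmv1 : ∀ (l : List (Edge N)) (hne : l ≠ []), P (l.getLast hne) ∉ l →
      mv l = P (l.getLast hne) := by
    intro l hne h
    exact dif_pos ⟨hne, h⟩
  refine ⟨⟨mv, ?_⟩, ?_⟩
  · intro l _ _ hex
    by_cases hg : ∃ hne : l ≠ [], P (l.getLast hne) ∉ l
    · obtain ⟨hne, h⟩ := hg
      rw [hmv1 l hne h]; exact h
    · have h3 : mv l = hex.choose := by
        change (if h : _ then _ else _) = _
        rw [dif_neg hg, dif_pos hex]
      rw [h3]
      exact hex.choose_spec
  · intro l hnd hall hfol
    -- two odd indices are never paired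
    have key : ∀ (i j : ℕ) (hi : i < l.length) (hj : j < l.length), i < j → i % 2 = 1 → j % 2 = 1 →
        l[j] ≠ P l[i] := by
      intro i j hi hj hij hi1 hj1 heq
      have hi2 : i + 1 < l.length := by omega
      have h1 : l[i + 1] = mv (l.take (i + 1)) := hfol (i + 1) hi2 (by omega)
      have hne : l.take (i + 1) ≠ [] := by
        intro h
        have := congrArg List.length h
        rw [List.length_take, List.length_nil] at this
        omega
      have hlast : (l.take (i + 1)).getLast hne = l[i] := by
        rw [List.getLast_take]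
        simp [List.getElem?_eq_getElem hi]
      have hnot : P ((l.take (i + 1)).getLast hne) ∉ l.take (i + 1) := by
        rw [hlast, ← heq]
        intro hmem
        obtain ⟨m, hm, hme⟩ := List.mem_iff_getElem.1 hmem
        rw [List.length_take] at hm
        rw [List.getElem_take] at hme
        have := (List.Nodup.getElem_inj_iff hnd).1 hme
        omega
      rw [hmv1 _ hne hnot, hlast, ← heq] at h1
      have := (List.Nodup.getElem_inj_iff hnd).1 h1
      omega
    intro i hi hi1 hne
    obtain ⟨j, hj, hje⟩ := List.mem_iff_getElem.1 (hall (P l[i]))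
    refine ⟨j, hj, ?_, hje⟩
    by_contra hcon
    have hj1 : j % 2 = 1 := by omega
    rcases lt_trichotomy i j with h | h | h
    · exact key i j hi hj h hi1 hj1 hje
    · subst h
      exact hne hje.symm
    · refine key j i hj hi h hj1 hi1 ?_
      rw [hje, hP]

/-- For every `q` Maker wins `[K_N, K_q]` for all large `N`. -/
theorem exists_makerWins (q : ℕ) : ∃ M : ℕ, ∀ N, M ≤ N → MakerWins q N := by
  obtain ⟨n, hn⟩ := ramsey q q
  refine ⟨2 * n + 2, fun N hN => ?_⟩
  -- the involution of the vertices
  let t : Fin N → Fin N := fun x =>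
    if h : (x : ℕ) < n then ⟨x + n, by omega⟩
    else if h : (x : ℕ) < 2 * n then ⟨x - n, by omega⟩ else x
  have ht1 : ∀ x : Fin N, (x : ℕ) < n → ((t x : Fin N) : ℕ) = x + n := by
    intro x hx
    change ((if h : _ then _ else _ : Fin N) : ℕ) = _
    rw [dif_pos hx]
  have htt : ∀ x, t (t x) = x := by
    intro x
    apply Fin.ext
    by_cases h1 : (x : ℕ) < n
    · have h2 : t x = ⟨x + n, by omega⟩ := dif_pos h1
      rw [h2]
      change ((if h : _ then _ else _ : Fin N) : ℕ) = _
      rw [dif_neg (by simp), dif_pos (by simp; omega)]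
      simp
    · by_cases h3 : (x : ℕ) < 2 * n
      · have h2 : t x = ⟨x - n, by omega⟩ := by
          change (if h : _ then _ else _) = _
          rw [dif_neg h1, dif_pos h3]
        rw [h2]
        change ((if h : _ then _ else _ : Fin N) : ℕ) = _
        rw [dif_pos (by simp; omega)]
        simp; omega
      · have h2 : t x = x := by
          change (if h : _ then _ else _) = _
          rw [dif_neg h1, dif_neg h3]
        rw [h2, h2]
  have hinj : Injective t := fun a b h => by rw [← htt a, h, htt]
  let P : Edge N → Edge N := fun e => ⟨Sym2.map t e.1, mem_edge.2 (by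
    rw [Sym2.isDiag_map hinj]; exact mem_edge.1 e.2)⟩
  have hP : ∀ e, P (P e) = e := by
    intro e
    apply Subtype.ext
    change Sym2.map t (Sym2.map t e.1) = e.1
    rw [Sym2.map_map]
    have : t ∘ t = id := funext htt
    rw [this, Sym2.map_id]
    rfl
  obtain ⟨σ, hσ⟩ := exists_pairing (N := N) (by omega) P hP
  refine ⟨σ, fun l hnd hall hfol => ?_⟩
  have hpair := hσ l hnd hall hfol
  beta_reduce at hpair
  beta_reduce
  rw [ownsClique_iff]
  let r : Fin N → Fin N → Prop := fun a b =>
    ∃ (i : ℕ) (h : i < l.length), i % 2 = 0 ∧ (l[i] : Sym2 (Fin N)) = s(a, b)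
  have hr : ∀ x y, r x y → r y x := by
    rintro x y ⟨i, hi, h1, h2⟩
    exact ⟨i, hi, h1, by rw [h2, Sym2.eq_swap]⟩
  let S : Finset (Fin N) := Finset.univ.filter (fun x => (x : ℕ) < n)
  have hScard : n ≤ S.card := by
    have h1 : (Finset.univ : Finset (Fin n)).card ≤ S.card := by
      apply Finset.card_le_card_of_injOn (fun x : Fin n => (⟨x, by omega⟩ : Fin N))
      · intro x _
        simp [S]
      · intro x _ y _ hxy
        apply Fin.ext
        have := congrArg Fin.val hxy
        exact this
    rwa [Finset.card_univ, Fintype.card_fin] at h1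
  rcases hn (Fin N) r S hr hScard with ⟨T, hT, hc, hp⟩ | ⟨T, hT, hc, hp⟩
  · exact ⟨T, hc, fun a ha b hb hab => hp a ha b hb hab⟩
  · refine ⟨T.map ⟨t, hinj⟩, by rw [Finset.card_map, hc], ?_⟩
    intro a ha b hb hab
    obtain ⟨a', ha', rfl⟩ := Finset.mem_map.1 ha
    obtain ⟨b', hb', rfl⟩ := Finset.mem_map.1 hb
    change ∃ (i : ℕ) (h : i < l.length), i % 2 = 0 ∧ (l[i] : Sym2 (Fin N)) = s(t a', t b')
    have hab' : a' ≠ b' := fun h => hab (by rw [h])
    have ha2 : (a' : ℕ) < n := (Finset.mem_filter.1 (hT ha')).2
    have hb2 : (b' : ℕ) < n := (Finset.mem_filter.1 (hT hb')).2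
    let e : Edge N := ⟨s(a', b'), mem_edge.2 (by rw [Sym2.mk_isDiag_iff]; exact hab')⟩
    obtain ⟨i, hi, hie⟩ := List.mem_iff_getElem.1 (hall e)
    have hi1 : i % 2 = 1 := by
      by_contra hcon
      exact hp a' ha' b' hb' hab' ⟨i, hi, by omega, by rw [hie]⟩
    have hne : P l[i] ≠ l[i] := by
      rw [hie]
      intro h
      have h2 : s(t a', t b') = s(a', b') := congrArg Subtype.val h
      have h3 : t a' ∈ s(a', b') := by rw [← h2]; exact Sym2.mem_mk_left _ _
      have h4 := ht1 a' ha2
      rcases Sym2.mem_iff.1 h3 with h5 | h5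
      · rw [h5] at h4; omega
      · rw [h5] at h4; omega
    obtain ⟨j, hj, hj0, hje⟩ := hpair i hi hi1 hne
    refine ⟨j, hj, hj0, ?_⟩
    rw [hje, hie]
    rfl

end Pool.Agent.Lib.MP_1d0474_co.Game
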